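import Pool.Agent.H679R2.Oct.Pol

/-!
# Recognising visibility graphs with a single obstacle: definitions

Points of the plane are pairs of real numbers.
-/

namespace Pool.Agent.H670R5

open Pool.Agent.NPC Pool.Agent.H679R2

/-- the plane -/
abbrev Pl := ℝ × ℝ

/-! ### Polygons and representations -/

/-- The sides of the closed polygonal chain with the vertices `l`. -/
def cycEdges (l : List Pl) : List (Pl × Pl) := l.zip (l.rotate 1)

/-- The closed polygonal chain with the vertices `l`, as a point set. -/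
def bdry (l : List Pl) : Set Pl := {x | ∃ e ∈ cycEdges l, x ∈ segment ℝ e.1 e.2}

/-- `l` lists the vertices of a simple polygon: at least three vertices, all different, and two
different sides meet only in common endpoints. -/
def IsSimplePolygon (l : List Pl) : Prop :=
  3 ≤ l.length ∧ l.Nodup ∧ ∀ e ∈ cycEdges l, ∀ e' ∈ cycEdges l, e ≠ e' →
    ∀ x, x ∈ segment ℝ e.1 e.2 → x ∈ segment ℝ e'.1 e'.2 →
      (x = e.1 ∨ x = e.2) ∧ (x = e'.1 ∨ x = e'.2)

/-- `C` is a connected component of the complement of the simple polygon `l`. -/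
def IsSideOf (l : List Pl) (C : Set Pl) : Prop :=
  ∃ x ∈ (bdry l)ᶜ, C = connectedComponentIn (bdry l)ᶜ x

/-- The drawing with vertices at the points `p v` represents `G` with respect to the obstacle `C`:
the points are in general position and outside of `C`, and two points see each other exactly when
the vertices are adjacent. -/
structure VisRep {V : Type} (G : SimpleGraph V) (p : V → Pl) (C : Set Pl) : Prop where
  inj : Function.Injective p
  gp : ∀ u v w, u ≠ v → v ≠ w → u ≠ w → ¬ Collinear ℝ {p u, p v, p w}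
  out : ∀ v, p v ∉ C
  adj : ∀ u v, u ≠ v → (G.Adj u v ↔ Disjoint (segment ℝ (p u) (p v)) C)

/-! ### Regions bounded by polygons -/

/-- orientation of a triple of points -/
def ori (p q r : Pl) : ℝ := (q.1 - p.1) * (r.2 - p.2) - (q.2 - p.2) * (r.1 - p.1)

/-- the closed triangle -/
def tri (p q w : Pl) : Set Pl := convexHull ℝ {p, q, w}

/-- `P` is the closed region bounded by the simple polygon `l` (counterclockwise). -/
structure PolyReg (l : List Pl) (P : Set Pl) : Prop where
  simple : IsSimplePolygon l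
  compact : IsCompact P
  front : frontier P = bdry l
  conn : IsConnected (interior P)
  dense : P ⊆ closure (interior P)
  side : ∀ e ∈ cycEdges l, ∀ m ∈ openSegment ℝ e.1 e.2, ∃ δ > 0, ∀ x, dist x m < δ →
    0 ≤ ori e.1 e.2 x → x ∈ P

/-- reflection at the horizontal line at height 1 -/
def mir (p : Pl) : Pl := (p.1, 2 - p.2)

/-- the part of the lens between the points `p`, `q` of its lower boundary -/
def trap (p q : Pl) : Set Pl :=
  {x | p.1 ≤ x.1 ∧ x.1 ≤ q.1 ∧ 0 ≤ ori p q x ∧ 0 ≤ ori p q (mir x)}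

/-- the lens with the lower boundary `L` -/
def lens (L : List Pl) : Set Pl := {x | ∃ e ∈ L.zip L.tail, x ∈ trap e.1 e.2}

/-! ### The graph of an instance -/

/-- partner of an element -/
def partner (v : ℕ) : ℕ := if v % 2 = 0 then v + 1 else v - 1

/-- Adjacency of `u < v` in one copy: elements `0, ..., n-1`, their opponents `n, ..., 2n-1`, and
one vertex `2n + i` for the `i`-th triple. -/
def adjH (n : ℕ) (T : List (ℕ × ℕ × ℕ × Bool)) (u v : ℕ) : Bool :=
  if v < n then true
  else if v < 2 * n then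
    (if u < n then decide (u ≠ v - n) else decide (v - n ≠ partner (u - n)))
  else
    let t := T.getD (v - 2 * n) (0, 0, 0, false)
    if u < n then decide (u = t.1 ∨ u = t.2.1 ∨ u = t.2.2.1)
    else if u < 2 * n then t.2.2.2 && decide (u - n = t.1 ∨ u - n = t.2.1)
    else false

/-- adjacency in one copy -/
def Ad (n : ℕ) (T : List (ℕ × ℕ × ℕ × Bool)) (u v : ℕ) : Prop :=
  (u < v ∧ adjH n T u v = true) ∨ (v < u ∧ adjH n T v u = true)

/-- number of vertices of one copy -/
def sz (n : ℕ) (T : List (ℕ × ℕ × ℕ × Bool)) : ℕ := 2 * n + T.length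

/-- adjacency in the union of two copies -/
def Ad2 (n : ℕ) (T : List (ℕ × ℕ × ℕ × Bool)) (u v : ℕ) : Prop :=
  (u < sz n T ∧ v < sz n T ∧ Ad n T u v) ∨
  (sz n T ≤ u ∧ sz n T ≤ v ∧ Ad n T (u - sz n T) (v - sz n T))

/-- edges of one copy -/
def edg (n : ℕ) (T : List (ℕ × ℕ × ℕ × Bool)) : List (ℕ × ℕ) :=
  ((List.range (sz n T)).flatMap (fun v => (List.range v).map (fun u => (u, v)))).filter
    (fun q => adjH n T q.1 q.2)

/-- the graph, as a list of vertices and a list of edges -/
def instG (n : ℕ) (T : List (ℕ × ℕ × ℕ × Bool)) : List ℕ × List (ℕ × ℕ) :=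
  (List.range (2 * sz n T),
    edg n T ++ (edg n T).map (fun q => (q.1 + sz n T, q.2 + sz n T)))

/-! ### The instance of a formula -/

/-- the group of hosts used for the pair `(2m, 2m+1)` -/
def hg (N a : ℕ) : ℕ := if a < 24 * N then 0 else ((a - 24 * N) / 6 + 1) % 3

/-- the `r`-th element of the `g`-th group of hosts -/
def hst (N g r : ℕ) : ℕ := 24 * N + 6 * g + r

/-- number of elements -/
def nOf (o : List (ℕ × Bool × ℕ)) : ℕ := 24 * o.length + 18

/-- triples forcing partners to be adjacent -/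
def T1 (o : List (ℕ × Bool × ℕ)) : List (ℕ × ℕ × ℕ × Bool) :=
  (List.range (12 * o.length + 9)).flatMap (fun m => (List.range 6).map (fun r =>
    (2 * m, 2 * m + 1, hst o.length (hg o.length (2 * m)) r, true)))

/-- triples forcing linked terminals to be adjacent -/
def T2 (o : List (ℕ × Bool × ℕ)) : List (ℕ × ℕ × ℕ × Bool) :=
  (List.range o.length).flatMap (fun k => (lnE o k).flatMap (fun q => (List.range 6).map (fun r =>
    (24 * q.1.1 + 2 * q.1.2 + 1, 24 * q.2.1 + 2 * q.2.2 + 1, hst o.length 0 r, false))))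

/-- triples for the octagons -/
def T3 (o : List (ℕ × Bool × ℕ)) : List (ℕ × ℕ × ℕ × Bool) :=
  (List.range o.length).flatMap (fun k => [1, 3, 5, 7].map (fun t =>
    (24 * k + 2 * (t - 1), 24 * k + 2 * t, 24 * k + 2 * ((t + 1) % 8), false)))

/-- all triples -/
def TOf (o : List (ℕ × Bool × ℕ)) : List (ℕ × ℕ × ℕ × Bool) := T1 o ++ T2 o ++ T3 o

/-- The instance of a 3-CNF formula. -/
def red5 (φ : List (Lit ℕ × Lit ℕ × Lit ℕ)) : List ℕ × List (ℕ × ℕ) :=
  instG (nOf (occ φ)) (TOf (occ φ))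

/-! ### Linear arrangements -/

/-- far pair and host of a triple: host at position `j`, the other two at positions `k`, `k+1`. -/
def HostFar (a b c j k : ℕ) : Prop :=
  (a = j ∧ ((b = k ∧ c = k + 1) ∨ (c = k ∧ b = k + 1))) ∨
  (b = j ∧ ((a = k ∧ c = k + 1) ∨ (c = k ∧ a = k + 1))) ∨
  (c = j ∧ ((a = k ∧ b = k + 1) ∨ (b = k ∧ a = k + 1)))

/-- A linear arrangement of the elements satisfying all triples: `pos` is the position of an
element, `J i` the position of the host and `K i, K i + 1` the positions of the far pair of the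
`i`-th triple. -/
structure Arr (n : ℕ) (T : List (ℕ × ℕ × ℕ × Bool)) (pos J K : ℕ → ℕ) : Prop where
  even : n % 2 = 0
  lt : ∀ v < n, pos v < n
  inj : ∀ u < n, ∀ v < n, pos u = pos v → u = v
  part : ∀ v < n, pos (partner v) = partner (pos v)
  tlt : ∀ i < T.length, (T.getD i (0, 0, 0, false)).1 < n ∧ (T.getD i (0, 0, 0, false)).2.1 < n ∧
    (T.getD i (0, 0, 0, false)).2.2.1 < n
  hf : ∀ i < T.length, HostFar (pos (T.getD i (0, 0, 0, false)).1)
    (pos (T.getD i (0, 0, 0, false)).2.1) (pos (T.getD i (0, 0, 0, false)).2.2.1) (J i) (K i)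
  ne : ∀ i < T.length, J i ≠ K i ∧ J i ≠ K i + 1
  lt' : ∀ i < T.length, J i < n ∧ K i + 1 < n
  flag : ∀ i < T.length, ((T.getD i (0, 0, 0, false)).2.2.2 = true ↔ K i % 2 = 0)
  flag' : ∀ i < T.length, (T.getD i (0, 0, 0, false)).2.2.2 = true →
    pos (T.getD i (0, 0, 0, false)).2.2.1 = J i
  conf : ∀ i < T.length, ∀ i' < T.length, i ≠ i' →
    ¬ ((J i = K i' ∨ J i = K i' + 1) ∧ (J i' = K i ∨ J i' = K i + 1))
  dist : ∀ i < T.length, ∀ i' < T.length, J i = J i' → K i = K i' → i = i'

/-! ### Cyclic arrangements -/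

/-- A cyclic arrangement of the elements `0, ..., n-1` in which every triple has two consecutive
members. -/
def CycArr (n : ℕ) (T : List (ℕ × ℕ × ℕ × Bool)) : Prop :=
  ∃ nx : Equiv.Perm (Fin n),
    (∀ S : Set (Fin n), S.Nonempty → (∀ v ∈ S, nx v ∈ S) → S = Set.univ) ∧
    ∀ t ∈ T, ∃ u v : Fin n, (v = nx u ∨ u = nx v) ∧
      ((u.val = t.1 ∧ v.val = t.2.1) ∨ (u.val = t.1 ∧ v.val = t.2.2.1) ∨
        (u.val = t.2.1 ∧ v.val = t.2.2.1))

/-! ### Coordinates -/

/-- abscissa of a vertex of one copy -/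
noncomputable def X (n : ℕ) (pos J K : ℕ → ℕ) (u : ℕ) : ℝ :=
  if u < n then (pos u : ℝ)
  else if u < 2 * n then
    (if pos (u - n) % 2 = 0 then (pos (u - n) : ℝ) + 1 / 4 else (pos (u - n) : ℝ) - 1 / 4)
  else (J (u - 2 * n) : ℝ) - 1 / (16 * ((K (u - 2 * n) : ℝ) + 1 / 2 - (J (u - 2 * n) : ℝ)))

/-- position of a vertex of one copy (in the limit) -/
noncomputable def Q (n : ℕ) (pos J K : ℕ → ℕ) (u : ℕ) : Pl :=
  (X n pos J K u, -(X n pos J K u) ^ 2 + (if u < n then 0 else 1 / 16))

/-- the number `h` of a triple: abscissa of the midpoint of the far pair minus the host -/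
noncomputable def hh (J K : ℕ → ℕ) (i : ℕ) : ℝ := (K i : ℝ) + 1 / 2 - (J i : ℝ)

/-- sign of `h` -/
noncomputable def sg (J K : ℕ → ℕ) (i : ℕ) : ℝ := if J i ≤ K i then 1 else -1

/-- slope (relative to the tangent) of the upper and lower ray of the window of a vertex `u ≥ n`;
for an opponent these are the right and the left ray. -/
noncomputable def upS (n : ℕ) (J K : ℕ → ℕ) (u : ℕ) : ℝ :=
  if u < 2 * n then -(5 / 8) else -(hh J K (u - 2 * n)) + sg J K (u - 2 * n) * (5 / 8)
noncomputable def loS (n : ℕ) (J K : ℕ → ℕ) (u : ℕ) : ℝ :=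
  if u < 2 * n then 5 / 8 else -(hh J K (u - 2 * n)) - sg J K (u - 2 * n) * (5 / 8)

/-- `z` is in the open window of the vertex `u` (`n ≤ u`). -/
def InW (n : ℕ) (pos J K : ℕ → ℕ) (u : ℕ) (z : Pl) : Prop :=
  if u < 2 * n then
    z.2 - (Q n pos J K u).2 < (z.1 - (Q n pos J K u).1) *
      (upS n J K u - 2 * (Q n pos J K u).1) ∧
    z.2 - (Q n pos J K u).2 < (z.1 - (Q n pos J K u).1) *
      (loS n J K u - 2 * (Q n pos J K u).1)
  else
    z.2 - (Q n pos J K u).2 < (z.1 - (Q n pos J K u).1) *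
      (upS n J K u - 2 * (Q n pos J K u).1) ∧
    (z.1 - (Q n pos J K u).1) * (loS n J K u - 2 * (Q n pos J K u).1) <
      z.2 - (Q n pos J K u).2

/-- `z` is outside of the closed window of the vertex `u` (`n ≤ u`). -/
def OutW (n : ℕ) (pos J K : ℕ → ℕ) (u : ℕ) (z : Pl) : Prop :=
  if u < 2 * n then
    (z.1 - (Q n pos J K u).1) * (upS n J K u - 2 * (Q n pos J K u).1) <
      z.2 - (Q n pos J K u).2 ∨
    (z.1 - (Q n pos J K u).1) * (loS n J K u - 2 * (Q n pos J K u).1) <
      z.2 - (Q n pos J K u).2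
  else
    (z.1 - (Q n pos J K u).1) * (upS n J K u - 2 * (Q n pos J K u).1) <
      z.2 - (Q n pos J K u).2 ∨
    z.2 - (Q n pos J K u).2 < (z.1 - (Q n pos J K u).1) *
      (loS n J K u - 2 * (Q n pos J K u).1)

/-- direction of a small displacement into the window -/
noncomputable def dirV (n : ℕ) (pos J K : ℕ → ℕ) (u : ℕ) : Pl :=
  if u < n then 0
  else if u < 2 * n then (0, -1)
  else (sg J K (u - 2 * n), sg J K (u - 2 * n) * (-(hh J K (u - 2 * n)) - 2 * X n pos J K u))

/-- displaced positions -/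
noncomputable def Qt (n : ℕ) (pos J K : ℕ → ℕ) (τ : ℝ) (u : ℕ) : Pl :=
  Q n pos J K u + τ • dirV n pos J K u

end Pool.Agent.H670R5
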