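import Pool.Agent.H670R5.St2

/-!
# The decision problems and the assembly of the proof
-/

namespace Pool.Agent.H670R5

open Pool.Agent.NPC Pool.Agent.H679R2

/-! ### The decision problems -/

/-- SINGLE-OBSTACLE: the graph has a representation with respect to an open region bounded by a
simple polygon (the interior or the exterior of the polygon). -/
def SingleObs (I : List ℕ × List (ℕ × ℕ)) : Prop :=
  ∃ (l : List Pl) (C : Set Pl) (p : {v : ℕ // v ∈ I.1} → Pl),
    IsSimplePolygon l ∧ IsSideOf l C ∧ VisRep (toGraph I) p C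

/-- The straight-line drawing. -/
def drawing {V : Type} (G : SimpleGraph V) (p : V → Pl) : Set Pl :=
  {x | (∃ v, x = p v) ∨ ∃ u v, G.Adj u v ∧ x ∈ segment ℝ (p u) (p v)}

/-- The graph has an outside-obstacle representation: the obstacle is the interior of a simple
polygon, in the unbounded component of the complement of the drawing. -/
def OutsideObs (I : List ℕ × List (ℕ × ℕ)) : Prop :=
  ∃ (l : List Pl) (C : Set Pl) (p : {v : ℕ // v ∈ I.1} → Pl),
    IsSimplePolygon l ∧ IsSideOf l C ∧ Bornology.IsBounded C ∧ VisRep (toGraph I) p C ∧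
    ∀ x ∈ C, ¬ Bornology.IsBounded (connectedComponentIn (drawing (toGraph I) p)ᶜ x)

/-- A closed polygonal region: the closure of the interior of a simple polygon. -/
def ClosedPolygon (P : Set Pl) : Prop :=
  ∃ (l : List Pl) (C : Set Pl), IsSimplePolygon l ∧ IsSideOf l C ∧ Bornology.IsBounded C ∧
    P = closure C

/-- `p` and the obstacles `O` represent `G`. -/
structure ObsRep {V : Type} (G : SimpleGraph V) (p : V → Pl) (O : List (Set Pl)) : Prop where
  inj : Function.Injective p
  gp : ∀ u v w, u ≠ v → v ≠ w → u ≠ w → ¬ Collinear ℝ {p u, p v, p w}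
  out : ∀ v, ∀ P ∈ O, p v ∉ P
  adj : ∀ u v, u ≠ v → (G.Adj u v ↔ ∀ P ∈ O, Disjoint (segment ℝ (p u) (p v)) P)

/-- The obstacle number is at most `k`, for obstacles of the class `𝒪`. -/
def ObsNumLE (𝒪 : Set Pl → Prop) (x : (List ℕ × List (ℕ × ℕ)) × ℕ) : Prop :=
  ∃ (p : {v : ℕ // v ∈ x.1.1} → Pl) (O : List (Set Pl)), O.length ≤ x.2 ∧ (∀ P ∈ O, 𝒪 P) ∧
    ObsRep (toGraph x.1) p O

/-! ### Assembly -/

/-- The final steps -/
structure AllSt : Prop where
  good : St_good
  sound : St_sound
  eok : St_eok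
  eval : St_eval
  pos : St_pos
  tdist : St_tdist
  arr : St_arr
  edges : St_edges
  poly : St_poly
  full : St_full
  comp : St_comp

theorem nOf_ge (o : List (ℕ × Bool × ℕ)) : 18 ≤ nOf o := by unfold nOf; omega

theorem not_Ad_self (n : ℕ) (T : List (ℕ × ℕ × ℕ × Bool)) (u : ℕ) : ¬ Ad n T u u := by
  unfold Ad; rintro (⟨h, -⟩ | ⟨h, -⟩) <;> omega

theorem not_Ad2_self (n : ℕ) (T : List (ℕ × ℕ × ℕ × Bool)) (u : ℕ) : ¬ Ad2 n T u u := by
  unfold Ad2
  rintro (⟨-, -, h⟩ | ⟨-, -, h⟩)
  · exact not_Ad_self _ _ _ h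
  · exact not_Ad_self _ _ _ h

theorem backward (h : AllSt) (φ : List (Lit ℕ × Lit ℕ × Lit ℕ)) (C : Set Pl)
    (hC : IsPreconnected C) (p : {v : ℕ // v ∈ (red5 φ).1} → Pl)
    (hp : VisRep (toGraph (red5 φ)) p C) : SAT3 φ := by
  classical
  set o := occ φ with ho
  set n := nOf o with hn
  set T := TOf o with hT
  have hn18 : 18 ≤ n := nOf_ge o
  have hmem : ∀ u, u ∈ (red5 φ).1 ↔ u < 2 * sz n T := fun u => by
    simp only [red5, instG, List.mem_range]; rfl
  set q : ℕ → Pl := fun u => if hu : u ∈ (red5 φ).1 then p ⟨u, hu⟩ else 0 with hq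
  have hqe : ∀ u (hu : u < 2 * sz n T), q u = p ⟨u, (hmem u).2 hu⟩ := fun u hu => by
    simp only [hq]; rw [dif_pos ((hmem u).2 hu)]
  have hg := h.good n T q C hC (by unfold sz; omega) (fun u hu => by
      rw [hqe u hu]; exact hp.out _) (fun u hu v hv huv => by
      rw [hqe u hu, hqe v hv]
      intro he
      exact huv (congrArg Subtype.val (hp.inj he))) (fun u hu v hv w hw huv hvw huw => by
      rw [hqe u hu, hqe v hv, hqe w hw]
      exact hp.gp _ _ _ (fun he => huv (congrArg Subtype.val he))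
        (fun he => hvw (congrArg Subtype.val he)) (fun he => huw (congrArg Subtype.val he)))
    (fun u hu v hv huv => by
      rw [hqe u hu, hqe v hv, ← hp.adj _ _ (fun he => huv (congrArg Subtype.val he)),
        ← h.edges n T u v hu hv huv]
      constructor
      · exact fun h' => ⟨fun he => huv (congrArg Subtype.val he), h'⟩
      · exact fun h' => h'.2)
  obtain ⟨q', hq'⟩ := hg
  obtain ⟨nx, h1, h2⟩ := h.sound n T q' C (by omega) (h.tdist o).2.1 hq'
  obtain ⟨τ, hτ⟩ := h.eval o _ (h.eok o nx h1 h2)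
  exact (sat3_iff φ).2 ⟨τ, hτ⟩

/-- existence of the arrangement -/
theorem exists_arr (h : AllSt) (φ : List (Lit ℕ × Lit ℕ × Lit ℕ)) (hφ : SAT3 φ) :
    ∃ pos J K, Arr (nOf (occ φ)) (TOf (occ φ)) pos J K := by
  have h1 : ∃ pos, PosOK (occ φ) pos := by
    by_cases ho : occ φ = []
    · refine ⟨id, ?_⟩
      rw [ho]
      exact {
        lt := fun v hv => hv
        inj := fun u _ v _ h => h
        part := fun v _ => rfl
        dum := fun v _ _ => rfl
        link := fun k hk => by simp at hk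
        oct := fun k hk => by simp at hk }
    · exact h.pos _ ho ((sat3_iff φ).1 hφ)
  obtain ⟨pos, hpos⟩ := h1
  obtain ⟨J, K, hJK⟩ := h.arr _ _ hpos
  exact ⟨pos, J, K, hJK⟩

/-- every vertex has a neighbour -/
theorem exists_nbr (h : AllSt) (o : List (ℕ × Bool × ℕ)) (u : ℕ)
    (hu : u < 2 * sz (nOf o) (TOf o)) :
    ∃ v < 2 * sz (nOf o) (TOf o), u ≠ v ∧ Ad2 (nOf o) (TOf o) u v := by
  have hn18 : 18 ≤ nOf o := nOf_ge o
  have key : ∀ u < sz (nOf o) (TOf o), ∃ v < sz (nOf o) (TOf o), Ad (nOf o) (TOf o) u v := by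
    intro u hu
    by_cases h1 : u < nOf o
    · by_cases h0 : u = 0
      · refine ⟨1, by unfold sz; omega, Or.inl ⟨by omega, ?_⟩⟩
        unfold adjH
        rw [if_pos (by omega)]
      · refine ⟨0, by unfold sz; omega, Or.inr ⟨by omega, ?_⟩⟩
        unfold adjH
        rw [if_pos h1]
    · by_cases h2 : u < 2 * nOf o
      · by_cases h0 : u = nOf o
        · refine ⟨1, by unfold sz; omega, Or.inr ⟨by omega, ?_⟩⟩
          unfold adjH
          rw [if_neg h1, if_pos h2, if_pos (by omega)]
          simp only [decide_eq_true_eq]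
          omega
        · refine ⟨0, by unfold sz; omega, Or.inr ⟨by omega, ?_⟩⟩
          unfold adjH
          rw [if_neg h1, if_pos h2, if_pos (by omega)]
          simp only [decide_eq_true_eq]
          omega
      · have hi : u - 2 * nOf o < (TOf o).length := by
          unfold sz at hu; omega
        set t := (TOf o).getD (u - 2 * nOf o) (0, 0, 0, false) with ht
        have htm : t ∈ TOf o := by
          rw [ht, List.getD_eq_getElem _ _ hi]
          exact List.getElem_mem hi
        have ht1 := ((h.tdist o).2.1 t htm).1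
        refine ⟨t.1, by unfold sz; omega, Or.inr ⟨by omega, ?_⟩⟩
        unfold adjH
        rw [if_neg h1, if_neg h2]
        simp only
        rw [if_pos ht1]
        simp only [decide_eq_true_eq]
        exact Or.inl rfl
  by_cases h1 : u < sz (nOf o) (TOf o)
  · obtain ⟨v, hv, hv'⟩ := key u h1
    refine ⟨v, by omega, ?_, Or.inl ⟨h1, hv, hv'⟩⟩
    rintro rfl
    exact not_Ad_self _ _ _ hv'
  · obtain ⟨v, hv, hv'⟩ := key (u - sz (nOf o) (TOf o)) (by omega)
    refine ⟨v + sz (nOf o) (TOf o), by omega, ?_, Or.inr ⟨by omega, by omega, ?_⟩⟩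
    · rintro rfl
      rw [Nat.add_sub_cancel] at hv'
      exact not_Ad_self _ _ _ hv'
    · rw [Nat.add_sub_cancel]
      exact hv'

/-- the representation by a closed polygon and its interior -/
theorem forward (h : AllSt) (φ : List (Lit ℕ × Lit ℕ × Lit ℕ)) (hφ : SAT3 φ) :
    ∃ (l : List Pl) (P : Set Pl) (p : {v : ℕ // v ∈ (red5 φ).1} → Pl), PolyReg l P ∧
      VisRep (toGraph (red5 φ)) p P ∧ VisRep (toGraph (red5 φ)) p (interior P) ∧
      ∀ x ∈ interior P,
        ¬ Bornology.IsBounded (connectedComponentIn (drawing (toGraph (red5 φ)) p)ᶜ x) := by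
  obtain ⟨pos, J, K, hA⟩ := exists_arr h φ hφ
  set o := occ φ with ho
  set n := nOf o with hn
  set T := TOf o with hT
  have hn18 : 18 ≤ n := nOf_ge o
  obtain ⟨l, P, p, hP, hin, hx, hinj, hgp, hadj, hnadj⟩ := h.full n T pos J K hA (by omega)
  have hmem : ∀ u, u ∈ (red5 φ).1 ↔ u < 2 * sz n T := fun u => by
    simp only [red5, instG, List.mem_range]; rfl
  have hlt : ∀ v : {v : ℕ // v ∈ (red5 φ).1}, v.1 < 2 * sz n T := fun v => (hmem _).1 v.2
  have hAdj : ∀ u v : {v : ℕ // v ∈ (red5 φ).1}, u ≠ v →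
      ((toGraph (red5 φ)).Adj u v ↔ Ad2 n T u.1 v.1) := by
    intro u v huv
    have huv' : u.1 ≠ v.1 := fun he => huv (Subtype.ext he)
    rw [← h.edges n T u.1 v.1 (hlt u) (hlt v) huv']
    constructor
    · exact fun h' => h'.2
    · exact fun h' => ⟨huv, h'⟩
  have hout : ∀ u < 2 * sz n T, p u ∉ P := by
    intro u hu hu'
    obtain ⟨v, hv, huv, hA'⟩ := exists_nbr h o u hu
    exact Set.disjoint_left.1 (hadj u hu v hv huv hA') (left_mem_segment ℝ _ _) hu'
  have hrep : ∀ C : Set Pl, interior P ⊆ C → C ⊆ P →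
      VisRep (toGraph (red5 φ)) (fun v => p v.1) C := by
    intro C h1 h2
    exact {
      inj := by
        intro u v huv
        by_contra hne
        exact hinj u.1 (hlt u) v.1 (hlt v) (fun he => hne (Subtype.ext he)) huv
      gp := fun u v w huv hvw huw => hgp u.1 (hlt u) v.1 (hlt v) w.1 (hlt w)
        (fun he => huv (Subtype.ext he)) (fun he => hvw (Subtype.ext he))
        (fun he => huw (Subtype.ext he))
      out := fun v hv => hout v.1 (hlt v) (h2 hv)
      adj := by
        intro u v huv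
        have huv' : u.1 ≠ v.1 := fun he => huv (Subtype.ext he)
        rw [hAdj u v huv]
        constructor
        · intro hA'
          exact (hadj u.1 (hlt u) v.1 (hlt v) huv' hA').mono_right h2
        · intro hd
          by_contra hA'
          obtain ⟨x, hx1, hx2⟩ := hnadj u.1 (hlt u) v.1 (hlt v) huv' hA'
          exact Set.disjoint_left.1 hd hx1 (h1 hx2) }
  refine ⟨l, P, fun v => p v.1, hP, hrep P interior_subset subset_rfl,
    hrep (interior P) subset_rfl interior_subset, ?_⟩
  -- the obstacle is outside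
  intro x hx' hb
  set D := drawing (toGraph (red5 φ)) (fun v => p v.1) with hD
  have hDP : Disjoint D P := by
    rw [Set.disjoint_left]
    rintro y (⟨v, rfl⟩ | ⟨u, v, huv, hy⟩) hyP
    · exact hout v.1 (hlt v) hyP
    · have huv' : u.1 ≠ v.1 := fun he => huv.1 (Subtype.ext he)
      exact Set.disjoint_left.1 (hadj u.1 (hlt u) v.1 (hlt v) huv' ((hAdj u v huv.1).1 huv)) hy hyP
  have hDx : ∀ y ∈ D, -5 / 4 < y.1 := by
    rintro y (⟨v, rfl⟩ | ⟨u, v, huv, a, b, ha, hb', hab, rfl⟩)
    · exact hx v.1 (hlt v)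
    · have h1 := hx u.1 (hlt u)
      have h2 := hx v.1 (hlt v)
      simp only [Prod.fst_add, Prod.smul_fst, smul_eq_mul]
      rcases eq_or_lt_of_le ha with h0 | h0
      · have hb1 : b = 1 := by linarith
        rw [← h0, hb1]; linarith
      · nlinarith
  set R : Set Pl := {y : Pl | y.1 ≤ -3 / 2 ∧ y.2 = 1} with hR
  have hRc : IsPreconnected R := by
    apply Convex.isPreconnected
    intro y hy z hz a b ha hb' hab
    simp only [hR, Set.mem_ofPred_eq, Prod.fst_add, Prod.smul_fst, smul_eq_mul, Prod.snd_add,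
      Prod.smul_snd] at hy hz ⊢
    constructor
    · nlinarith [hy.1, hz.1]
    · rw [hy.2, hz.2]; linarith
  have hU : IsPreconnected (interior P ∪ R) := by
    refine IsPreconnected.union ((-3 / 2 : ℝ), (1 : ℝ)) hin ?_ hP.conn.isPreconnected hRc
    exact ⟨le_rfl, rfl⟩
  have hsub : interior P ∪ R ⊆ Dᶜ := by
    rintro y (hy | hy) hyD
    · exact Set.disjoint_left.1 hDP hyD (interior_subset hy)
    · have := hDx y hyD
      have h3 : y.1 ≤ -3 / 2 := hy.1
      linarith
  have hcc := hU.subset_connectedComponentIn (Or.inl hx') hsub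
  have hRb : Bornology.IsBounded R := hb.subset (Set.subset_union_right.trans hcc)
  obtain ⟨r, hr⟩ := hRb.exists_norm_le
  have h1 := hr ((-3 / 2 - |r|, 1) : Pl) ⟨by
    have := abs_nonneg r
    simp only
    linarith, rfl⟩
  have h2 : |(-3 / 2 - |r| : ℝ)| ≤ r := le_trans (by
    have := norm_fst_le ((-3 / 2 - |r|, 1) : Pl)
    simpa only [Real.norm_eq_abs] using this) h1
  have h3 := le_abs_self r
  have h4 := abs_nonneg r
  have h5 : |(-3 / 2 - |r| : ℝ)| = 3 / 2 + |r| := by
    rw [abs_of_nonpos (by linarith)]; ring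
  linarith

theorem side_preconnected {l : List Pl} {C : Set Pl} (h : IsSideOf l C) : IsPreconnected C := by
  obtain ⟨x, -, rfl⟩ := h
  exact isPreconnected_connectedComponentIn

theorem iff_single (h : AllSt) (φ : List (Lit ℕ × Lit ℕ × Lit ℕ)) :
    SAT3 φ ↔ SingleObs (red5 φ) := by
  constructor
  · intro hφ
    obtain ⟨l, P, p, h1, h2, h3, h4⟩ := forward h φ hφ
    exact ⟨l, interior P, p, h1.simple, (h.comp l P h1).1, h3⟩
  · rintro ⟨l, C, p, h1, h2, h3⟩
    exact backward h φ C (side_preconnected h2) p h3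

theorem iff_outside (h : AllSt) (φ : List (Lit ℕ × Lit ℕ × Lit ℕ)) :
    SAT3 φ ↔ OutsideObs (red5 φ) := by
  constructor
  · intro hφ
    obtain ⟨l, P, p, h1, h2, h3, h4⟩ := forward h φ hφ
    exact ⟨l, interior P, p, h1.simple, (h.comp l P h1).1, (h.comp l P h1).2.1, h3, h4⟩
  · rintro ⟨l, C, p, h1, h2, -, h3, -⟩
    exact backward h φ C (side_preconnected h2) p h3

theorem iff_obs (h : AllSt) (𝒪 : Set Pl → Prop) (h1 : ∀ P, ClosedPolygon P → 𝒪 P)
    (h2 : ∀ P, 𝒪 P → IsPreconnected P) (φ : List (Lit ℕ × Lit ℕ × Lit ℕ)) :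
    SAT3 φ ↔ ObsNumLE 𝒪 (red5 φ, 1) := by
  constructor
  · intro hφ
    obtain ⟨l, P, p, h3, h4, -, -⟩ := forward h φ hφ
    have hc := h.comp l P h3
    refine ⟨p, [P], le_rfl, ?_, ?_⟩
    · intro Q hQ
      rw [List.mem_singleton] at hQ
      subst hQ
      exact h1 _ ⟨l, interior Q, h3.simple, hc.1, hc.2.1, hc.2.2.symm⟩
    · exact {
        inj := h4.inj
        gp := h4.gp
        out := fun v Q hQ => by
          rw [List.mem_singleton] at hQ
          subst hQ
          exact h4.out v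
        adj := fun u v huv => by
          rw [h4.adj u v huv]
          simp }
  · rintro ⟨p, O, hO, hO', hrep⟩
    match O, hO, hO', hrep with
    | [], _, _, hrep =>
      refine backward h φ ∅ isPreconnected_empty p ⟨hrep.inj, hrep.gp, fun v => by simp, ?_⟩
      intro u v huv
      rw [hrep.adj u v huv]
      simp
    | [P], _, hO', hrep =>
      refine backward h φ P (h2 P (hO' P (by simp))) p ⟨hrep.inj, hrep.gp, fun v =>
        hrep.out v P (by simp), ?_⟩
      intro u v huv
      rw [hrep.adj u v huv]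
      simp
    | _ :: _ :: _, hO, _, _ => simp at hO

theorem hard_single (h : AllSt) : HardI SingleObs := hardI_SAT3.trans h.poly (iff_single h)

theorem hard_outside (h : AllSt) : HardI OutsideObs := hardI_SAT3.trans h.poly (iff_outside h)

theorem hard_obs (h : AllSt) (𝒪 : Set Pl → Prop) (h1 : ∀ P, ClosedPolygon P → 𝒪 P)
    (h2 : ∀ P, 𝒪 P → IsPreconnected P) : HardI (ObsNumLE 𝒪) :=
  hardI_SAT3.trans (NPC.Poly.pair h.poly (NPC.Poly.const 1)) (iff_obs h 𝒪 h1 h2)

end Pool.Agent.H670R5
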