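import Pool.Agent.H670R5.St3

/-!
# Assembly of the proof for inside-obstacle representations
-/

namespace Pool.Agent.H670R5

open Pool.Agent.NPC Pool.Agent.H679R2

/-- The final steps -/
structure AllStI : Prop where
  all : AllSt
  edges : St_iEdges
  poly : St_iPoly
  full : St_iFull
  quad : St_quad

theorem Ad3_lt {n : ℕ} {T : List (ℕ × ℕ × ℕ × Bool)} {u v : ℕ} (hu : u < 2 * sz n T)
    (hv : v < 2 * sz n T) : Ad3 n T u v ↔ Ad2 n T u v := by
  unfold Ad3
  constructor
  · rintro (⟨-, -, h⟩ | ⟨h, -⟩ | ⟨-, h, -⟩ | ⟨h, -⟩)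
    · exact h
    · omega
    · omega
    · omega
  · exact fun h => Or.inl ⟨hu, hv, h⟩

theorem backwardI (h : AllStI) (φ : List (Lit ℕ × Lit ℕ × Lit ℕ)) (C : Set Pl)
    (hC : IsPreconnected C) (p : {v : ℕ // v ∈ (red6 φ).1} → Pl)
    (hp : VisRep (toGraph (red6 φ)) p C) : SAT3 φ := by
  classical
  set o := occ φ with ho
  set n := nOf o with hn
  set T := TOf o with hT
  have hn18 : 18 ≤ n := nOf_ge o
  have hmem : ∀ u, u ∈ (red6 φ).1 ↔ u < 2 * sz n T + 4 := fun u => by
    simp only [red6, instI, List.mem_range]; rfl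
  set q : ℕ → Pl := fun u => if hu : u ∈ (red6 φ).1 then p ⟨u, hu⟩ else 0 with hq
  have hqe : ∀ u (hu : u < 2 * sz n T), q u = p ⟨u, (hmem u).2 (by omega)⟩ := fun u hu => by
    simp only [hq]; rw [dif_pos ((hmem u).2 (by omega))]
  have hg := h.all.good n T q C hC (by unfold sz; omega) (fun u hu => by
      rw [hqe u hu]; exact hp.out _) (fun u hu v hv huv => by
      rw [hqe u hu, hqe v hv]
      intro he
      exact huv (congrArg Subtype.val (hp.inj he))) (fun u hu v hv w hw huv hvw huw => by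
      rw [hqe u hu, hqe v hv, hqe w hw]
      exact hp.gp _ _ _ (fun he => huv (congrArg Subtype.val he))
        (fun he => hvw (congrArg Subtype.val he)) (fun he => huw (congrArg Subtype.val he)))
    (fun u hu v hv huv => by
      rw [hqe u hu, hqe v hv, ← hp.adj _ _ (fun he => huv (congrArg Subtype.val he)),
        ← Ad3_lt hu hv, ← h.edges n T u v (by omega) (by omega) huv]
      constructor
      · exact fun h' => ⟨fun he => huv (congrArg Subtype.val he), h'⟩
      · exact fun h' => h'.2)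
  obtain ⟨q', hq'⟩ := hg
  obtain ⟨nx, h1, h2⟩ := h.all.sound n T q' C (by omega) (h.all.tdist o).2.1 hq'
  obtain ⟨τ, hτ⟩ := h.all.eval o _ (h.all.eok o nx h1 h2)
  exact (sat3_iff φ).2 ⟨τ, hτ⟩

/-- every vertex has a neighbour -/
theorem exists_nbrI (h : AllStI) (o : List (ℕ × Bool × ℕ)) (u : ℕ)
    (hu : u < 2 * sz (nOf o) (TOf o) + 4) :
    ∃ v < 2 * sz (nOf o) (TOf o) + 4, u ≠ v ∧ Ad3 (nOf o) (TOf o) u v := by
  by_cases hlt : u < 2 * sz (nOf o) (TOf o)
  · obtain ⟨v, hv, huv, hA⟩ := exists_nbr h.all o u hlt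
    exact ⟨v, by omega, huv, (Ad3_lt hlt hv).2 hA⟩
  · by_cases h0 : u = 2 * sz (nOf o) (TOf o) ∨ u = 2 * sz (nOf o) (TOf o) + 3
    · refine ⟨2 * sz (nOf o) (TOf o) + 1, by omega, by omega, ?_⟩
      unfold Ad3
      refine Or.inr (Or.inr (Or.inr ⟨by omega, by omega, by omega⟩))
    · refine ⟨2 * sz (nOf o) (TOf o), by omega, by omega, ?_⟩
      unfold Ad3
      refine Or.inr (Or.inr (Or.inr ⟨by omega, by omega, by omega⟩))

theorem forwardI (h : AllStI) (φ : List (Lit ℕ × Lit ℕ × Lit ℕ)) (hφ : SAT3 φ) :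
    InsideObs (red6 φ) := by
  obtain ⟨pos, J, K, hA⟩ := exists_arr h.all φ hφ
  set o := occ φ with ho
  set n := nOf o with hn
  set T := TOf o with hT
  have hn18 : 18 ≤ n := nOf_ge o
  obtain ⟨l, P, p, hP, hinj, hgp, hadj, hnadj, hq⟩ := h.full n T pos J K hA (by omega)
  have hmem : ∀ u, u ∈ (red6 φ).1 ↔ u < 2 * sz n T + 4 := fun u => by
    simp only [red6, instI, List.mem_range]; rfl
  have hlt : ∀ v : {v : ℕ // v ∈ (red6 φ).1}, v.1 < 2 * sz n T + 4 := fun v => (hmem _).1 v.2
  have hAdj : ∀ u v : {v : ℕ // v ∈ (red6 φ).1}, u ≠ v →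
      ((toGraph (red6 φ)).Adj u v ↔ Ad3 n T u.1 v.1) := by
    intro u v huv
    have huv' : u.1 ≠ v.1 := fun he => huv (Subtype.ext he)
    rw [← h.edges n T u.1 v.1 (hlt u) (hlt v) huv']
    constructor
    · exact fun h' => h'.2
    · exact fun h' => ⟨huv, h'⟩
  have hout : ∀ u < 2 * sz n T + 4, p u ∉ P := by
    intro u hu hu'
    obtain ⟨v, hv, huv, hA'⟩ := exists_nbrI h o u hu
    exact Set.disjoint_left.1 (hadj u hu v hv huv hA') (left_mem_segment ℝ _ _) hu'
  have hcomp := h.all.comp l P hP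
  refine ⟨l, interior P, fun v => p v.1, hP.simple, hcomp.1, hcomp.2.1, ?_, ?_⟩
  · exact {
      inj := by
        intro u v huv
        by_contra hne
        exact hinj u.1 (hlt u) v.1 (hlt v) (fun he => hne (Subtype.ext he)) huv
      gp := fun u v w huv hvw huw => hgp u.1 (hlt u) v.1 (hlt v) w.1 (hlt w)
        (fun he => huv (Subtype.ext he)) (fun he => hvw (Subtype.ext he))
        (fun he => huw (Subtype.ext he))
      out := fun v hv => hout v.1 (hlt v) (interior_subset hv)
      adj := by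
        intro u v huv
        have huv' : u.1 ≠ v.1 := fun he => huv (Subtype.ext he)
        rw [hAdj u v huv]
        constructor
        · intro hA'
          exact (hadj u.1 (hlt u) v.1 (hlt v) huv' hA').mono_right interior_subset
        · intro hd
          by_contra hA'
          obtain ⟨x, hx1, hx2⟩ := hnadj u.1 (hlt u) v.1 (hlt v) huv' hA'
          exact Set.disjoint_left.1 hd hx1 hx2 }
  · intro x hx
    obtain ⟨h1, h2, h3, h4, h5, h6, h7, h8⟩ := hq x (interior_subset hx)
    have hseg : ∀ i j, i < 4 → j < 4 → i ≠ j → i + j ≠ 3 →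
        segment ℝ (p (2 * sz n T + i)) (p (2 * sz n T + j)) ⊆
          drawing (toGraph (red6 φ)) (fun v => p v.1) := by
      intro i j hi hj hij hij' y hy
      refine Or.inr ⟨⟨2 * sz n T + i, (hmem _).2 (by omega)⟩,
        ⟨2 * sz n T + j, (hmem _).2 (by omega)⟩, ?_, hy⟩
      have hne : (⟨2 * sz n T + i, (hmem _).2 (by omega)⟩ : {v : ℕ // v ∈ (red6 φ).1}) ≠
          ⟨2 * sz n T + j, (hmem _).2 (by omega)⟩ := by
        intro he
        have := congrArg Subtype.val he
        simp only at this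
        omega
      rw [hAdj _ _ hne]
      refine Or.inr (Or.inr (Or.inr ⟨?_, ?_, ?_⟩)) <;> simp only <;> omega
    exact h.quad _ _ _ _ x _ h1 h2 h3 h4 h5 h6 h7 h8
      (hseg 0 1 (by omega) (by omega) (by omega) (by omega))
      (hseg 1 3 (by omega) (by omega) (by omega) (by omega))
      (hseg 3 2 (by omega) (by omega) (by omega) (by omega))
      (hseg 2 0 (by omega) (by omega) (by omega) (by omega))

theorem iff_inside (h : AllStI) (φ : List (Lit ℕ × Lit ℕ × Lit ℕ)) :
    SAT3 φ ↔ InsideObs (red6 φ) := by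
  constructor
  · exact forwardI h φ
  · rintro ⟨l, C, p, h1, h2, -, h3, -⟩
    exact backwardI h φ C (side_preconnected h2) p h3

theorem hard_inside (h : AllStI) : HardI InsideObs := hardI_SAT3.trans h.poly (iff_inside h)

end Pool.Agent.H670R5
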