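import Pool.Agent.H670R5.Defs

/-!
# The obstacle: definitions
-/

namespace Pool.Agent.H670R5

open Pool.Agent.NPC Pool.Agent.H679R2

variable (n : ℕ) (T : List (ℕ × ℕ × ℕ × Bool)) (pos J K : ℕ → ℕ)

/-- abscissas of the notched nodes -/
noncomputable def XS : Finset ℝ := (Finset.Ico n (sz n T)).image (X n pos J K)

/-- abscissas of all nodes -/
noncomputable def ND : Finset ℝ :=
  (Finset.range (n + 2)).image (fun i : ℕ => (i : ℝ) - 1) ∪ XS n T pos J K

/-- the nodes in increasing order -/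
noncomputable def nd : List ℝ := (ND n T pos J K).sort (· ≤ ·)

/-- previous and next node -/
noncomputable def pvN (x : ℝ) : ℝ := sSup {y : ℝ | y ∈ ND n T pos J K ∧ y < x}
noncomputable def nxN (x : ℝ) : ℝ := sInf {y : ℝ | y ∈ ND n T pos J K ∧ x < y}

/-- point of the upper parabola -/
noncomputable def pp (x : ℝ) : Pl := (x, -x ^ 2 + 1 / 16)

/-- chord of the upper parabola -/
noncomputable def chd (x x' t : ℝ) : ℝ := -(x + x') * t + x * x' + 1 / 16

/-- endpoint of the left base of the notch at `x` -/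
noncomputable def ptA (ρ x : ℝ) : Pl := (x - ρ, chd (pvN n T pos J K x) x (x - ρ))
/-- endpoint of the right base of the notch at `x` -/
noncomputable def ptE (ρ x : ℝ) : Pl := (x + ρ, chd x (nxN n T pos J K x) (x + ρ))

/-- the vertices of the lower chain at the node `x` -/
noncomputable def blk (ρ x : ℝ) : List Pl :=
  open Classical in
  if x ∈ XS n T pos J K then [ptA n T pos J K ρ x, pp x, ptE n T pos J K ρ x] else [pp x]

/-- the lower chain -/
noncomputable def LL (ρ : ℝ) : List Pl :=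
  ((-2, 1) : Pl) :: ((nd n T pos J K).flatMap (blk n T pos J K ρ) ++ [((n : ℝ) + 1, 1)])

/-- side (`1` right, `-1` left) and slope of the left tooth of `u` -/
noncomputable def sdL (u : ℕ) : ℝ := if u < 2 * n then -1 else sg J K (u - 2 * n)
noncomputable def slL (u : ℕ) : ℝ :=
  if u < 2 * n then loS n J K u
  else if J (u - 2 * n) ≤ K (u - 2 * n) then loS n J K u else upS n J K u
/-- side and slope of the right tooth of `u` -/
noncomputable def sdR (u : ℕ) : ℝ := if u < 2 * n then 1 else sg J K (u - 2 * n)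
noncomputable def slR (u : ℕ) : ℝ :=
  if u < 2 * n then upS n J K u
  else if J (u - 2 * n) ≤ K (u - 2 * n) then upS n J K u else loS n J K u

/-- tips of the teeth -/
noncomputable def tipL (ρ : ℝ) (u : ℕ) : Pl :=
  ((Q n pos J K u).1 + sdL n J K u * ρ,
    (Q n pos J K u).2 + sdL n J K u * ρ * (slL n J K u - 2 * (Q n pos J K u).1))
noncomputable def tipR (ρ : ℝ) (u : ℕ) : Pl :=
  ((Q n pos J K u).1 + sdR n J K u * ρ,
    (Q n pos J K u).2 + sdR n J K u * ρ * (slR n J K u - 2 * (Q n pos J K u).1))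

/-- the teeth at the vertex `u` -/
noncomputable def earL (ρ : ℝ) (u : ℕ) : Set Pl :=
  tri (ptA n T pos J K ρ (X n pos J K u)) (Q n pos J K u) (tipL n pos J K ρ u)
noncomputable def earR (ρ : ℝ) (u : ℕ) : Set Pl :=
  tri (Q n pos J K u) (ptE n T pos J K ρ (X n pos J K u)) (tipR n pos J K ρ u)

/-- all teeth -/
def teeth (ρ : ℝ) : Set Pl :=
  {x | ∃ u, n ≤ u ∧ u < sz n T ∧ (x ∈ earL n T pos J K ρ u ∨ x ∈ earR n T pos J K ρ u)}

/-- The obstacle. -/
def OB (ρ : ℝ) : Set Pl :=
  lens (LL n T pos J K ρ) ∪ (teeth n T pos J K ρ ∪ {x | mir x ∈ teeth n T pos J K ρ})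

end Pool.Agent.H670R5
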