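import Pool.Agent.H670R5.St2

/-!
# From positions to an arrangement
-/

namespace Pool.Agent.H670R5

open Pool.Agent.NPC Pool.Agent.H679R2

private theorem arr_nx_lt (keys : List ℕ) (N k : ℕ) (hN : keys.length = N) (h0 : 0 < N) :
    nx keys k < N := by
  unfold nx
  split
  · exact h0
  · rename_i j hj
    have hm := List.mem_of_mem_head? (Option.mem_def.mpr hj)
    rw [List.mem_filter, List.mem_map] at hm
    obtain ⟨⟨i, _, hi⟩, _⟩ := hm
    rw [← hi, hN]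
    exact Nat.mod_lt _ h0

private theorem arr_lnE_lt (o : List (ℕ × Bool × ℕ)) (k : ℕ) (hk : k < o.length)
    (q : (ℕ × ℕ) × (ℕ × ℕ)) (hq : q ∈ lnE o k) :
    24 * q.1.1 + 2 * q.1.2 + 1 < 24 * o.length ∧ 24 * q.2.1 + 2 * q.2.2 + 1 < 24 * o.length := by
  have h0 : 0 < o.length := by omega
  have h1 : nx (cK o) k < o.length := arr_nx_lt _ _ _ (by simp [cK]) h0
  have h2 : nx (vK o) k < o.length := arr_nx_lt _ _ _ (by simp [vK]) h0
  have h3 : nx (zK o) k < o.length := arr_nx_lt _ _ _ (by simp [zK]) h0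
  have hT0 : ∀ b, T0N b < 12 := by decide
  have hT1 : ∀ b, T1N b < 12 := by decide
  have a1 := hT0 ((sK o).getD k false)
  have a2 := hT0 (!(sK o).getD (nx (vK o) k) false)
  have a3 := hT1 ((sK o).getD k false)
  have a4 := hT1 (!(sK o).getD (nx (vK o) k) false)
  unfold lnE at hq
  simp only [List.mem_cons, List.not_mem_nil, or_false] at hq
  rcases hq with rfl | rfl | rfl | rfl | rfl | rfl
  · dsimp only; constructor <;> omega
  · dsimp only; constructor <;> omega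
  · dsimp only; constructor <;> omega
  · dsimp only; constructor <;> omega
  · dsimp only; constructor <;> omega
  · dsimp only; constructor <;> omega

/-- host `z`, the others `x`, `y` -/
private def arr_HF (t : ℕ × ℕ × ℕ × Bool) (x y z : ℕ) : Prop :=
  (t.1 = z ∧ ((t.2.1 = x ∧ t.2.2.1 = y) ∨ (t.2.1 = y ∧ t.2.2.1 = x))) ∨
  (t.2.1 = z ∧ ((t.1 = x ∧ t.2.2.1 = y) ∨ (t.1 = y ∧ t.2.2.1 = x))) ∨
  (t.2.2.1 = z ∧ ((t.1 = x ∧ t.2.1 = y) ∨ (t.1 = y ∧ t.2.1 = x)))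

/-- the three types -/
private def arr_TY (o : List (ℕ × Bool × ℕ)) (t : ℕ × ℕ × ℕ × Bool) (x y z : ℕ) : Prop :=
  (t.2.2.2 = true ∧ t.2.2.1 = z ∧ ∃ m r, m < 12 * o.length + 9 ∧ r < 6 ∧
    ((x = 2 * m ∧ y = 2 * m + 1) ∨ (x = 2 * m + 1 ∧ y = 2 * m)) ∧
    z = hst o.length (hg o.length (2 * m)) r) ∨
  (t.2.2.2 = false ∧ x < 24 * o.length ∧ y < 24 * o.length ∧ x % 2 = 1 ∧ y % 2 = 1 ∧
    24 * o.length ≤ z) ∨
  (t.2.2.2 = false ∧ ∃ k s, k < o.length ∧ (s = 1 ∨ s = 3 ∨ s = 5 ∨ s = 7) ∧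
    t = (24 * k + 2 * (s - 1), 24 * k + 2 * s, 24 * k + 2 * ((s + 1) % 8), false) ∧
    ((z = 24 * k + 2 * (s - 1) ∧ ((x = 24 * k + 2 * s ∧ y = 24 * k + 2 * ((s + 1) % 8)) ∨
        (y = 24 * k + 2 * s ∧ x = 24 * k + 2 * ((s + 1) % 8)))) ∨
      (z = 24 * k + 2 * ((s + 1) % 8) ∧ ((x = 24 * k + 2 * s ∧ y = 24 * k + 2 * (s - 1)) ∨
        (y = 24 * k + 2 * s ∧ x = 24 * k + 2 * (s - 1))))))

private theorem arr_data (o : List (ℕ × Bool × ℕ)) (pos : ℕ → ℕ) (hP : PosOK o pos)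
    (t : ℕ × ℕ × ℕ × Bool) (ht : t ∈ TOf o) :
    ∃ x y z, arr_HF t x y z ∧ pos y = pos x + 1 ∧ arr_TY o t x y z := by
  unfold TOf at ht
  rw [List.mem_append, List.mem_append] at ht
  rcases ht with (ht | ht) | ht
  · unfold T1 at ht
    rw [List.mem_flatMap] at ht
    obtain ⟨m, hm, ht⟩ := ht
    rw [List.mem_map] at ht
    obtain ⟨r, hr, rfl⟩ := ht
    rw [List.mem_range] at hm hr
    have hp := hP.part (2 * m) (by unfold nOf; omega)
    have e : partner (2 * m) = 2 * m + 1 := by unfold partner; rw [if_pos (by omega)]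
    rw [e] at hp
    unfold partner at hp
    split at hp
    · exact ⟨2 * m, 2 * m + 1, _, Or.inr (Or.inr ⟨rfl, Or.inl ⟨rfl, rfl⟩⟩), hp,
        Or.inl ⟨rfl, rfl, m, r, hm, hr, Or.inl ⟨rfl, rfl⟩, rfl⟩⟩
    · exact ⟨2 * m + 1, 2 * m, _, Or.inr (Or.inr ⟨rfl, Or.inr ⟨rfl, rfl⟩⟩), by omega,
        Or.inl ⟨rfl, rfl, m, r, hm, hr, Or.inr ⟨rfl, rfl⟩, rfl⟩⟩
  · unfold T2 at ht
    rw [List.mem_flatMap] at ht
    obtain ⟨k, hk, ht⟩ := ht
    rw [List.mem_flatMap] at ht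
    obtain ⟨q, hq, ht⟩ := ht
    rw [List.mem_map] at ht
    obtain ⟨r, hr, rfl⟩ := ht
    rw [List.mem_range] at hk hr
    have hl := arr_lnE_lt o k hk q hq
    rcases hP.link k hk q hq with h | h
    · exact ⟨24 * q.2.1 + 2 * q.2.2 + 1, 24 * q.1.1 + 2 * q.1.2 + 1, _,
        Or.inr (Or.inr ⟨rfl, Or.inr ⟨rfl, rfl⟩⟩), h,
        Or.inr (Or.inl ⟨rfl, hl.2, hl.1, by omega, by omega, by dsimp only; unfold hst; omega⟩)⟩
    · exact ⟨24 * q.1.1 + 2 * q.1.2 + 1, 24 * q.2.1 + 2 * q.2.2 + 1, _,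
        Or.inr (Or.inr ⟨rfl, Or.inl ⟨rfl, rfl⟩⟩), h,
        Or.inr (Or.inl ⟨rfl, hl.1, hl.2, by omega, by omega, by dsimp only; unfold hst; omega⟩)⟩
  · unfold T3 at ht
    rw [List.mem_flatMap] at ht
    obtain ⟨k, hk, ht⟩ := ht
    rw [List.mem_map] at ht
    obtain ⟨s, hs, rfl⟩ := ht
    rw [List.mem_range] at hk
    have hs' : s = 1 ∨ s = 3 ∨ s = 5 ∨ s = 7 := by simpa using hs
    obtain ⟨s', h1, h2⟩ := hP.oct k hk s hs'
    rcases h1 with h1 | h1 <;> subst h1 <;> rcases h2 with h2 | h2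
    · exact ⟨24 * k + 2 * (s - 1), 24 * k + 2 * s, 24 * k + 2 * ((s + 1) % 8),
        Or.inr (Or.inr ⟨rfl, Or.inl ⟨rfl, rfl⟩⟩), h2,
        Or.inr (Or.inr ⟨rfl, k, s, hk, hs', rfl, Or.inr ⟨rfl, Or.inr ⟨rfl, rfl⟩⟩⟩)⟩
    · exact ⟨24 * k + 2 * s, 24 * k + 2 * (s - 1), 24 * k + 2 * ((s + 1) % 8),
        Or.inr (Or.inr ⟨rfl, Or.inr ⟨rfl, rfl⟩⟩), h2,
        Or.inr (Or.inr ⟨rfl, k, s, hk, hs', rfl, Or.inr ⟨rfl, Or.inl ⟨rfl, rfl⟩⟩⟩)⟩
    · exact ⟨24 * k + 2 * ((s + 1) % 8), 24 * k + 2 * s, 24 * k + 2 * (s - 1),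
        Or.inl ⟨rfl, Or.inr ⟨rfl, rfl⟩⟩, h2,
        Or.inr (Or.inr ⟨rfl, k, s, hk, hs', rfl, Or.inl ⟨rfl, Or.inr ⟨rfl, rfl⟩⟩⟩)⟩
    · exact ⟨24 * k + 2 * s, 24 * k + 2 * ((s + 1) % 8), 24 * k + 2 * (s - 1),
        Or.inl ⟨rfl, Or.inl ⟨rfl, rfl⟩⟩, h2,
        Or.inr (Or.inr ⟨rfl, k, s, hk, hs', rfl, Or.inl ⟨rfl, Or.inl ⟨rfl, rfl⟩⟩⟩)⟩

/-- no conflicts on the level of elements -/
private theorem arr_conf (o : List (ℕ × Bool × ℕ)) (t t' : ℕ × ℕ × ℕ × Bool) (x y z x' y' z' : ℕ)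
    (h : arr_TY o t x y z) (h' : arr_TY o t' x' y' z') (h1 : z = x' ∨ z = y')
    (h2 : z' = x ∨ z' = y) : t = t' := by
  rcases h with ⟨_, _, m, r, hm, hr, hxy, hz⟩ | ⟨_, hx, hy, _, _, hz⟩ | ⟨_, k, s, hk, hs, ht, hz⟩ <;>
  rcases h' with ⟨_, _, m', r', hm', hr', hxy', hz'⟩ | ⟨_, hx', hy', _, _, hz'⟩ |
    ⟨_, k', s', hk', hs', ht', hz'⟩
  · exfalso
    unfold hst hg at hz hz'
    split at hz <;> split at hz' <;> omega
  · exfalso
    unfold hst at hz
    omega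
  · exfalso
    unfold hst at hz
    omega
  · exfalso
    unfold hst at hz'
    omega
  · exfalso
    omega
  · exfalso
    omega
  · exfalso
    unfold hst at hz'
    omega
  · exfalso
    omega
  · have hkk : k = k' ∧ s = s' := by
      rcases hs with rfl | rfl | rfl | rfl <;> rcases hs' with rfl | rfl | rfl | rfl <;> omega
    rw [ht, ht', hkk.1, hkk.2]

theorem arr_ok (hT : St_tdist) : St_arr := by
  intro o pos hP
  obtain ⟨hnd, hmem, hset⟩ := hT o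
  have hall : ∀ i, ∃ p : ℕ × ℕ × ℕ, i < (TOf o).length →
      arr_HF ((TOf o).getD i (0, 0, 0, false)) p.1 p.2.1 p.2.2 ∧ pos p.2.1 = pos p.1 + 1 ∧
      arr_TY o ((TOf o).getD i (0, 0, 0, false)) p.1 p.2.1 p.2.2 := by
    intro i
    by_cases hi : i < (TOf o).length
    · have hm : (TOf o).getD i (0, 0, 0, false) ∈ TOf o := by
        rw [List.getD_eq_getElem _ _ hi]
        exact List.getElem_mem hi
      obtain ⟨x, y, z, h⟩ := arr_data o pos hP _ hm
      exact ⟨(x, y, z), fun _ => h⟩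
    · exact ⟨(0, 0, 0), fun h => absurd h hi⟩
  choose F hF using hall
  have hm : ∀ i < (TOf o).length, (TOf o).getD i (0, 0, 0, false) ∈ TOf o := by
    intro i hi
    rw [List.getD_eq_getElem _ _ hi]
    exact List.getElem_mem hi
  have hidx : ∀ i < (TOf o).length, ∀ i' < (TOf o).length,
      (TOf o).getD i (0, 0, 0, false) = (TOf o).getD i' (0, 0, 0, false) → i = i' := by
    intro i hi i' hi' h
    rw [List.getD_eq_getElem _ _ hi, List.getD_eq_getElem _ _ hi'] at h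
    exact (hnd.getElem_inj_iff).mp h
  have hlt : ∀ i < (TOf o).length, (F i).1 < nOf o ∧ (F i).2.1 < nOf o ∧ (F i).2.2 < nOf o := by
    intro i hi
    have h1 := (hF i hi).1
    have h2 := hmem _ (hm i hi)
    unfold arr_HF at h1
    omega
  have hne : ∀ i < (TOf o).length, (F i).2.2 ≠ (F i).1 ∧ (F i).2.2 ≠ (F i).2.1 := by
    intro i hi
    have h1 := (hF i hi).1
    have h2 := hmem _ (hm i hi)
    unfold arr_HF at h1
    omega
  refine ⟨fun i => pos (F i).2.2, fun i => pos (F i).1, ?_, hP.lt, hP.inj, hP.part, ?_, ?_, ?_, ?_,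
    ?_, ?_, ?_, ?_⟩
  · unfold nOf; omega
  · intro i hi
    have h2 := hmem _ (hm i hi)
    exact ⟨h2.1, h2.2.1, h2.2.2.1⟩
  · intro i hi
    obtain ⟨h1, h2, _⟩ := hF i hi
    unfold HostFar
    rw [← h2]
    unfold arr_HF at h1
    rcases h1 with ⟨a, ⟨b, c⟩ | ⟨b, c⟩⟩ | ⟨a, ⟨b, c⟩ | ⟨b, c⟩⟩ | ⟨a, ⟨b, c⟩ | ⟨b, c⟩⟩ <;>
      rw [a, b, c] <;> simp
  · intro i hi
    obtain ⟨_, h2, _⟩ := hF i hi
    have h3 := hlt i hi
    have h4 := hne i hi
    refine ⟨fun h => h4.1 (hP.inj _ h3.2.2 _ h3.1 h), fun h => h4.2 (hP.inj _ h3.2.2 _ h3.2.1 ?_)⟩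
    rw [h2]
    exact h
  · intro i hi
    obtain ⟨_, h2, _⟩ := hF i hi
    have h3 := hlt i hi
    refine ⟨hP.lt _ h3.2.2, ?_⟩
    have := hP.lt _ h3.2.1
    rw [h2] at this
    exact this
  · intro i hi
    obtain ⟨_, h2, h5⟩ := hF i hi
    have h3 := hlt i hi
    have hpar := hP.part _ h3.1
    have key : (F i).1 % 2 = (F i).2.1 % 2 → pos (F i).1 % 2 = 1 := by
      intro hpp
      by_contra hc
      have hev : pos (F i).1 % 2 = 0 := by omega
      have e1 : pos (partner (F i).1) = pos (F i).2.1 := by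
        rw [hpar, h2]
        unfold partner
        rw [if_pos hev]
      have hlt' : partner (F i).1 < nOf o := by
        have := h3.1
        unfold partner nOf at *
        split <;> omega
      have e2 := hP.inj _ hlt' _ h3.2.1 e1
      unfold partner at e2
      split at e2 <;> omega
    rcases h5 with ⟨hf, _, m, r, hm', hr, hxy, hz⟩ | ⟨hf, hx, hy, hx1, hy1, hz⟩ |
      ⟨hf, k, s, hk, hs, ht, hz⟩
    · have hyp : (F i).2.1 = partner (F i).1 := by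
        unfold partner
        split <;> omega
      rw [← hyp, h2] at hpar
      unfold partner at hpar
      constructor
      · intro _
        split at hpar
        · assumption
        · omega
      · intro _
        exact hf
    · have := key (by omega)
      constructor
      · intro h
        rw [hf] at h
        exact absurd h (by decide)
      · intro h
        omega
    · have := key (by omega)
      constructor
      · intro h
        rw [hf] at h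
        exact absurd h (by decide)
      · intro h
        omega
  · intro i hi hfl
    obtain ⟨_, h2, h5⟩ := hF i hi
    rcases h5 with ⟨hf, hz', _⟩ | ⟨hf, _⟩ | ⟨hf, _⟩
    · rw [hz']
    · rw [hf] at hfl
      exact absurd hfl (by decide)
    · rw [hf] at hfl
      exact absurd hfl (by decide)
  · intro i hi i' hi' hii hc
    obtain ⟨_, h2, h5⟩ := hF i hi
    obtain ⟨_, h2', h5'⟩ := hF i' hi'
    have h3 := hlt i hi
    have h3' := hlt i' hi'
    rw [← h2, ← h2'] at hc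
    refine hii (hidx i hi i' hi' (arr_conf o _ _ _ _ _ _ _ _ h5 h5' ?_ ?_))
    · rcases hc.1 with h | h
      · exact Or.inl (hP.inj _ h3.2.2 _ h3'.1 h)
      · exact Or.inr (hP.inj _ h3.2.2 _ h3'.2.1 h)
    · rcases hc.2 with h | h
      · exact Or.inl (hP.inj _ h3'.2.2 _ h3.1 h)
      · exact Or.inr (hP.inj _ h3'.2.2 _ h3.2.1 h)
  · intro i hi i' hi' hJ hK
    obtain ⟨h1, h2, h5⟩ := hF i hi
    obtain ⟨h1', h2', h5'⟩ := hF i' hi'
    have h3 := hlt i hi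
    have h3' := hlt i' hi'
    have ez := hP.inj _ h3.2.2 _ h3'.2.2 hJ
    have ex := hP.inj _ h3.1 _ h3'.1 hK
    have ey := hP.inj _ h3.2.1 _ h3'.2.1 (by rw [h2, h2', hK])
    refine hidx i hi i' hi' (hset _ (hm i hi) _ (hm i' hi') (fun w => ?_))
    unfold arr_HF at h1 h1'
    rw [ez, ex, ey] at h1
    constructor <;> intro hw <;> omega

end Pool.Agent.H670R5
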