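import Pool.Agent.H670R5.St2

/-!
# Attaching finitely many triangles to a polygonal region
-/

namespace Pool.Agent.H670R5

open Pool.Agent.NPC Pool.Agent.H679R2

theorem attach_ok (he : St_ear) (hI : St_earInt) : St_attach := by
  intro es
  induction es with
  | nil =>
    intro l P hP _ _
    refine ⟨l, ?_, by simp⟩
    have h0 : P ∪ {x : Pl | ∃ e ∈ ([] : List (Pl × Pl × Pl)), x ∈ tri e.1 e.2.1 e.2.2} = P := by
      ext x; simp
    rw [h0]; exact hP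
  | cons e es ih =>
    intro l P hP h1 h2
    rw [List.pairwise_cons] at h2
    obtain ⟨h2a, h2b⟩ := h2
    have hE := h1 e (by simp)
    obtain ⟨l1, hP1, hIns⟩ := he l P e.1 e.2.1 e.2.2 hP hE.1 hE.2.1 hE.2.2
    have hcond : ∀ e' ∈ es, (e'.1, e'.2.1) ∈ cycEdges l1 ∧ ori e'.1 e'.2.1 e'.2.2 < 0 ∧
        tri e'.1 e'.2.1 e'.2.2 ∩ (P ∪ tri e.1 e.2.1 e.2.2) ⊆ segment ℝ e'.1 e'.2.1 := by
      intro e' he'
      have hE' := h1 e' (List.mem_cons_of_mem _ he')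
      have hee := h2a e' he'
      refine ⟨(hIns _).2 (Or.inl ⟨hE'.1, fun h => hee.1 h.symm⟩), hE'.2.1, ?_⟩
      rintro x ⟨hx1, hx2 | hx2⟩
      · exact hE'.2.2 ⟨hx1, hx2⟩
      · exact (hee.2 ⟨hx2, hx1⟩).2
    obtain ⟨l2, hP2, hO⟩ := ih l1 (P ∪ tri e.1 e.2.1 e.2.2) hP1 hcond h2b
    have hset : P ∪ {x : Pl | ∃ e' ∈ e :: es, x ∈ tri e'.1 e'.2.1 e'.2.2} =
        (P ∪ tri e.1 e.2.1 e.2.2) ∪ {x : Pl | ∃ e' ∈ es, x ∈ tri e'.1 e'.2.1 e'.2.2} := by
      ext x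
      simp only [Set.mem_union, Set.mem_ofPred_eq, List.mem_cons, exists_eq_or_imp]
      tauto
    rw [hset]
    refine ⟨l2, hP2, ?_⟩
    intro e' he'
    rcases List.mem_cons.1 he' with rfl | he'
    · exact ((hI l P _ _ _ hP hE.1 hE.2.1).1).trans
        (interior_mono Set.subset_union_left)
    · exact hO e' he'

end Pool.Agent.H670R5
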