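import Pool.Agent.H670R5.St

/-!
# Statements of the parts: the obstacle
-/

namespace Pool.Agent.H670R5

open Pool.Agent.NPC Pool.Agent.H679R2

/-! ### Windows -/

def St_wKB : Prop := ∀ (n : ℕ) (T : List (ℕ × ℕ × ℕ × Bool)) (pos J K : ℕ → ℕ),
  Arr n T pos J K → ∀ u v : ℕ, v < n → n ≤ u → u < 2 * n →
  (Ad n T v u → InW n pos J K u (Q n pos J K v)) ∧
  (¬ Ad n T v u → OutW n pos J K u (Q n pos J K v))

def St_wKT : Prop := ∀ (n : ℕ) (T : List (ℕ × ℕ × ℕ × Bool)) (pos J K : ℕ → ℕ),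
  Arr n T pos J K → ∀ u v : ℕ, v < n → 2 * n ≤ u → u < sz n T →
  (Ad n T v u → InW n pos J K u (Q n pos J K v)) ∧
  (¬ Ad n T v u → OutW n pos J K u (Q n pos J K v))

def St_wBB : Prop := ∀ (n : ℕ) (T : List (ℕ × ℕ × ℕ × Bool)) (pos J K : ℕ → ℕ),
  Arr n T pos J K → ∀ u v : ℕ, n ≤ u → u < 2 * n → n ≤ v → v < 2 * n → u ≠ v →
  (Ad n T u v → InW n pos J K u (Q n pos J K v)) ∧
  (¬ Ad n T u v → OutW n pos J K u (Q n pos J K v))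

def St_wBT : Prop := ∀ (n : ℕ) (T : List (ℕ × ℕ × ℕ × Bool)) (pos J K : ℕ → ℕ),
  Arr n T pos J K → ∀ u v : ℕ, n ≤ u → u < 2 * n → 2 * n ≤ v → v < sz n T →
  (Ad n T u v → InW n pos J K u (Q n pos J K v) ∧ InW n pos J K v (Q n pos J K u)) ∧
  (¬ Ad n T u v → OutW n pos J K v (Q n pos J K u))

def St_wTT : Prop := ∀ (n : ℕ) (T : List (ℕ × ℕ × ℕ × Bool)) (pos J K : ℕ → ℕ),
  Arr n T pos J K → ∀ u v : ℕ, 2 * n ≤ u → u < sz n T → 2 * n ≤ v → v < sz n T → u ≠ v →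
  ¬ Ad n T u v ∧ (OutW n pos J K u (Q n pos J K v) ∨ OutW n pos J K v (Q n pos J K u))

/-- summary -/
def St_win : Prop := ∀ (n : ℕ) (T : List (ℕ × ℕ × ℕ × Bool)) (pos J K : ℕ → ℕ),
  Arr n T pos J K → ∀ u < sz n T, ∀ v < sz n T, u ≠ v →
  (Ad n T u v → n ≤ u → InW n pos J K u (Q n pos J K v)) ∧
  (¬ Ad n T u v → (n ≤ u ∧ OutW n pos J K u (Q n pos J K v)) ∨
    (n ≤ v ∧ OutW n pos J K v (Q n pos J K u)))

/-! ### Nodes -/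

/-- the abscissas of the vertices -/
def St_X : Prop := ∀ (n : ℕ) (T : List (ℕ × ℕ × ℕ × Bool)) (pos J K : ℕ → ℕ),
  Arr n T pos J K → (∀ u < sz n T, X n pos J K u ∈ ND n T pos J K ∧ -1 < X n pos J K u ∧
      X n pos J K u < n) ∧
    (∀ u, n ≤ u → u < sz n T → ∀ v, n ≤ v → v < sz n T → X n pos J K u = X n pos J K v → u = v) ∧
    (∀ u < n, ∀ v < n, X n pos J K u = X n pos J K v → u = v) ∧
    (∀ y ∈ ND n T pos J K, -1 ≤ y ∧ y ≤ n) ∧ ((-1 : ℝ) ∈ ND n T pos J K) ∧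
    ((n : ℝ) ∈ ND n T pos J K) ∧
    (∀ u, n ≤ u → u < sz n T → ∀ v < n, X n pos J K u ≠ X n pos J K v)

/-- consecutive nodes -/
def St_nd1 : Prop := ∀ (n : ℕ) (T : List (ℕ × ℕ × ℕ × Bool)) (pos J K : ℕ → ℕ),
  Arr n T pos J K → (nd n T pos J K).Pairwise (· < ·) ∧
  ∀ e ∈ (nd n T pos J K).zip (nd n T pos J K).tail, e.1 < e.2 ∧ e.2 - e.1 ≤ 1 ∧
    e.1 ∈ ND n T pos J K ∧ e.2 ∈ ND n T pos J K ∧ ∀ y ∈ ND n T pos J K, y ≤ e.1 ∨ e.2 ≤ y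

/-- previous and next node -/
def St_nd2 : Prop := ∀ (n : ℕ) (T : List (ℕ × ℕ × ℕ × Bool)) (pos J K : ℕ → ℕ),
  Arr n T pos J K → ∀ x ∈ ND n T pos J K, -1 < x → x < n →
    pvN n T pos J K x ∈ ND n T pos J K ∧ nxN n T pos J K x ∈ ND n T pos J K ∧
    pvN n T pos J K x < x ∧ x < nxN n T pos J K x ∧ x - pvN n T pos J K x ≤ 1 ∧
    nxN n T pos J K x - x ≤ 1 ∧ (∀ y ∈ ND n T pos J K, y ≤ pvN n T pos J K x ∨ x ≤ y) ∧
    (∀ y ∈ ND n T pos J K, y ≤ x ∨ nxN n T pos J K x ≤ y) ∧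
    (pvN n T pos J K x, x) ∈ (nd n T pos J K).zip (nd n T pos J K).tail ∧
    (x, nxN n T pos J K x) ∈ (nd n T pos J K).zip (nd n T pos J K).tail

/-! ### The lower chain and the lens -/

def St_LLsorted : Prop := ∀ (n : ℕ) (T : List (ℕ × ℕ × ℕ × Bool)) (pos J K : ℕ → ℕ),
  Arr n T pos J K → 0 < n → ∃ ρ₀ > 0, ∀ ρ, 0 < ρ → ρ < ρ₀ →
  (LL n T pos J K ρ).Pairwise (fun p q => p.1 < q.1) ∧
  (nd n T pos J K).flatMap (blk n T pos J K ρ) ≠ [] ∧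
  ∀ p ∈ (nd n T pos J K).flatMap (blk n T pos J K ρ), p.2 < 1

def St_LLzip : Prop := ∀ (n : ℕ) (T : List (ℕ × ℕ × ℕ × Bool)) (pos J K : ℕ → ℕ) (ρ : ℝ),
  Arr n T pos J K → ∀ u, n ≤ u → u < sz n T →
  (ptA n T pos J K ρ (X n pos J K u), Q n pos J K u) ∈
    (LL n T pos J K ρ).zip (LL n T pos J K ρ).tail ∧
  (Q n pos J K u, ptE n T pos J K ρ (X n pos J K u)) ∈
    (LL n T pos J K ρ).zip (LL n T pos J K ρ).tail

/-- points of the lens lie above a chord or at the sides -/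
def St_lens1 : Prop := ∀ (n : ℕ) (T : List (ℕ × ℕ × ℕ × Bool)) (pos J K : ℕ → ℕ),
  Arr n T pos J K → 0 < n → ∃ ρ₀ > 0, ∀ ρ, 0 < ρ → ρ < ρ₀ → ∀ z ∈ lens (LL n T pos J K ρ),
  z.1 ≤ -1 ∨ n ≤ z.1 ∨ ∃ e ∈ (nd n T pos J K).zip (nd n T pos J K).tail,
    e.1 ≤ z.1 ∧ z.1 ≤ e.2 ∧ chd e.1 e.2 z.1 ≤ z.2

/-- the axis is inside the lens; the lens is symmetric -/
def St_lens2 : Prop := ∀ (n : ℕ) (T : List (ℕ × ℕ × ℕ × Bool)) (pos J K : ℕ → ℕ),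
  Arr n T pos J K → 0 < n → ∃ ρ₀ > 0, ∀ ρ, 0 < ρ → ρ < ρ₀ →
  (∀ x : ℝ, -2 < x → x < n + 1 → (x, (1 : ℝ)) ∈ interior (lens (LL n T pos J K ρ))) ∧
  ∀ z, mir z ∈ lens (LL n T pos J K ρ) ↔ z ∈ lens (LL n T pos J K ρ)

/-! ### The teeth -/

/-- orientation of the teeth and distance from the vertex -/
def St_tooth1 : Prop := ∀ (n : ℕ) (T : List (ℕ × ℕ × ℕ × Bool)) (pos J K : ℕ → ℕ),
  Arr n T pos J K → ∀ ρ, 0 < ρ → ∀ u, n ≤ u → u < sz n T →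
  ori (ptA n T pos J K ρ (X n pos J K u)) (Q n pos J K u) (tipL n pos J K ρ u) < 0 ∧
  ori (Q n pos J K u) (ptE n T pos J K ρ (X n pos J K u)) (tipR n pos J K ρ u) < 0 ∧
  (∀ z ∈ earL n T pos J K ρ u, |z.1 - X n pos J K u| ≤ ρ) ∧
  (∀ z ∈ earR n T pos J K ρ u, |z.1 - X n pos J K u| ≤ ρ) ∧
  earL n T pos J K ρ u ∩ earR n T pos J K ρ u ⊆ {Q n pos J K u}

/-- the teeth are below the chords; on a chord there are only points of the bases -/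
def St_tooth2 : Prop := ∀ (n : ℕ) (T : List (ℕ × ℕ × ℕ × Bool)) (pos J K : ℕ → ℕ),
  Arr n T pos J K → ∃ ρ₀ > 0, ∀ ρ, 0 < ρ → ρ < ρ₀ → ∀ u, n ≤ u → u < sz n T →
  ∀ e ∈ (nd n T pos J K).zip (nd n T pos J K).tail,
  (∀ z ∈ earL n T pos J K ρ u, z.2 < chd e.1 e.2 z.1 ∨
    z ∈ segment ℝ (ptA n T pos J K ρ (X n pos J K u)) (Q n pos J K u)) ∧
  (∀ z ∈ earR n T pos J K ρ u, z.2 < chd e.1 e.2 z.1 ∨
    z ∈ segment ℝ (Q n pos J K u) (ptE n T pos J K ρ (X n pos J K u)))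

/-- the teeth are far from the sides and below the axis, and different ones are disjoint -/
def St_tooth3 : Prop := ∀ (n : ℕ) (T : List (ℕ × ℕ × ℕ × Bool)) (pos J K : ℕ → ℕ),
  Arr n T pos J K → ∃ ρ₀ > 0, ∀ ρ, 0 < ρ → ρ < ρ₀ → ∀ u, n ≤ u → u < sz n T →
  (∀ z ∈ earL n T pos J K ρ u ∪ earR n T pos J K ρ u, -1 < z.1 ∧ z.1 < n ∧ z.2 < 1) ∧
  ∀ v, n ≤ v → v < sz n T → u ≠ v →
    Disjoint (earL n T pos J K ρ u ∪ earR n T pos J K ρ u)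
      (earL n T pos J K ρ v ∪ earR n T pos J K ρ v)

/-- the teeth do not meet the open window of their vertex -/
def St_tooth4 : Prop := ∀ (n : ℕ) (T : List (ℕ × ℕ × ℕ × Bool)) (pos J K : ℕ → ℕ),
  Arr n T pos J K → ∀ ρ, 0 < ρ → ∀ u, n ≤ u → u < sz n T →
  ∀ z ∈ earL n T pos J K ρ u ∪ earR n T pos J K ρ u, ¬ InW n pos J K u z

/-- directions outside of the window point into a tooth -/
def St_tooth5 : Prop := ∀ (n : ℕ) (T : List (ℕ × ℕ × ℕ × Bool)) (pos J K : ℕ → ℕ),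
  Arr n T pos J K → ∀ ρ, 0 < ρ → ∀ u, n ≤ u → u < sz n T → ∀ z : Pl, z ≠ Q n pos J K u →
  z.2 ≤ chd (pvN n T pos J K (X n pos J K u)) (X n pos J K u) z.1 →
  z.2 ≤ chd (X n pos J K u) (nxN n T pos J K (X n pos J K u)) z.1 →
  OutW n pos J K u z →
  (∃ α β : ℝ, 0 < α ∧ 0 ≤ β ∧ z - Q n pos J K u =
    α • (ptA n T pos J K ρ (X n pos J K u) - Q n pos J K u) +
    β • (tipL n pos J K ρ u - Q n pos J K u)) ∨
  (∃ α β : ℝ, 0 < α ∧ 0 ≤ β ∧ z - Q n pos J K u =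
    α • (ptE n T pos J K ρ (X n pos J K u) - Q n pos J K u) +
    β • (tipR n pos J K ρ u - Q n pos J K u))

/-- a direction pointing into a triangle whose base is inside `P` -/
def St_dir : Prop := ∀ (B A t z : Pl) (P : Set Pl) (α β : ℝ), ori B A t ≠ 0 → tri B A t ⊆ P →
  openSegment ℝ B A ⊆ interior P → 0 < α → 0 ≤ β → z - B = α • (A - B) + β • (t - B) →
  (segment ℝ B z ∩ interior P).Nonempty

/-- all vertices are below the two chords at a vertex -/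
def St_below : Prop := ∀ (n : ℕ) (T : List (ℕ × ℕ × ℕ × Bool)) (pos J K : ℕ → ℕ),
  Arr n T pos J K → ∀ e ∈ (nd n T pos J K).zip (nd n T pos J K).tail, ∀ v < sz n T,
    (Q n pos J K v).2 ≤ chd e.1 e.2 (Q n pos J K v).1

/-- the displaced vertices are strictly below the chords -/
def St_disp : Prop := ∀ (n : ℕ) (T : List (ℕ × ℕ × ℕ × Bool)) (pos J K : ℕ → ℕ),
  Arr n T pos J K → ∃ τ₀ > 0, ∀ τ, 0 < τ → τ < τ₀ → ∀ v < sz n T,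
    -1 < (Qt n pos J K τ v).1 ∧ (Qt n pos J K τ v).1 < n ∧ (Qt n pos J K τ v).2 < 1 ∧
    ∀ e ∈ (nd n T pos J K).zip (nd n T pos J K).tail,
    (Qt n pos J K τ v).2 < chd e.1 e.2 (Qt n pos J K τ v).1

/-- windows: displaced vertex in its own window; adjacent ones stay in the window; convexity -/
def St_wdisp : Prop := ∀ (n : ℕ) (T : List (ℕ × ℕ × ℕ × Bool)) (pos J K : ℕ → ℕ),
  Arr n T pos J K → (∀ u, n ≤ u → u < sz n T → Convex ℝ {z | InW n pos J K u z}) ∧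
  ∃ τ₀ > 0, ∀ τ, 0 < τ → τ < τ₀ → ∀ u, n ≤ u → u < sz n T →
    InW n pos J K u (Qt n pos J K τ u) ∧
    ∀ v < sz n T, InW n pos J K u (Q n pos J K v) → InW n pos J K u (Qt n pos J K τ v)

/-- edges are far from the teeth of the other vertices -/
def St_far : Prop := ∀ (n : ℕ) (T : List (ℕ × ℕ × ℕ × Bool)) (pos J K : ℕ → ℕ),
  Arr n T pos J K → ∃ ρ₀ > 0, ∃ τ₀ > 0, ∀ ρ, 0 < ρ → ρ < ρ₀ → ∀ τ, 0 < τ → τ < τ₀ →
  ∀ u, n ≤ u → u < sz n T → ∀ v < sz n T, ∀ w < sz n T, v ≠ u → w ≠ u → v ≠ w →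
    Disjoint (segment ℝ (Qt n pos J K τ v) (Qt n pos J K τ w))
      (earL n T pos J K ρ u ∪ earR n T pos J K ρ u)

/-! ### Assembly -/

def St_F1 : Prop := ∀ (n : ℕ) (T : List (ℕ × ℕ × ℕ × Bool)) (pos J K : ℕ → ℕ),
  Arr n T pos J K → 0 < n → ∃ ρ₀ > 0, ∀ ρ, 0 < ρ → ρ < ρ₀ →
  (∃ l, PolyReg l (OB n T pos J K ρ)) ∧
  ∀ u, n ≤ u → u < sz n T →
    openSegment ℝ (ptA n T pos J K ρ (X n pos J K u)) (Q n pos J K u) ⊆
      interior (OB n T pos J K ρ) ∧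
    openSegment ℝ (Q n pos J K u) (ptE n T pos J K ρ (X n pos J K u)) ⊆
      interior (OB n T pos J K ρ)

def St_F2 : Prop := ∀ (n : ℕ) (T : List (ℕ × ℕ × ℕ × Bool)) (pos J K : ℕ → ℕ),
  Arr n T pos J K → 0 < n → ∃ ρ₀ > 0, ∀ ρ, 0 < ρ → ρ < ρ₀ → ∀ u < sz n T, ∀ v < sz n T, u ≠ v →
  ¬ Ad n T u v → (segment ℝ (Q n pos J K u) (Q n pos J K v) ∩
    interior (OB n T pos J K ρ)).Nonempty

def St_F3 : Prop := ∀ (n : ℕ) (T : List (ℕ × ℕ × ℕ × Bool)) (pos J K : ℕ → ℕ),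
  Arr n T pos J K → 0 < n → ∃ ρ₀ > 0, ∀ ρ, 0 < ρ → ρ < ρ₀ → ∃ τ₀ > 0, ∀ τ, 0 < τ → τ < τ₀ →
  ∀ u < sz n T, ∀ v < sz n T, u ≠ v → Ad n T u v →
  Disjoint (segment ℝ (Qt n pos J K τ u) (Qt n pos J K τ v)) (OB n T pos J K ρ)

def St_F4 : Prop := ∀ (n : ℕ) (T : List (ℕ × ℕ × ℕ × Bool)) (pos J K : ℕ → ℕ),
  Arr n T pos J K → 0 < n → ∃ ρ₀ > 0, ∀ ρ, 0 < ρ → ρ < ρ₀ →
  (∀ u < sz n T, ∀ v < sz n T, (segment ℝ (Q n pos J K u) (mir (Q n pos J K v)) ∩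
    interior (OB n T pos J K ρ)).Nonempty) ∧
  ((-3 / 2 : ℝ), (1 : ℝ)) ∈ interior (OB n T pos J K ρ) ∧
  ∀ z, mir z ∈ OB n T pos J K ρ ↔ z ∈ OB n T pos J K ρ

/-- the positions of the two copies, from positions of one copy -/
noncomputable def two (m : ℕ) (q : ℕ → Pl) (u : ℕ) : Pl := if u < m then q u else mir (q (u - m))

/-- A representation with a closed polygon, in general position. -/
def FullRep (n : ℕ) (T : List (ℕ × ℕ × ℕ × Bool)) (l : List Pl) (P : Set Pl) (p : ℕ → Pl) : Prop :=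
  PolyReg l P ∧ ((-3 / 2 : ℝ), (1 : ℝ)) ∈ interior P ∧
  (∀ u < 2 * sz n T, -5 / 4 < (p u).1) ∧
  (∀ u < 2 * sz n T, ∀ v < 2 * sz n T, u ≠ v → p u ≠ p v) ∧
  (∀ u < 2 * sz n T, ∀ v < 2 * sz n T, ∀ w < 2 * sz n T, u ≠ v → v ≠ w → u ≠ w →
    ¬ Collinear ℝ {p u, p v, p w}) ∧
  (∀ u < 2 * sz n T, ∀ v < 2 * sz n T, u ≠ v → Ad2 n T u v →
    Disjoint (segment ℝ (p u) (p v)) P) ∧
  (∀ u < 2 * sz n T, ∀ v < 2 * sz n T, u ≠ v → ¬ Ad2 n T u v →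
    (segment ℝ (p u) (p v) ∩ interior P).Nonempty)

def St_full : Prop := ∀ (n : ℕ) (T : List (ℕ × ℕ × ℕ × Bool)) (pos J K : ℕ → ℕ),
  Arr n T pos J K → 0 < n → ∃ l P p, FullRep n T l P p

end Pool.Agent.H670R5
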