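import Mathlib
import Pool.Agent.H670R5.St2

/-!
A triangle is a region bounded by a polygon.
-/

namespace Pool.Agent.H670R5

open Pool.Agent.NPC Pool.Agent.H679R2

private theorem base_cyc (a b c : Pl) : cycEdges [a, b, c] = [(a, b), (b, c), (c, a)] := by
  simp [cycEdges, List.rotate_cons_succ]

private theorem base_rot (a b c : Pl) : ori b c a = ori a b c := by
  unfold ori
  ring

private theorem base_tri (a b c : Pl) : tri b c a = tri a b c := by
  unfold tri
  congr 1
  ext x
  simp only [Set.mem_insert_iff, Set.mem_singleton_iff]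
  tauto

private theorem base_common (a b c x : Pl) (h : 0 < ori a b c) (h1 : x ∈ segment ℝ a b)
    (h2 : x ∈ segment ℝ b c) : x = b := by
  obtain ⟨s, t, hs, ht, hst, rfl⟩ := h1
  obtain ⟨u, v, hu, hv, huv, h3⟩ := h2
  have e1 := congrArg Prod.fst h3
  have e2 := congrArg Prod.snd h3
  simp only [Prod.fst_add, Prod.snd_add, Prod.smul_fst, Prod.smul_snd, smul_eq_mul] at e1 e2
  have hv0 : v = 0 := by
    have : v * ori a b c = 0 := by
      unfold ori
      have hs' : s = 1 - t := by linarith
      have hu' : u = 1 - v := by linarith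
      subst hs' hu'
      linear_combination (b.1 - a.1) * e2 - (b.2 - a.2) * e1
    rcases mul_eq_zero.1 this with h0 | h0
    · exact h0
    · exact absurd h0 h.ne'
  subst hv0
  have hu1 : u = 1 := by linarith
  subst hu1
  rw [← h3]
  simp

private theorem base_side (a b c : Pl) (h4 : St_triLoc) (h : 0 < ori a b c) :
    ∀ m ∈ openSegment ℝ a b, ∃ δ > 0, ∀ x, dist x m < δ → 0 ≤ ori a b x → x ∈ tri a b c :=
  fun m hm => h4 a b c m h hm

theorem base_ok (_h1 : St_tri1) (_h2 : St_tri2) (h3 : St_tri3) (h4 : St_triLoc) : St_base := by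
  intro a b c h
  have hb : 0 < ori b c a := by rw [base_rot]; exact h
  have hc : 0 < ori c a b := by rw [base_rot, base_rot]; exact h
  obtain ⟨t1, t2, t3, t4, -⟩ := h3 a b c h
  have nab : a ≠ b := by
    rintro rfl
    simp [ori] at h
  have nac : a ≠ c := by
    rintro rfl
    unfold ori at h
    linarith
  have nbc : b ≠ c := by
    rintro rfl
    unfold ori at h
    linarith
  refine ⟨⟨by simp, by simp [nab, nac, nbc], ?_⟩, t3, ?_, t2, t1, ?_⟩
  · rw [base_cyc]
    intro e he e' he' hne x hx hx'
    simp only [List.mem_cons, List.not_mem_nil, or_false] at he he'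
    rcases he with rfl | rfl | rfl <;> rcases he' with rfl | rfl | rfl
    · exact absurd rfl hne
    · have := base_common a b c x h hx hx'
      exact ⟨Or.inr this, Or.inl this⟩
    · have := base_common c a b x hc hx' hx
      exact ⟨Or.inl this, Or.inr this⟩
    · have := base_common a b c x h hx' hx
      exact ⟨Or.inl this, Or.inr this⟩
    · exact absurd rfl hne
    · have := base_common b c a x hb hx hx'
      exact ⟨Or.inr this, Or.inl this⟩
    · have := base_common c a b x hc hx hx'
      exact ⟨Or.inr this, Or.inl this⟩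
    · have := base_common b c a x hb hx' hx
      exact ⟨Or.inl this, Or.inr this⟩
    · exact absurd rfl hne
  · rw [t4]
    ext x
    simp only [bdry, base_cyc, List.mem_cons, List.not_mem_nil, or_false, Set.mem_union,
      Set.mem_setOf_eq]
    constructor
    · rintro ((h | h) | h)
      · exact ⟨(a, b), Or.inl rfl, h⟩
      · exact ⟨(b, c), Or.inr (Or.inl rfl), h⟩
      · exact ⟨(c, a), Or.inr (Or.inr rfl), h⟩
    · rintro ⟨e, rfl | rfl | rfl, h⟩
      · exact Or.inl (Or.inl h)
      · exact Or.inl (Or.inr h)
      · exact Or.inr h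
  · rw [base_cyc]
    intro e he
    simp only [List.mem_cons, List.not_mem_nil, or_false] at he
    rcases he with rfl | rfl | rfl
    · exact base_side a b c h4 h
    · rw [← base_tri a b c]
      exact base_side b c a h4 hb
    · rw [← base_tri a b c, ← base_tri b c a]
      exact base_side c a b h4 hc

end Pool.Agent.H670R5
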