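import Pool.Agent.H670R5.St2

/-! Task BELOW. -/

namespace Pool.Agent.H670R5

open Pool.Agent.NPC Pool.Agent.H679R2

theorem below_aux (e1 e2 t c : ℝ) (hc : c ≤ 1 / 16) (h : t ≤ e1 ∨ e2 ≤ t) (he : e1 < e2) :
    -t ^ 2 + c ≤ chd e1 e2 t := by
  unfold chd
  have h1 : 0 ≤ (t - e1) * (t - e2) := by
    rcases h with h | h
    · exact mul_nonneg_of_nonpos_of_nonpos (by linarith) (by linarith)
    · exact mul_nonneg (by linarith) (by linarith)
  nlinarith

theorem below_ok (hX : St_X) (h1 : St_nd1) : St_below := by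
  intro n T pos J K hA e he v hv
  obtain ⟨a1, _, _, _, h2⟩ := (h1 n T pos J K hA).2 e he
  have h3 := ((hX n T pos J K hA).1 v hv).1
  have h4 := h2 _ h3
  show -(X n pos J K v) ^ 2 + (if v < n then 0 else 1 / 16) ≤ chd e.1 e.2 (X n pos J K v)
  apply below_aux _ _ _ _ _ h4 a1
  split_ifs <;> norm_num

end Pool.Agent.H670R5
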