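import Pool.Agent.H670R5.St2

/-!
# The interior of a polygonal region is a side of the polygon
-/

namespace Pool.Agent.H670R5

open Pool.Agent.NPC Pool.Agent.H679R2

theorem comp_ok : St_comp := by
  intro l P h
  have hcl : IsClosed P := h.compact.isClosed
  have hdisj : interior P ⊆ (bdry l)ᶜ := by
    intro y hy hy2
    rw [← h.front] at hy2
    exact hy2.2 hy
  obtain ⟨x, hx⟩ := h.conn.nonempty
  refine ⟨⟨x, hdisj hx, ?_⟩, ?_, ?_⟩
  · apply Set.Subset.antisymm
    · exact h.conn.isPreconnected.subset_connectedComponentIn hx hdisj
    · have hsub : connectedComponentIn (bdry l)ᶜ x ⊆ interior P ∪ Pᶜ := by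
        intro y hy
        have hy2 := connectedComponentIn_subset _ _ hy
        by_cases hyP : y ∈ P
        · left
          by_contra hni
          apply hy2
          rw [← h.front]
          exact ⟨subset_closure hyP, hni⟩
        · exact Or.inr hyP
      refine IsPreconnected.subset_left_of_subset_union isOpen_interior hcl.isOpen_compl ?_ hsub
        ⟨x, mem_connectedComponentIn (hdisj hx), hx⟩ isPreconnected_connectedComponentIn
      rw [Set.disjoint_left]
      intro y hy hy2
      exact hy2 (interior_subset hy)
  · exact h.compact.isBounded.subset interior_subset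
  · exact Set.Subset.antisymm (closure_minimal interior_subset hcl) h.dense

end Pool.Agent.H670R5
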