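import Pool.Agent.H670R5.St2

/-!
# The neighbours seen from an outer point are consecutive in the angular order
-/

namespace Pool.Agent.H670R5

open Pool.Agent.NPC Pool.Agent.H679R2

theorem cone_Ad {n : ℕ} {T : List (ℕ × ℕ × ℕ × Bool)} {x y : ℕ} (hx : x < n) (hy : y < n)
    (h : x ≠ y) : Ad n T x y := by
  unfold Ad adjH
  rcases Nat.lt_or_gt_of_ne h with h | h
  · left
    exact ⟨h, by simp [hy]⟩
  · right
    exact ⟨h, by simp [hx]⟩

theorem cone_aff (X Y U Z : Pl) (s t : ℝ) (hst : s + t = 1) :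
    ori X Y (s • U + t • Z) = s * ori X Y U + t * ori X Y Z := by
  have hs : s = 1 - t := by linarith
  subst hs
  unfold ori
  simp only [Prod.fst_add, Prod.snd_add, Prod.smul_fst, Prod.smul_snd, smul_eq_mul]
  ring

theorem cone_ok (h1 : St_tri1) (hH : St_half) (hU : St_hull) : St_cone := by
  intro n T p C hG u hnu hu x hx y hy z hz hux huy huz o1 o2
  have hxz : x ≠ z := fun h => huz (h ▸ hux)
  have hyz : y ≠ z := fun h => huz (h ▸ huy)
  have hxy : x ≠ y := by
    intro h
    subst h
    have e : ori (p u) (p z) (p x) = -ori (p u) (p x) (p z) := by unfold ori; ring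
    rw [e] at o2
    linarith
  have h3 : 3 ≤ n := by omega
  have hsz : n ≤ sz n T := by unfold sz; omega
  have hout := hU n T p C h3 hG u hnu hu ⟨z, hz, huz⟩
  have hfin : (p '' {v | v < n}).Finite := (Set.finite_lt_nat n).image p
  have o3 := hH (p u) _ hfin hout (p x) ⟨x, hx, rfl⟩ (p z) ⟨z, hz, rfl⟩ (p y) ⟨y, hy, rfl⟩ o1 o2
  have d1 := hG.tr u hu x (by omega) y (by omega) hux (cone_Ad hx hy hxy) huy
  have d2 := hG.tr x (by omega) z (by omega) y (by omega) (cone_Ad hx hz hxz)
    (cone_Ad hz hy hyz.symm) (cone_Ad hx hy hxy)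
  apply huz
  rw [hG.adj u hu z (by omega) (by omega), Set.disjoint_left]
  rintro w ⟨s, t, hs, ht, hst, rfl⟩ hwC
  have e1 : ori (p y) (p u) (p z) = ori (p u) (p z) (p y) := by unfold ori; ring
  have e2 : ori (p x) (p y) (p u) = ori (p u) (p x) (p y) := by unfold ori; ring
  have e3 : ori (p x) (p z) (p u) = ori (p u) (p x) (p z) := by unfold ori; ring
  have e4 : ori (p z) (p y) (p u) = ori (p u) (p z) (p y) := by unfold ori; ring
  have z1 : ori (p u) (p x) (p u) = 0 := by unfold ori; ring
  have z2 : ori (p y) (p u) (p u) = 0 := by unfold ori; ring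
  have z3 : ori (p x) (p z) (p z) = 0 := by unfold ori; ring
  have z4 : ori (p z) (p y) (p z) = 0 := by unfold ori; ring
  by_cases hc : 0 ≤ ori (p x) (p y) (s • p u + t • p z)
  · refine Set.disjoint_left.1 d1 ?_ hwC
    rw [h1 (p u) (p x) (p y) _ o3]
    refine ⟨?_, hc, ?_⟩
    · rw [cone_aff _ _ _ _ _ _ hst, z1, mul_zero, zero_add]
      exact mul_nonneg ht o1.le
    · rw [cone_aff _ _ _ _ _ _ hst, z2, mul_zero, zero_add, e1]
      exact mul_nonneg ht o2.le
  · push Not at hc
    have hneg : ori (p x) (p y) (p z) < 0 := by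
      rw [cone_aff _ _ _ _ _ _ hst, e2] at hc
      by_contra hcon
      push Not at hcon
      have := mul_nonneg hs o3.le
      have := mul_nonneg ht hcon
      linarith
    have e5 : ori (p x) (p z) (p y) = -ori (p x) (p y) (p z) := by unfold ori; ring
    have e6 : ori (p y) (p x) (s • p u + t • p z) = -ori (p x) (p y) (s • p u + t • p z) := by
      unfold ori; ring
    refine Set.disjoint_left.1 d2 ?_ hwC
    rw [h1 (p x) (p z) (p y) _ (by rw [e5]; linarith)]
    refine ⟨?_, ?_, ?_⟩
    · rw [cone_aff _ _ _ _ _ _ hst, z3, mul_zero, add_zero, e3]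
      exact mul_nonneg hs o1.le
    · rw [cone_aff _ _ _ _ _ _ hst, z4, mul_zero, add_zero, e4]
      exact mul_nonneg hs o2.le
    · rw [e6]
      linarith

end Pool.Agent.H670R5
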