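import Pool.Agent.H670R5.St2

set_option autoImplicit false

namespace Pool.Agent.H670R5

open Set Finset

private theorem conv_col {p q r : Pl} (h : ori p q r = 0) : Collinear ℝ {p, q, r} := by
  by_cases hpq : q = p
  · subst hpq
    have : ({q, q, r} : Set Pl) = {q, r} := by simp
    rw [this]
    exact collinear_pair ℝ q r
  · rw [collinear_iff_of_mem (p₀ := p) (by simp)]
    refine ⟨q - p, ?_⟩
    intro s hs
    simp only [Set.mem_insert_iff, Set.mem_singleton_iff] at hs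
    rcases hs with rfl | rfl | rfl
    · exact ⟨0, by simp⟩
    · exact ⟨1, by simp⟩
    · have hd : 0 < (q.1 - p.1) ^ 2 + (q.2 - p.2) ^ 2 := by
        by_contra hcon
        push Not at hcon
        apply hpq
        have h1 : q.1 - p.1 = 0 := by nlinarith [sq_nonneg (q.1 - p.1), sq_nonneg (q.2 - p.2)]
        have h2 : q.2 - p.2 = 0 := by nlinarith [sq_nonneg (q.1 - p.1), sq_nonneg (q.2 - p.2)]
        exact Prod.ext (by linarith) (by linarith)
      refine ⟨((s.1 - p.1) * (q.1 - p.1) + (s.2 - p.2) * (q.2 - p.2)) /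
        ((q.1 - p.1) ^ 2 + (q.2 - p.2) ^ 2), ?_⟩
      unfold ori at h
      ext
      · simp only [vadd_eq_add, Prod.fst_add, Prod.smul_fst, Prod.fst_sub, smul_eq_mul]
        field_simp
        linear_combination (-(q.2 - p.2)) * h
      · simp only [vadd_eq_add, Prod.snd_add, Prod.smul_snd, Prod.snd_sub, smul_eq_mul]
        field_simp
        linear_combination (q.1 - p.1) * h

theorem conv_ok (h1 : St_conv1) (h2 : St_conv2) (hs : St_sort) : St_conv := by
  intro n f hn hgp hb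
  have hne : ∀ u < n, ∀ v < n, ∀ w < n, u ≠ v → v ≠ w → u ≠ w → ori (f u) (f v) (f w) ≠ 0 :=
    fun u hu v hv w hw h1 h2 h3 h => hgp u hu v hv w hw h1 h2 h3 (conv_col h)
  obtain ⟨z0, hz0⟩ : ∃ z0 : Fin n, (z0 : ℕ) = 0 := ⟨⟨0, by omega⟩, rfl⟩
  have hanti : ∀ p q r : Pl, ori p q r = -ori p r q := by
    intro p q r
    unfold ori
    ring
  have hs' := hs n (fun a b => (a = z0 ∧ b ≠ z0) ∨ (a ≠ z0 ∧ b ≠ z0 ∧
    0 < ori (f z0) (f a) (f b)))
  suffices hex : ∃ σ : Equiv.Perm (Fin n), ∀ i j, i < j → ((σ i = z0 ∧ σ j ≠ z0) ∨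
      (σ i ≠ z0 ∧ σ j ≠ z0 ∧ 0 < ori (f z0) (f (σ i)) (f (σ j)))) by
    obtain ⟨σ, hσ⟩ := hex
    refine ⟨σ, fun i j k hij hjk => ?_⟩
    have hik := hij.trans hjk
    have hj0 : σ j ≠ z0 := by
      rcases hσ i j hij with h | h
      · exact h.2
      · exact h.2.1
    have hk0 : σ k ≠ z0 := by
      rcases hσ i k hik with h | h
      · exact h.2
      · exact h.2.1
    have hjk' : 0 < ori (f z0) (f (σ j)) (f (σ k)) := by
      rcases hσ j k hjk with h | h
      · exact absurd h.1 hj0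
      · exact h.2.2
    by_cases hi0 : σ i = z0
    · rw [hi0]
      exact hjk'
    · have hij' : 0 < ori (f z0) (f (σ i)) (f (σ j)) := by
        rcases hσ i j hij with h | h
        · exact absurd h.1 hi0
        · exact h.2.2
      have hik' : 0 < ori (f z0) (f (σ i)) (f (σ k)) := by
        rcases hσ i k hik with h | h
        · exact absurd h.1 hi0
        · exact h.2.2
      obtain ⟨b, hb⟩ := hb (σ j) (σ j).2
      have hvne : ∀ a b : Fin n, a ≠ b → (a : ℕ) ≠ b := fun a b h h' => h (Fin.ext h')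
      have n1 : (z0 : ℕ) ≠ σ j := hvne _ _ hj0.symm
      have n2 : (σ i : ℕ) ≠ σ j := hvne _ _ fun h => hij.ne (σ.injective h)
      have n3 : (σ k : ℕ) ≠ σ j := hvne _ _ fun h => hjk.ne' (σ.injective h)
      have n4 : (σ i : ℕ) ≠ σ k := hvne _ _ fun h => hik.ne (σ.injective h)
      refine h2 (f z0) (f (σ i)) (f (σ j)) (f (σ k)) b ?_ hij' hjk' hik'
        (hne _ (σ i).2 _ (σ j).2 _ (σ k).2 n2 n3.symm n4)
      rcases hb with hb | hb
      · left
        exact ⟨hb _ z0.2 n1, hb _ (σ i).2 n2, hb _ (σ k).2 n3⟩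
      · right
        exact ⟨hb _ z0.2 n1, hb _ (σ i).2 n2, hb _ (σ k).2 n3⟩
  refine hs' ?_ ?_ ?_
  · intro a b hab
    by_cases ha : a = z0
    · subst ha
      exact Or.inl (Or.inl ⟨rfl, fun h => hab h.symm⟩)
    · by_cases hb0 : b = z0
      · subst hb0
        exact Or.inr (Or.inl ⟨rfl, ha⟩)
      · have hvne : ∀ a b : Fin n, a ≠ b → (a : ℕ) ≠ b := fun a b h h' => h (Fin.ext h')
        have h3 := hne _ z0.2 _ a.2 _ b.2 (hvne _ _ fun h => ha h.symm) (hvne _ _ hab)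
          (hvne _ _ fun h => hb0 h.symm)
        rcases lt_or_gt_of_ne h3 with h4 | h4
        · right
          right
          refine ⟨hb0, ha, ?_⟩
          rw [hanti]
          linarith
        · left
          right
          exact ⟨ha, hb0, h4⟩
  · rintro a b (⟨h3, h4⟩ | ⟨h3, h4, h5⟩) (⟨h6, h7⟩ | ⟨h6, h7, h8⟩)
    · exact h4 h6
    · exact h7 h3
    · exact h4 h6
    · rw [hanti] at h8
      linarith
  · rintro a b c (⟨h3, h4⟩ | ⟨h3, h4, h5⟩) (⟨h6, h7⟩ | ⟨h6, h7, h8⟩)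
    · exact absurd h6 h4
    · exact Or.inl ⟨h3, h7⟩
    · exact absurd h6 h4
    · right
      refine ⟨h3, h7, ?_⟩
      obtain ⟨b0, hb0⟩ := hb z0 z0.2
      have hvne : ∀ a b : Fin n, a ≠ b → (a : ℕ) ≠ b := fun a b h h' => h (Fin.ext h')
      refine h1 (f z0) b0 (f a) (f b) (f c) ?_ h5 h8
      rcases hb0 with hb0 | hb0
      · left
        exact ⟨hb0 _ a.2 (hvne _ _ h3), hb0 _ b.2 (hvne _ _ h4), hb0 _ c.2 (hvne _ _ h7)⟩
      · right
        exact ⟨hb0 _ a.2 (hvne _ _ h3), hb0 _ b.2 (hvne _ _ h4), hb0 _ c.2 (hvne _ _ h7)⟩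

end Pool.Agent.H670R5
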