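import Pool.Agent.H670R5.St2

set_option autoImplicit false

namespace Pool.Agent.H670R5

open Set Finset

theorem conv1_ok : St_conv1 := by
  intro z b x y w hb h1 h2
  have key : ori z x w * ori b z y = ori z x y * ori b z w + ori z y w * ori b z x := by
    unfold ori
    ring
  rcases hb with ⟨hx, hy, hw⟩ | ⟨hx, hy, hw⟩
  · have h3 : 0 < ori z x w * ori b z y := by
      rw [key]
      exact add_pos (mul_pos h1 hw) (mul_pos h2 hx)
    by_contra hcon
    push Not at hcon
    have := mul_nonpos_of_nonpos_of_nonneg hcon hy.le
    linarith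
  · have h3 : ori z x w * ori b z y < 0 := by
      rw [key]
      exact add_neg (mul_neg_of_pos_of_neg h1 hw) (mul_neg_of_pos_of_neg h2 hx)
    by_contra hcon
    push Not at hcon
    have := mul_nonneg_of_nonpos_of_nonpos hcon hy.le
    linarith

end Pool.Agent.H670R5
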