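import Pool.Agent.H670R5.St2

namespace Pool.Agent.H670R5

open Pool.Agent.NPC Pool.Agent.H679R2

private lemma conv2_id (z a c d b : Pl) : ori z a c * ori b c d + ori z c d * ori b c a +
    (-ori a c d) * ori b c z = 0 := by
  unfold ori
  ring

theorem conv2_ok : St_conv2 := by
  intro z a c d b h h1 h2 h3 h4
  by_contra hc
  push Not at hc
  have h5 : 0 < -ori a c d := by
    have := lt_of_le_of_ne hc h4
    linarith
  have h6 := conv2_id z a c d b
  rcases h with ⟨g1, g2, g3⟩ | ⟨g1, g2, g3⟩
  · have e1 := mul_pos h1 g3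
    have e2 := mul_pos h2 g2
    have e3 := mul_pos h5 g1
    linarith
  · have e1 := mul_neg_of_pos_of_neg h1 g3
    have e2 := mul_neg_of_pos_of_neg h2 g2
    have e3 := mul_neg_of_pos_of_neg h5 g1
    linarith

end Pool.Agent.H670R5
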