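import Pool.Agent.H670R5.St2

/-!
# DIR: a direction pointing into a triangle (helper202)
-/

namespace Pool.Agent.H670R5

open Pool.Agent.NPC Pool.Agent.H679R2

private theorem dir_tri_comm (a b c : Pl) : tri a c b = tri a b c := by
  unfold tri
  rw [Set.pair_comm c b]

theorem dir_ok (h2 : St_tri2) : St_dir := by
  intro B A t z P α β hne htri hopen hα hβ hz
  have e1 : z.1 - B.1 = α * (A.1 - B.1) + β * (t.1 - B.1) := by
    have := congrArg Prod.fst hz
    simpa using this
  have e2 : z.2 - B.2 = α * (A.2 - B.2) + β * (t.2 - B.2) := by
    have := congrArg Prod.snd hz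
    simpa using this
  set s : ℝ := 1 / (1 + α + β) with hs
  have hden : 0 < 1 + α + β := by linarith
  have hs0 : 0 < s := by positivity
  have hs1 : s * (1 + α + β) = 1 := by
    rw [hs]
    field_simp
  have hs2 : s ≤ 1 := by nlinarith [mul_pos hs0 hα, mul_nonneg hs0.le hβ]
  have hs3 : 0 < 1 - s * α - s * β := by nlinarith
  refine ⟨B + s • (z - B), ?_, ?_⟩
  · rw [segment_eq_image']
    exact ⟨s, ⟨hs0.le, hs2⟩, rfl⟩
  · rcases hβ.eq_or_lt with h0 | h0
    · apply hopen
      rw [openSegment_eq_image']
      refine ⟨s * α, ⟨mul_pos hs0 hα, ?_⟩, ?_⟩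
      · rw [← h0] at hs3
        linarith
      · show B + (s * α) • (A - B) = B + s • (z - B)
        rw [hz, ← h0, zero_smul, add_zero, smul_smul]
    · have c1 : (B + s • (z - B)).1 = B.1 + s * (α * (A.1 - B.1) + β * (t.1 - B.1)) := by
        rw [← e1]; simp
      have c2 : (B + s • (z - B)).2 = B.2 + s * (α * (A.2 - B.2) + β * (t.2 - B.2)) := by
        rw [← e2]; simp
      rcases lt_or_gt_of_ne hne with hneg | hpos
      · apply interior_mono htri
        rw [← dir_tri_comm B A t]
        have hp : 0 < ori B t A := by
          have : ori B t A = - ori B A t := by unfold ori; ring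
          linarith
        rw [h2 B t A _ hp]
        refine ⟨?_, ?_, ?_⟩
        · have : ori B t (B + s • (z - B)) = (s * α) * ori B t A := by
            unfold ori; rw [c1, c2]; ring
          rw [this]
          exact mul_pos (mul_pos hs0 hα) hp
        · have : ori t A (B + s • (z - B)) = (1 - s * α - s * β) * ori B t A := by
            unfold ori; rw [c1, c2]; ring
          rw [this]
          exact mul_pos hs3 hp
        · have : ori A B (B + s • (z - B)) = (s * β) * ori B t A := by
            unfold ori; rw [c1, c2]; ring
          rw [this]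
          exact mul_pos (mul_pos hs0 h0) hp
      · apply interior_mono htri
        rw [h2 B A t _ hpos]
        refine ⟨?_, ?_, ?_⟩
        · have : ori B A (B + s • (z - B)) = (s * β) * ori B A t := by
            unfold ori; rw [c1, c2]; ring
          rw [this]
          exact mul_pos (mul_pos hs0 h0) hpos
        · have : ori A t (B + s • (z - B)) = (1 - s * α - s * β) * ori B A t := by
            unfold ori; rw [c1, c2]; ring
          rw [this]
          exact mul_pos hs3 hpos
        · have : ori t B (B + s • (z - B)) = (s * α) * ori B A t := by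
            unfold ori; rw [c1, c2]; ring
          rw [this]
          exact mul_pos (mul_pos hs0 hα) hpos

end Pool.Agent.H670R5
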