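import Pool.Agent.H670R5.St2

/-! Task DISP. -/

namespace Pool.Agent.H670R5

open Pool.Agent.NPC Pool.Agent.H679R2 Filter Topology

theorem disp_lin (g0 g1 : ℝ) (h0 : 0 ≤ g0) (h : 0 < g0 ∨ 0 < g1) :
    ∀ᶠ τ in 𝓝[>] (0 : ℝ), 0 < g0 + τ * g1 := by
  rcases h with h | h
  · have h1 : Tendsto (fun τ : ℝ => g0 + τ * g1) (𝓝 0) (𝓝 (g0 + 0 * g1)) :=
      (continuous_const.add (continuous_id.mul continuous_const)).tendsto 0
    have h2 : 0 < g0 + 0 * g1 := by linarith
    exact nhdsWithin_le_nhds (h1.eventually (lt_mem_nhds h2))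
  · filter_upwards [self_mem_nhdsWithin] with τ hτ
    have h3 : (0 : ℝ) < τ := hτ
    have := mul_pos h3 h
    linarith

theorem disp_h (n : ℕ) (T : List (ℕ × ℕ × ℕ × Bool)) (pos J K : ℕ → ℕ) (hA : Arr n T pos J K)
    (v : ℕ) (h2 : 2 * n ≤ v) (hv : v < sz n T) :
    (sg J K (v - 2 * n) = 1 ∨ sg J K (v - 2 * n) = -1) ∧
      3 / 2 ≤ sg J K (v - 2 * n) * hh J K (v - 2 * n) := by
  unfold sz at hv
  have hi : v - 2 * n < T.length := by omega
  obtain ⟨h3, h4⟩ := hA.ne (v - 2 * n) hi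
  unfold sg hh
  split_ifs with h
  · refine ⟨Or.inl rfl, ?_⟩
    have h5 : J (v - 2 * n) + 1 ≤ K (v - 2 * n) := by omega
    have h6 : (J (v - 2 * n) : ℝ) + 1 ≤ K (v - 2 * n) := by exact_mod_cast h5
    linarith
  · refine ⟨Or.inr rfl, ?_⟩
    have h5 : K (v - 2 * n) + 2 ≤ J (v - 2 * n) := by omega
    have h6 : (K (v - 2 * n) : ℝ) + 2 ≤ J (v - 2 * n) := by exact_mod_cast h5
    linarith

theorem disp_ok (hX : St_X) (h1 : St_nd1) : St_disp := by
  intro n T pos J K hA
  have hXX := (hX n T pos J K hA).1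
  have hnd := (h1 n T pos J K hA).2
  have hall : ∀ v ∈ Finset.range (sz n T), ∀ᶠ τ in 𝓝[>] (0 : ℝ),
      -1 < (Qt n pos J K τ v).1 ∧ (Qt n pos J K τ v).1 < n ∧ (Qt n pos J K τ v).2 < 1 ∧
      ∀ e ∈ (nd n T pos J K).zip (nd n T pos J K).tail,
      (Qt n pos J K τ v).2 < chd e.1 e.2 (Qt n pos J K τ v).1 := by
    intro v hv
    have hv' := Finset.mem_range.mp hv
    obtain ⟨hx1, hx2, hx3⟩ := hXX v hv'
    obtain ⟨x, hx⟩ : ∃ x, x = X n pos J K v := ⟨_, rfl⟩
    obtain ⟨c, hc⟩ : ∃ c : ℝ, c = (if v < n then 0 else 1 / 16) := ⟨_, rfl⟩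
    obtain ⟨d, hd⟩ : ∃ d, d = dirV n pos J K v := ⟨_, rfl⟩
    have hQ1 : ∀ τ, (Qt n pos J K τ v).1 = x + τ * d.1 := fun τ => by
      rw [hx, hd]; rfl
    have hQ2 : ∀ τ, (Qt n pos J K τ v).2 = (-x ^ 2 + c) + τ * d.2 := fun τ => by
      rw [hx, hd, hc]; rfl
    rw [← hx] at hx1 hx2 hx3
    have hc1 : c ≤ 1 / 16 := by rw [hc]; split_ifs <;> norm_num
    have b1 := disp_lin (x + 1) d.1 (by linarith) (Or.inl (by linarith))
    have b2 := disp_lin (n - x) (-d.1) (by linarith) (Or.inl (by linarith))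
    have b3 := disp_lin (1 - (-x ^ 2 + c)) (-d.2) (by nlinarith [sq_nonneg x])
      (Or.inl (by nlinarith [sq_nonneg x]))
    have b4 : ∀ᶠ τ in 𝓝[>] (0 : ℝ), ∀ e ∈ ((nd n T pos J K).zip (nd n T pos J K).tail).toFinset,
        0 < (chd e.1 e.2 x - (-x ^ 2 + c)) + τ * (-(e.1 + e.2) * d.1 - d.2) := by
      rw [Filter.eventually_all_finset]
      intro e he
      rw [List.mem_toFinset] at he
      obtain ⟨e1, e2, _, _, e3⟩ := hnd e he
      have h4 := e3 x hx1
      have h5 : chd e.1 e.2 x - (-x ^ 2 + c) = (x - e.1) * (x - e.2) + (1 / 16 - c) := by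
        unfold chd; ring
      have h6 : 0 ≤ (x - e.1) * (x - e.2) := by
        rcases h4 with h | h
        · exact mul_nonneg_of_nonpos_of_nonpos (by linarith) (by linarith)
        · exact mul_nonneg (by linarith) (by linarith)
      apply disp_lin
      · rw [h5]; linarith
      · rw [h5]
        by_cases hvn : v < n
        · left
          have : c = 0 := by rw [hc, if_pos hvn]
          rw [this]; linarith
        · have hcc : c = 1 / 16 := by rw [hc, if_neg hvn]
          rcases h6.lt_or_eq with h7 | h7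
          · left; rw [hcc]; linarith
          · right
            have h8 : x = e.1 ∨ x = e.2 := by
              rcases mul_eq_zero.mp h7.symm with h | h
              · left; linarith
              · right; linarith
            by_cases hv2 : v < 2 * n
            · have hdd : d = (0, -1) := by
                rw [hd]; unfold dirV; rw [if_neg hvn, if_pos hv2]
              rw [hdd]; simp
            · have hdd : d = (sg J K (v - 2 * n),
                  sg J K (v - 2 * n) * (-(hh J K (v - 2 * n)) - 2 * X n pos J K v)) := by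
                rw [hd]; unfold dirV; rw [if_neg hvn, if_neg hv2]
              obtain ⟨s1, s2⟩ := disp_h n T pos J K hA v (not_lt.mp hv2) hv'
              rw [hdd, ← hx]
              show 0 < -(e.1 + e.2) * sg J K (v - 2 * n) -
                sg J K (v - 2 * n) * (-(hh J K (v - 2 * n)) - 2 * x)
              rcases s1 with s | s <;> rw [s] at s2 ⊢ <;> rcases h8 with h9 | h9 <;> linarith
    filter_upwards [b1, b2, b3, b4] with τ c1 c2 c3 c4
    refine ⟨?_, ?_, ?_, ?_⟩
    · rw [hQ1]; linarith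
    · rw [hQ1]; linarith
    · rw [hQ2]; linarith
    · intro e he
      have h := c4 e (List.mem_toFinset.mpr he)
      rw [hQ1, hQ2]
      unfold chd at h ⊢
      linarith
  rw [← Filter.eventually_all_finset] at hall
  obtain ⟨t0, ht0, ht⟩ := mem_nhdsGT_iff_exists_Ioo_subset.mp hall
  exact ⟨t0, ht0, fun τ h3 h4 v hv => ht ⟨h3, h4⟩ v (Finset.mem_range.mpr hv)⟩

end Pool.Agent.H670R5
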