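import Pool.Agent.H670R5.St2

namespace Pool.Agent.H670R5

open Pool.Agent.NPC Pool.Agent.H679R2

/-- every vertex is an endpoint of an edge -/
theorem EAR_mem_bdry (l : List Pl) (v : Pl) (hv : v ∈ l) : v ∈ bdry l := by
  obtain ⟨i, hi, rfl⟩ := List.getElem_of_mem hv
  refine ⟨(l[i], (l.rotate 1)[i]'(by simpa using hi)), ?_, left_mem_segment ℝ _ _⟩
  unfold cycEdges
  rw [List.mem_iff_getElem]
  refine ⟨i, by simpa using hi, ?_⟩
  simp

theorem EAR_bdry_sub (l : List Pl) (P : Set Pl) (h : PolyReg l P) : bdry l ⊆ P := by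
  rw [← h.front]
  exact h.compact.isClosed.frontier_subset

theorem EAR_ori_segment (p q x : Pl) (hx : x ∈ segment ℝ p q) : ori p q x = 0 := by
  obtain ⟨a, b, ha, hb, hab, rfl⟩ := hx
  have h1 : a = 1 - b := by linarith
  subst h1
  simp only [ori, Prod.fst_add, Prod.snd_add, Prod.smul_fst, Prod.smul_snd, smul_eq_mul]
  ring

theorem ear_ok (hL : St_earList) (hS : St_earSimple) (hF : St_earFront) (hF2 : St_earFront2)
    (hC : St_earConn) (hSd : St_earSide) : St_ear := by
  intro l P p q w hP hpq ho ht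
  have hb := EAR_bdry_sub l P hP
  have hw : w ∉ l := by
    intro hw
    have h1 : w ∈ P := hb (EAR_mem_bdry l w hw)
    have h2 : w ∈ tri p q w := subset_convexHull ℝ _ (by simp)
    have h3 := EAR_ori_segment p q w (ht ⟨h2, h1⟩)
    linarith
  obtain ⟨l', hlen, hnd, hI⟩ := hL l p q w hP.simple.1 hP.simple.2.1 hpq hw
  obtain ⟨hc1, hc2⟩ := hC l P p q w hP hpq ho
  refine ⟨l', ⟨hS l l' P p q w hP.simple hb hpq ho ht hlen hnd hI, ?_, ?_, hc1, hc2, ?_⟩, hI⟩
  · refine hP.compact.union ?_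
    unfold tri
    exact Set.Finite.isCompact_convexHull _ (Set.toFinite _)
  · exact Set.Subset.antisymm (hF l l' P p q w hP hpq ho hI) (hF2 l l' P p q w hP hpq ho ht hI)
  · exact hSd l l' P p q w hP hpq ho hI

end Pool.Agent.H670R5
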