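import Pool.Agent.H670R5.St2

/-!
Task EARCON.
-/

namespace Pool.Agent.H670R5

open Pool.Agent.NPC Pool.Agent.H679R2

theorem earConn_ok (h3 : St_tri3) (hI : St_earInt) : St_earConn := by
  intro l P p q w hP he hori
  obtain ⟨hI1, hI2, hI3⟩ := hI l P p q w hP he hori
  have htri : tri p q w = tri q p w := by
    unfold tri
    rw [Set.insert_comm]
  have ho : 0 < ori q p w := by
    have : ori q p w = - ori p q w := by unfold ori; ring
    rw [this]; linarith
  obtain ⟨hT1, hT2, -, -, -⟩ := h3 q p w ho
  rw [← htri] at hT1 hT2
  have hne : (openSegment ℝ p q).Nonempty :=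
    ⟨(1/2 : ℝ) • p + (1/2 : ℝ) • q, 1/2, 1/2, by norm_num, by norm_num, by norm_num, rfl⟩
  have hA : IsPreconnected (interior P ∪ openSegment ℝ p q) :=
    hP.conn.isPreconnected.subset_closure Set.subset_union_left
      (Set.union_subset subset_closure hI2)
  have hB : IsPreconnected (interior (tri p q w) ∪ openSegment ℝ p q) :=
    hT2.isPreconnected.subset_closure Set.subset_union_left
      (Set.union_subset subset_closure hI3)
  have hAB : IsPreconnected ((interior P ∪ openSegment ℝ p q) ∪
      (interior (tri p q w) ∪ openSegment ℝ p q)) := by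
    obtain ⟨x, hx⟩ := hne
    exact IsPreconnected.union x (Or.inr hx) (Or.inr hx) hA hB
  have h1 : interior P ⊆ interior (P ∪ tri p q w) := interior_mono Set.subset_union_left
  have h2 : interior (tri p q w) ⊆ interior (P ∪ tri p q w) := interior_mono Set.subset_union_right
  have hsub : (interior P ∪ openSegment ℝ p q) ∪ (interior (tri p q w) ∪ openSegment ℝ p q) ⊆
      interior (P ∪ tri p q w) :=
    Set.union_subset (Set.union_subset h1 hI1) (Set.union_subset h2 hI1)
  have hPT : P ∪ tri p q w ⊆ closure ((interior P ∪ openSegment ℝ p q) ∪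
      (interior (tri p q w) ∪ openSegment ℝ p q)) := by
    refine Set.union_subset ?_ ?_
    · exact hP.dense.trans (closure_mono (Set.subset_union_left.trans Set.subset_union_left))
    · exact hT1.trans (closure_mono (Set.subset_union_left.trans Set.subset_union_right))
  refine ⟨⟨?_, ?_⟩, ?_⟩
  · obtain ⟨x, hx⟩ := hP.conn.nonempty
    exact ⟨x, h1 hx⟩
  · exact hAB.subset_closure hsub (interior_subset.trans hPT)
  · exact hPT.trans (closure_mono hsub)

end Pool.Agent.H670R5
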