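import Pool.Agent.H670R5.St2

/-!
# The boundary after attaching a triangle, second inclusion
-/

namespace Pool.Agent.H670R5

open Pool.Agent.NPC Pool.Agent.H679R2

private theorem earFront2_fr {A B : Set Pl} {x : Pl} (hx : x ∈ frontier A) (hB : IsClosed B)
    (hxB : x ∉ B) : x ∈ frontier (A ∪ B) := by
  rw [frontier, Set.mem_sdiff] at hx ⊢
  refine ⟨closure_mono Set.subset_union_left hx.1, fun h => hx.2 ?_⟩
  rw [mem_interior]
  refine ⟨interior (A ∪ B) ∩ Bᶜ, ?_, isOpen_interior.inter hB.isOpen_compl, h, hxB⟩
  rintro y ⟨hy1, hy2⟩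
  rcases interior_subset hy1 with h | h
  · exact h
  · exact absurd h hy2

private theorem earFront2_ne {l : List Pl} (h3 : 3 ≤ l.length) (hn : l.Nodup) {e : Pl × Pl}
    (he : e ∈ cycEdges l) : e.1 ≠ e.2 := by
  rw [cycEdges, List.mem_iff_getElem] at he
  obtain ⟨i, hi, rfl⟩ := he
  rw [List.getElem_zip]
  simp only [List.length_zip, List.length_rotate, min_self] at hi
  simp only [List.getElem_rotate]
  intro h
  have h' := (List.Nodup.getElem_inj_iff hn).1 h
  rcases Nat.lt_or_ge (i + 1) l.length with h1 | h1
  · rw [Nat.mod_eq_of_lt h1] at h'; omega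
  · have : i + 1 = l.length := by omega
    rw [this, Nat.mod_self] at h'; omega

private theorem earFront2_ori (p q : Pl) {a b x : Pl} (hx : x ∈ openSegment ℝ a b) :
    ∃ s t : ℝ, 0 < s ∧ 0 < t ∧ s + t = 1 ∧ ori p q x = s * ori p q a + t * ori p q b := by
  obtain ⟨s, t, hs, ht, hst, rfl⟩ := hx
  refine ⟨s, t, hs, ht, hst, ?_⟩
  have hs' : s = 1 - t := by linarith
  subst hs'
  simp only [ori, Prod.fst_add, Prod.snd_add, Prod.smul_fst, Prod.smul_snd, smul_eq_mul]
  ring

private theorem earFront2_seg {p q x : Pl} (hx : x ∈ segment ℝ p q) : ori p q x = 0 := by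
  obtain ⟨s, t, hs, ht, hst, rfl⟩ := hx
  have hs' : s = 1 - t := by linarith
  subst hs'
  simp only [ori, Prod.fst_add, Prod.snd_add, Prod.smul_fst, Prod.smul_snd, smul_eq_mul]
  ring

theorem earFront2_ok (h3 : St_tri3) (_h2 : St_tri2) : St_earFront2 := by
  intro l l' P p q w hP hpq hw hTP hIns
  have hqp : 0 < ori q p w := by
    have : ori q p w = - ori p q w := by simp only [ori]; ring
    linarith
  have hT : tri q p w = tri p q w := by
    simp only [tri]; rw [Set.insert_comm]
  obtain ⟨_, _, hTc, hTf, _⟩ := h3 q p w hqp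
  rw [hT] at hTc hTf
  have hTcl : IsClosed (tri p q w) := hTc.isClosed
  have hPcl : IsClosed P := hP.compact.isClosed
  have hbP : bdry l ⊆ P := by
    rw [← hP.front]; exact hPcl.frontier_subset
  -- reduction to open sides
  have key : ∀ e ∈ cycEdges l', openSegment ℝ e.1 e.2 ⊆ frontier (P ∪ tri p q w) := by
    intro e he x hx
    rcases (hIns e).1 he with ⟨he1, he2⟩ | rfl | rfl
    · have hxs : x ∈ segment ℝ e.1 e.2 := openSegment_subset_segment ℝ _ _ hx
      have hxb : x ∈ bdry l := ⟨e, he1, hxs⟩
      have hne := earFront2_ne hP.simple.1 hP.simple.2.1 he1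
      refine earFront2_fr (by rw [hP.front]; exact hxb) hTcl ?_
      intro hxT
      have hxpq : x ∈ segment ℝ p q := hTP ⟨hxT, hbP hxb⟩
      have := (hP.simple.2.2 e he1 (p, q) hpq he2 x hxs hxpq).1
      rcases this with h | h
      · rw [h] at hx; exact hne (left_mem_openSegment_iff.1 hx)
      · rw [h] at hx; exact hne (right_mem_openSegment_iff.1 hx)
    · simp only at hx
      rw [Set.union_comm]
      refine earFront2_fr ?_ hPcl ?_
      · rw [hTf]
        exact Or.inl (Or.inr (openSegment_subset_segment ℝ _ _ hx))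
      · intro hxP
        have hxT : x ∈ tri p q w := by
          have : x ∈ frontier (tri p q w) := by
            rw [hTf]; exact Or.inl (Or.inr (openSegment_subset_segment ℝ _ _ hx))
          exact hTcl.frontier_subset this
        have h0 := earFront2_seg (hTP ⟨hxT, hxP⟩)
        obtain ⟨s, t, hs, ht, hst, ho⟩ := earFront2_ori p q hx
        have hpp : ori p q p = 0 := by simp only [ori]; ring
        rw [h0, hpp] at ho
        nlinarith
    · simp only at hx
      rw [Set.union_comm]
      refine earFront2_fr ?_ hPcl ?_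
      · rw [hTf]
        exact Or.inr (openSegment_subset_segment ℝ _ _ hx)
      · intro hxP
        have hxT : x ∈ tri p q w := by
          have : x ∈ frontier (tri p q w) := by
            rw [hTf]; exact Or.inr (openSegment_subset_segment ℝ _ _ hx)
          exact hTcl.frontier_subset this
        have h0 := earFront2_seg (hTP ⟨hxT, hxP⟩)
        obtain ⟨s, t, hs, ht, hst, ho⟩ := earFront2_ori p q hx
        have hpp : ori p q q = 0 := by simp only [ori]; ring
        rw [h0, hpp] at ho
        nlinarith
  rintro x ⟨e, he, hx⟩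
  rw [← closure_openSegment] at hx
  exact closure_minimal (key e he) isClosed_frontier hx

end Pool.Agent.H670R5
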