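import Pool.Agent.H670R5.St2

namespace Pool.Agent.H670R5

open Pool.Agent.NPC Pool.Agent.H679R2

private theorem earInt_anti (p q x : Pl) : ori q p x = - ori p q x := by
  unfold ori
  ring

private theorem earInt_tri (p q w : Pl) : tri q p w = tri p q w := by
  unfold tri
  rw [Set.insert_comm]

private theorem earInt_zero {p q m : Pl} (hm : m ∈ openSegment ℝ p q) : ori p q m = 0 := by
  obtain ⟨α, β, _, _, hab, rfl⟩ := hm
  unfold ori
  simp only [Prod.fst_add, Prod.snd_add, Prod.smul_fst, Prod.smul_snd, smul_eq_mul]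
  have : α = 1 - β := by linarith
  subst this
  ring

private theorem earInt_push (p q m : Pl) (s : ℝ) :
    ori p q (m.1 - s * (q.2 - p.2), m.2 + s * (q.1 - p.1)) =
      ori p q m + s * ((q.1 - p.1) ^ 2 + (q.2 - p.2) ^ 2) := by
  unfold ori
  ring

private theorem earInt_cont (p q : Pl) : Continuous (fun x : Pl => ori p q x) := by
  unfold ori
  fun_prop

theorem earInt_ok (h : St_triLoc) (h3 : St_tri3) : St_earInt := by
  intro l P p q w hP hpq hw
  have hw' : 0 < ori q p w := by
    rw [earInt_anti]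
    linarith
  refine ⟨?_, ?_, ?_⟩
  · intro m hm
    obtain ⟨δ₁, hδ₁, h1⟩ := hP.side (p, q) hpq m hm
    obtain ⟨δ₂, hδ₂, h2⟩ := h q p w m hw' (by rw [openSegment_symm]; exact hm)
    rw [mem_interior_iff_mem_nhds]
    refine Filter.mem_of_superset (Metric.ball_mem_nhds m (lt_min hδ₁ hδ₂)) ?_
    intro x hx
    rw [Metric.mem_ball] at hx
    rcases le_total 0 (ori p q x) with hx0 | hx0
    · exact Or.inl (h1 x (lt_of_lt_of_le hx (min_le_left _ _)) hx0)
    · right
      rw [← earInt_tri]
      refine h2 x (lt_of_lt_of_le hx (min_le_right _ _)) ?_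
      rw [earInt_anti]
      linarith
  · intro m hm
    obtain ⟨δ₁, hδ₁, h1⟩ := hP.side (p, q) hpq m hm
    have h0 := earInt_zero hm
    have hne : 0 < (q.1 - p.1) ^ 2 + (q.2 - p.2) ^ 2 := by
      have hn : ¬ (q.1 - p.1 = 0 ∧ q.2 - p.2 = 0) := by
        rintro ⟨e1, e2⟩
        unfold ori at hw
        rw [e1, e2] at hw
        linarith
      by_contra hcon
      push Not at hcon
      apply hn
      constructor
      · nlinarith [sq_nonneg (q.1 - p.1), sq_nonneg (q.2 - p.2)]
      · nlinarith [sq_nonneg (q.1 - p.1), sq_nonneg (q.2 - p.2)]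
    have htend : Filter.Tendsto
        (fun s : ℝ => ((m.1 - s * (q.2 - p.2), m.2 + s * (q.1 - p.1)) : Pl))
        (nhdsWithin 0 (Set.Ioi 0)) (nhds m) := by
      refine (Continuous.tendsto' (by fun_prop) 0 m (by simp)).mono_left nhdsWithin_le_nhds
    refine mem_closure_of_tendsto htend ?_
    filter_upwards [htend.eventually (Metric.ball_mem_nhds m hδ₁), self_mem_nhdsWithin] with s hs hs0
    have hopen : IsOpen ({x : Pl | 0 < ori p q x} ∩ Metric.ball m δ₁) :=
      (isOpen_lt continuous_const (earInt_cont p q)).inter Metric.isOpen_ball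
    have hsub : ({x : Pl | 0 < ori p q x} ∩ Metric.ball m δ₁) ⊆ P := by
      rintro x ⟨hx1, hx2⟩
      exact h1 x hx2 (le_of_lt hx1)
    refine interior_maximal hsub hopen ⟨?_, hs⟩
    show 0 < ori p q _
    rw [earInt_push, h0]
    have : 0 < s := hs0
    positivity
  · rw [openSegment_symm, ← earInt_tri]
    exact (h3 q p w hw').2.2.2.2

end Pool.Agent.H670R5
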