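import Pool.Agent.H670R5.St2

namespace Pool.Agent.H670R5

open Pool.Agent.NPC Pool.Agent.H679R2

private theorem earList_rot (l : List Pl) (k : ℕ) (e : Pl × Pl) :
    e ∈ cycEdges (l.rotate k) ↔ e ∈ cycEdges l := by
  unfold cycEdges
  rw [List.rotate_rotate, Nat.add_comm k 1, ← List.rotate_rotate]
  have h := List.zipWith_rotate_distrib (Prod.mk) l (l.rotate 1) k (by simp)
  rw [← List.zip_eq_zipWith, ← List.zip_eq_zipWith] at h
  rw [← h, List.mem_rotate]

private theorem earList_cyc (M : List Pl) (a p : Pl) :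
    cycEdges (a :: (M ++ [p])) = (a :: M).zip (M ++ [p]) ++ [(p, a)] := by
  unfold cycEdges
  rw [List.rotate_cons_succ, List.rotate_zero, ← List.cons_append, List.zip_append (by simp)]
  rfl

theorem earList_ok : St_earList := by
  intro l p q w hlen hnd hpq hw
  have hp : p ∈ l := (List.of_mem_zip hpq).1
  obtain ⟨L1, L2, rfl⟩ := List.append_of_mem hp
  have hrot : (L1 ++ p :: L2).rotate (L1.length + 1) = L2 ++ L1 ++ [p] := by
    have h1 : L1 ++ p :: L2 = (L1 ++ [p]) ++ L2 := by simp
    have h2 : L1.length + 1 = (L1 ++ [p]).length := by simp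
    rw [h1, h2, List.rotate_append_length_eq, List.append_assoc]
  have hm : ∀ e, e ∈ cycEdges (L2 ++ L1 ++ [p]) ↔ e ∈ cycEdges (L1 ++ p :: L2) := by
    intro e
    rw [← hrot, earList_rot]
  have hlen2 : 2 ≤ (L2 ++ L1).length := by
    simp only [List.length_append, List.length_cons] at hlen ⊢
    omega
  have hnd2 : (L2 ++ L1 ++ [p]).Nodup := by
    rw [← hrot, List.nodup_rotate]
    exact hnd
  have hw2 : w ∉ L2 ++ L1 ++ [p] := by
    rw [← hrot, List.mem_rotate]
    exact hw
  obtain ⟨a, M, hM⟩ : ∃ a M, L2 ++ L1 = a :: M := by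
    cases h : L2 ++ L1 with
    | nil => rw [h] at hlen2; simp at hlen2
    | cons a M => exact ⟨a, M, rfl⟩
  rw [hM, List.cons_append] at hm hnd2 hw2
  have hpM : p ∉ a :: M := by
    rw [← List.cons_append, List.nodup_append] at hnd2
    intro h
    exact hnd2.2.2 p h p (by simp) rfl
  have hq : q = a := by
    rw [← hm, earList_cyc, List.mem_append, List.mem_singleton] at hpq
    rcases hpq with h | h
    · exact absurd (List.of_mem_zip h).1 hpM
    · exact congrArg Prod.snd h
  subst hq
  have hZ : (p, q) ∉ (q :: M).zip (M ++ [p]) := fun h => hpM (List.of_mem_zip h).1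
  refine ⟨q :: (M ++ [p, w]), ?_, ?_, ?_⟩
  · have h := congrArg List.length hM
    simp only [List.length_append, List.length_cons, List.length_nil] at h ⊢
    omega
  · have h1 : q :: (M ++ [p, w]) = (q :: (M ++ [p])) ++ [w] := by simp
    rw [h1, List.nodup_append]
    refine ⟨hnd2, by simp, ?_⟩
    intro x hx y hy
    rw [List.mem_singleton] at hy
    subst hy
    rintro rfl
    exact hw2 hx
  · intro e
    rw [← hm e, earList_cyc]
    have h1 : cycEdges (q :: (M ++ [p, w])) = (q :: M).zip (M ++ [p]) ++ [(p, w), (w, q)] := by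
      have h2 : q :: (M ++ [p, w]) = q :: ((M ++ [p]) ++ [w]) := by simp
      rw [h2, earList_cyc, ← List.cons_append, List.zip_append (by simp), List.append_assoc]
      rfl
    rw [h1]
    simp only [List.mem_append, List.mem_cons, List.not_mem_nil, or_false]
    constructor
    · rintro (h | h | h)
      · refine Or.inl ⟨Or.inl h, ?_⟩
        rintro rfl
        exact hZ h
      · exact Or.inr (Or.inl h)
      · exact Or.inr (Or.inr h)
    · rintro (⟨h | h, hne⟩ | h | h)
      · exact Or.inl h
      · exact absurd h hne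
      · exact Or.inr (Or.inl h)
      · exact Or.inr (Or.inr h)

end Pool.Agent.H670R5
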