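import Pool.Agent.H670R5.St2

/-!
# Sides of the polygon after attaching a triangle
-/

namespace Pool.Agent.H670R5

open Pool.Agent.NPC Pool.Agent.H679R2

theorem earSide_ok (h : St_triLoc) : St_earSide := by
  intro l l' P p q w hP hpq hori hins e he m hm
  have h1 : tri p w q = tri p q w := by
    unfold tri
    rw [Set.pair_comm w q]
  have h2 : tri w q p = tri p q w := by
    unfold tri
    congr 1
    ext x
    simp only [Set.mem_insert_iff, Set.mem_singleton_iff]
    tauto
  rcases (hins e).1 he with ⟨he1, -⟩ | rfl | rfl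
  · obtain ⟨δ, hδ, h3⟩ := hP.side e he1 m hm
    exact ⟨δ, hδ, fun x hx hx' => Or.inl (h3 x hx hx')⟩
  · have h4 : 0 < ori p w q := by
      unfold ori at hori ⊢
      linarith
    obtain ⟨δ, hδ, h3⟩ := h p w q m h4 hm
    exact ⟨δ, hδ, fun x hx hx' => Or.inr (h1 ▸ h3 x hx hx')⟩
  · have h4 : 0 < ori w q p := by
      unfold ori at hori ⊢
      linarith
    obtain ⟨δ, hδ, h3⟩ := h w q p m h4 hm
    exact ⟨δ, hδ, fun x hx hx' => Or.inr (h2 ▸ h3 x hx hx')⟩

end Pool.Agent.H670R5
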