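import Pool.Agent.H670R5.St2

/-! Task EARSIM: adding a triangle to a side keeps the polygon simple. -/

namespace Pool.Agent.H670R5

open Pool.Agent.NPC Pool.Agent.H679R2

private theorem earsim_meet {a b c x : Pl} (h : ori a b c ≠ 0) (h1 : x ∈ segment ℝ a b)
    (h2 : x ∈ segment ℝ a c) : x = a := by
  rw [segment_eq_image'] at h1 h2
  obtain ⟨s, _, hs⟩ := h1
  obtain ⟨t, _, ht⟩ := h2
  have e1 : x.1 = a.1 + s * (b.1 - a.1) := by rw [← hs]; simp
  have e2 : x.2 = a.2 + s * (b.2 - a.2) := by rw [← hs]; simp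
  have e3 : x.1 = a.1 + t * (c.1 - a.1) := by rw [← ht]; simp
  have e4 : x.2 = a.2 + t * (c.2 - a.2) := by rw [← ht]; simp
  have h0 : t * ori a b c = 0 := by
    have h5 : ori a b x = 0 := by
      unfold ori; rw [e1, e2]; ring
    have h6 : ori a b x = t * ori a b c := by
      unfold ori; rw [e3, e4]; ring
    rw [← h6, h5]
  have ht0 : t = 0 := by
    rcases mul_eq_zero.1 h0 with h | h'
    · exact h
    · exact absurd h' h
  rw [ht0] at e3 e4
  apply Prod.ext
  · rw [e3]; ring
  · rw [e4]; ring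

private theorem earsim_seg {p q w : Pl} {x a b : Pl} (ha : a ∈ ({p, q, w} : Set Pl))
    (hb : b ∈ ({p, q, w} : Set Pl)) (hx : x ∈ segment ℝ a b) : x ∈ tri p q w :=
  (convex_convexHull ℝ _).segment_subset (subset_convexHull ℝ _ ha) (subset_convexHull ℝ _ hb) hx

theorem earSimple_ok : St_earSimple := by
  intro l l' P p q w hl hP hpq hor hsub hlen hnd hins
  obtain ⟨h3, hnd0, hsim⟩ := hl
  have o1 : ori p q w ≠ 0 := ne_of_lt hor
  have o2 : ori q p w ≠ 0 := by
    have : ori q p w = -ori p q w := by unfold ori; ring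
    rw [this]; exact neg_ne_zero.2 o1
  have o3 : ori w p q ≠ 0 := by
    have : ori w p q = ori p q w := by unfold ori; ring
    rw [this]; exact o1
  -- an old side and the side `(p, w)`
  have A : ∀ e ∈ cycEdges l, e ≠ (p, q) → ∀ x, x ∈ segment ℝ e.1 e.2 → x ∈ segment ℝ p w →
      (x = e.1 ∨ x = e.2) ∧ (x = p ∨ x = w) := by
    intro e he hne x hx hx'
    have h1 : x ∈ P := hP ⟨e, he, hx⟩
    have h2 : x ∈ tri p q w := earsim_seg (by simp) (by simp) hx'
    have h4 : x ∈ segment ℝ p q := hsub ⟨h2, h1⟩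
    have h5 : x = p := earsim_meet o1 h4 hx'
    exact ⟨(hsim e he (p, q) hpq hne x hx h4).1, Or.inl h5⟩
  -- an old side and the side `(w, q)`
  have B : ∀ e ∈ cycEdges l, e ≠ (p, q) → ∀ x, x ∈ segment ℝ e.1 e.2 → x ∈ segment ℝ w q →
      (x = e.1 ∨ x = e.2) ∧ (x = w ∨ x = q) := by
    intro e he hne x hx hx'
    have h1 : x ∈ P := hP ⟨e, he, hx⟩
    have h2 : x ∈ tri p q w := earsim_seg (by simp) (by simp) hx'
    have h4 : x ∈ segment ℝ p q := hsub ⟨h2, h1⟩
    have h5 : x = q := earsim_meet o2 (by rw [segment_symm]; exact h4)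
      (by rw [segment_symm]; exact hx')
    exact ⟨(hsim e he (p, q) hpq hne x hx h4).1, Or.inr h5⟩
  -- the two new sides
  have C : ∀ x, x ∈ segment ℝ p w → x ∈ segment ℝ w q → x = w := by
    intro x hx hx'
    exact earsim_meet o3 (by rw [segment_symm]; exact hx) hx'
  refine ⟨by omega, hnd, ?_⟩
  intro e he e' he' hne x hx hx'
  rw [hins] at he he'
  rcases he with ⟨he, hn⟩ | rfl | rfl <;> rcases he' with ⟨he', hn'⟩ | rfl | rfl
  · exact hsim e he e' he' hne x hx hx'
  · exact A e he hn x hx hx'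
  · exact B e he hn x hx hx'
  · exact (A e' he' hn' x hx' hx).symm
  · exact absurd rfl hne
  · have := C x hx hx'
    exact ⟨Or.inr this, Or.inl this⟩
  · exact (B e' he' hn' x hx' hx).symm
  · have := C x hx' hx
    exact ⟨Or.inl this, Or.inr this⟩
  · exact absurd rfl hne

end Pool.Agent.H670R5
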