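import Pool.Agent.H670R5.St2

namespace Pool.Agent.H670R5

open Pool.Agent.NPC Pool.Agent.H679R2

theorem edges_mem_edg (n : ℕ) (T : List (ℕ × ℕ × ℕ × Bool)) (u v : ℕ) :
    (u, v) ∈ edg n T ↔ u < v ∧ v < sz n T ∧ adjH n T u v = true := by
  unfold edg
  rw [List.mem_filter]
  simp only [List.mem_flatMap, List.mem_range, List.mem_map, Prod.mk.injEq]
  constructor
  · rintro ⟨⟨a, ha, b, hb, rfl, rfl⟩, h⟩
    exact ⟨hb, ha, h⟩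
  · rintro ⟨h1, h2, h3⟩
    exact ⟨⟨v, h2, u, h1, rfl, rfl⟩, h3⟩

theorem edges_mem_inst (n : ℕ) (T : List (ℕ × ℕ × ℕ × Bool)) (u v : ℕ) :
    (u, v) ∈ (instG n T).2 ↔ (u < v ∧ v < sz n T ∧ adjH n T u v = true) ∨
      (sz n T ≤ u ∧ sz n T ≤ v ∧ u - sz n T < v - sz n T ∧ v - sz n T < sz n T ∧
        adjH n T (u - sz n T) (v - sz n T) = true) := by
  unfold instG
  simp only [List.mem_append, edges_mem_edg, List.mem_map, Prod.exists, Prod.mk.injEq]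
  constructor
  · rintro (h | ⟨a, b, ⟨h1, h2, h3⟩, rfl, rfl⟩)
    · exact Or.inl h
    · right
      have e1 : a + sz n T - sz n T = a := Nat.add_sub_cancel _ _
      have e2 : b + sz n T - sz n T = b := Nat.add_sub_cancel _ _
      rw [e1, e2]
      exact ⟨by omega, by omega, h1, h2, h3⟩
  · rintro (h | ⟨h1, h2, h3, h4, h5⟩)
    · exact Or.inl h
    · right
      exact ⟨u - sz n T, v - sz n T, ⟨h3, h4, h5⟩, by omega, by omega⟩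

theorem edges_ok : St_edges := by
  intro n T u v hu hv huv
  rw [edges_mem_inst, edges_mem_inst]
  unfold Ad2 Ad
  constructor
  · rintro ((⟨h1, h2, h3⟩ | ⟨h1, h2, h3, h4, h5⟩) | (⟨h1, h2, h3⟩ | ⟨h1, h2, h3, h4, h5⟩))
    · exact Or.inl ⟨by omega, h2, Or.inl ⟨h1, h3⟩⟩
    · exact Or.inr ⟨h1, h2, Or.inl ⟨h3, h5⟩⟩
    · exact Or.inl ⟨h2, by omega, Or.inr ⟨h1, h3⟩⟩
    · exact Or.inr ⟨h2, h1, Or.inr ⟨h3, h5⟩⟩
  · rintro (⟨h1, h2, (⟨h3, h4⟩ | ⟨h3, h4⟩)⟩ | ⟨h1, h2, (⟨h3, h4⟩ | ⟨h3, h4⟩)⟩)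
    · exact Or.inl (Or.inl ⟨h3, h2, h4⟩)
    · exact Or.inr (Or.inl ⟨h3, h1, h4⟩)
    · exact Or.inl (Or.inr ⟨h1, h2, h3, by omega, h4⟩)
    · exact Or.inr (Or.inr ⟨h2, h1, h3, by omega, h4⟩)

end Pool.Agent.H670R5
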