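import Pool.Agent.H670R5.St2

/-!
Task EOK: the neighbours in a cyclic arrangement of the elements of an instance.
-/

namespace Pool.Agent.H670R5

open Pool.Agent.NPC Pool.Agent.H679R2

open scoped Classical in
/-- indicator of a proposition -/
noncomputable def EOK_b (P : Prop) : ℕ := if P then 1 else 0

theorem EOK_or {P Q R : Prop} (h : P ∨ Q ∨ R) : 1 ≤ EOK_b P + EOK_b Q + EOK_b R := by
  unfold EOK_b
  rcases h with h | h | h <;> simp only [h, if_true] <;> omega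

theorem EOK_pos {P Q : Prop} (h : 1 ≤ EOK_b P + EOK_b Q) : P ∨ Q := by
  unfold EOK_b at h
  by_contra hc
  push Not at hc
  simp [hc.1, hc.2] at h

theorem EOK_ex2 {P Q : Prop} (h : P → Q → False) : EOK_b P + EOK_b Q ≤ 1 := by
  unfold EOK_b
  split_ifs with h1 h2 <;> first | omega | exact (h h1 h2).elim

theorem EOK_ex4 {P Q R S : Prop} (h1 : P → Q → False) (h2 : P → R → False) (h3 : P → S → False)
    (h4 : Q → R → False) (h5 : Q → S → False) (h6 : R → S → False) :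
    EOK_b P + EOK_b Q + EOK_b R + EOK_b S ≤ 1 := by
  unfold EOK_b
  by_cases hP : P
  · have hQ : ¬ Q := fun h => h1 hP h
    have hR : ¬ R := fun h => h2 hP h
    have hS : ¬ S := fun h => h3 hP h
    simp [hP, hQ, hR, hS]
  · by_cases hQ : Q
    · have hR : ¬ R := fun h => h4 hQ h
      have hS : ¬ S := fun h => h5 hQ h
      simp [hP, hQ, hR, hS]
    · by_cases hR : R
      · have hS : ¬ S := fun h => h6 hR h
        simp [hP, hQ, hR, hS]
      · by_cases hS : S <;> simp [hP, hQ, hR, hS]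

/-- matching on the octagon -/
theorem EOK_octa (D : ℕ → ℕ → Prop) (hs : ∀ i j, D i j → D j i)
    (hu : ∀ i j j', D i j → D i j' → j = j')
    (h1 : D 0 1 ∨ D 0 2 ∨ D 1 2) (h3 : D 2 3 ∨ D 2 4 ∨ D 3 4) (h5 : D 4 5 ∨ D 4 6 ∨ D 5 6)
    (h7 : D 6 7 ∨ D 6 0 ∨ D 7 0) : ∀ t < 8, D t ((t + 1) % 8) ∨ D t ((t + 7) % 8) := by
  have H1 := EOK_or h1
  have H3 := EOK_or h3
  have H5 := EOK_or h5
  have H7 := EOK_or h7
  have nc : ∀ i j j', j ≠ j' → D i j → D i j' → False := fun i j j' hjj hj hj' =>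
    hjj (hu i j j' hj hj')
  -- even vertices
  have V0 : EOK_b (D 7 0) + EOK_b (D 0 1) + EOK_b (D 0 2) + EOK_b (D 6 0) ≤ 1 :=
    EOK_ex4 (fun a b => nc 0 7 1 (by norm_num) (hs _ _ a) b)
      (fun a b => nc 0 7 2 (by norm_num) (hs _ _ a) b)
      (fun a b => nc 0 7 6 (by norm_num) (hs _ _ a) (hs _ _ b))
      (fun a b => nc 0 1 2 (by norm_num) a b)
      (fun a b => nc 0 1 6 (by norm_num) a (hs _ _ b))
      (fun a b => nc 0 2 6 (by norm_num) a (hs _ _ b))
  have V2 : EOK_b (D 1 2) + EOK_b (D 2 3) + EOK_b (D 2 4) + EOK_b (D 0 2) ≤ 1 :=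
    EOK_ex4 (fun a b => nc 2 1 3 (by norm_num) (hs _ _ a) b)
      (fun a b => nc 2 1 4 (by norm_num) (hs _ _ a) b)
      (fun a b => nc 2 1 0 (by norm_num) (hs _ _ a) (hs _ _ b))
      (fun a b => nc 2 3 4 (by norm_num) a b)
      (fun a b => nc 2 3 0 (by norm_num) a (hs _ _ b))
      (fun a b => nc 2 4 0 (by norm_num) a (hs _ _ b))
  have V4 : EOK_b (D 3 4) + EOK_b (D 4 5) + EOK_b (D 4 6) + EOK_b (D 2 4) ≤ 1 :=
    EOK_ex4 (fun a b => nc 4 3 5 (by norm_num) (hs _ _ a) b)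
      (fun a b => nc 4 3 6 (by norm_num) (hs _ _ a) b)
      (fun a b => nc 4 3 2 (by norm_num) (hs _ _ a) (hs _ _ b))
      (fun a b => nc 4 5 6 (by norm_num) a b)
      (fun a b => nc 4 5 2 (by norm_num) a (hs _ _ b))
      (fun a b => nc 4 6 2 (by norm_num) a (hs _ _ b))
  have V6 : EOK_b (D 5 6) + EOK_b (D 6 7) + EOK_b (D 6 0) + EOK_b (D 4 6) ≤ 1 :=
    EOK_ex4 (fun a b => nc 6 5 7 (by norm_num) (hs _ _ a) b)
      (fun a b => nc 6 5 0 (by norm_num) (hs _ _ a) b)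
      (fun a b => nc 6 5 4 (by norm_num) (hs _ _ a) (hs _ _ b))
      (fun a b => nc 6 7 0 (by norm_num) a b)
      (fun a b => nc 6 7 4 (by norm_num) a (hs _ _ b))
      (fun a b => nc 6 0 4 (by norm_num) a (hs _ _ b))
  have R0 : D 7 0 ∨ D 0 1 := EOK_pos (by omega)
  have R1 : D 0 1 ∨ D 1 2 := EOK_pos (by omega)
  have R2 : D 1 2 ∨ D 2 3 := EOK_pos (by omega)
  have R3 : D 2 3 ∨ D 3 4 := EOK_pos (by omega)
  have R4 : D 3 4 ∨ D 4 5 := EOK_pos (by omega)
  have R5 : D 4 5 ∨ D 5 6 := EOK_pos (by omega)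
  have R6 : D 5 6 ∨ D 6 7 := EOK_pos (by omega)
  have R7 : D 6 7 ∨ D 7 0 := EOK_pos (by omega)
  intro t ht
  interval_cases t
  · exact R0.symm.imp id (hs _ _)
  · exact R1.symm.imp id (hs _ _)
  · exact R2.symm.imp id (hs _ _)
  · exact R3.symm.imp id (hs _ _)
  · exact R4.symm.imp id (hs _ _)
  · exact R5.symm.imp id (hs _ _)
  · exact R6.symm.imp id (hs _ _)
  · exact R7.symm.imp id (hs _ _)

theorem EOK_symm (n : ℕ) (nx : Equiv.Perm (Fin n)) (u v : ℕ) (h : EE n nx u v) : EE n nx v u := by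
  obtain ⟨hu, hv, h⟩ := h
  exact ⟨hv, hu, h.symm⟩

theorem EOK_deg (n : ℕ) (nx : Equiv.Perm (Fin n)) (u a b c : ℕ) (ha : EE n nx u a)
    (hb : EE n nx u b) (hc : EE n nx u c) : a = b ∨ b = c ∨ a = c := by
  obtain ⟨hu, ha', ha⟩ := ha
  obtain ⟨_, hb', hb⟩ := hb
  obtain ⟨_, hc', hc⟩ := hc
  have key : ∀ x y : ℕ, ∀ (hx : x < n) (hy : y < n), ((⟨x, hx⟩ : Fin n) = nx ⟨u, hu⟩ ∧
      (⟨y, hy⟩ : Fin n) = nx ⟨u, hu⟩) ∨ ((⟨u, hu⟩ : Fin n) = nx ⟨x, hx⟩ ∧
      (⟨u, hu⟩ : Fin n) = nx ⟨y, hy⟩) → x = y := by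
    rintro x y hx hy (⟨h1, h2⟩ | ⟨h1, h2⟩)
    · have := h1.trans h2.symm
      exact congrArg Fin.val this
    · have := nx.injective (h1.symm.trans h2)
      exact congrArg Fin.val this
  rcases ha with ha | ha <;> rcases hb with hb | hb <;> rcases hc with hc | hc
  · exact Or.inl (key a b ha' hb' (Or.inl ⟨ha, hb⟩))
  · exact Or.inl (key a b ha' hb' (Or.inl ⟨ha, hb⟩))
  · exact Or.inr (Or.inr (key a c ha' hc' (Or.inl ⟨ha, hc⟩)))
  · exact Or.inr (Or.inl (key b c hb' hc' (Or.inr ⟨hb, hc⟩)))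
  · exact Or.inr (Or.inl (key b c hb' hc' (Or.inl ⟨hb, hc⟩)))
  · exact Or.inr (Or.inr (key a c ha' hc' (Or.inr ⟨ha, hc⟩)))
  · exact Or.inl (key a b ha' hb' (Or.inr ⟨ha, hb⟩))
  · exact Or.inl (key a b ha' hb' (Or.inr ⟨ha, hb⟩))

theorem EOK_link_lt (o : List (ℕ × Bool × ℕ)) (k : ℕ) (hk : k < o.length)
    (q : (ℕ × ℕ) × (ℕ × ℕ)) (hq : q ∈ lnE o k) :
    q.1.1 < o.length ∧ q.1.2 < 12 ∧ q.2.1 < o.length ∧ q.2.2 < 12 := by
  have hc : nx (cK o) k < o.length := by
    rw [nx_eq (cK o) o.length (by simp [cK]) ⟨k, hk⟩]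
    exact Fin.is_lt _
  have hv : nx (vK o) k < o.length := by
    rw [nx_eq (vK o) o.length (by simp [vK]) ⟨k, hk⟩]
    exact Fin.is_lt _
  have hz : nx (zK o) k < o.length := by
    rw [nx_eq (zK o) o.length (by simp [zK]) ⟨k, hk⟩]
    exact Fin.is_lt _
  have h0 : ∀ b, T0N b < 12 := by intro b; cases b <;> decide
  have h1 : ∀ b, T1N b < 12 := by intro b; cases b <;> decide
  unfold lnE at hq
  simp only [List.mem_cons, List.not_mem_nil, or_false] at hq
  rcases hq with rfl | rfl | rfl | rfl | rfl | rfl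
  · exact ⟨hk, by norm_num, hc, by norm_num⟩
  · exact ⟨hk, by norm_num, hk, by norm_num⟩
  · exact ⟨hk, by norm_num, hk, by norm_num⟩
  · exact ⟨hk, by norm_num, hz, by norm_num⟩
  · exact ⟨hk, h0 _, hv, h0 _⟩
  · exact ⟨hk, h1 _, hv, h1 _⟩

theorem eok_ok (hF : St_force) : St_eok := by
  intro o nx hcl hT
  have hpart : ∀ m, 2 * m + 1 < nOf o → EE (nOf o) nx (2 * m) (2 * m + 1) := by
    intro m hm
    refine hF (nOf o) nx (TOf o) (2 * m) (2 * m + 1) (hst o.length (hg o.length (2 * m))) true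
      (by omega) hm ?_ ?_ ?_ hT
    · intro r hr
      unfold nOf at hm ⊢
      unfold hst hg
      split_ifs with h
      · refine ⟨by omega, by omega, by omega⟩
      · have h2 : (2 * m - 24 * o.length) / 6 < 3 := by omega
        refine ⟨by omega, ?_, ?_⟩
        · intro h3
          omega
        · intro h3
          omega
    · intro r _ s _ h
      unfold hst at h
      omega
    · intro r hr
      refine List.mem_append_left _ (List.mem_append_left _ ?_)
      unfold T1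
      rw [List.mem_flatMap]
      refine ⟨m, List.mem_range.2 (by unfold nOf at hm; omega), ?_⟩
      rw [List.mem_map]
      exact ⟨r, List.mem_range.2 hr, rfl⟩
  refine ⟨fun u v h => ⟨h.1, h.2.1⟩, EOK_symm _ _, EOK_deg _ _, ?_, hpart, ?_, ?_⟩
  · rintro S ⟨v, hvS, hv⟩ hS w hw
    have h1 := hcl {x : Fin (nOf o) | x.val ∈ S} ⟨⟨v, hv⟩, hvS⟩ (by
      intro x hx
      exact hS x.val hx _ ⟨x.2, (nx x).2, Or.inl rfl⟩)
    have h2 : (⟨w, hw⟩ : Fin (nOf o)) ∈ {x : Fin (nOf o) | x.val ∈ S} := by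
      rw [h1]
      trivial
    exact h2
  · intro k hk q hq
    obtain ⟨l1, l2, l3, l4⟩ := EOK_link_lt o k hk q hq
    refine hF (nOf o) nx (TOf o) _ _ (hst o.length 0) false ?_ ?_ ?_ ?_ ?_ hT
    · unfold nOf; omega
    · unfold nOf; omega
    · intro r hr
      unfold hst nOf
      refine ⟨by omega, by omega, by omega⟩
    · intro r _ s _ h
      unfold hst at h
      omega
    · intro r hr
      refine List.mem_append_left _ (List.mem_append_right _ ?_)
      unfold T2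
      rw [List.mem_flatMap]
      refine ⟨k, List.mem_range.2 hk, ?_⟩
      rw [List.mem_flatMap]
      refine ⟨q, hq, ?_⟩
      rw [List.mem_map]
      exact ⟨r, List.mem_range.2 hr, rfl⟩
  · intro k hk
    have hu : ∀ i j j' : ℕ, EE (nOf o) nx (24 * k + 2 * i) (24 * k + 2 * j) →
        EE (nOf o) nx (24 * k + 2 * i) (24 * k + 2 * j') → j = j' := by
      intro i j j' h h'
      have hi : 24 * k + 2 * i < nOf o := h.1
      have h0 : EE (nOf o) nx (24 * k + 2 * i) (24 * k + 2 * i + 1) := by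
        have := hpart (12 * k + i) (by unfold nOf at hi ⊢; omega)
        have e1 : 2 * (12 * k + i) = 24 * k + 2 * i := by ring
        rw [e1] at this
        exact this
      rcases EOK_deg _ _ _ _ _ _ h0 h h' with h1 | h1 | h1 <;> omega
    have htr : ∀ t, t = 1 ∨ t = 3 ∨ t = 5 ∨ t = 7 →
        EE (nOf o) nx (24 * k + 2 * (t - 1)) (24 * k + 2 * t) ∨
        EE (nOf o) nx (24 * k + 2 * (t - 1)) (24 * k + 2 * ((t + 1) % 8)) ∨
        EE (nOf o) nx (24 * k + 2 * t) (24 * k + 2 * ((t + 1) % 8)) := by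
      intro t ht
      obtain ⟨u, v, huv, h⟩ := hT (24 * k + 2 * (t - 1), 24 * k + 2 * t,
        24 * k + 2 * ((t + 1) % 8), false) (by
          refine List.mem_append_right _ ?_
          unfold T3
          rw [List.mem_flatMap]
          refine ⟨k, List.mem_range.2 hk, ?_⟩
          rw [List.mem_map]
          exact ⟨t, by simpa using ht, rfl⟩)
      have hE : EE (nOf o) nx u.val v.val := ⟨u.2, v.2, huv⟩
      rcases h with ⟨h1, h2⟩ | ⟨h1, h2⟩ | ⟨h1, h2⟩
      · rw [h1, h2] at hE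
        exact Or.inl hE
      · rw [h1, h2] at hE
        exact Or.inr (Or.inl hE)
      · rw [h1, h2] at hE
        exact Or.inr (Or.inr hE)
    exact EOK_octa (fun i j => EE (nOf o) nx (24 * k + 2 * i) (24 * k + 2 * j))
      (fun i j => EOK_symm _ _ _ _) hu (htr 1 (by simp)) (htr 3 (by simp)) (htr 5 (by simp))
      (htr 7 (by simp))

end Pool.Agent.H670R5
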