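import Pool.Agent.H670R5.St2

/-!
# EVAL : from a cyclic arrangement to an assignment
-/

namespace Pool.Agent.H670R5

open Pool.Agent.NPC Pool.Agent.H679R2

theorem eval_core {ι : Type} (s : Sys ι) (e : ι → Fin 12 → Prop)
    (hxor : ∀ k t, t.val < 8 → (e k (nb2 t) ↔ ¬ e k t))
    (hcl : ∀ L : Set (ι × Fin 12), (∀ q ∈ L, q.2.val < 8) → L.Nonempty → (∀ q ∈ L, s.M q ∈ L) →
      (∀ q ∈ L, (e q.1 q.2 → (q.1, nb1 q.2) ∈ L) ∧ (e q.1 (nb2 q.2) → (q.1, nb2 q.2) ∈ L)) →
      False) :
    ∃ y : ι → Bool, (∀ k, (y k == s.sg k) = true → (y (s.β k) == s.sg (s.β k)) = true) ∧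
      ∀ k, ∃ n : ℤ, y ((s.α ^ n) k) = true := by
  classical
  set y : ι → Bool := fun k => decide (e k 1) with hy
  have hst : ∀ k, (e k 0 ↔ y k = false) ∧ (e k 1 ↔ y k = true) ∧ (e k 2 ↔ y k = false) ∧
      (e k 3 ↔ y k = true) ∧ (e k 4 ↔ y k = false) ∧ (e k 5 ↔ y k = true) ∧
      (e k 6 ↔ y k = false) ∧ (e k 7 ↔ y k = true) := by
    intro k
    have h1 := hxor k 1 (by decide)
    have h2 := hxor k 2 (by decide)
    have h3 := hxor k 3 (by decide)
    have h4 := hxor k 4 (by decide)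
    have h5 := hxor k 5 (by decide)
    have h6 := hxor k 6 (by decide)
    have h7 := hxor k 7 (by decide)
    simp only [nb2] at h1 h2 h3 h4 h5 h6 h7
    simp only [hy, decide_eq_true_eq, decide_eq_false_iff_not]
    tauto
  refine ⟨y, fun k hk => ?_, fun k => ?_⟩
  · by_contra hk'
    rw [Bool.not_eq_true] at hk'
    have hopen : ∀ (k : ι) (b : Bool), (y k = b → ∀ t, (t = T0 b ∨ t = H679R2.T1 b) →
        (e k t → nb1 t = T0 b ∨ nb1 t = H679R2.T1 b) ∧ (e k (nb2 t) → nb2 t = T0 b ∨ nb2 t = H679R2.T1 b)) := by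
      intro k b hb t ht
      obtain ⟨h0, h1, h2, h3, h4, h5, h6, h7⟩ := hst k
      subst hb
      cases hyk : y k <;> rw [hyk] at ht h0 h1 h2 h3 h4 h5 h6 h7 <;>
        simp only [T0, H679R2.T1, cond_true, cond_false] at ht ⊢ <;> rcases ht with rfl | rfl <;>
        simp only [nb1, nb2] <;> simp_all
    set L : Set (ι × Fin 12) := {(k, T0 (s.sg k)), (k, H679R2.T1 (s.sg k)), (s.β k, T0 (!s.sg (s.β k))),
      (s.β k, H679R2.T1 (!s.sg (s.β k)))} with hL
    refine hcl L ?_ ⟨_, Or.inl rfl⟩ (by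
      rintro q (rfl | rfl | rfl | rfl)
      · rw [Sys.M_T0]; exact Or.inr (Or.inr (Or.inl rfl))
      · rw [Sys.M_T1]; exact Or.inr (Or.inr (Or.inr rfl))
      · rw [Sys.M_F0, Equiv.symm_apply_apply]; exact Or.inl rfl
      · rw [Sys.M_F1, Equiv.symm_apply_apply]; exact Or.inr (Or.inl rfl)) (by
      have hyk : y k = s.sg k := by simpa using hk
      have hyk' : y (s.β k) = !s.sg (s.β k) := by
        revert hk'
        cases y (s.β k) <;> cases s.sg (s.β k) <;> simp
      have hm1 : ∀ t, t = T0 (s.sg k) ∨ t = H679R2.T1 (s.sg k) → (k, t) ∈ L := by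
        rintro t (rfl | rfl)
        · exact Or.inl rfl
        · exact Or.inr (Or.inl rfl)
      have hm2 : ∀ t, t = T0 (!s.sg (s.β k)) ∨ t = H679R2.T1 (!s.sg (s.β k)) → (s.β k, t) ∈ L := by
        rintro t (rfl | rfl)
        · exact Or.inr (Or.inr (Or.inl rfl))
        · exact Or.inr (Or.inr (Or.inr rfl))
      rintro q (rfl | rfl | rfl | rfl)
      · obtain ⟨ha, hb⟩ := hopen k _ hyk _ (Or.inl rfl)
        exact ⟨fun h => hm1 _ (ha h), fun h => hm1 _ (hb h)⟩
      · obtain ⟨ha, hb⟩ := hopen k _ hyk _ (Or.inr rfl)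
        exact ⟨fun h => hm1 _ (ha h), fun h => hm1 _ (hb h)⟩
      · obtain ⟨ha, hb⟩ := hopen (s.β k) _ hyk' _ (Or.inl rfl)
        exact ⟨fun h => hm2 _ (ha h), fun h => hm2 _ (hb h)⟩
      · obtain ⟨ha, hb⟩ := hopen (s.β k) _ hyk' _ (Or.inr rfl)
        exact ⟨fun h => hm2 _ (ha h), fun h => hm2 _ (hb h)⟩)
    have h8 : ∀ b, (T0 b).val < 8 ∧ (H679R2.T1 b).val < 8 := by decide
    rintro q (rfl | rfl | rfl | rfl)
    · exact (h8 _).1
    · exact (h8 _).2
    · exact (h8 _).1
    · exact (h8 _).2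
  · by_contra hk
    have hk : ∀ n : ℤ, y ((s.α ^ n) k) = false := fun n => by
      have := fun h => hk ⟨n, h⟩
      simpa using this
    set L : Set (ι × Fin 12) := {q | ∃ n : ℤ, q.1 = (s.α ^ n) k ∧ (q.2 = 0 ∨ q.2 = 1)} with hL
    refine hcl L ?_ ⟨(k, 0), 0, by simp⟩ (by
      rintro ⟨k', t⟩ ⟨n, h1, h2⟩
      simp only at h1 h2
      rcases h2 with rfl | rfl
      · refine ⟨n - 1, ?_, Or.inr rfl⟩
        simp only [Sys.M0, h1]
        rw [Equiv.symm_apply_eq, ← Equiv.Perm.mul_apply, ← zpow_one_add]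
        congr 2
        ring
      · refine ⟨n + 1, ?_, Or.inl rfl⟩
        simp only [Sys.M1, h1]
        rw [← Equiv.Perm.mul_apply, ← zpow_one_add]
        congr 2
        ring) (by
      rintro ⟨k', t⟩ ⟨n, h1, h2⟩
      simp only at h1 h2
      have hy' := hk n
      rw [← h1] at hy'
      obtain ⟨h0, h1', h2', h3, h4, h5, h6, h7⟩ := hst k'
      rw [hy'] at h0 h1' h7
      rcases h2 with rfl | rfl
      · refine ⟨fun _ => ⟨n, h1, Or.inr rfl⟩, fun h => ?_⟩
        simp only [nb2] at h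
        exact absurd (h7.1 h) (by simp)
      · refine ⟨fun h => ?_, fun _ => ⟨n, h1, Or.inl rfl⟩⟩
        exact absurd (h1'.1 h) (by simp))
    rintro ⟨k', t⟩ ⟨n, h1, h2⟩
    simp only at h2
    rcases h2 with rfl | rfl
    · exact (by decide : (0 : Fin 12).val < 8)
    · exact (by decide : (1 : Fin 12).val < 8)

theorem eval_nb1 : ∀ t : Fin 12, t.val < 8 → (nb1 t).val = (t.val + 1) % 8 := by decide

theorem eval_nb2 : ∀ t : Fin 12, t.val < 8 → (nb2 t).val = (t.val + 7) % 8 := by decide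

theorem eval_nb_lt : ∀ t : Fin 12, t.val < 8 → (nb1 t).val < 8 ∧ (nb2 t).val < 8 := by decide

theorem eval_ln (o : List (ℕ × Bool × ℕ)) (k : Fin o.length) (t : Fin 12)
    (ht : Fwd ((sysOf o).sg k) t) :
    ((k.val, t.val), (((sysOf o).M (k, t)).1.val, ((sysOf o).M (k, t)).2.val)) ∈ lnE o k.val := by
  have hc : ∀ k : Fin o.length, nx (cK o) k.val = ((sysOf o).α k).val := fun k =>
    nx_eq (cK o) o.length (by simp [cK]) k
  have hv : ∀ k : Fin o.length, nx (vK o) k.val = ((sysOf o).β k).val := fun k =>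
    nx_eq (vK o) o.length (by simp [vK]) k
  have hz : ∀ k : Fin o.length, nx (zK o) k.val = ((sysOf o).γ k).val := fun k =>
    nx_eq (zK o) o.length (by simp [zK]) k
  have hs : ∀ k : Fin o.length, (sK o).getD k.val false = (sysOf o).sg k := fun k => rfl
  unfold lnE
  unfold Fwd at ht
  rw [hc, hv, hz, hs, hs, T0N_eq, T0N_eq, T1N_eq, T1N_eq]
  simp only [List.mem_cons, List.not_mem_nil, or_false]
  rcases ht with (rfl | rfl | rfl | rfl | rfl | rfl)
  · exact Or.inl rfl
  · exact Or.inr (Or.inl rfl)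
  · exact Or.inr (Or.inr (Or.inl rfl))
  · exact Or.inr (Or.inr (Or.inr (Or.inl rfl)))
  · exact Or.inr (Or.inr (Or.inr (Or.inr (Or.inl (by rw [Sys.M_T0])))))
  · exact Or.inr (Or.inr (Or.inr (Or.inr (Or.inr (by rw [Sys.M_T1])))))

/-- every terminal or its partner is a forward one -/
theorem eval_fwd {ι : Type} (s : Sys ι) (k : ι) (t : Fin 12) :
    Fwd (s.sg k) t ∨ Fwd (s.sg (s.M (k, t)).1) (s.M (k, t)).2 := by
  unfold Fwd
  rcases Sys.terminal_cases (s.sg k) t with h5 | h5 | h5 | h5 | h5 | h5 | h5 | h5 |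
        h5 | h5 | h5 | h5 <;> subst h5
  · right; rw [Sys.M0]; simp
  · left; simp
  · left; simp
  · left; simp
  · right; rw [Sys.M8]; simp
  · left; simp
  · right; rw [Sys.M10]; simp
  · right; rw [Sys.M11]; simp
  · left; simp
  · left; simp
  · right; rw [Sys.M_F0]; simp
  · right; rw [Sys.M_F1]; simp

theorem eval_ok : St_eval := by
  intro o E hE
  classical
  set s := sysOf o with hs0
  have hn : nOf o = 24 * o.length + 18 := rfl
  -- partner edges
  have hpart : ∀ (k : Fin o.length) (t : Fin 12),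
      E (24 * k.val + 2 * t.val) (24 * k.val + 2 * t.val + 1) := by
    intro k t
    have h1 := hE.part (12 * k.val + t.val) (by
      rw [hn]
      have := k.isLt
      have := t.isLt
      omega)
    have h2 : 2 * (12 * k.val + t.val) = 24 * k.val + 2 * t.val := by ring
    rwa [h2] at h1
  -- link edges
  have hlinkF : ∀ (k : Fin o.length) (t : Fin 12), Fwd (s.sg k) t →
      E (24 * k.val + 2 * t.val + 1) (24 * (s.M (k, t)).1.val + 2 * (s.M (k, t)).2.val + 1) := by
    intro k t ht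
    exact hE.link k.val k.isLt _ (eval_ln o k t ht)
  have hlink : ∀ (k : Fin o.length) (t : Fin 12),
      E (24 * k.val + 2 * t.val + 1) (24 * (s.M (k, t)).1.val + 2 * (s.M (k, t)).2.val + 1) := by
    intro k t
    rcases eval_fwd s k t with h | h
    · exact hlinkF k t h
    · have h1 := hlinkF _ _ h
      have h2 : s.M ((s.M (k, t)).1, (s.M (k, t)).2) = (k, t) := s.M_invol (k, t)
      rw [h2] at h1
      exact hE.symm _ _ h1
  set e : Fin o.length → Fin 12 → Prop := fun k t =>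
    E (24 * k.val + 2 * t.val) (24 * k.val + 2 * (nb1 t).val) with he
  have he2 : ∀ k t, e k (nb2 t) ↔ E (24 * k.val + 2 * t.val) (24 * k.val + 2 * (nb2 t).val) := by
    intro k t
    simp only [he, nb1_nb2]
    exact ⟨hE.symm _ _, hE.symm _ _⟩
  have hoct : ∀ (k : Fin o.length) (t : Fin 12), t.val < 8 → e k t ∨ e k (nb2 t) := by
    intro k t ht
    rw [he2]
    have h1 := hE.oct k.val k.isLt t.val ht
    rw [← eval_nb1 t ht, ← eval_nb2 t ht] at h1
    exact h1
  have hxor : ∀ k t, t.val < 8 → (e k (nb2 t) ↔ ¬ e k t) := by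
    intro k t ht
    constructor
    · intro hb ha
      rw [he2] at hb
      have hd := hE.deg _ _ _ _ (hpart k t) ha hb
      have hne : (nb1 t).val ≠ (nb2 t).val := fun h => nb_ne t (Fin.ext h)
      omega
    · intro ha
      rcases hoct k t ht with h | h
      · exact absurd h ha
      · exact h
  have hcl : ∀ L : Set (Fin o.length × Fin 12), (∀ q ∈ L, q.2.val < 8) → L.Nonempty →
      (∀ q ∈ L, s.M q ∈ L) →
      (∀ q ∈ L, (e q.1 q.2 → (q.1, nb1 q.2) ∈ L) ∧ (e q.1 (nb2 q.2) → (q.1, nb2 q.2) ∈ L)) →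
      False := by
    rintro L h8 ⟨q₀, hq₀⟩ hLM hLS
    have hall := hE.closed {v | ∃ q ∈ L, v = 24 * q.1.val + 2 * q.2.val ∨
        v = 24 * q.1.val + 2 * q.2.val + 1}
      ⟨24 * q₀.1.val + 2 * q₀.2.val, ⟨q₀, hq₀, Or.inl rfl⟩, by
        rw [hn]
        have := q₀.1.isLt
        have := q₀.2.isLt
        omega⟩ (by
      rintro v ⟨⟨k, t⟩, hq, hv | hv⟩ w hvw
      · simp only at hv
        subst hv
        have ht := h8 _ hq
        simp only at ht
        rcases hoct k t ht with h | h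
        · have hd := hE.deg _ _ _ _ (hpart k t) h hvw
          rcases hd with hd | hd | hd
          · omega
          · exact ⟨(k, nb1 t), (hLS _ hq).1 h, Or.inl hd.symm⟩
          · exact ⟨(k, t), hq, Or.inr hd.symm⟩
        · have h' := (he2 k t).mp h
          have hd := hE.deg _ _ _ _ (hpart k t) h' hvw
          rcases hd with hd | hd | hd
          · omega
          · exact ⟨(k, nb2 t), (hLS _ hq).2 h, Or.inl hd.symm⟩
          · exact ⟨(k, t), hq, Or.inr hd.symm⟩
      · simp only at hv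
        subst hv
        have hd := hE.deg _ _ _ _ (hE.symm _ _ (hpart k t)) (hlink k t) hvw
        rcases hd with hd | hd | hd
        · omega
        · exact ⟨s.M (k, t), hLM _ hq, Or.inr hd.symm⟩
        · exact ⟨(k, t), hq, Or.inl hd.symm⟩) (24 * o.length) (by rw [hn]; omega)
    obtain ⟨q, -, hq⟩ := hall
    have := q.1.isLt
    have := q.2.isLt
    omega
  obtain ⟨y, hy1, hy2⟩ := eval_core s e hxor hcl
  -- first half of sys_ham_iff
  have hv : ∀ k : Fin o.length, (vK o).getD k.val 0 = (o[k.val]).2.2 := fun k =>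
    getD_map o _ _ k.isLt _
  have hc : ∀ k : Fin o.length, (cK o).getD k.val 0 = (o[k.val]).1 := fun k =>
    getD_map o _ _ k.isLt _
  have hs : ∀ k : Fin o.length, (sysOf o).sg k = (o[k.val]).2.1 := fun k =>
    getD_map o _ _ k.isLt _
  set x : Fin o.length → Bool := fun k => (y k == (sysOf o).sg k) with hx
  have hx1 : ∀ (n : ℕ) k, x k = true → x ((nxt o.length (fun i => (vK o).getD i 0))^[n] k) = true := by
    intro n
    induction n with
    | zero => exact fun k hk => hk
    | succ n ih => exact fun k hk => ih _ (hy1 k hk)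
  have hx2 : ∀ k k', (o[k.val]).2.2 = (o[k'.val]).2.2 → x k = true → x k' = true := by
    intro k k' hkk hk
    obtain ⟨n, -, rfl⟩ := nxt_orbit o.length (fun i => (vK o).getD i 0) _ k k'
      (by simp only [hv, hkk]) rfl
    exact hx1 n k hk
  have hx3 : ∀ k k', (o[k.val]).2.2 = (o[k'.val]).2.2 → x k = x k' := by
    intro k k' hkk
    cases h1 : x k with
    | true => exact (hx2 k k' hkk h1).symm
    | false =>
      cases h2 : x k' with
      | true => rw [hx2 k' k hkk.symm h2] at h1; exact absurd h1 (by simp)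
      | false => rfl
  refine ⟨fun v => if hv : ∃ k : Fin o.length, (o[k.val]).2.2 = v then x hv.choose else false,
    ?_⟩
  intro z hzo
  obtain ⟨i, hi, rfl⟩ := List.mem_iff_getElem.1 hzo
  obtain ⟨n, hn⟩ := hy2 ⟨i, hi⟩
  have hkey : ∀ (m : ℕ) (k : Fin o.length),
      (cK o).getD (((sysOf o).α ^ m) k).val 0 = (cK o).getD k.val 0 := by
    intro m
    induction m with
    | zero => exact fun k => rfl
    | succ m ih =>
      intro k
      rw [pow_succ, Equiv.Perm.mul_apply, ih]
      exact nxt_key o.length (fun i => (cK o).getD i 0) k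
  have hkey' : ∀ (n : ℤ) (k : Fin o.length),
      (cK o).getD (((sysOf o).α ^ n) k).val 0 = (cK o).getD k.val 0 := by
    intro n k
    obtain ⟨m, rfl | rfl⟩ := n.eq_nat_or_neg
    · rw [zpow_natCast]
      exact hkey m k
    · have h1 := hkey m (((sysOf o).α ^ (-(m : ℤ))) k)
      rw [← zpow_natCast, ← Equiv.Perm.mul_apply, ← zpow_add, add_neg_cancel, zpow_zero,
        Equiv.Perm.one_apply] at h1
      exact h1.symm
  set j := ((sysOf o).α ^ n) ⟨i, hi⟩ with hj
  refine ⟨o[j.val], List.getElem_mem _, ?_, ?_⟩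
  · have := hkey' n ⟨i, hi⟩
    rw [← hj, hc, hc] at this
    exact this
  · have hex : ∃ k : Fin o.length, (o[k.val]).2.2 = (o[j.val]).2.2 := ⟨j, rfl⟩
    simp only
    rw [dif_pos hex, hx3 _ j hex.choose_spec]
    have hn' : y j = true := hn
    simp only [hx, hn', hs]
    cases (o[j.val]).2.1 <;> rfl

end Pool.Agent.H670R5
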