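import Pool.Agent.H670R5.St2

namespace Pool.Agent.H670R5

open Pool.Agent.NPC Pool.Agent.H679R2

private theorem ext_collinear (a b c : Pl) (h : ori a b c = 0) : Collinear ℝ {a, b, c} := by
  by_cases hab : a = b
  · subst hab
    simp only [Set.mem_insert_iff, Set.mem_singleton_iff, true_or, Set.insert_eq_of_mem]
    exact collinear_pair ℝ a c
  · rw [collinear_iff_of_mem (Set.mem_insert a _)]
    refine ⟨b - a, ?_⟩
    unfold ori at h
    intro q hq
    simp only [Set.mem_insert_iff, Set.mem_singleton_iff] at hq
    rcases hq with rfl | rfl | rfl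
    · exact ⟨0, by simp⟩
    · exact ⟨1, by simp⟩
    · by_cases h1 : b.1 - a.1 = 0
      · have h2 : b.2 - a.2 ≠ 0 := by
          intro h2
          apply hab
          ext
          · linarith
          · linarith
        have h3 : q.1 - a.1 = 0 := by
          rw [h1, zero_mul, zero_sub, neg_eq_zero] at h
          rcases mul_eq_zero.1 h with h | h
          · exact absurd h h2
          · exact h
        refine ⟨(q.2 - a.2) / (b.2 - a.2), ?_⟩
        ext
        · simp only [vadd_eq_add, Prod.fst_add, Prod.smul_fst, Prod.fst_sub, smul_eq_mul]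
          rw [h1]; linarith
        · simp only [vadd_eq_add, Prod.snd_add, Prod.smul_snd, Prod.snd_sub, smul_eq_mul]
          rw [div_mul_cancel₀ _ h2]; ring
      · refine ⟨(q.1 - a.1) / (b.1 - a.1), ?_⟩
        ext
        · simp only [vadd_eq_add, Prod.fst_add, Prod.smul_fst, Prod.fst_sub, smul_eq_mul]
          rw [div_mul_cancel₀ _ h1]; ring
        · simp only [vadd_eq_add, Prod.snd_add, Prod.smul_snd, Prod.snd_sub, smul_eq_mul]
          have : (q.1 - a.1) / (b.1 - a.1) * (b.2 - a.2) = q.2 - a.2 := by
            rw [div_mul_eq_mul_div, div_eq_iff h1]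
            linarith
          rw [this]; ring

theorem ext_ok (hC : St_cone) : St_ext := by
  intro n T p C hG z hz
  have hsz : 2 * n ≤ sz n T := by unfold sz; omega
  have hne : ∀ u < n, u ≠ z → ori (p (n + z)) (p z) (p u) ≠ 0 := by
    intro u hu huz h0
    exact hG.gp (n + z) (by omega) z (by omega) u (by omega) (by omega) (by omega) (by omega)
      (ext_collinear _ _ _ h0)
  have had : ∀ u < n, u ≠ z → Ad n T (n + z) u := by
    intro u hu huz
    right
    refine ⟨by omega, ?_⟩
    unfold adjH
    rw [if_neg (by omega), if_pos (by omega), if_pos hu]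
    simp only [decide_eq_true_eq]
    omega
  have hnad : ¬ Ad n T (n + z) z := by
    rintro (⟨h1, _⟩ | ⟨_, h2⟩)
    · omega
    · unfold adjH at h2
      rw [if_neg (by omega), if_pos (by omega), if_pos hz] at h2
      simp only [decide_eq_true_eq] at h2
      omega
  by_contra hcon
  push Not at hcon
  obtain ⟨⟨x, hx, hxz, hx0⟩, ⟨y, hy, hyz, hy0⟩⟩ := hcon
  have hx1 : ori (p (n + z)) (p z) (p x) < 0 := lt_of_le_of_ne hx0 (hne x hx hxz)
  have hy1 : 0 < ori (p (n + z)) (p z) (p y) := lt_of_le_of_ne hy0 (Ne.symm (hne y hy hyz))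
  refine hC n T p C hG (n + z) (by omega) (by omega) x hx y hy z hz (had x hx hxz) (had y hy hyz)
    hnad ?_ hy1
  unfold ori at hx1 ⊢
  linarith

end Pool.Agent.H670R5
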