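import Pool.Agent.H670R5.St2

/-!
# The obstacle is bounded by a polygon
-/

namespace Pool.Agent.H670R5

open Pool.Agent.NPC Pool.Agent.H679R2

theorem F1_mir_mir (p : Pl) : mir (mir p) = p := by
  unfold mir; ext <;> simp

theorem F1_mir_comb (x y : Pl) (a b : ℝ) (h : a + b = 1) :
    mir (a • x + b • y) = a • mir x + b • mir y := by
  unfold mir
  ext
  · simp
  · simp only [Prod.snd_add, Prod.smul_snd, smul_eq_mul]
    linear_combination (-2) * h

theorem F1_pre_convex (S : Set Pl) (hS : Convex ℝ S) : Convex ℝ {x | mir x ∈ S} := by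
  intro x hx y hy a b ha hb hab
  show mir (a • x + b • y) ∈ S
  rw [F1_mir_comb x y a b hab]
  exact hS hx hy ha hb hab

theorem F1_ori_mir (p q r : Pl) : ori (mir q) (mir p) (mir r) = ori p q r := by
  unfold ori mir; ring

theorem F1_tri_mir1 (p q w x : Pl) (hx : x ∈ tri (mir q) (mir p) (mir w)) :
    mir x ∈ tri p q w := by
  have h : tri (mir q) (mir p) (mir w) ⊆ {x | mir x ∈ tri p q w} := by
    apply convexHull_min _ (F1_pre_convex _ (convex_convexHull ℝ _))
    intro y hy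
    simp only [Set.mem_insert_iff, Set.mem_singleton_iff] at hy
    show mir y ∈ convexHull ℝ {p, q, w}
    apply subset_convexHull
    rcases hy with rfl | rfl | rfl <;> rw [F1_mir_mir] <;> simp
  exact h hx

theorem F1_tri_comm (p q w : Pl) : tri p q w = tri q p w := by
  unfold tri; rw [Set.insert_comm]

theorem F1_tri_mir (p q w x : Pl) : x ∈ tri (mir q) (mir p) (mir w) ↔ mir x ∈ tri p q w := by
  constructor
  · exact F1_tri_mir1 p q w x
  · intro h
    have h2 := F1_tri_mir1 (mir q) (mir p) (mir w) (mir x)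
    rw [F1_mir_mir, F1_mir_mir, F1_mir_mir, F1_mir_mir] at h2
    exact h2 h

theorem F1_seg_mir1 (p q x : Pl) (hx : x ∈ segment ℝ p q) :
    mir x ∈ segment ℝ (mir p) (mir q) := by
  obtain ⟨a, b, ha, hb, hab, rfl⟩ := hx
  exact ⟨a, b, ha, hb, hab, (F1_mir_comb p q a b hab).symm⟩

theorem F1_seg_mir (p q x : Pl) (h : mir x ∈ segment ℝ p q) :
    x ∈ segment ℝ (mir q) (mir p) := by
  have h2 := F1_seg_mir1 p q (mir x) h
  rw [F1_mir_mir, segment_symm] at h2
  exact h2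

/-- the relation used in `St_attach` -/
def F1_R (e e' : Pl × Pl × Pl) : Prop := (e.1, e.2.1) ≠ (e'.1, e'.2.1) ∧
    tri e.1 e.2.1 e.2.2 ∩ tri e'.1 e'.2.1 e'.2.2 ⊆ segment ℝ e.1 e.2.1 ∩ segment ℝ e'.1 e'.2.1

theorem F1_R_of_disj (e e' : Pl × Pl × Pl)
    (h : ∀ z, z ∈ tri e.1 e.2.1 e.2.2 → z ∈ tri e'.1 e'.2.1 e'.2.2 → False) : F1_R e e' := by
  constructor
  · intro he
    have h1 : e.1 ∈ tri e.1 e.2.1 e.2.2 := by
      unfold tri; apply subset_convexHull; simp
    have h2 : e'.1 ∈ tri e'.1 e'.2.1 e'.2.2 := by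
      unfold tri; apply subset_convexHull; simp
    have h3 : e.1 = e'.1 := (Prod.mk.inj he).1
    have h4 : e.1 ∈ tri e'.1 e'.2.1 e'.2.2 := by rw [h3]; exact h2
    exact h _ h1 h4
  · rintro z ⟨hz1, hz2⟩
    exact (h z hz1 hz2).elim

section
variable (n : ℕ) (T : List (ℕ × ℕ × ℕ × Bool)) (pos J K : ℕ → ℕ) (ρ : ℝ)

/-- the four triangles at the vertex `u` -/
noncomputable def F1_four (u : ℕ) : List (Pl × Pl × Pl) :=
  [(ptA n T pos J K ρ (X n pos J K u), Q n pos J K u, tipL n pos J K ρ u),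
   (Q n pos J K u, ptE n T pos J K ρ (X n pos J K u), tipR n pos J K ρ u),
   (mir (Q n pos J K u), mir (ptA n T pos J K ρ (X n pos J K u)), mir (tipL n pos J K ρ u)),
   (mir (ptE n T pos J K ρ (X n pos J K u)), mir (Q n pos J K u), mir (tipR n pos J K ρ u))]

/-- the list of all triangles -/
noncomputable def F1_es : List (Pl × Pl × Pl) :=
  ((List.range (sz n T)).filter (fun u => decide (n ≤ u))).flatMap (F1_four n T pos J K ρ)

/-- the points of a triangle of `F1_four` -/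
theorem F1_four_mem (u : ℕ) (e : Pl × Pl × Pl) (he : e ∈ F1_four n T pos J K ρ u) :
    (∀ z, z ∈ tri e.1 e.2.1 e.2.2 → z ∈ earL n T pos J K ρ u ∪ earR n T pos J K ρ u) ∨
    (∀ z, z ∈ tri e.1 e.2.1 e.2.2 → mir z ∈ earL n T pos J K ρ u ∪ earR n T pos J K ρ u) := by
  unfold F1_four at he
  simp only [List.mem_cons, List.not_mem_nil, or_false] at he
  rcases he with rfl | rfl | rfl | rfl
  · left; intro z hz; left; exact hz
  · left; intro z hz; right; exact hz
  · right; intro z hz; left; exact (F1_tri_mir _ _ _ _).1 hz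
  · right; intro z hz; right; exact (F1_tri_mir _ _ _ _).1 hz

theorem F1_low_high (u v : ℕ)
    (hu : ∀ z ∈ earL n T pos J K ρ u ∪ earR n T pos J K ρ u, -1 < z.1 ∧ z.1 < n ∧ z.2 < 1)
    (hv : ∀ z ∈ earL n T pos J K ρ v ∪ earR n T pos J K ρ v, -1 < z.1 ∧ z.1 < n ∧ z.2 < 1)
    (z : Pl) (h1 : z ∈ earL n T pos J K ρ u ∪ earR n T pos J K ρ u)
    (h2 : mir z ∈ earL n T pos J K ρ v ∪ earR n T pos J K ρ v) : False := by
  have h3 := (hu z h1).2.2
  have h4 := (hv _ h2).2.2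
  have h5 : (mir z).2 = 2 - z.2 := rfl
  rw [h5] at h4
  linarith

theorem F1_pair_diff (u v : ℕ)
    (hu : ∀ z ∈ earL n T pos J K ρ u ∪ earR n T pos J K ρ u, -1 < z.1 ∧ z.1 < n ∧ z.2 < 1)
    (hv : ∀ z ∈ earL n T pos J K ρ v ∪ earR n T pos J K ρ v, -1 < z.1 ∧ z.1 < n ∧ z.2 < 1)
    (hd : Disjoint (earL n T pos J K ρ u ∪ earR n T pos J K ρ u)
      (earL n T pos J K ρ v ∪ earR n T pos J K ρ v))
    (e e' : Pl × Pl × Pl) (he : e ∈ F1_four n T pos J K ρ u) (he' : e' ∈ F1_four n T pos J K ρ v) :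
    F1_R e e' := by
  apply F1_R_of_disj
  intro z hz hz'
  rcases F1_four_mem n T pos J K ρ u e he with h1 | h1 <;>
    rcases F1_four_mem n T pos J K ρ v e' he' with h2 | h2
  · exact Set.disjoint_left.1 hd (h1 z hz) (h2 z hz')
  · exact F1_low_high n T pos J K ρ u v hu hv z (h1 z hz) (h2 z hz')
  · exact F1_low_high n T pos J K ρ v u hv hu z (h2 z hz') (h1 z hz)
  · exact Set.disjoint_left.1 hd (h1 z hz) (h2 z hz')

theorem F1_pair_same (hρ : 0 < ρ) (u : ℕ)
    (hu : ∀ z ∈ earL n T pos J K ρ u ∪ earR n T pos J K ρ u, -1 < z.1 ∧ z.1 < n ∧ z.2 < 1)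
    (hi : earL n T pos J K ρ u ∩ earR n T pos J K ρ u ⊆ {Q n pos J K u}) :
    (F1_four n T pos J K ρ u).Pairwise F1_R := by
  have hLH : ∀ z, z ∈ earL n T pos J K ρ u ∪ earR n T pos J K ρ u →
      mir z ∈ earL n T pos J K ρ u ∪ earR n T pos J K ρ u → False :=
    fun z h1 h2 => F1_low_high n T pos J K ρ u u hu hu z h1 h2
  unfold F1_four
  refine List.Pairwise.cons ?_ (List.Pairwise.cons ?_ (List.Pairwise.cons ?_
    (List.Pairwise.cons ?_ List.Pairwise.nil)))
  · intro e he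
    simp only [List.mem_cons, List.not_mem_nil, or_false] at he
    rcases he with rfl | rfl | rfl
    · constructor
      · intro h
        have h1 := congrArg Prod.fst (Prod.mk.inj h).1
        simp only [ptA, Q] at h1
        linarith
      · rintro z ⟨h1, h2⟩
        have h3 : z = Q n pos J K u := hi ⟨h1, h2⟩
        rw [h3]
        exact ⟨right_mem_segment ℝ _ _, left_mem_segment ℝ _ _⟩
    · apply F1_R_of_disj
      intro z h1 h2
      exact hLH z (Or.inl h1) (Or.inl ((F1_tri_mir _ _ _ _).1 h2))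
    · apply F1_R_of_disj
      intro z h1 h2
      exact hLH z (Or.inl h1) (Or.inr ((F1_tri_mir _ _ _ _).1 h2))
  · intro e he
    simp only [List.mem_cons, List.not_mem_nil, or_false] at he
    rcases he with rfl | rfl
    · apply F1_R_of_disj
      intro z h1 h2
      exact hLH z (Or.inr h1) (Or.inl ((F1_tri_mir _ _ _ _).1 h2))
    · apply F1_R_of_disj
      intro z h1 h2
      exact hLH z (Or.inr h1) (Or.inr ((F1_tri_mir _ _ _ _).1 h2))
  · intro e he
    simp only [List.mem_cons, List.not_mem_nil, or_false] at he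
    subst he
    constructor
    · intro h
      have h1 := congrArg Prod.fst (Prod.mk.inj h).1
      simp only [ptE, Q, mir] at h1
      linarith
    · rintro z ⟨h1, h2⟩
      have h3 : mir z = Q n pos J K u :=
        hi ⟨(F1_tri_mir _ _ _ _).1 h1, (F1_tri_mir _ _ _ _).1 h2⟩
      have h4 : z = mir (Q n pos J K u) := by rw [← h3, F1_mir_mir]
      rw [h4]
      exact ⟨left_mem_segment ℝ _ _, right_mem_segment ℝ _ _⟩
  · intro e he
    simp at he

theorem F1_es_set : {x | ∃ e ∈ F1_es n T pos J K ρ, x ∈ tri e.1 e.2.1 e.2.2} =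
    teeth n T pos J K ρ ∪ {x | mir x ∈ teeth n T pos J K ρ} := by
  ext x
  simp only [Set.mem_ofPred_eq, Set.mem_union, F1_es, List.mem_flatMap, List.mem_filter,
    List.mem_range, decide_eq_true_eq]
  constructor
  · rintro ⟨e, ⟨u, ⟨hu1, hu2⟩, he⟩, hx⟩
    unfold F1_four at he
    simp only [List.mem_cons, List.not_mem_nil, or_false] at he
    rcases he with rfl | rfl | rfl | rfl
    · left; exact ⟨u, hu2, hu1, Or.inl hx⟩
    · left; exact ⟨u, hu2, hu1, Or.inr hx⟩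
    · right; exact ⟨u, hu2, hu1, Or.inl ((F1_tri_mir _ _ _ _).1 hx)⟩
    · right; exact ⟨u, hu2, hu1, Or.inr ((F1_tri_mir _ _ _ _).1 hx)⟩
  · rintro (⟨u, hu2, hu1, h | h⟩ | ⟨u, hu2, hu1, h | h⟩)
    · refine ⟨(ptA n T pos J K ρ (X n pos J K u), Q n pos J K u, tipL n pos J K ρ u),
        ⟨u, ⟨hu1, hu2⟩, ?_⟩, h⟩
      unfold F1_four
      exact List.mem_cons_self
    · refine ⟨(Q n pos J K u, ptE n T pos J K ρ (X n pos J K u), tipR n pos J K ρ u),
        ⟨u, ⟨hu1, hu2⟩, ?_⟩, h⟩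
      unfold F1_four
      exact List.mem_cons_of_mem _ List.mem_cons_self
    · refine ⟨(mir (Q n pos J K u), mir (ptA n T pos J K ρ (X n pos J K u)),
        mir (tipL n pos J K ρ u)), ⟨u, ⟨hu1, hu2⟩, ?_⟩, (F1_tri_mir _ _ _ _).2 h⟩
      unfold F1_four
      exact List.mem_cons_of_mem _ (List.mem_cons_of_mem _ List.mem_cons_self)
    · refine ⟨(mir (ptE n T pos J K ρ (X n pos J K u)), mir (Q n pos J K u),
        mir (tipR n pos J K ρ u)), ⟨u, ⟨hu1, hu2⟩, ?_⟩, (F1_tri_mir _ _ _ _).2 h⟩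
      unfold F1_four
      exact List.mem_cons_of_mem _ (List.mem_cons_of_mem _ (List.mem_cons_of_mem _
        List.mem_cons_self))

end

theorem F1_ok (hl : St_lens) (ha : St_attach) (hS : St_LLsorted) (hZ : St_LLzip) (hL1 : St_lens1)
    (hL2 : St_lens2) (h1 : St_tooth1) (h2 : St_tooth2) (h3 : St_tooth3) (_hX : St_X) : St_F1 := by
  intro n T pos J K hA hn
  obtain ⟨r1, hr1, hS⟩ := hS n T pos J K hA hn
  obtain ⟨r2, hr2, hL1⟩ := hL1 n T pos J K hA hn
  obtain ⟨r3, hr3, hL2⟩ := hL2 n T pos J K hA hn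
  obtain ⟨r4, hr4, h2⟩ := h2 n T pos J K hA
  obtain ⟨r5, hr5, h3⟩ := h3 n T pos J K hA
  refine ⟨min r1 (min r2 (min r3 (min r4 r5))), by
    simp only [gt_iff_lt, lt_min_iff]; exact ⟨hr1, hr2, hr3, hr4, hr5⟩, ?_⟩
  intro ρ hρ hρ0
  simp only [lt_min_iff] at hρ0
  obtain ⟨hρ1, hρ2, hρ3, hρ4, hρ5⟩ := hρ0
  obtain ⟨hs1, hs2, hs3⟩ := hS ρ hρ hρ1
  have hL1 := hL1 ρ hρ hρ2
  have hL2 := (hL2 ρ hρ hρ3).2
  have h2 := h2 ρ hρ hρ4
  have h3 := h3 ρ hρ hρ5
  have h1 := h1 n T pos J K hA ρ hρ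
  have hZ := hZ n T pos J K ρ hA
  obtain ⟨l, hP, hE⟩ := hl ((-2, 1) : Pl) (((n : ℝ) + 1, 1) : Pl)
    ((nd n T pos J K).flatMap (blk n T pos J K ρ)) hs2 rfl rfl hs3 hs1
  change PolyReg l (lens (LL n T pos J K ρ)) at hP
  change ∀ e ∈ (LL n T pos J K ρ).zip (LL n T pos J K ρ).tail,
      e ∈ cycEdges l ∧ (mir e.2, mir e.1) ∈ cycEdges l at hE
  -- intersection of a tooth and the lens
  have hIL : ∀ u, n ≤ u → u < sz n T → ∀ z, z ∈ earL n T pos J K ρ u →
      z ∈ lens (LL n T pos J K ρ) →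
      z ∈ segment ℝ (ptA n T pos J K ρ (X n pos J K u)) (Q n pos J K u) := by
    intro u hu1 hu2 z hz hzl
    have hb := (h3 u hu1 hu2).1 z (Or.inl hz)
    rcases hL1 z hzl with h | h | ⟨e, he, _, _, hc⟩
    · linarith [hb.1]
    · linarith [hb.2.1]
    · rcases (h2 u hu1 hu2 e he).1 z hz with h | h
      · linarith
      · exact h
  have hIR : ∀ u, n ≤ u → u < sz n T → ∀ z, z ∈ earR n T pos J K ρ u →
      z ∈ lens (LL n T pos J K ρ) →
      z ∈ segment ℝ (Q n pos J K u) (ptE n T pos J K ρ (X n pos J K u)) := by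
    intro u hu1 hu2 z hz hzl
    have hb := (h3 u hu1 hu2).1 z (Or.inr hz)
    rcases hL1 z hzl with h | h | ⟨e, he, _, _, hc⟩
    · linarith [hb.1]
    · linarith [hb.2.1]
    · rcases (h2 u hu1 hu2 e he).2 z hz with h | h
      · linarith
      · exact h
  have hatt := ha (F1_es n T pos J K ρ) l (lens (LL n T pos J K ρ)) hP (by
    intro e he
    simp only [F1_es, List.mem_flatMap, List.mem_filter, List.mem_range,
      decide_eq_true_eq] at he
    obtain ⟨u, ⟨hu2, hu1⟩, he⟩ := he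
    unfold F1_four at he
    simp only [List.mem_cons, List.not_mem_nil, or_false] at he
    rcases he with rfl | rfl | rfl | rfl
    · refine ⟨(hE _ (hZ u hu1 hu2).1).1, (h1 u hu1 hu2).1, ?_⟩
      rintro z ⟨hz1, hz2⟩
      exact hIL u hu1 hu2 z hz1 hz2
    · refine ⟨(hE _ (hZ u hu1 hu2).2).1, (h1 u hu1 hu2).2.1, ?_⟩
      rintro z ⟨hz1, hz2⟩
      exact hIR u hu1 hu2 z hz1 hz2
    · refine ⟨(hE _ (hZ u hu1 hu2).1).2, ?_, ?_⟩
      · show ori (mir (Q n pos J K u)) (mir (ptA n T pos J K ρ (X n pos J K u)))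
          (mir (tipL n pos J K ρ u)) < 0
        rw [F1_ori_mir]
        exact (h1 u hu1 hu2).1
      · rintro z ⟨hz1, hz2⟩
        apply F1_seg_mir
        exact hIL u hu1 hu2 (mir z) ((F1_tri_mir _ _ _ _).1 hz1) ((hL2 z).2 hz2)
    · refine ⟨(hE _ (hZ u hu1 hu2).2).2, ?_, ?_⟩
      · show ori (mir (ptE n T pos J K ρ (X n pos J K u))) (mir (Q n pos J K u))
          (mir (tipR n pos J K ρ u)) < 0
        rw [F1_ori_mir]
        exact (h1 u hu1 hu2).2.1
      · rintro z ⟨hz1, hz2⟩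
        apply F1_seg_mir
        exact hIR u hu1 hu2 (mir z) ((F1_tri_mir _ _ _ _).1 hz1) ((hL2 z).2 hz2)) (by
    change (F1_es n T pos J K ρ).Pairwise F1_R
    unfold F1_es
    rw [List.pairwise_flatMap]
    constructor
    · intro u hu
      simp only [List.mem_filter, List.mem_range, decide_eq_true_eq] at hu
      exact F1_pair_same n T pos J K ρ hρ u (h3 u hu.2 hu.1).1 (h1 u hu.2 hu.1).2.2.2.2
    · apply List.Nodup.pairwise_of_forall_ne (List.nodup_range.filter _)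
      intro u hu v hv huv e he e' he'
      simp only [List.mem_filter, List.mem_range, decide_eq_true_eq] at hu hv
      exact F1_pair_diff n T pos J K ρ u v (h3 u hu.2 hu.1).1 (h3 v hv.2 hv.1).1
        ((h3 u hu.2 hu.1).2 v hv.2 hv.1 huv) e e' he he')
  obtain ⟨l', hP', hO⟩ := hatt
  rw [F1_es_set] at hP' hO
  refine ⟨⟨l', hP'⟩, ?_⟩
  intro u hu1 hu2
  have hmem : ∀ e ∈ F1_four n T pos J K ρ u, e ∈ F1_es n T pos J K ρ := by
    intro e he
    unfold F1_es
    simp only [List.mem_flatMap, List.mem_filter, List.mem_range, decide_eq_true_eq]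
    exact ⟨u, ⟨hu2, hu1⟩, he⟩
  constructor
  · exact hO _ (hmem _ (by unfold F1_four; exact List.mem_cons_self))
  · exact hO _ (hmem _ (by
      unfold F1_four; exact List.mem_cons_of_mem _ List.mem_cons_self))

end Pool.Agent.H670R5
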