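import Pool.Agent.H670R5.St2

/-!
# Non-adjacent vertices of one copy do not see each other
-/

namespace Pool.Agent.H670R5

open Pool.Agent.NPC Pool.Agent.H679R2

theorem F2_aux (hX : St_X) (h2 : St_nd2) (hT1 : St_tooth1) (h5 : St_tooth5) (hd : St_dir)
    (hb : St_below) (n : ℕ) (T : List (ℕ × ℕ × ℕ × Bool)) (pos J K : ℕ → ℕ)
    (hA : Arr n T pos J K) (ρ : ℝ) (hρ : 0 < ρ) (u v : ℕ) (hnu : n ≤ u) (hu : u < sz n T)
    (hv : v < sz n T) (huv : u ≠ v) (hO : OutW n pos J K u (Q n pos J K v))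
    (h1 : openSegment ℝ (ptA n T pos J K ρ (X n pos J K u)) (Q n pos J K u) ⊆
      interior (OB n T pos J K ρ))
    (h1' : openSegment ℝ (Q n pos J K u) (ptE n T pos J K ρ (X n pos J K u)) ⊆
      interior (OB n T pos J K ρ)) :
    (segment ℝ (Q n pos J K u) (Q n pos J K v) ∩ interior (OB n T pos J K ρ)).Nonempty := by
  obtain ⟨x1, x2, x3, x4, x5, x6, x7⟩ := hX n T pos J K hA
  obtain ⟨y1, y2, y3⟩ := x1 u hu
  have hne : Q n pos J K v ≠ Q n pos J K u := by
    intro h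
    have h' : X n pos J K u = X n pos J K v := (congrArg Prod.fst h).symm
    by_cases hvn : v < n
    · exact x7 u hnu hu v hvn h'
    · exact huv (x2 u hnu hu v (not_lt.1 hvn) hv h')
  obtain ⟨-, -, -, -, -, -, -, -, e1, e2⟩ := h2 n T pos J K hA _ y1 y2 y3
  have b1 := hb n T pos J K hA _ e1 v hv
  have b2 := hb n T pos J K hA _ e2 v hv
  obtain ⟨t1, t2, -, -, -⟩ := hT1 n T pos J K hA ρ hρ u hnu hu
  rcases h5 n T pos J K hA ρ hρ u hnu hu _ hne b1 b2 hO with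
    ⟨α, β, hα, hβ, he⟩ | ⟨α, β, hα, hβ, he⟩
  · refine hd (Q n pos J K u) (ptA n T pos J K ρ (X n pos J K u)) (tipL n pos J K ρ u)
      (Q n pos J K v) _ α β ?_ ?_ ?_ hα hβ he
    · intro h0
      have h6 : ori (ptA n T pos J K ρ (X n pos J K u)) (Q n pos J K u) (tipL n pos J K ρ u) =
          -ori (Q n pos J K u) (ptA n T pos J K ρ (X n pos J K u)) (tipL n pos J K ρ u) := by
        unfold ori
        ring
      rw [h6, h0] at t1
      linarith
    · intro x hx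
      refine Or.inr (Or.inl ⟨u, hnu, hu, Or.inl ?_⟩)
      have h7 : tri (Q n pos J K u) (ptA n T pos J K ρ (X n pos J K u)) (tipL n pos J K ρ u) =
          earL n T pos J K ρ u := by
        unfold earL tri
        rw [Set.insert_comm]
      exact h7 ▸ hx
    · rw [openSegment_symm]
      exact h1
  · refine hd (Q n pos J K u) (ptE n T pos J K ρ (X n pos J K u)) (tipR n pos J K ρ u)
      (Q n pos J K v) _ α β t2.ne ?_ h1' hα hβ he
    intro x hx
    exact Or.inr (Or.inl ⟨u, hnu, hu, Or.inr hx⟩)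

theorem F2_ok (hF1 : St_F1) (hw : St_win) (hX : St_X) (h2 : St_nd2) (hT1 : St_tooth1)
    (h5 : St_tooth5) (hd : St_dir) (hb : St_below) : St_F2 := by
  intro n T pos J K hA hn
  obtain ⟨ρ₀, hρ₀, hF⟩ := hF1 n T pos J K hA hn
  refine ⟨ρ₀, hρ₀, fun ρ hρ hρ' u hu v hv huv hna => ?_⟩
  obtain ⟨-, hF'⟩ := hF ρ hρ hρ'
  rcases (hw n T pos J K hA u hu v hv huv).2 hna with ⟨hnu, hO⟩ | ⟨hnv, hO⟩
  · exact F2_aux hX h2 hT1 h5 hd hb n T pos J K hA ρ hρ u v hnu hu hv huv hO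
      (hF' u hnu hu).1 (hF' u hnu hu).2
  · rw [segment_symm]
    exact F2_aux hX h2 hT1 h5 hd hb n T pos J K hA ρ hρ v u hnv hv hu huv.symm hO
      (hF' v hnv hv).1 (hF' v hnv hv).2

end Pool.Agent.H670R5
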