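import Pool.Agent.H670R5.St2

/-!
# Edges are disjoint from the obstacle
-/

namespace Pool.Agent.H670R5

open Pool.Agent.NPC Pool.Agent.H679R2

private theorem F3_half (a b c : ℝ) {x y z : Pl} (hx : a * x.1 + b * x.2 < c)
    (hy : a * y.1 + b * y.2 < c) (hz : z ∈ segment ℝ x y) : a * z.1 + b * z.2 < c := by
  obtain ⟨s, t, hs, ht, hst, rfl⟩ := hz
  simp only [Prod.fst_add, Prod.snd_add, Prod.smul_fst, Prod.smul_snd, smul_eq_mul]
  have ht' : t = 1 - s := by linarith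
  subst ht'
  have h0 : a * (s * x.1 + (1 - s) * y.1) + b * (s * x.2 + (1 - s) * y.2) =
      s * (a * x.1 + b * x.2) + (1 - s) * (a * y.1 + b * y.2) := by ring
  rw [h0]
  rcases eq_or_lt_of_le hs with h | h
  · rw [← h]; linarith
  · have h1 := mul_lt_mul_of_pos_left hx h
    have h2 := mul_le_mul_of_nonneg_left hy.le ht
    linarith

/-- the teeth of the end of an edge -/
private theorem F3_end (hw : St_win) (h4 : St_tooth4) (hwd : St_wdisp)
    (n : ℕ) (T : List (ℕ × ℕ × ℕ × Bool)) (pos J K : ℕ → ℕ) (hA : Arr n T pos J K) :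
    ∃ τ₀ > 0, ∀ τ, 0 < τ → τ < τ₀ → ∀ ρ, 0 < ρ → ∀ u, n ≤ u → u < sz n T → ∀ v < sz n T, u ≠ v →
      Ad n T u v → ∀ z ∈ segment ℝ (Qt n pos J K τ u) (Qt n pos J K τ v),
      z ∉ earL n T pos J K ρ u ∪ earR n T pos J K ρ u := by
  obtain ⟨hconv, t2, ht2, W⟩ := hwd n T pos J K hA
  refine ⟨t2, ht2, fun τ hτ hτ' ρ hρ u hnu hu v hv huv had z hz hzO => ?_⟩
  obtain ⟨W1, W2⟩ := W τ hτ hτ' u hnu hu
  have W3 := W2 v hv ((hw n T pos J K hA u hu v hv huv).1 had hnu)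
  exact h4 n T pos J K hA ρ hρ u hnu hu z hzO ((hconv u hnu hu).segment_subset W1 W3 hz)

theorem F3_ok (hw : St_win) (_hX : St_X) (hL1 : St_lens1) (h3 : St_tooth3) (h4 : St_tooth4)
    (hd : St_disp) (hwd : St_wdisp) (hf : St_far) : St_F3 := by
  intro n T pos J K hA hn
  obtain ⟨r1, hr1, H1⟩ := hL1 n T pos J K hA hn
  obtain ⟨r2, hr2, H2⟩ := h3 n T pos J K hA
  obtain ⟨r3, hr3, t3, ht3, H3⟩ := hf n T pos J K hA
  obtain ⟨t1, ht1, D⟩ := hd n T pos J K hA
  obtain ⟨t2, ht2, W⟩ := F3_end hw h4 hwd n T pos J K hA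
  refine ⟨min r1 (min r2 r3), lt_min hr1 (lt_min hr2 hr3), fun ρ hρ hρ' => ?_⟩
  refine ⟨min t1 (min t2 t3), lt_min ht1 (lt_min ht2 ht3), fun τ hτ hτ' => ?_⟩
  intro u hu v hv huv had
  have hρ1 : ρ < r1 := lt_of_lt_of_le hρ' (min_le_left _ _)
  have hρ2 : ρ < r2 := lt_of_lt_of_le hρ' ((min_le_right _ _).trans (min_le_left _ _))
  have hρ3 : ρ < r3 := lt_of_lt_of_le hρ' ((min_le_right _ _).trans (min_le_right _ _))
  have hτ1 : τ < t1 := lt_of_lt_of_le hτ' (min_le_left _ _)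
  have hτ2 : τ < t2 := lt_of_lt_of_le hτ' ((min_le_right _ _).trans (min_le_left _ _))
  have hτ3 : τ < t3 := lt_of_lt_of_le hτ' ((min_le_right _ _).trans (min_le_right _ _))
  obtain ⟨u1, u2, u3, u4⟩ := D τ hτ hτ1 u hu
  obtain ⟨v1, v2, v3, v4⟩ := D τ hτ hτ1 v hv
  rw [Set.disjoint_left]
  intro z hz hzO
  have e1 : -1 < z.1 := by
    have := F3_half (-1) 0 1 (x := Qt n pos J K τ u) (y := Qt n pos J K τ v) (by linarith)
      (by linarith) hz
    linarith
  have e2 : z.1 < n := by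
    have := F3_half 1 0 n (x := Qt n pos J K τ u) (y := Qt n pos J K τ v) (by linarith)
      (by linarith) hz
    linarith
  have e3 : z.2 < 1 := by
    have := F3_half 0 1 1 (x := Qt n pos J K τ u) (y := Qt n pos J K τ v) (by linarith)
      (by linarith) hz
    linarith
  have e4 : ∀ e ∈ (nd n T pos J K).zip (nd n T pos J K).tail, z.2 < chd e.1 e.2 z.1 := by
    intro e he
    have a1 := u4 e he
    have a2 := v4 e he
    unfold chd at a1 a2 ⊢
    have := F3_half (e.1 + e.2) 1 (e.1 * e.2 + 1 / 16) (x := Qt n pos J K τ u)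
      (y := Qt n pos J K τ v) (by linarith) (by linarith) hz
    linarith
  rcases hzO with hzO | hzO | hzO
  · rcases H1 ρ hρ hρ1 z hzO with h | h | ⟨e, he, -, -, h⟩
    · linarith
    · linarith
    · linarith [e4 e he]
  · obtain ⟨w, hnw, hw', hz'⟩ := hzO
    by_cases hwu : w = u
    · subst hwu
      exact W τ hτ hτ2 ρ hρ w hnw hw' v hv huv had z hz hz'
    · by_cases hwv : w = v
      · subst hwv
        exact W τ hτ hτ2 ρ hρ w hnw hw' u hu (Ne.symm huv) had.symm z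
          (by rw [segment_symm]; exact hz) hz'
      · exact Set.disjoint_left.1 (H3 ρ hρ hρ3 τ hτ hτ3 w hnw hw' u hu v hv (Ne.symm hwu)
          (Ne.symm hwv) huv) hz hz'
  · obtain ⟨w, hnw, hw', hz'⟩ := hzO
    have h := ((H2 ρ hρ hρ2 w hnw hw').1 (mir z) hz').2.2
    simp only [mir] at h
    linarith

end Pool.Agent.H670R5
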