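import Pool.Agent.H670R5.St2

namespace Pool.Agent.H670R5

open Pool.Agent.NPC Pool.Agent.H679R2

private theorem F4_mir (z : Pl) : mir (mir z) = z := by
  unfold mir
  ext
  · rfl
  · simp

theorem F4_ok (hX : St_X) (hL2 : St_lens2) : St_F4 := by
  intro n T pos J K hA hn
  obtain ⟨ρ₀, hρ₀, hL⟩ := hL2 n T pos J K hA hn
  refine ⟨ρ₀, hρ₀, ?_⟩
  intro ρ hρ hρ'
  obtain ⟨hax, hsym⟩ := hL ρ hρ hρ'
  have hn1 : (1 : ℝ) ≤ n := by exact_mod_cast hn
  have hsub : interior (lens (LL n T pos J K ρ)) ⊆ interior (OB n T pos J K ρ) :=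
    interior_mono (fun x hx => Or.inl hx)
  have hXb := (hX n T pos J K hA).1
  have hlow : ∀ u, (Q n pos J K u).2 ≤ 1 / 16 := by
    intro u
    unfold Q
    simp only
    split_ifs <;> nlinarith [sq_nonneg (X n pos J K u)]
  have hQ1 : ∀ u, (Q n pos J K u).1 = X n pos J K u := fun u => rfl
  refine ⟨?_, ?_, ?_⟩
  · intro u hu v hv
    have h1 := hlow u
    have h2 := hlow v
    obtain ⟨-, h3, h4⟩ := hXb u hu
    obtain ⟨-, h5, h6⟩ := hXb v hv
    have hm2 : (mir (Q n pos J K v)).2 = 2 - (Q n pos J K v).2 := rfl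
    have hm1 : (mir (Q n pos J K v)).1 = X n pos J K v := rfl
    set a := (Q n pos J K u).2 with ha
    set b := (mir (Q n pos J K v)).2 with hb
    have hab : 0 < b - a := by linarith
    set t := (1 - a) / (b - a) with ht
    have ht0 : 0 < t := div_pos (by linarith) hab
    have ht1 : t < 1 := by rw [ht, div_lt_one hab]; linarith
    have hta : t * (b - a) = 1 - a := by rw [ht]; field_simp
    refine ⟨(1 - t) • Q n pos J K u + t • mir (Q n pos J K v),
      ⟨1 - t, t, by linarith, ht0.le, by ring, rfl⟩, ?_⟩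
    have hp : (1 - t) • Q n pos J K u + t • mir (Q n pos J K v) =
        ((1 - t) * X n pos J K u + t * X n pos J K v, (1 : ℝ)) := by
      ext
      · simp only [Prod.fst_add, Prod.smul_fst, smul_eq_mul, hQ1, hm1]
      · simp only [Prod.snd_add, Prod.smul_snd, smul_eq_mul]
        rw [← ha, ← hb]
        linarith
    rw [hp]
    apply hsub
    apply hax
    · nlinarith
    · nlinarith
  · apply hsub
    apply hax
    · norm_num
    · linarith
  · intro z
    unfold OB
    simp only [Set.mem_union, Set.mem_setOf_eq, F4_mir, hsym z]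
    tauto

end Pool.Agent.H670R5
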