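import Pool.Agent.H670R5.St2

/-!
# FAR
-/

namespace Pool.Agent.H670R5

open Pool.Agent.NPC Pool.Agent.H679R2 Filter Topology

/-- height relative to the line of slope `-2x` through `(x,y)` -/
noncomputable def farG (x y : ℝ) (z : Pl) : ℝ := (z.2 - y) + 2 * x * (z.1 - x)

lemma farG_comb (x y : ℝ) (z w : Pl) (a b : ℝ) (hab : a + b = 1) :
    farG x y (a • z + b • w) = a * farG x y z + b * farG x y w := by
  unfold farG
  simp only [Prod.fst_add, Prod.snd_add, Prod.smul_fst, Prod.smul_snd, smul_eq_mul]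
  have : b = 1 - a := by linarith
  subst this
  ring

lemma farG_conv_lt (x y c : ℝ) : Convex ℝ {z : Pl | farG x y z < c} := by
  intro z hz w hw a b ha hb hab
  simp only [Set.mem_ofPred_eq] at hz hw ⊢
  rw [farG_comb x y z w a b hab]
  rcases eq_or_lt_of_le ha with h | h
  · have hb1 : b = 1 := by linarith
    subst h; subst hb1; linarith
  · have e1 := mul_lt_mul_of_pos_left hz h
    have e2 := mul_le_mul_of_nonneg_left hw.le hb
    have e3 : a * c + b * c = c := by rw [← add_mul, hab, one_mul]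
    linarith

lemma farG_conv_gt (x y c : ℝ) : Convex ℝ {z : Pl | c < farG x y z} := by
  intro z hz w hw a b ha hb hab
  simp only [Set.mem_ofPred_eq] at hz hw ⊢
  rw [farG_comb x y z w a b hab]
  rcases eq_or_lt_of_le ha with h | h
  · have hb1 : b = 1 := by linarith
    subst h; subst hb1; linarith
  · have e1 := mul_lt_mul_of_pos_left hz h
    have e2 := mul_le_mul_of_nonneg_left hw.le hb
    have e3 : a * c + b * c = c := by rw [← add_mul, hab, one_mul]
    linarith

lemma farG_cont (x y : ℝ) : Continuous (farG x y) := by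
  unfold farG; fun_prop

lemma far_Qlt {n : ℕ} {pos J K : ℕ → ℕ} {u v : ℕ} (hu : n ≤ u)
    (h : X n pos J K v ≠ X n pos J K u) :
    farG (X n pos J K u) (Q n pos J K u).2 (Q n pos J K v) <
      -((X n pos J K v - X n pos J K u) ^ 2 / 2) := by
  have h2 : 0 < (X n pos J K v - X n pos J K u) ^ 2 := by
    have : X n pos J K v - X n pos J K u ≠ 0 := sub_ne_zero.2 h
    positivity
  have hnu : ¬ u < n := by omega
  unfold farG Q
  simp only [if_neg hnu]
  split_ifs with hv
  · nlinarith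
  · nlinarith

lemma far_tau {n : ℕ} {pos J K : ℕ → ℕ} {u v : ℕ} {c : ℝ}
    (h : farG (X n pos J K u) (Q n pos J K u).2 (Q n pos J K v) < c) :
    ∀ᶠ τ in 𝓝[>] (0 : ℝ), farG (X n pos J K u) (Q n pos J K u).2 (Qt n pos J K τ v) < c := by
  have hc : Continuous (fun τ : ℝ => farG (X n pos J K u) (Q n pos J K u).2
      (Qt n pos J K τ v)) := by
    apply (farG_cont _ _).comp
    unfold Qt
    fun_prop
  have h0 : Tendsto (fun τ : ℝ => farG (X n pos J K u) (Q n pos J K u).2
      (Qt n pos J K τ v)) (𝓝[>] 0) (𝓝 (farG (X n pos J K u) (Q n pos J K u).2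
      (Qt n pos J K 0 v))) := (hc.tendsto 0).mono_left nhdsWithin_le_nhds
  have e : Qt n pos J K 0 v = Q n pos J K v := by unfold Qt; simp
  rw [e] at h0
  exact h0.eventually_lt_const h

lemma far_rho {x y c : ℝ} (f : ℝ → Pl) (hf : Continuous f) (h : f 0 = (x, y)) (hc : c < 0) :
    ∀ᶠ ρ in 𝓝[>] (0 : ℝ), c < farG x y (f ρ) := by
  have hc' : Continuous (fun ρ : ℝ => farG x y (f ρ)) := (farG_cont _ _).comp hf
  have h0 : Tendsto (fun ρ : ℝ => farG x y (f ρ)) (𝓝[>] 0) (𝓝 (farG x y (f 0))) :=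
    (hc'.tendsto 0).mono_left nhdsWithin_le_nhds
  have e : farG x y (f 0) = 0 := by rw [h]; unfold farG; simp
  rw [e] at h0
  exact h0.eventually_const_lt hc

lemma far_one (n : ℕ) (T : List (ℕ × ℕ × ℕ × Bool)) (pos J K : ℕ → ℕ) (u v w : ℕ)
    (hu : n ≤ u) (hv : X n pos J K v ≠ X n pos J K u) (hw : X n pos J K w ≠ X n pos J K u) :
    ∀ᶠ p in (𝓝[>] (0 : ℝ)) ×ˢ (𝓝[>] (0 : ℝ)),
      Disjoint (segment ℝ (Qt n pos J K p.2 v) (Qt n pos J K p.2 w))
      (earL n T pos J K p.1 u ∪ earR n T pos J K p.1 u) := by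
  have hnu : ¬ u < n := by omega
  have hQ : (Q n pos J K u).2 = -(X n pos J K u) ^ 2 + 1 / 16 := by
    unfold Q; simp [hnu]
  have hQ1 : (Q n pos J K u).1 = X n pos J K u := rfl
  obtain ⟨c, hc0, hcv, hcw⟩ : ∃ c : ℝ, c < 0 ∧
      farG (X n pos J K u) (Q n pos J K u).2 (Q n pos J K v) < c ∧
      farG (X n pos J K u) (Q n pos J K u).2 (Q n pos J K w) < c := by
    have h1 := far_Qlt hu hv
    have h2 := far_Qlt hu hw
    have p1 : 0 < (X n pos J K v - X n pos J K u) ^ 2 := by
      have : X n pos J K v - X n pos J K u ≠ 0 := sub_ne_zero.2 hv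
      positivity
    have p2 : 0 < (X n pos J K w - X n pos J K u) ^ 2 := by
      have : X n pos J K w - X n pos J K u ≠ 0 := sub_ne_zero.2 hw
      positivity
    refine ⟨max (-((X n pos J K v - X n pos J K u) ^ 2 / 2))
      (-((X n pos J K w - X n pos J K u) ^ 2 / 2)), ?_, ?_, ?_⟩
    · apply max_lt <;> linarith
    · exact lt_of_lt_of_le h1 (le_max_left _ _)
    · exact lt_of_lt_of_le h2 (le_max_right _ _)
  have t1 := far_tau (v := v) hcv
  have t2 := far_tau (v := w) hcw
  have r1 : ∀ᶠ ρ in 𝓝[>] (0 : ℝ), c < farG (X n pos J K u) (Q n pos J K u).2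
      (ptA n T pos J K ρ (X n pos J K u)) := by
    apply far_rho _ _ _ hc0
    · unfold ptA chd; fun_prop
    · unfold ptA chd; rw [hQ]; ext
      · simp
      · simp; ring
  have r2 : ∀ᶠ ρ in 𝓝[>] (0 : ℝ), c < farG (X n pos J K u) (Q n pos J K u).2
      (ptE n T pos J K ρ (X n pos J K u)) := by
    apply far_rho _ _ _ hc0
    · unfold ptE chd; fun_prop
    · unfold ptE chd; rw [hQ]; ext
      · simp
      · simp; ring
  have r3 : ∀ᶠ ρ in 𝓝[>] (0 : ℝ), c < farG (X n pos J K u) (Q n pos J K u).2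
      (tipL n pos J K ρ u) := by
    apply far_rho _ _ _ hc0
    · unfold tipL; fun_prop
    · unfold tipL; rw [hQ1]; ext
      · simp
      · simp
  have r4 : ∀ᶠ ρ in 𝓝[>] (0 : ℝ), c < farG (X n pos J K u) (Q n pos J K u).2
      (tipR n pos J K ρ u) := by
    apply far_rho _ _ _ hc0
    · unfold tipR; fun_prop
    · unfold tipR; rw [hQ1]; ext
      · simp
      · simp
  have r0 : c < farG (X n pos J K u) (Q n pos J K u).2 (Q n pos J K u) := by
    unfold farG; rw [hQ1]; simpa using hc0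
  have hR := ((r1.and r2).and (r3.and r4)).prod_mk (t1.and t2)
  filter_upwards [hR] with p hp
  obtain ⟨⟨⟨a1, a2⟩, a3, a4⟩, b1, b2⟩ := hp
  rw [Set.disjoint_left]
  intro z hz hz'
  have hlt : farG (X n pos J K u) (Q n pos J K u).2 z < c :=
    (farG_conv_lt _ _ c).segment_subset b1 b2 hz
  have hgt : c < farG (X n pos J K u) (Q n pos J K u).2 z := by
    rcases hz' with h | h
    · have hs : earL n T pos J K p.1 u ⊆
          {z : Pl | c < farG (X n pos J K u) (Q n pos J K u).2 z} := by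
        unfold earL tri
        apply convexHull_min _ (farG_conv_gt _ _ c)
        intro q hq
        simp only [Set.mem_insert_iff, Set.mem_singleton_iff] at hq
        rcases hq with rfl | rfl | rfl
        · exact a1
        · exact r0
        · exact a3
      exact hs h
    · have hs : earR n T pos J K p.1 u ⊆
          {z : Pl | c < farG (X n pos J K u) (Q n pos J K u).2 z} := by
        unfold earR tri
        apply convexHull_min _ (farG_conv_gt _ _ c)
        intro q hq
        simp only [Set.mem_insert_iff, Set.mem_singleton_iff] at hq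
        rcases hq with rfl | rfl | rfl
        · exact r0
        · exact a2
        · exact a4
      exact hs h
  linarith

theorem far_ok (hX : St_X) : St_far := by
  intro n T pos J K hA
  obtain ⟨_, hX1, hX2, _, _, _, hX3⟩ := hX n T pos J K hA
  have hne : ∀ u, n ≤ u → u < sz n T → ∀ v < sz n T, v ≠ u → X n pos J K v ≠ X n pos J K u := by
    intro u hu hu' v hv hvu he
    by_cases hvn : v < n
    · exact hX3 u hu hu' v hvn he.symm
    · exact hvu (hX1 v (by omega) hv u hu hu' he)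
  have key : ∀ᶠ p in (𝓝[>] (0 : ℝ)) ×ˢ (𝓝[>] (0 : ℝ)),
      ∀ u ∈ Finset.range (sz n T), ∀ v ∈ Finset.range (sz n T), ∀ w ∈ Finset.range (sz n T),
      n ≤ u → v ≠ u → w ≠ u →
      Disjoint (segment ℝ (Qt n pos J K p.2 v) (Qt n pos J K p.2 w))
      (earL n T pos J K p.1 u ∪ earR n T pos J K p.1 u) := by
    rw [Filter.eventually_all_finset]
    intro u hu
    rw [Filter.eventually_all_finset]
    intro v hv
    rw [Filter.eventually_all_finset]
    intro w hw
    rw [Finset.mem_range] at hu hv hw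
    by_cases h : n ≤ u ∧ v ≠ u ∧ w ≠ u
    · have := far_one n T pos J K u v w h.1 (hne u h.1 hu v hv h.2.1) (hne u h.1 hu w hw h.2.2)
      filter_upwards [this] with p hp _ _ _
      exact hp
    · apply Filter.Eventually.of_forall
      intro p h1 h2 h3
      exact absurd ⟨h1, h2, h3⟩ h
  rw [Filter.eventually_prod_iff] at key
  obtain ⟨pa, hpa, pb, hpb, hh⟩ := key
  obtain ⟨ρ₀, hρ₀, hρ⟩ := (mem_nhdsGT_iff_exists_Ioo_subset).1 hpa
  obtain ⟨τ₀, hτ₀, hτ⟩ := (mem_nhdsGT_iff_exists_Ioo_subset).1 hpb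
  refine ⟨ρ₀, hρ₀, τ₀, hτ₀, ?_⟩
  intro ρ h1 h2 τ h3 h4 u hu hu' v hv w hw hvu hwu _
  exact hh (hρ ⟨h1, h2⟩) (hτ ⟨h3, h4⟩) u (Finset.mem_range.2 hu') v (Finset.mem_range.2 hv) w
    (Finset.mem_range.2 hw) hu hvu hwu

end Pool.Agent.H670R5
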