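import Pool.Agent.H670R5.St2

/-!
# Four points in convex position
-/

namespace Pool.Agent.H670R5

open Pool.Agent.NPC Pool.Agent.H679R2

/-- the identity behind `four_ok` -/
theorem four_id (b p q r s : Pl) :
    ori q r s * ori p r s * 0 + (ori q r s * ori p r s * ori b p q
      + ori q r s * ori p q r * ori b p s + ori p q s * ori p r s * ori b r q
      + ori p q s * ori p q r * ori b r s) = 0 := by
  unfold ori
  ring

theorem four_ok : St_four := by
  intro b p q r s h1 h2 h3 h4 h
  have e := four_id b p q r s
  rcases h with ⟨a1, a2, a3, a4⟩ | ⟨a1, a2, a3, a4⟩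
  · have c1 := mul_pos (mul_pos h4 h3) a1
    have c2 := mul_pos (mul_pos h4 h1) a2
    have c3 := mul_pos (mul_pos h2 h3) a3
    have c4 := mul_pos (mul_pos h2 h1) a4
    linarith
  · have e1 : ori b q p = -ori b p q := by unfold ori; ring
    have e2 : ori b s p = -ori b p s := by unfold ori; ring
    have e3 : ori b q r = -ori b r q := by unfold ori; ring
    have e4 : ori b s r = -ori b r s := by unfold ori; ring
    rw [e1] at a1
    rw [e2] at a2
    rw [e3] at a3
    rw [e4] at a4
    have c1 := mul_pos (mul_pos h4 h3) a1
    have c2 := mul_pos (mul_pos h4 h1) a2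
    have c3 := mul_pos (mul_pos h2 h3) a3
    have c4 := mul_pos (mul_pos h2 h1) a4
    linarith

end Pool.Agent.H670R5
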