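import Pool.Agent.H670R5.St2

/-!
# FULL : assembly of the representation
-/

namespace Pool.Agent.H670R5

open Pool.Agent.NPC Pool.Agent.H679R2
open Topology Filter

theorem full_mir_mir (z : Pl) : mir (mir z) = z := by
  unfold mir
  ext <;> simp

theorem full_mir_cont : Continuous mir := by
  unfold mir
  fun_prop

theorem full_mir_comb (a b : ℝ) (x y : Pl) (hab : a + b = 1) :
    mir (a • x + b • y) = a • mir x + b • mir y := by
  unfold mir
  ext
  · simp
  · simp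
    linear_combination (-2 : ℝ) * hab

theorem full_mir_seg {x y z : Pl} (h : z ∈ segment ℝ x y) : mir z ∈ segment ℝ (mir x) (mir y) := by
  obtain ⟨a, b, ha, hb, hab, rfl⟩ := h
  exact ⟨a, b, ha, hb, hab, (full_mir_comb a b x y hab).symm⟩

theorem full_mir_int {P : Set Pl} (hP : ∀ z, mir z ∈ P ↔ z ∈ P) {z : Pl} (h : z ∈ interior P) :
    mir z ∈ interior P := by
  have h1 : mir ⁻¹' (interior P) ⊆ interior P := by
    apply interior_maximal
    · intro w hw
      exact (hP w).mp (interior_subset hw)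
    · exact isOpen_interior.preimage full_mir_cont
  apply h1
  show mir (mir z) ∈ interior P
  rw [full_mir_mir]
  exact h

theorem full_mir_dis {P : Set Pl} (hP : ∀ z, mir z ∈ P ↔ z ∈ P) {x y : Pl}
    (h : Disjoint (segment ℝ x y) P) : Disjoint (segment ℝ (mir x) (mir y)) P := by
  rw [Set.disjoint_left] at h ⊢
  intro z hz hzP
  have h1 := full_mir_seg hz
  rw [full_mir_mir, full_mir_mir] at h1
  exact h h1 ((hP z).mpr hzP)

theorem full_mir_ne {P : Set Pl} (hP : ∀ z, mir z ∈ P ↔ z ∈ P) {x y : Pl}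
    (h : (segment ℝ x y ∩ interior P).Nonempty) :
    (segment ℝ (mir x) (mir y) ∩ interior P).Nonempty := by
  obtain ⟨z, hz1, hz2⟩ := h
  exact ⟨mir z, full_mir_seg hz1, full_mir_int hP hz2⟩

theorem full_open {P : Set Pl} (f g : ℝ → Pl) (hf : Continuous f) (hg : Continuous g)
    (h : (segment ℝ (f 0) (g 0) ∩ interior P).Nonempty) :
    ∀ᶠ τ in 𝓝[>] (0 : ℝ), (segment ℝ (f τ) (g τ) ∩ interior P).Nonempty := by
  obtain ⟨z, ⟨a, b, ha, hb, hab, hz⟩, hz2⟩ := h
  have hc : Continuous (fun τ : ℝ => a • f τ + b • g τ) := by fun_prop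
  have hev : ∀ᶠ τ in 𝓝 (0 : ℝ), a • f τ + b • g τ ∈ interior P := by
    apply hc.continuousAt.eventually_mem
    apply isOpen_interior.mem_nhds
    show a • f 0 + b • g 0 ∈ interior P
    rw [hz]
    exact hz2
  filter_upwards [hev.filter_mono nhdsWithin_le_nhds] with τ hτ
  exact ⟨_, ⟨a, b, ha, hb, hab, rfl⟩, hτ⟩

theorem full_Qt_cont (n : ℕ) (pos J K : ℕ → ℕ) (u : ℕ) :
    Continuous (fun τ : ℝ => Qt n pos J K τ u) := by
  unfold Qt
  fun_prop

theorem full_Qt_zero (n : ℕ) (pos J K : ℕ → ℕ) (u : ℕ) : Qt n pos J K 0 u = Q n pos J K u := by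
  unfold Qt
  rw [zero_smul, add_zero]

theorem full_ok (hF1 : St_F1) (hF2 : St_F2) (hF3 : St_F3) (hF4 : St_F4) (hP : St_pert)
    (_hX : St_X) (hD : St_disp) : St_full := by
  intro n T pos J K hA hn
  obtain ⟨ρ1, hρ1, h1⟩ := hF1 n T pos J K hA hn
  obtain ⟨ρ2, hρ2, h2⟩ := hF2 n T pos J K hA hn
  obtain ⟨ρ3, hρ3, h3⟩ := hF3 n T pos J K hA hn
  obtain ⟨ρ4, hρ4, h4⟩ := hF4 n T pos J K hA hn
  obtain ⟨ρ, hρ, hρa, hρb, hρc, hρd⟩ : ∃ ρ : ℝ, 0 < ρ ∧ ρ < ρ1 ∧ ρ < ρ2 ∧ ρ < ρ3 ∧ ρ < ρ4 := by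
    have hm : 0 < min (min ρ1 ρ2) (min ρ3 ρ4) := lt_min (lt_min hρ1 hρ2) (lt_min hρ3 hρ4)
    have hl : min (min ρ1 ρ2) (min ρ3 ρ4) / 2 < min (min ρ1 ρ2) (min ρ3 ρ4) := half_lt_self hm
    refine ⟨min (min ρ1 ρ2) (min ρ3 ρ4) / 2, half_pos hm, ?_, ?_, ?_, ?_⟩
    · exact hl.trans_le ((min_le_left _ _).trans (min_le_left _ _))
    · exact hl.trans_le ((min_le_left _ _).trans (min_le_right _ _))
    · exact hl.trans_le ((min_le_right _ _).trans (min_le_left _ _))
    · exact hl.trans_le ((min_le_right _ _).trans (min_le_right _ _))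
  obtain ⟨⟨l, hl⟩, -⟩ := h1 ρ hρ hρa
  replace h2 := h2 ρ hρ hρb
  obtain ⟨τ3, hτ3, h3⟩ := h3 ρ hρ hρc
  obtain ⟨h4, h4b, h4c⟩ := h4 ρ hρ hρd
  obtain ⟨τD, hτD, hD⟩ := hD n T pos J K hA
  set P := OB n T pos J K ρ with hPdef
  set s := sz n T with hs
  -- eventually in τ
  have ev1 : ∀ᶠ τ in 𝓝[>] (0 : ℝ), ∀ u ∈ Finset.range s, ∀ v ∈ Finset.range s, u ≠ v →
      ¬ Ad n T u v →
      (segment ℝ (Qt n pos J K τ u) (Qt n pos J K τ v) ∩ interior P).Nonempty := by
    rw [Filter.eventually_all_finset]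
    intro u hu
    rw [Filter.eventually_all_finset]
    intro v hv
    rw [Filter.eventually_imp_distrib_left]
    intro huv
    rw [Filter.eventually_imp_distrib_left]
    intro hAd
    apply full_open _ _ (full_Qt_cont n pos J K u) (full_Qt_cont n pos J K v)
    rw [full_Qt_zero, full_Qt_zero]
    exact h2 u (Finset.mem_range.mp hu) v (Finset.mem_range.mp hv) huv hAd
  have ev2 : ∀ᶠ τ in 𝓝[>] (0 : ℝ), ∀ u ∈ Finset.range s, ∀ v ∈ Finset.range s,
      (segment ℝ (Qt n pos J K τ u) (mir (Qt n pos J K τ v)) ∩ interior P).Nonempty := by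
    rw [Filter.eventually_all_finset]
    intro u hu
    rw [Filter.eventually_all_finset]
    intro v hv
    apply full_open (fun τ => Qt n pos J K τ u) (fun τ => mir (Qt n pos J K τ v))
      (full_Qt_cont n pos J K u) (full_mir_cont.comp (full_Qt_cont n pos J K v))
    show (segment ℝ (Qt n pos J K 0 u) (mir (Qt n pos J K 0 v)) ∩ interior P).Nonempty
    rw [full_Qt_zero, full_Qt_zero]
    exact h4 u (Finset.mem_range.mp hu) v (Finset.mem_range.mp hv)
  have ev3 : ∀ᶠ τ in 𝓝[>] (0 : ℝ), 0 < τ ∧ τ < τ3 ∧ τ < τD := by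
    have e1 : ∀ᶠ τ in 𝓝[>] (0 : ℝ), 0 < τ := eventually_mem_nhdsWithin
    have e2 : ∀ᶠ τ in 𝓝[>] (0 : ℝ), τ < τ3 := (eventually_lt_nhds hτ3).filter_mono nhdsWithin_le_nhds
    have e3 : ∀ᶠ τ in 𝓝[>] (0 : ℝ), τ < τD := (eventually_lt_nhds hτD).filter_mono nhdsWithin_le_nhds
    filter_upwards [e1, e2, e3] with τ a b c
    exact ⟨a, b, c⟩
  obtain ⟨τ, g1, g2, hτ0, hτa, hτb⟩ := (ev1.and (ev2.and ev3)).exists
  replace h3 := h3 τ hτ0 hτa
  replace hD := hD τ hτ0 hτb
  set q : ℕ → Pl := two s (Qt n pos J K τ) with hq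
  have q1 : ∀ u, u < s → q u = Qt n pos J K τ u := fun u hu => by
    rw [hq]; unfold two; rw [if_pos hu]
  have q2 : ∀ u, s ≤ u → q u = mir (Qt n pos J K τ (u - s)) := fun u hu => by
    rw [hq]; unfold two; rw [if_neg (by omega)]
  obtain ⟨q', hq'1, hq'2, hq'3, hq'4, hq'5⟩ := hP (2 * s) q P (Ad2 n T) hl.compact.isClosed
    (by
      intro u hu v hv huv hAd
      rcases hAd with ⟨a1, a2, a3⟩ | ⟨a1, a2, a3⟩
      · rw [q1 u a1, q1 v a2]
        exact h3 u a1 v a2 huv a3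
      · rw [q2 u a1, q2 v a2]
        exact full_mir_dis h4c (h3 (u - s) (by omega) (v - s) (by omega) (by
          intro h; apply huv; have := a1; have := a2; omega) a3))
    (by
      intro u hu v hv huv hAd
      by_cases a1 : u < s
      · by_cases a2 : v < s
        · rw [q1 u a1, q1 v a2]
          refine g1 u (Finset.mem_range.mpr a1) v (Finset.mem_range.mpr a2) huv ?_
          intro h
          exact hAd (Or.inl ⟨a1, a2, h⟩)
        · rw [q1 u a1, q2 v (by omega)]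
          exact g2 u (Finset.mem_range.mpr a1) (v - s) (Finset.mem_range.mpr (by omega))
      · by_cases a2 : v < s
        · rw [q1 v a2, q2 u (by omega), segment_symm]
          exact g2 v (Finset.mem_range.mpr a2) (u - s) (Finset.mem_range.mpr (by omega))
        · rw [q2 u (by omega), q2 v (by omega)]
          refine full_mir_ne h4c (g1 (u - s) (Finset.mem_range.mpr (by omega)) (v - s)
            (Finset.mem_range.mpr (by omega)) (by omega) ?_)
          intro h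
          exact hAd (Or.inr ⟨by omega, by omega, h⟩))
    (1 / 8) (by norm_num)
  refine ⟨l, P, q', hl, h4b, ?_, hq'2, hq'3, hq'4, hq'5⟩
  intro u hu
  have e1 := hq'1 u hu
  have e2 : |(q' u).1 - (q u).1| ≤ dist (q' u) (q u) := by
    rw [← Real.dist_eq]
    exact le_max_left _ _
  have e3 : -1 < (q u).1 := by
    by_cases a1 : u < s
    · rw [q1 u a1]
      exact (hD u a1).1
    · rw [q2 u (by omega)]
      exact (hD (u - s) (by omega)).1
  have e4 := abs_lt.mp (lt_of_le_of_lt e2 e1)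
  linarith [e4.1]

end Pool.Agent.H670R5
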