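import Pool.Agent.H670R5.St2

/-!
# GOOD: one of the two copies has no triangle around the obstacle
-/

namespace Pool.Agent.H670R5

open Pool.Agent.NPC Pool.Agent.H679R2

theorem goodb_irrefl (n : ℕ) (T : List (ℕ × ℕ × ℕ × Bool)) (u : ℕ) : ¬ Ad n T u u := by
  rintro (⟨h, _⟩ | ⟨h, _⟩) <;> exact lt_irrefl _ h

theorem goodb_sub (hT : St_lemTri) (n : ℕ) (T : List (ℕ × ℕ × ℕ × Bool)) (q : ℕ → Pl) (C : Set Pl)
    (hC : IsPreconnected C)
    (gp : ∀ u < sz n T, ∀ v < sz n T, ∀ w < sz n T, u ≠ v → v ≠ w → u ≠ w →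
      ¬ Collinear ℝ {q u, q v, q w})
    (adj : ∀ u < sz n T, ∀ v < sz n T, u ≠ v →
      (Ad n T u v ↔ Disjoint (segment ℝ (q u) (q v)) C))
    (hng : ¬ Good n T q C) : C ⊆ convexHull ℝ (q '' {u | u < sz n T}) := by
  have h1 : ¬ ∀ u < sz n T, ∀ v < sz n T, ∀ w < sz n T, Ad n T u v → Ad n T v w → Ad n T u w →
      Disjoint (tri (q u) (q v) (q w)) C := fun h => hng ⟨gp, adj, h⟩
  push Not at h1
  obtain ⟨u, hu, v, hv, w, hw, a1, a2, a3, hd⟩ := h1
  have n1 : u ≠ v := by rintro rfl; exact goodb_irrefl n T _ a1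
  have n2 : v ≠ w := by rintro rfl; exact goodb_irrefl n T _ a2
  have n3 : u ≠ w := by rintro rfl; exact goodb_irrefl n T _ a3
  rcases hT (q u) (q v) (q w) C hC (gp u hu v hv w hw n1 n2 n3) ((adj u hu v hv n1).1 a1)
    ((adj v hv w hw n2).1 a2) ((adj u hu w hw n3).1 a3) with h | h
  · exact absurd h hd
  · refine h.trans (convexHull_mono ?_)
    intro x hx
    simp only [Set.mem_insert_iff, Set.mem_singleton_iff] at hx
    rcases hx with rfl | rfl | rfl
    · exact ⟨u, hu, rfl⟩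
    · exact ⟨v, hv, rfl⟩
    · exact ⟨w, hw, rfl⟩

theorem good_ok (hA : St_lemA) (hT : St_lemTri) : St_good := by
  intro n T p C hC h0 hout hinj hgp hadj
  by_contra hcon
  have g1 : ¬ Good n T p C := fun h => hcon ⟨p, h⟩
  have g2 : ¬ Good n T (fun u => p (u + sz n T)) C := fun h => hcon ⟨_, h⟩
  have s1 := goodb_sub hT n T p C hC
    (fun u hu v hv w hw => hgp u (by omega) v (by omega) w (by omega))
    (fun u hu v hv huv => by
      rw [← hadj u (by omega) v (by omega) huv]
      unfold Ad2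
      constructor
      · intro h; exact Or.inl ⟨hu, hv, h⟩
      · rintro (⟨_, _, h⟩ | ⟨h, _⟩)
        · exact h
        · omega) g1
  have s2 := goodb_sub hT n T (fun u => p (u + sz n T)) C hC
    (fun u hu v hv w hw h1 h2 h3 => hgp (u + sz n T) (by omega) (v + sz n T) (by omega)
      (w + sz n T) (by omega) (by omega) (by omega) (by omega))
    (fun u hu v hv huv => by
      show Ad n T u v ↔ Disjoint (segment ℝ (p (u + sz n T)) (p (v + sz n T))) C
      rw [← hadj (u + sz n T) (by omega) (v + sz n T) (by omega) (by omega)]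
      unfold Ad2
      constructor
      · intro h
        refine Or.inr ⟨by omega, by omega, ?_⟩
        rw [Nat.add_sub_cancel, Nat.add_sub_cancel]
        exact h
      · rintro (⟨h, _⟩ | ⟨_, _, h⟩)
        · omega
        · rw [Nat.add_sub_cancel, Nat.add_sub_cancel] at h
          exact h) g2
  have fin : ({u | u < sz n T} : Set ℕ).Finite := Set.finite_lt_nat _
  refine hA (p '' {u | u < sz n T}) ((fun u => p (u + sz n T)) '' {u | u < sz n T}) C
    (fin.image _) (fin.image _) ⟨_, 0, h0, rfl⟩ ⟨_, 0, h0, rfl⟩ ?_ ?_ ?_ ?_ ⟨s1, s2⟩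
  · rw [Set.disjoint_left]
    rintro x ⟨u, hu, rfl⟩ ⟨v, hv, h⟩
    have hu' : u < sz n T := hu
    have hv' : v < sz n T := hv
    exact hinj (v + sz n T) (by omega) u (by omega) (by omega) h
  · rw [Set.disjoint_left]
    rintro x ⟨u, hu, rfl⟩ h
    have hu' : u < sz n T := hu
    exact hout u (by omega) h
  · rw [Set.disjoint_left]
    rintro x ⟨u, hu, rfl⟩ h
    have hu' : u < sz n T := hu
    exact hout (u + sz n T) (by omega) h
  · rintro x ⟨u, hu, rfl⟩ y ⟨v, hv, rfl⟩ h
    have hu' : u < sz n T := hu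
    have hv' : v < sz n T := hv
    have h2 := (hadj u (by omega) (v + sz n T) (by omega) (by omega)).2 h
    rcases h2 with ⟨_, h3, _⟩ | ⟨h3, _⟩ <;> omega

end Pool.Agent.H670R5
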