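import Pool.Agent.H670R5.St2

set_option autoImplicit false

namespace Pool.Agent.H670R5

open Set Finset

theorem half_ok : St_half := by
  intro b S _ hb x hx y hy z hz h1 h2
  by_contra hcon
  push Not at hcon
  apply hb
  obtain ⟨α, hα⟩ : ∃ α, α = ori b y z := ⟨_, rfl⟩
  obtain ⟨β, hβ⟩ : ∃ β, β = -ori b x z := ⟨_, rfl⟩
  obtain ⟨γ, hγ⟩ : ∃ γ, γ = ori b x y := ⟨_, rfl⟩
  have hα0 : 0 < α := hα ▸ h2
  have hβ0 : 0 ≤ β := by rw [hβ]; linarith
  have hγ0 : 0 < γ := hγ ▸ h1
  have hs : 0 < α + β + γ := by linarith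
  have key := (convex_convexHull ℝ S).sum_mem (t := (Finset.univ : Finset (Fin 3)))
    (w := ![α / (α + β + γ), β / (α + β + γ), γ / (α + β + γ)]) (z := ![x, y, z]) ?_ ?_ ?_
  · have e : ∑ i : Fin 3, (![α / (α + β + γ), β / (α + β + γ), γ / (α + β + γ)] i) •
        (![x, y, z] i) = b := by
      rw [Fin.sum_univ_three]
      simp only [Matrix.cons_val_zero, Matrix.cons_val_one, Matrix.cons_val_two,
        Matrix.head_cons, Matrix.tail_cons, Matrix.cons_val]
      ext
      · simp only [Prod.fst_add, Prod.smul_fst, smul_eq_mul]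
        field_simp
        rw [hα, hβ, hγ]
        unfold ori
        ring
      · simp only [Prod.snd_add, Prod.smul_snd, smul_eq_mul]
        field_simp
        rw [hα, hβ, hγ]
        unfold ori
        ring
    rw [e] at key
    exact key
  · intro i _
    fin_cases i
    · exact div_nonneg hα0.le hs.le
    · exact div_nonneg hβ0 hs.le
    · exact div_nonneg hγ0.le hs.le
  · rw [Fin.sum_univ_three]
    simp only [Matrix.cons_val_zero, Matrix.cons_val_one, Matrix.cons_val_two,
        Matrix.head_cons, Matrix.tail_cons, Matrix.cons_val]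
    field_simp
  · intro i _
    fin_cases i
    · exact subset_convexHull ℝ S hx
    · exact subset_convexHull ℝ S hy
    · exact subset_convexHull ℝ S hz

end Pool.Agent.H670R5
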