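import Pool.Agent.H670R5.St2

/-! Task HULLb (helper926): a vertex with a non-neighbour among the elements is outside the hull. -/

namespace Pool.Agent.H670R5

open Pool.Agent.NPC Pool.Agent.H679R2

private theorem hullb_tri {n : ℕ} {T : List (ℕ × ℕ × ℕ × Bool)} {p : ℕ → Pl} {C : Set Pl}
    (hn : 3 ≤ n) (hG : Good n T p C) {x : Pl} (hx : x ∈ convexHull ℝ (p '' {v | v < n})) :
    x ∉ C := by
  rw [convexHull_eq_union] at hx
  simp only [Set.mem_iUnion] at hx
  obtain ⟨t, hss, hai, hxt⟩ := hx
  have hcard : t.card ≤ 3 := by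
    have h1 := hai.card_le_finrank_succ
    rw [Fintype.card_coe] at h1
    refine h1.trans (Nat.succ_le_succ ((Submodule.finrank_le _).trans ?_))
    simp
  have hch : ∀ y : Pl, ∃ i : ℕ, y ∈ t → (i < n ∧ p i = y) := by
    intro y
    by_cases hy : y ∈ t
    · obtain ⟨i, hi, rfl⟩ := hss hy
      exact ⟨i, fun _ => ⟨hi, rfl⟩⟩
    · exact ⟨0, fun h => absurd h hy⟩
  choose f hf using hch
  have hS1 : t.image f ⊆ Finset.range n := by
    intro i hi
    rw [Finset.mem_image] at hi
    obtain ⟨y, hy, rfl⟩ := hi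
    exact Finset.mem_range.2 (hf y hy).1
  have hS2 : (t.image f).card ≤ 3 := Finset.card_image_le.trans hcard
  obtain ⟨S, hSS, hSn, hSc⟩ := Finset.exists_subsuperset_card_eq hS1 hS2 (by simpa using hn)
  obtain ⟨a, b, c, hab, hac, hbc, rfl⟩ := Finset.card_eq_three.1 hSc
  have ha : a < n := Finset.mem_range.1 (hSn (by simp))
  have hb : b < n := Finset.mem_range.1 (hSn (by simp))
  have hc : c < n := Finset.mem_range.1 (hSn (by simp))
  have hadj : ∀ i < n, ∀ j < n, i ≠ j → Ad n T i j := by
    intro i hi j hj hij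
    rcases lt_or_gt_of_ne hij with h | h
    · exact Or.inl ⟨h, by simp [adjH, hj]⟩
    · exact Or.inr ⟨h, by simp [adjH, hi]⟩
  have hsz : n ≤ sz n T := by unfold sz; omega
  have hd := hG.tr a (by omega) b (by omega) c (by omega) (hadj a ha b hb hab)
    (hadj b hb c hc hbc) (hadj a ha c hc hac)
  have hxtri : x ∈ tri (p a) (p b) (p c) := by
    unfold tri
    refine convexHull_mono ?_ hxt
    intro y hy
    have hy' : y ∈ t := hy
    have h1 : f y ∈ ({a, b, c} : Finset ℕ) := hSS (Finset.mem_image_of_mem f hy')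
    have h2 := (hf y hy').2
    simp only [Finset.mem_insert, Finset.mem_singleton] at h1
    rcases h1 with h1 | h1 | h1 <;> rw [h1] at h2 <;> simp [← h2]
  exact fun hC => Set.disjoint_left.1 hd hxtri hC

theorem hull_ok : St_hull := by
  intro n T p C hn hG u hnu hus hv hin
  obtain ⟨v, hvn, hva⟩ := hv
  refine hva ((hG.adj u hus v (by unfold sz; omega) (by omega)).2 ?_)
  rw [Set.disjoint_left]
  intro x hx
  refine hullb_tri hn hG ?_
  exact (convex_convexHull ℝ _).segment_subset hin
    (subset_convexHull ℝ _ ⟨v, hvn, rfl⟩) hx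

end Pool.Agent.H670R5
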