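import Pool.Agent.H670R5.St2

namespace Pool.Agent.H670R5

open Pool.Agent.NPC Pool.Agent.H679R2

private theorem lemA_sub (V W : Set Pl) (C : Set Pl) (hV : V.Finite) (hVn : V.Nonempty)
    (hVC : Disjoint V C) (hseg : ∀ x ∈ V, ∀ y ∈ W, ¬ Disjoint (segment ℝ x y) C)
    (hC : C ⊆ convexHull ℝ V) : W ⊆ convexHull ℝ V := by
  intro y hy
  by_contra hcon
  have hcp : IsCompact (convexHull ℝ V) := hV.isCompact_convexHull ℝ
  have hcl : IsClosed (convexHull ℝ V) := hcp.isClosed
  obtain ⟨f, u, hfy, hfu⟩ := geometric_hahn_banach_point_closed (convex_convexHull ℝ V) hcl hcon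
  obtain ⟨x0, hx0, hmin⟩ := Set.exists_min_image V f hV hVn
  have hx0' : u < f x0 := hfu x0 (subset_convexHull ℝ V hx0)
  have hall : ∀ z ∈ convexHull ℝ V, f x0 ≤ f z := by
    have h1 : convexHull ℝ V ⊆ {z | f x0 ≤ f z} := by
      apply convexHull_min
      · intro v hv
        exact hmin v hv
      · exact convex_halfSpace_ge f.toLinearMap.isLinear (f x0)
    exact fun z hz => h1 hz
  obtain ⟨z, hz, hzC⟩ := Set.not_disjoint_iff.1 (hseg x0 hx0 y hy)
  obtain ⟨a, b, ha, hb, hab, rfl⟩ := hz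
  have h2 := hall _ (hC hzC)
  rw [map_add, map_smul, map_smul, smul_eq_mul, smul_eq_mul] at h2
  have ha' : a = 1 - b := by linarith
  have hb0 : b = 0 := by
    by_contra hb0
    have hbpos : 0 < b := lt_of_le_of_ne hb (Ne.symm hb0)
    rw [ha'] at h2
    nlinarith
  subst hb0
  have ha1 : a = 1 := by linarith
  subst ha1
  rw [one_smul, zero_smul, add_zero] at hzC
  exact Set.disjoint_left.1 hVC hx0 hzC

theorem lemA_ok : St_lemA := by
  rintro V W C hV hW hVn hWn hVW hVC hWC hseg ⟨h1, h2⟩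
  have k1 : W ⊆ convexHull ℝ V := lemA_sub V W C hV hVn hVC hseg h1
  have k2 : V ⊆ convexHull ℝ W := by
    refine lemA_sub W V C hW hWn hWC (fun x hx y hy => ?_) h2
    rw [segment_symm]
    exact hseg y hy x hx
  have e : convexHull ℝ V = convexHull ℝ W :=
    Set.Subset.antisymm (convexHull_min k2 (convex_convexHull ℝ W))
      (convexHull_min k1 (convex_convexHull ℝ V))
  have hcp : IsCompact (convexHull ℝ V) := hV.isCompact_convexHull ℝ
  obtain ⟨x, hx⟩ := hcp.extremePoints_nonempty hVn.convexHull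
  have hxV : x ∈ V := extremePoints_convexHull_subset hx
  rw [e] at hx
  have hxW : x ∈ W := extremePoints_convexHull_subset hx
  exact Set.disjoint_left.1 hVW hxV hxW

end Pool.Agent.H670R5
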