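import Pool.Agent.H670R5.St2

open Pool.Agent.NPC Pool.Agent.H679R2

namespace Pool.Agent.H670R5

theorem lemTri_collinear {a b c : Pl} (h : ori a b c = 0) : Collinear ℝ {a, b, c} := by
  rw [collinear_iff_of_mem (p₀ := a) (by simp)]
  unfold ori at h
  by_cases h1 : b.1 = a.1
  · by_cases h2 : b.2 = a.2
    · refine ⟨c - a, ?_⟩
      intro p hp
      simp only [Set.mem_insert_iff, Set.mem_singleton_iff] at hp
      rcases hp with rfl | rfl | rfl
      · exact ⟨0, by simp⟩
      · exact ⟨0, by
          have : p = a := Prod.ext h1 h2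
          simp [this]⟩
      · exact ⟨1, by simp⟩
    · refine ⟨b - a, ?_⟩
      have h3 : b.2 - a.2 ≠ 0 := sub_ne_zero.2 h2
      intro p hp
      simp only [Set.mem_insert_iff, Set.mem_singleton_iff] at hp
      rcases hp with rfl | rfl | rfl
      · exact ⟨0, by simp⟩
      · exact ⟨1, by simp⟩
      · refine ⟨(p.2 - a.2) / (b.2 - a.2), ?_⟩
        rw [h1] at h
        have h4 : p.1 = a.1 := by
          have : (b.2 - a.2) * (p.1 - a.1) = 0 := by linarith
          rcases mul_eq_zero.1 this with h5 | h5
          · exact absurd h5 h3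
          · linarith
        apply Prod.ext
        · simp [h4, h1]
        · simp only [vadd_eq_add, Prod.snd_add, Prod.smul_snd, Prod.snd_sub, smul_eq_mul]
          field_simp
          ring
  · refine ⟨b - a, ?_⟩
    have h3 : b.1 - a.1 ≠ 0 := sub_ne_zero.2 h1
    intro p hp
    simp only [Set.mem_insert_iff, Set.mem_singleton_iff] at hp
    rcases hp with rfl | rfl | rfl
    · exact ⟨0, by simp⟩
    · exact ⟨1, by simp⟩
    · refine ⟨(p.1 - a.1) / (b.1 - a.1), ?_⟩
      apply Prod.ext
      · simp only [vadd_eq_add, Prod.fst_add, Prod.smul_fst, Prod.fst_sub, smul_eq_mul]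
        field_simp
        ring
      · simp only [vadd_eq_add, Prod.snd_add, Prod.smul_snd, Prod.snd_sub, smul_eq_mul]
        field_simp
        linarith

theorem lemTri_aux (h3 : St_tri3) (a b c : Pl) (C : Set Pl) (hC : IsPreconnected C) (ho : 0 < ori a b c)
    (h1 : Disjoint (segment ℝ a b) C) (h2 : Disjoint (segment ℝ b c) C)
    (h4 : Disjoint (segment ℝ a c) C) : Disjoint (tri a b c) C ∨ C ⊆ tri a b c := by
  obtain ⟨-, -, hcomp, hfr, -⟩ := h3 a b c ho
  have hcl : IsClosed (tri a b c) := hcomp.isClosed
  have hfd : Disjoint (frontier (tri a b c)) C := by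
    rw [hfr, segment_symm ℝ c a]
    exact (h1.union_left h2).union_left h4
  have hsub : C ⊆ interior (tri a b c) ∪ (tri a b c)ᶜ := by
    intro x hx
    by_cases hxt : x ∈ tri a b c
    · left
      by_contra hxi
      have : x ∈ frontier (tri a b c) := by
        rw [hcl.frontier_eq]
        exact ⟨hxt, hxi⟩
      exact Set.disjoint_left.1 hfd this hx
    · exact Or.inr hxt
  have hdis : C ∩ (interior (tri a b c) ∩ (tri a b c)ᶜ) = ∅ := by
    ext x
    simp only [Set.mem_inter_iff, Set.mem_compl_iff, Set.mem_empty_iff_false, iff_false, not_and, not_not]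
    intro _ hx
    exact interior_subset hx
  rcases isPreconnected_iff_subset_of_disjoint.1 hC _ _ isOpen_interior hcl.isOpen_compl hsub hdis with h | h
  · exact Or.inr (h.trans interior_subset)
  · left
    rw [Set.disjoint_right]
    exact fun x hx => h hx

theorem lemTri_ok (h3 : St_tri3) : St_lemTri := by
  intro a b c C hC hcol h1 h2 h4
  have hne : ori a b c ≠ 0 := fun h => hcol (lemTri_collinear h)
  rcases lt_or_gt_of_ne hne with hlt | hgt
  · have hpos : 0 < ori a c b := by
      unfold ori at hlt ⊢
      linarith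
    have := lemTri_aux h3 a c b C hC hpos h4 (by rwa [segment_symm]) h1
    have e : tri a c b = tri a b c := by
      unfold tri
      rw [Set.pair_comm]
    rwa [e] at this
  · exact lemTri_aux h3 a b c C hC hgt h1 h2 h4

end Pool.Agent.H670R5
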