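import Pool.Agent.H670R5.St2

/-!
# The lens is a region bounded by a polygon
-/

namespace Pool.Agent.H670R5

open Pool.Agent.NPC Pool.Agent.H679R2

private lemma lens_tri_perm (a b c : Pl) : tri a b c = tri a c b := by
  unfold tri
  congr 1
  ext x
  simp only [Set.mem_insert_iff, Set.mem_singleton_iff]
  tauto

private lemma lens_mir1 (p : Pl) : (mir p).1 = p.1 := rfl
private lemma lens_mir2 (p : Pl) : (mir p).2 = 2 - p.2 := rfl

private lemma lens_tri_fst_ge {a b c x : Pl} {t : ℝ} (hx : x ∈ tri a b c) (ha : t ≤ a.1)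
    (hb : t ≤ b.1) (hc : t ≤ c.1) : t ≤ x.1 := by
  have hconv : Convex ℝ {y : Pl | t ≤ y.1} := by
    intro y hy z hz s r hs hr hsr
    simp only [Set.mem_ofPred_eq, Prod.fst_add, Prod.smul_fst, smul_eq_mul] at *
    have e1 : s * t ≤ s * y.1 := mul_le_mul_of_nonneg_left hy hs
    have e2 : r * t ≤ r * z.1 := mul_le_mul_of_nonneg_left hz hr
    have e3 : s * t + r * t = t := by rw [← add_mul, hsr, one_mul]
    linarith
  have h := convexHull_min (s := {a, b, c}) (t := {y : Pl | t ≤ y.1}) (by
    intro y hy
    simp only [Set.mem_insert_iff, Set.mem_singleton_iff] at hy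
    rcases hy with rfl | rfl | rfl <;> assumption) hconv
  exact h hx

private lemma lens_tri_fst_le {a b c x : Pl} {t : ℝ} (hx : x ∈ tri a b c) (ha : a.1 ≤ t)
    (hb : b.1 ≤ t) (hc : c.1 ≤ t) : x.1 ≤ t := by
  have hconv : Convex ℝ {y : Pl | y.1 ≤ t} := by
    intro y hy z hz s r hs hr hsr
    simp only [Set.mem_ofPred_eq, Prod.fst_add, Prod.smul_fst, smul_eq_mul] at *
    have e1 : s * y.1 ≤ s * t := mul_le_mul_of_nonneg_left hy hs
    have e2 : r * z.1 ≤ r * t := mul_le_mul_of_nonneg_left hz hr
    have e3 : s * t + r * t = t := by rw [← add_mul, hsr, one_mul]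
    linarith
  have h := convexHull_min (s := {a, b, c}) (t := {y : Pl | y.1 ≤ t}) (by
    intro y hy
    simp only [Set.mem_insert_iff, Set.mem_singleton_iff] at hy
    rcases hy with rfl | rfl | rfl <;> assumption) hconv
  exact h hx

/-- barycentric coordinates of a point of a triangle -/
private lemma lens_tri_coord {a b c x : Pl} (hx : x ∈ tri a b c) :
    ∃ r s t : ℝ, 0 ≤ r ∧ 0 ≤ s ∧ 0 ≤ t ∧ r + s + t = 1 ∧
      x.1 = r * a.1 + s * b.1 + t * c.1 ∧ x.2 = r * a.2 + s * b.2 + t * c.2 := by
  unfold tri at hx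
  rw [convexHull_insert (Set.insert_nonempty _ _), convexHull_pair] at hx
  rw [mem_convexJoin] at hx
  obtain ⟨y, hy, z, hz, hx⟩ := hx
  rw [Set.mem_singleton_iff] at hy
  subst hy
  obtain ⟨u, v, hu, hv, huv, rfl⟩ := hz
  obtain ⟨u', v', hu', hv', huv', rfl⟩ := hx
  refine ⟨u', v' * u, v' * v, hu', mul_nonneg hv' hu, mul_nonneg hv' hv, ?_, ?_, ?_⟩
  · have : v' * u + v' * v = v' := by rw [← mul_add, huv, mul_one]
    linarith
  · simp only [Prod.fst_add, Prod.smul_fst, smul_eq_mul]; ring
  · simp only [Prod.snd_add, Prod.smul_snd, smul_eq_mul]; ring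

private lemma lens_seg_of {a b x : Pl} {r s : ℝ} (hr : 0 ≤ r) (hs : 0 ≤ s) (hrs : r + s = 1)
    (h1 : x.1 = r * a.1 + s * b.1) (h2 : x.2 = r * a.2 + s * b.2) : x ∈ segment ℝ a b := by
  refine ⟨r, s, hr, hs, hrs, ?_⟩
  apply Prod.ext
  · simp only [Prod.fst_add, Prod.smul_fst, smul_eq_mul]; rw [h1]
  · simp only [Prod.snd_add, Prod.smul_snd, smul_eq_mul]; rw [h2]

/-- a point of a triangle with the least abscissa, two vertices being farther left -/
private lemma lens_tri_two {a b c x : Pl} {t : ℝ} (ha : a.1 = t) (hb : b.1 = t) (hc : c.1 ≠ t)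
    (hx : x ∈ tri a b c) (hxt : x.1 = t) : x ∈ segment ℝ a b := by
  obtain ⟨r, s, u, hr, hs, hu, hsum, h1, h2⟩ := lens_tri_coord hx
  have hu0 : u = 0 := by
    have : u * (c.1 - t) = 0 := by
      rw [hxt, ha, hb] at h1
      have : r = 1 - s - u := by linarith
      rw [this] at h1
      linarith
    rcases mul_eq_zero.1 this with h | h
    · exact h
    · exact absurd (by linarith) hc
  subst hu0
  exact lens_seg_of hr hs (by linarith) (by linarith) (by linarith)

private lemma lens_union (h1 : St_tri1) (p q : Pl) (hpq : p.1 < q.1) (hp : p.2 < 1) (hq : q.2 < 1) :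
    tri p (mir p) q ∪ tri q (mir p) (mir q) = trap p q := by
  have o1 : 0 < ori p q (mir p) := by
    unfold ori
    rw [lens_mir1, lens_mir2]
    nlinarith [mul_pos (sub_pos.2 hpq) (sub_pos.2 hp)]
  have o2 : 0 < ori q (mir q) (mir p) := by
    unfold ori
    rw [lens_mir1, lens_mir2, lens_mir1, lens_mir2]
    nlinarith [mul_pos (sub_pos.2 hpq) (sub_pos.2 hq)]
  have e1 : ∀ x : Pl, ori (mir p) p x = (2 - 2 * p.2) * (x.1 - p.1) := by
    intro x; unfold ori; rw [lens_mir1, lens_mir2]; ring
  have e2 : ∀ x : Pl, ori q (mir q) x = (2 - 2 * q.2) * (q.1 - x.1) := by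
    intro x; unfold ori; rw [lens_mir1, lens_mir2]; ring
  have e3 : ∀ x : Pl, ori (mir q) (mir p) x = ori p q (mir x) := by
    intro x; unfold ori; simp only [lens_mir1, lens_mir2]; ring
  have e4 : ∀ x : Pl, ori (mir p) q x = - ori q (mir p) x := by
    intro x; unfold ori; simp only [lens_mir1, lens_mir2]; ring
  ext x
  constructor
  · rintro (hx | hx)
    · have hx' := hx
      rw [lens_tri_perm, h1 _ _ _ _ o1] at hx'
      obtain ⟨ha, hb, hc⟩ := hx'
      refine ⟨lens_tri_fst_ge hx le_rfl le_rfl hpq.le, lens_tri_fst_le hx hpq.le hpq.le le_rfl,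
        ha, ?_⟩
      obtain ⟨r, s, u, hr, hs, hu, hsum, g1, g2⟩ := lens_tri_coord hx
      rw [lens_mir1] at g1
      rw [lens_mir2] at g2
      have : ori p q (mir x) = r * ((q.1 - p.1) * (2 - 2 * p.2)) + u *
          ((q.1 - p.1) * (2 - 2 * q.2)) := by
        unfold ori
        rw [lens_mir1, lens_mir2, g1, g2]
        have : s = 1 - r - u := by linarith
        rw [this]
        ring
      rw [this]
      have k1 : 0 ≤ (q.1 - p.1) * (2 - 2 * p.2) := mul_nonneg (by linarith) (by linarith)
      have k2 : 0 ≤ (q.1 - p.1) * (2 - 2 * q.2) := mul_nonneg (by linarith) (by linarith)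
      positivity
    · have hx' := hx
      rw [lens_tri_perm, h1 _ _ _ _ o2] at hx'
      obtain ⟨ha, hb, hc⟩ := hx'
      rw [e3] at hb
      refine ⟨lens_tri_fst_ge hx hpq.le le_rfl hpq.le, lens_tri_fst_le hx le_rfl hpq.le le_rfl,
        ?_, hb⟩
      obtain ⟨r, s, u, hr, hs, hu, hsum, g1, g2⟩ := lens_tri_coord hx
      simp only [lens_mir1, lens_mir2] at g1 g2
      have : ori p q x = s * ((q.1 - p.1) * (2 - 2 * p.2)) + u *
          ((q.1 - p.1) * (2 - 2 * q.2)) := by
        unfold ori
        rw [g1, g2]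
        have : r = 1 - s - u := by linarith
        rw [this]
        ring
      rw [this]
      have k1 : 0 ≤ (q.1 - p.1) * (2 - 2 * p.2) := mul_nonneg (by linarith) (by linarith)
      have k2 : 0 ≤ (q.1 - p.1) * (2 - 2 * q.2) := mul_nonneg (by linarith) (by linarith)
      positivity
  · rintro ⟨ha, hb, hc, hd⟩
    rcases le_total 0 (ori q (mir p) x) with h | h
    · left
      rw [lens_tri_perm, h1 _ _ _ _ o1]
      refine ⟨hc, h, ?_⟩
      rw [e1]
      exact mul_nonneg (by linarith) (by linarith)
    · right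
      rw [lens_tri_perm, h1 _ _ _ _ o2]
      refine ⟨?_, ?_, ?_⟩
      · rw [e2]; exact mul_nonneg (by linarith) (by linarith)
      · rw [e3]; exact hd
      · rw [e4]; linarith

/-- the last part -/
private lemma lens_last (h1 : St_tri1) (p b : Pl) (hpb : p.1 < b.1) (hp : p.2 < 1) (hb : b.2 = 1) :
    tri p (mir p) b = trap p b := by
  have o1 : 0 < ori p b (mir p) := by
    unfold ori
    rw [lens_mir1, lens_mir2]
    nlinarith [mul_pos (sub_pos.2 hpb) (sub_pos.2 hp)]
  have e1 : ∀ x : Pl, ori (mir p) p x = (2 - 2 * p.2) * (x.1 - p.1) := by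
    intro x; unfold ori; rw [lens_mir1, lens_mir2]; ring
  have e3 : ∀ x : Pl, ori b (mir p) x = ori p b (mir x) := by
    intro x; unfold ori; simp only [lens_mir1, lens_mir2]; rw [hb]; ring
  ext x
  constructor
  · intro hx
    have hx' := hx
    rw [lens_tri_perm, h1 _ _ _ _ o1] at hx'
    obtain ⟨ha, hb', hc⟩ := hx'
    rw [e3] at hb'
    exact ⟨lens_tri_fst_ge hx le_rfl le_rfl hpb.le, lens_tri_fst_le hx hpb.le hpb.le le_rfl,
        ha, hb'⟩
  · rintro ⟨ha, hb', hc, hd⟩
    rw [lens_tri_perm, h1 _ _ _ _ o1]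
    refine ⟨hc, ?_, ?_⟩
    · rw [e3]; exact hd
    · rw [e1]; exact mul_nonneg (by linarith) (by linarith)

/-- the first part -/
private lemma lens_first (h1 : St_tri1) (a q : Pl) (haq : a.1 < q.1) (ha : a.2 = 1) (hq : q.2 < 1) :
    0 < ori a q (mir q) ∧ tri a q (mir q) = trap a q := by
  have o1 : 0 < ori a q (mir q) := by
    unfold ori
    rw [lens_mir1, lens_mir2]
    nlinarith [mul_pos (sub_pos.2 haq) (sub_pos.2 hq)]
  refine ⟨o1, ?_⟩
  have e1 : ∀ x : Pl, ori q (mir q) x = (2 - 2 * q.2) * (q.1 - x.1) := by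
    intro x; unfold ori; rw [lens_mir1, lens_mir2]; ring
  have e3 : ∀ x : Pl, ori (mir q) a x = ori a q (mir x) := by
    intro x; unfold ori; simp only [lens_mir1, lens_mir2]; rw [ha]; ring
  ext x
  constructor
  · intro hx
    have hx' := hx
    rw [h1 _ _ _ _ o1] at hx'
    obtain ⟨ha', hb', hc⟩ := hx'
    rw [e3] at hc
    exact ⟨lens_tri_fst_ge hx le_rfl haq.le haq.le, lens_tri_fst_le hx haq.le le_rfl le_rfl,
        ha', hc⟩
  · rintro ⟨ha', hb', hc, hd⟩
    rw [h1 _ _ _ _ o1]
    refine ⟨hc, ?_, ?_⟩
    · rw [e1]; exact mul_nonneg (by linarith) (by linarith)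
    · rw [e3]; exact hd

private lemma lens_cons (a q : Pl) (L : List Pl) :
    lens (a :: q :: L) = trap a q ∪ lens (q :: L) := by
  ext x
  unfold lens
  simp only [List.tail_cons, List.zip_cons_cons, List.mem_cons, Set.mem_ofPred_eq, Set.mem_union]
  constructor
  · rintro ⟨e, he | he, hx⟩
    · left; rw [he] at hx; exact hx
    · right; exact ⟨e, he, hx⟩
  · rintro (hx | ⟨e, he, hx⟩)
    · exact ⟨(a, q), Or.inl rfl, hx⟩
    · exact ⟨e, Or.inr he, hx⟩

private lemma lens_single (p b : Pl) : lens [p, b] = trap p b := by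
  ext x
  unfold lens
  simp

private lemma lens_edge_mem {l : List Pl} {P : Set Pl} (h : PolyReg l P) {e : Pl × Pl}
    (he : e ∈ cycEdges l) : e.1 ∈ P ∧ e.2 ∈ P := by
  have hb : bdry l ⊆ P := by
    rw [← h.front]
    exact h.compact.isClosed.frontier_subset
  exact ⟨hb ⟨e, he, left_mem_segment ℝ _ _⟩, hb ⟨e, he, right_mem_segment ℝ _ _⟩⟩

private lemma lens_main (h1 : St_tri1) (h3 : St_ear) (b : Pl) (hb : b.2 = 1) :
    ∀ (N : List Pl) (p : Pl) (l : List Pl) (P : Set Pl), PolyReg l P → p.2 < 1 →
    (∀ q ∈ N, q.2 < 1) → (p :: (N ++ [b])).Pairwise (fun p q => p.1 < q.1) →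
    (p, mir p) ∈ cycEdges l → (∀ x ∈ P, x.1 ≤ p.1) →
    (∀ x ∈ P, x.1 = p.1 → x ∈ segment ℝ p (mir p)) →
    ∃ l', PolyReg l' (P ∪ lens (p :: (N ++ [b]))) ∧
      (∀ e ∈ cycEdges l, e ≠ (p, mir p) → e ∈ cycEdges l') ∧
      ∀ e ∈ (p :: (N ++ [b])).zip (p :: (N ++ [b])).tail,
        e ∈ cycEdges l' ∧ (mir e.2, mir e.1) ∈ cycEdges l' := by
  intro N
  induction N with
  | nil =>
    intro p l P hP hp _ hpw hedge hle hline
    have hpb : p.1 < b.1 := by
      simp at hpw; exact hpw
    have hmb : mir b = b := by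
      apply Prod.ext
      · rfl
      · rw [lens_mir2, hb]; norm_num
    have ho : ori p (mir p) b < 0 := by
      unfold ori
      rw [lens_mir1, lens_mir2]
      nlinarith [mul_pos (sub_pos.2 hpb) (sub_pos.2 hp)]
    obtain ⟨l', hl', hins⟩ := h3 l P p (mir p) b hP hedge ho (by
      rintro x ⟨hx, hxP⟩
      apply hline x hxP
      exact le_antisymm (hle x hxP) (lens_tri_fst_ge hx le_rfl le_rfl hpb.le))
    refine ⟨l', ?_, ?_, ?_⟩
    · rw [List.nil_append, lens_single, ← lens_last h1 p b hpb hp hb]
      exact hl'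
    · intro e he hne
      exact (hins e).2 (Or.inl ⟨he, hne⟩)
    · intro e he
      simp only [List.nil_append, List.tail_cons, List.zip_cons_cons, List.zip_nil_right,
        List.mem_singleton] at he
      subst he
      refine ⟨(hins _).2 (Or.inr (Or.inl rfl)), ?_⟩
      simp only [hmb]
      exact (hins _).2 (Or.inr (Or.inr rfl))
  | cons q N ih =>
    intro p l P hP hp hN hpw hedge hle hline
    have hq : q.2 < 1 := hN q (by simp)
    have hpw2 := hpw
    rw [List.pairwise_cons] at hpw
    obtain ⟨hpq', hpw'⟩ := hpw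
    have hpq : p.1 < q.1 := hpq' q (by simp)
    -- first ear
    have ho : ori p (mir p) q < 0 := by
      unfold ori
      rw [lens_mir1, lens_mir2]
      nlinarith [mul_pos (sub_pos.2 hpq) (sub_pos.2 hp)]
    obtain ⟨l₁, hl₁, hins₁⟩ := h3 l P p (mir p) q hP hedge ho (by
      rintro x ⟨hx, hxP⟩
      apply hline x hxP
      exact le_antisymm (hle x hxP) (lens_tri_fst_ge hx le_rfl le_rfl hpq.le))
    -- second ear
    have ho2 : ori q (mir p) (mir q) < 0 := by
      unfold ori
      simp only [lens_mir1, lens_mir2]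
      nlinarith [mul_pos (sub_pos.2 hpq) (sub_pos.2 hq)]
    have o1 : 0 < ori p q (mir p) := by
      unfold ori
      rw [lens_mir1, lens_mir2]
      nlinarith [mul_pos (sub_pos.2 hpq) (sub_pos.2 hp)]
    have o2 : 0 < ori q (mir q) (mir p) := by
      unfold ori
      simp only [lens_mir1, lens_mir2]
      nlinarith [mul_pos (sub_pos.2 hpq) (sub_pos.2 hq)]
    obtain ⟨l₂, hl₂, hins₂⟩ := h3 l₁ (P ∪ tri p (mir p) q) q (mir p) (mir q) hl₁
      ((hins₁ _).2 (Or.inr (Or.inr rfl))) ho2 (by
      rintro x ⟨hx, hxP | hxT⟩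
      · have hx1 : x.1 = p.1 :=
          le_antisymm (hle x hxP) (lens_tri_fst_ge hx hpq.le le_rfl hpq.le)
        obtain ⟨r, s, u, hr, hs, hu, hsum, g1, g2⟩ := lens_tri_coord hx
        simp only [lens_mir1, lens_mir2] at g1 g2
        have hz : (r + u) * (q.1 - p.1) = 0 := by
          rw [hx1] at g1
          have : s = 1 - r - u := by linarith
          rw [this] at g1
          linarith
        have hru : r + u = 0 := by
          rcases mul_eq_zero.1 hz with h | h
          · exact h
          · exact absurd h (by linarith)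
        have hr0 : r = 0 := by linarith
        have hu0 : u = 0 := by linarith
        subst hr0
        subst hu0
        have hs1 : s = 1 := by linarith
        subst hs1
        have : x = mir p := by
          apply Prod.ext
          · rw [lens_mir1]; linarith
          · rw [lens_mir2]; linarith
        rw [this]
        exact right_mem_segment ℝ _ _
      · have hs1 : 0 ≤ ori q (mir p) x := by
          rw [lens_tri_perm, h1 _ _ _ _ o1] at hxT
          exact hxT.2.1
        obtain ⟨r, s, u, hr, hs, hu, hsum, g1, g2⟩ := lens_tri_coord hx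
        simp only [lens_mir1, lens_mir2] at g1 g2
        have hval : ori q (mir p) x = u * ori q (mir p) (mir q) := by
          unfold ori
          simp only [lens_mir1, lens_mir2]
          rw [g1, g2]
          have : r = 1 - s - u := by linarith
          rw [this]
          ring
        have hu0 : u = 0 := by
          rw [hval] at hs1
          by_contra hne
          have : 0 < u := lt_of_le_of_ne hu (Ne.symm hne)
          nlinarith [mul_pos this (neg_pos.2 ho2)]
        subst hu0
        exact lens_seg_of hr hs (by linarith) (by rw [lens_mir1]; linarith)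
          (by rw [lens_mir2]; linarith))
    have hold : ∀ e ∈ cycEdges l, e.1.1 ≤ p.1 := fun e he => hle _ (lens_edge_mem hP he).1
    have hne_qp : ∀ e ∈ cycEdges l, e ≠ (q, mir p) ∧ e ≠ (q, mir q) := by
      intro e he
      have := hold e he
      constructor
      · rintro rfl; exact absurd this (not_le.2 hpq)
      · rintro rfl; exact absurd this (not_le.2 hpq)
    have hU : P ∪ tri p (mir p) q ∪ tri q (mir p) (mir q) = P ∪ trap p q := by
      rw [Set.union_assoc, lens_union h1 p q hpq hp hq]
    have hpne : p ≠ q := by rintro rfl; exact lt_irrefl _ hpq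
    have hmq : mir q ≠ q := by
      intro h
      have := congrArg Prod.snd h
      rw [lens_mir2] at this
      linarith
    obtain ⟨l', hl', hkeep, hnew⟩ := ih q l₂ (P ∪ tri p (mir p) q ∪ tri q (mir p) (mir q)) hl₂ hq
      (fun z hz => hN z (by simp [hz])) (by simpa using hpw')
      ((hins₂ _).2 (Or.inr (Or.inl rfl)))
      (by
        rintro x ((hx | hx) | hx)
        · exact (hle x hx).trans hpq.le
        · exact lens_tri_fst_le hx hpq.le hpq.le le_rfl
        · exact lens_tri_fst_le hx le_rfl hpq.le le_rfl)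
      (by
        rintro x ((hx | hx) | hx) hx1
        · exact absurd (hle x hx) (by rw [hx1]; exact not_le.2 hpq)
        · obtain ⟨r, s, u, hr, hs, hu, hsum, g1, g2⟩ := lens_tri_coord hx
          simp only [lens_mir1, lens_mir2] at g1 g2
          have hz : (r + s) * (q.1 - p.1) = 0 := by
            rw [hx1] at g1
            have : u = 1 - r - s := by linarith
            rw [this] at g1
            linarith
          have hru : r + s = 0 := by
            rcases mul_eq_zero.1 hz with h | h
            · exact h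
            · exact absurd h (by linarith)
          have hr0 : r = 0 := by linarith
          have hs0 : s = 0 := by linarith
          subst hr0
          subst hs0
          have hu1 : u = 1 := by linarith
          subst hu1
          have : x = q := by
            apply Prod.ext <;> linarith
          rw [this]
          exact left_mem_segment ℝ _ _
        · have hx' : x ∈ tri q (mir q) (mir p) := by rw [lens_tri_perm]; exact hx
          exact lens_tri_two (t := q.1) rfl rfl (by rw [lens_mir1]; exact ne_of_lt hpq) hx' hx1)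
    refine ⟨l', ?_, ?_, ?_⟩
    · rw [List.cons_append, lens_cons, ← Set.union_assoc, ← hU]
      exact hl'
    · intro e he hne
      apply hkeep e _ (hne_qp e he).2
      exact (hins₂ e).2 (Or.inl ⟨(hins₁ e).2 (Or.inl ⟨he, hne⟩), (hne_qp e he).1⟩)
    · intro e he
      simp only [List.cons_append, List.tail_cons, List.zip_cons_cons, List.mem_cons] at he
      rcases he with rfl | he
      · constructor
        · apply hkeep
          · refine (hins₂ _).2 (Or.inl ⟨(hins₁ _).2 (Or.inr (Or.inl rfl)), ?_⟩)
            intro h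
            exact hpne (congrArg Prod.fst h)
          · intro h
            exact hpne (congrArg Prod.fst h)
        · apply hkeep
          · exact (hins₂ _).2 (Or.inr (Or.inr rfl))
          · intro h
            exact hmq (congrArg Prod.fst h)
      · apply hnew
        simpa using he

theorem lens_ok (h1 : St_tri1) (h2 : St_base) (h3 : St_ear) : St_lens := by
  intro a b M hM ha hb hlt hpw
  obtain ⟨q, N, rfl⟩ := List.exists_cons_of_ne_nil hM
  have hq : q.2 < 1 := hlt q (by simp)
  rw [List.pairwise_cons] at hpw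
  obtain ⟨haq', hpw'⟩ := hpw
  have haq : a.1 < q.1 := haq' q (by simp)
  obtain ⟨o1, hT⟩ := lens_first h1 a q haq ha hq
  have hbase := h2 a q (mir q) o1
  have hce : ∀ e, e ∈ cycEdges [a, q, mir q] ↔ e = (a, q) ∨ e = (q, mir q) ∨ e = (mir q, a) := by
    intro e
    simp [cycEdges, List.rotate]
  have hma : mir a = a := by
    apply Prod.ext
    · rfl
    · rw [lens_mir2, ha]; norm_num
  obtain ⟨l', hl', hkeep, hnew⟩ := lens_main h1 h3 b hb N q [a, q, mir q] (tri a q (mir q)) hbase
    hq (fun z hz => hlt z (by simp [hz])) (by simpa using hpw') ((hce _).2 (Or.inr (Or.inl rfl)))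
    (fun x hx => lens_tri_fst_le hx haq.le le_rfl le_rfl)
    (by
      intro x hx hx1
      have hx' : x ∈ tri q (mir q) a := by
        have : tri q (mir q) a = tri a q (mir q) := by
          unfold tri
          congr 1
          ext y
          simp only [Set.mem_insert_iff, Set.mem_singleton_iff]
          tauto
        rw [this]; exact hx
      exact lens_tri_two (t := q.1) rfl rfl (ne_of_lt haq) hx' hx1)
  have hane : a ≠ q := by rintro rfl; exact lt_irrefl _ haq
  have hmq : mir q ≠ q := by
    intro h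
    have := congrArg Prod.snd h
    rw [lens_mir2] at this
    linarith
  refine ⟨l', ?_, ?_⟩
  · rw [List.cons_append, lens_cons, ← hT]
    exact hl'
  · intro e he
    simp only [List.cons_append, List.tail_cons, List.zip_cons_cons, List.mem_cons] at he
    rcases he with rfl | he
    · constructor
      · exact hkeep _ ((hce _).2 (Or.inl rfl)) (fun h => hane (congrArg Prod.fst h))
      · simp only [hma]
        exact hkeep _ ((hce _).2 (Or.inr (Or.inr rfl))) (fun h => hmq (congrArg Prod.fst h))
    · apply hnew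
      simpa using he

end Pool.Agent.H670R5
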