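import Pool.Agent.H670R5.St2

/-!
# Points of the lens lie above a chord or at the sides
-/

set_option autoImplicit false

namespace Pool.Agent.H670R5

open Pool.Agent.NPC Pool.Agent.H679R2

theorem lens1_gap (l : List (ℝ × ℝ)) (h : ∀ e ∈ l, e.1 < e.2) :
    ∃ g > 0, ∀ e ∈ l, g ≤ e.2 - e.1 := by
  induction l with
  | nil => exact ⟨1, one_pos, fun e he => absurd he (List.not_mem_nil)⟩
  | cons a l ih =>
    obtain ⟨g, hg, hg2⟩ := ih (fun e he => h e (List.mem_cons_of_mem _ he))
    have ha := h a List.mem_cons_self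
    refine ⟨min g (a.2 - a.1), lt_min hg (by linarith), fun e he => ?_⟩
    rcases List.mem_cons.mp he with rfl | he
    · exact min_le_right _ _
    · exact (min_le_left _ _).trans (hg2 e he)

theorem lens1_zip {α : Type} (B : ℝ → List α) (S : ℝ → Prop) (A P E lst fst : ℝ → α)
    (hB1 : ∀ x, S x → B x = [A x, P x, E x]) (hB2 : ∀ x, ¬ S x → B x = [P x])
    (hl1 : ∀ x, S x → lst x = E x) (hl2 : ∀ x, ¬ S x → lst x = P x)
    (hf1 : ∀ x, S x → fst x = A x) (hf2 : ∀ x, ¬ S x → fst x = P x) (b : α) :
    ∀ (N : List ℝ) (a : α) (e : α × α),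
      e ∈ (a :: (N.flatMap B ++ [b])).zip (N.flatMap B ++ [b]) →
      (N = [] ∧ e = (a, b)) ∨ (∃ x N', N = x :: N' ∧ e = (a, fst x)) ∨
      (∃ x ∈ N, S x ∧ (e = (A x, P x) ∨ e = (P x, E x))) ∨
      (∃ p ∈ N.zip N.tail, e = (lst p.1, fst p.2)) ∨
      (∃ x, N.getLast? = some x ∧ e = (lst x, b)) := by
  intro N
  induction N with
  | nil =>
    intro a e he
    left
    simpa using he
  | cons x N ih =>
    intro a e he
    have key : e = (a, fst x) ∨ (S x ∧ (e = (A x, P x) ∨ e = (P x, E x))) ∨
        e ∈ (lst x :: (N.flatMap B ++ [b])).zip (N.flatMap B ++ [b]) := by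
      by_cases hS : S x
      · rw [List.flatMap_cons, hB1 x hS] at he
        simp only [List.cons_append, List.nil_append, List.zip_cons_cons, List.mem_cons] at he
        rw [hf1 x hS, hl1 x hS]
        rcases he with he | he | he | he
        · exact Or.inl he
        · exact Or.inr (Or.inl ⟨hS, Or.inl he⟩)
        · exact Or.inr (Or.inl ⟨hS, Or.inr he⟩)
        · exact Or.inr (Or.inr he)
      · rw [List.flatMap_cons, hB2 x hS] at he
        simp only [List.cons_append, List.nil_append, List.zip_cons_cons, List.mem_cons] at he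
        rw [hf2 x hS, hl2 x hS]
        rcases he with he | he
        · exact Or.inl he
        · exact Or.inr (Or.inr he)
    rcases key with h | ⟨hS, h⟩ | h
    · exact Or.inr (Or.inl ⟨x, N, rfl, h⟩)
    · exact Or.inr (Or.inr (Or.inl ⟨x, List.mem_cons_self, hS, h⟩))
    · rcases ih (lst x) e h with ⟨h0, h1⟩ | ⟨x', N', h0, h1⟩ | ⟨x', hx', h1⟩ | ⟨p, hp, h1⟩ |
        ⟨x', h0, h1⟩
      · refine Or.inr (Or.inr (Or.inr (Or.inr ⟨x, ?_, h1⟩)))
        rw [h0]
        rfl
      · refine Or.inr (Or.inr (Or.inr (Or.inl ⟨(x, x'), ?_, h1⟩)))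
        rw [h0]
        simp
      · exact Or.inr (Or.inr (Or.inl ⟨x', List.mem_cons_of_mem _ hx', h1⟩))
      · refine Or.inr (Or.inr (Or.inr (Or.inl ⟨p, ?_, h1⟩)))
        cases N with
        | nil => simp at hp
        | cons y N =>
          simp only [List.tail_cons, List.zip_cons_cons, List.mem_cons] at hp ⊢
          exact Or.inr hp
      · refine Or.inr (Or.inr (Or.inr (Or.inr ⟨x', ?_, h1⟩)))
        rw [List.getLast?_cons, h0]
        rfl

theorem lens1_trap (x x' : ℝ) (p q z : Pl) (hp : p.2 = chd x x' p.1) (hq : q.2 = chd x x' q.1)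
    (hpq : p.1 < q.1) (hxp : x ≤ p.1) (hqx : q.1 ≤ x') (hz : z ∈ trap p q) :
    x ≤ z.1 ∧ z.1 ≤ x' ∧ chd x x' z.1 ≤ z.2 := by
  obtain ⟨h1, h2, h3, -⟩ := hz
  refine ⟨hxp.trans h1, h2.trans hqx, ?_⟩
  have e1 : ori p q z = (q.1 - p.1) * (z.2 - chd x x' z.1) := by
    unfold ori
    rw [hp, hq]
    unfold chd
    ring
  rw [e1] at h3
  have h4 : 0 < q.1 - p.1 := by linarith
  have h5 := nonneg_of_mul_nonneg_right h3 h4
  linarith

theorem lens1_last (l : List ℝ) (h : l.Pairwise (· < ·)) (x : ℝ) (hx : l.getLast? = some x) :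
    ∀ y ∈ l, y ≤ x := by
  induction l with
  | nil => intro y hy; exact absurd hy List.not_mem_nil
  | cons a l ih =>
    rw [List.pairwise_cons] at h
    rw [List.getLast?_cons] at hx
    intro y hy
    cases hl : l.getLast? with
    | none =>
      rw [hl] at hx
      rw [List.getLast?_eq_none_iff] at hl
      subst hl
      simp only [Option.getD_none, Option.some.injEq] at hx
      subst hx
      rcases List.mem_cons.mp hy with rfl | hy
      · exact le_rfl
      · exact absurd hy List.not_mem_nil
    | some w =>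
      rw [hl] at hx
      simp only [Option.getD_some, Option.some.injEq] at hx
      subst hx
      rcases List.mem_cons.mp hy with rfl | hy
      · exact (h.1 w (List.mem_of_getLast? hl)).le
      · exact ih h.2 hl y hy

theorem lens1_ok (hX : St_X) (h1 : St_nd1) (h2 : St_nd2) : St_lens1 := by
  classical
  intro n T pos J K hA hn
  obtain ⟨hX1, -, -, hX4, hX5, hX6, -⟩ := hX n T pos J K hA
  obtain ⟨hs, hc⟩ := h1 n T pos J K hA
  have h2' := h2 n T pos J K hA
  obtain ⟨g, hg, hgap⟩ := lens1_gap _ (fun e he => (hc e he).1)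
  refine ⟨g / 2, by linarith, ?_⟩
  intro ρ hρ hρg z hz
  obtain ⟨e, he, hze⟩ := hz
  have hmem : ∀ y, y ∈ nd n T pos J K ↔ y ∈ ND n T pos J K := fun y => by
    unfold nd; exact Finset.mem_sort _
  have hXS : ∀ x, x ∈ XS n T pos J K → x ∈ ND n T pos J K ∧ -1 < x ∧ x < n := by
    intro x hx
    unfold XS at hx
    rw [Finset.mem_image] at hx
    obtain ⟨u, hu, rfl⟩ := hx
    rw [Finset.mem_Ico] at hu
    exact hX1 u hu.2
  have hchd1 : ∀ x x' : ℝ, chd x x' x = -x ^ 2 + 1 / 16 := fun x x' => by unfold chd; ring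
  have hchd2 : ∀ x x' : ℝ, chd x x' x' = -x' ^ 2 + 1 / 16 := fun x x' => by unfold chd; ring
  have hz1 := lens1_zip (blk n T pos J K ρ) (fun x => x ∈ XS n T pos J K)
    (ptA n T pos J K ρ) pp (ptE n T pos J K ρ)
    (fun x => if x ∈ XS n T pos J K then ptE n T pos J K ρ x else pp x)
    (fun x => if x ∈ XS n T pos J K then ptA n T pos J K ρ x else pp x)
    (fun x hx => by unfold blk; rw [if_pos hx]) (fun x hx => by unfold blk; rw [if_neg hx])
    (fun x hx => if_pos hx) (fun x hx => if_neg hx)
    (fun x hx => if_pos hx) (fun x hx => if_neg hx) (((n : ℝ) + 1, 1) : Pl)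
    (nd n T pos J K) ((-2, 1) : Pl) e he
  rcases hz1 with ⟨h0, -⟩ | ⟨x, N', h0, rfl⟩ | ⟨x, hx, hS, rfl | rfl⟩ | ⟨p, hp, rfl⟩ |
    ⟨x, h0, rfl⟩
  · exfalso
    have := (hmem (-1)).mpr hX5
    rw [h0] at this
    exact List.not_mem_nil this
  · left
    have hx1 : x = -1 := by
      have h3 := (hmem (-1)).mpr hX5
      rw [h0] at h3 hs
      rcases List.mem_cons.mp h3 with h3 | h3
      · exact h3.symm
      · have h4 := (List.pairwise_cons.mp hs).1 _ h3
        have h5 := (hX4 x ((hmem x).mp (by rw [h0]; exact List.mem_cons_self))).1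
        linarith
    have h3 := hze.2.1
    simp only at h3
    split_ifs at h3 with hxs
    · unfold ptA at h3
      simp only at h3
      linarith
    · unfold pp at h3
      simp only at h3
      linarith
  · right; right
    obtain ⟨h3, h4, h5⟩ := hXS x hS
    obtain ⟨-, -, k3, -, -, -, -, -, k9, -⟩ := h2' x h3 h4 h5
    refine ⟨(pvN n T pos J K x, x), k9, ?_⟩
    have hg2 := hgap _ k9
    simp only at hg2
    refine lens1_trap _ _ _ _ z ?_ ?_ ?_ ?_ ?_ hze
    · rfl
    · unfold pp
      simp only
      rw [hchd2]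
    · unfold ptA pp
      simp only
      linarith
    · unfold ptA
      simp only
      linarith
    · exact le_rfl
  · right; right
    obtain ⟨h3, h4, h5⟩ := hXS x hS
    obtain ⟨-, -, -, k4, -, -, -, -, -, k10⟩ := h2' x h3 h4 h5
    refine ⟨(x, nxN n T pos J K x), k10, ?_⟩
    have hg2 := hgap _ k10
    simp only at hg2
    refine lens1_trap _ _ _ _ z ?_ ?_ ?_ ?_ ?_ hze
    · unfold pp
      simp only
      rw [hchd1]
    · rfl
    · unfold ptE pp
      simp only
      linarith
    · exact le_rfl
    · unfold ptE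
      simp only
      linarith
  · right; right
    refine ⟨p, hp, ?_⟩
    have hg2 := hgap _ hp
    obtain ⟨c1, -, c3, c4, c5⟩ := hc p hp
    obtain ⟨x, x'⟩ := p
    simp only at hg2 c1 c3 c4 c5 hze ⊢
    have hl : (if x ∈ XS n T pos J K then ptE n T pos J K ρ x else pp x).2 =
        chd x x' (if x ∈ XS n T pos J K then ptE n T pos J K ρ x else pp x).1 ∧
        x ≤ (if x ∈ XS n T pos J K then ptE n T pos J K ρ x else pp x).1 ∧
        (if x ∈ XS n T pos J K then ptE n T pos J K ρ x else pp x).1 ≤ x + ρ := by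
      split_ifs with hS
      · obtain ⟨h3, h4, h5⟩ := hXS x hS
        obtain ⟨-, k2, -, k4, -, -, -, k8, -, -⟩ := h2' x h3 h4 h5
        have e1 : nxN n T pos J K x = x' := by
          apply le_antisymm
          · rcases k8 x' c4 with h | h
            · linarith
            · exact h
          · rcases c5 _ k2 with h | h
            · linarith
            · exact h
        unfold ptE
        simp only
        rw [e1]
        exact ⟨rfl, by linarith, le_rfl⟩
      · unfold pp
        simp only
        rw [hchd1]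
        exact ⟨rfl, le_rfl, by linarith⟩
    have hf : (if x' ∈ XS n T pos J K then ptA n T pos J K ρ x' else pp x').2 =
        chd x x' (if x' ∈ XS n T pos J K then ptA n T pos J K ρ x' else pp x').1 ∧
        (if x' ∈ XS n T pos J K then ptA n T pos J K ρ x' else pp x').1 ≤ x' ∧
        x' - ρ ≤ (if x' ∈ XS n T pos J K then ptA n T pos J K ρ x' else pp x').1 := by
      split_ifs with hS
      · obtain ⟨h3, h4, h5⟩ := hXS x' hS
        obtain ⟨k1, -, k3, -, -, -, k7, -, -, -⟩ := h2' x' h3 h4 h5
        have e1 : pvN n T pos J K x' = x := by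
          apply le_antisymm
          · rcases c5 _ k1 with h | h
            · exact h
            · linarith
          · rcases k7 x c3 with h | h
            · exact h
            · linarith
        unfold ptA
        simp only
        rw [e1]
        exact ⟨rfl, by linarith, le_rfl⟩
      · unfold pp
        simp only
        rw [hchd2]
        exact ⟨rfl, le_rfl, by linarith⟩
    exact lens1_trap x x' _ _ z hl.1 hf.1 (by linarith [hl.2.2, hf.2.2]) hl.2.1 hf.2.1 hze
  · right; left
    have hx1 := lens1_last _ hs x h0 n ((hmem _).mpr hX6)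
    have h3 := hze.1
    simp only at h3
    split_ifs at h3 with hxs
    · unfold ptE at h3
      simp only at h3
      linarith
    · unfold pp at h3
      simp only at h3
      linarith

end Pool.Agent.H670R5
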