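import Pool.Agent.H670R5.St2

/-!
# Task LENS2
-/

namespace Pool.Agent.H670R5

open Pool.Agent.NPC Pool.Agent.H679R2 Filter Topology

/-- the abscissas of consecutive points cover everything between the first and the last one -/
private lemma lens2_cover (t : ℝ) : ∀ (l : List Pl) (a b : Pl), a.1 ≤ t → t ≤ b.1 →
    ∃ e ∈ (a :: (l ++ [b])).zip (l ++ [b]), e.1.1 ≤ t ∧ t ≤ e.2.1 := by
  intro l
  induction l with
  | nil =>
    intro a b ha hb
    exact ⟨(a, b), by simp, ha, hb⟩
  | cons c l ih =>
    intro a b ha hb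
    by_cases h : t ≤ c.1
    · exact ⟨(a, c), by simp, ha, h⟩
    · obtain ⟨e, he, h1, h2⟩ := ih c b (not_le.1 h).le hb
      refine ⟨e, ?_, h1, h2⟩
      simp only [List.cons_append, List.zip_cons_cons, List.mem_cons]
      exact Or.inr he

private lemma lens2_pair (R : Pl → Pl → Prop) : ∀ (l : List Pl) (a : Pl),
    (a :: l).Pairwise R → ∀ e ∈ (a :: l).zip l, R e.1 e.2 := by
  intro l
  induction l with
  | nil => intro a _ e he; simp at he
  | cons c l ih =>
    intro a h e he
    simp only [List.zip_cons_cons, List.mem_cons] at he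
    rw [List.pairwise_cons] at h
    rcases he with rfl | he
    · exact h.1 c (by simp)
    · exact ih c h.2 e he

private lemma lens2_fst (b : Pl) : ∀ (l : List Pl) (a : Pl),
    ∀ e ∈ (a :: (l ++ [b])).zip (l ++ [b]), e.1 = a ∨ e.1 ∈ l := by
  intro l
  induction l with
  | nil => intro a e he; simp at he; left; rw [he]
  | cons c l ih =>
    intro a e he
    simp only [List.cons_append, List.zip_cons_cons, List.mem_cons] at he
    rcases he with rfl | he
    · exact Or.inl rfl
    · rcases ih c e he with h | h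
      · exact Or.inr (by rw [h]; simp)
      · exact Or.inr (List.mem_cons_of_mem _ h)

/-- structure of the pairs of consecutive points -/
private lemma lens2_str (a b : Pl) (M : List Pl) (hM : M ≠ [])
    (h : (a :: (M ++ [b])).Pairwise (fun p q => p.1 < q.1)) :
    ∀ e ∈ (a :: (M ++ [b])).zip (M ++ [b]), e.1.1 < e.2.1 ∧
      ((e.1 = a ∧ e.2 ∈ M) ∨ (e.1 ∈ M ∧ (e.2 ∈ M ∨ e.2 = b))) := by
  intro e he
  refine ⟨lens2_pair _ _ _ h e he, ?_⟩
  obtain ⟨m, M', rfl⟩ := List.exists_cons_of_ne_nil hM
  have he' := he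
  simp only [List.cons_append, List.zip_cons_cons, List.mem_cons] at he'
  rcases he' with rfl | he'
  · exact Or.inl ⟨rfl, by simp⟩
  · right
    refine ⟨?_, ?_⟩
    · rcases lens2_fst b M' m e he' with h1 | h1
      · rw [h1]; simp
      · exact List.mem_cons_of_mem _ h1
    · have := (List.of_mem_zip (show (e.1, e.2) ∈ _ from he')).2
      rw [List.mem_append, List.mem_singleton] at this
      rcases this with h1 | h1
      · exact Or.inl (List.mem_cons_of_mem _ h1)
      · exact Or.inr h1

private lemma lens2_ori_cont (p q : Pl) : Continuous fun z : Pl => ori p q z := by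
  unfold ori; fun_prop

private lemma lens2_mir_cont : Continuous (mir : Pl → Pl) := by
  unfold mir; fun_prop

private lemma lens2_int (a b : Pl) (M : List Pl) (hM : M ≠ []) (ha : a.2 = 1) (hb : b.2 = 1)
    (hM1 : ∀ p ∈ M, p.2 < 1) (h : (a :: (M ++ [b])).Pairwise (fun p q => p.1 < q.1))
    (x : ℝ) (hx1 : a.1 < x) (hx2 : x < b.1) : (x, (1 : ℝ)) ∈ interior (lens (a :: (M ++ [b]))) := by
  rw [mem_interior_iff_mem_nhds]
  have hfin : {e : Pl × Pl | e ∈ (a :: (M ++ [b])).zip (M ++ [b])}.Finite :=
    List.finite_toSet _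
  have key : ∀ᶠ z : Pl in 𝓝 (x, (1 : ℝ)), ∀ e ∈ {e : Pl × Pl | e ∈ (a :: (M ++ [b])).zip (M ++ [b])},
      e.1.1 ≤ z.1 → z.1 ≤ e.2.1 → 0 ≤ ori e.1 e.2 z ∧ 0 ≤ ori e.1 e.2 (mir z) := by
    rw [eventually_all_finite hfin]
    intro e he
    obtain ⟨hlt, hst⟩ := lens2_str a b M hM h e he
    by_cases h1 : e.1.1 ≤ x
    · by_cases h2 : x ≤ e.2.1
      · -- positivity at the point
        have hpos : 0 < ori e.1 e.2 (x, (1 : ℝ)) := by
          have eq : ori e.1 e.2 (x, (1 : ℝ)) =
              (e.2.1 - x) * (1 - e.1.2) + (x - e.1.1) * (1 - e.2.2) := by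
            simp only [ori]; ring
          rw [eq]
          rcases hst with ⟨h3, h4⟩ | ⟨h3, h4⟩
          · have h5 := hM1 _ h4
            have h6 : 0 < x - e.1.1 := by rw [h3]; linarith
            have h7 : 0 < (x - e.1.1) * (1 - e.2.2) := mul_pos h6 (by linarith)
            have h8 : 0 ≤ (e.2.1 - x) * (1 - e.1.2) :=
              mul_nonneg (by linarith) (by rw [h3, ha]; norm_num)
            linarith
          · have h5 := hM1 _ h3
            have h6 : 1 - e.2.2 ≥ 0 := by
              rcases h4 with h4 | h4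
              · linarith [hM1 _ h4]
              · rw [h4, hb]; norm_num
            rcases lt_or_eq_of_le h2 with h7 | h7
            · have : 0 < (e.2.1 - x) * (1 - e.1.2) := mul_pos (by linarith) (by linarith)
              have : 0 ≤ (x - e.1.1) * (1 - e.2.2) := mul_nonneg (by linarith) h6
              linarith
            · have h8 : e.2 ∈ M := by
                rcases h4 with h4 | h4
                · exact h4
                · exfalso; rw [h4] at h7; linarith
              have h9 := hM1 _ h8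
              have : 0 < (x - e.1.1) * (1 - e.2.2) := mul_pos (by linarith) (by linarith)
              rw [← h7]
              nlinarith
        have hpos2 : 0 < ori e.1 e.2 (mir (x, (1 : ℝ))) := by
          have : mir (x, (1 : ℝ)) = (x, (1 : ℝ)) := by
            unfold mir; norm_num
          rwa [this]
        have c1 := (lens2_ori_cont e.1 e.2).continuousAt (x := (x, (1 : ℝ)))
        have c2 := ((lens2_ori_cont e.1 e.2).comp lens2_mir_cont).continuousAt (x := (x, (1 : ℝ)))
        filter_upwards [c1.eventually (lt_mem_nhds hpos), c2.eventually (lt_mem_nhds hpos2)]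
          with z h3 h4 _ _
        exact ⟨h3.le, le_of_lt h4⟩
      · have c := (continuous_fst (X := ℝ) (Y := ℝ)).continuousAt (x := (x, (1 : ℝ)))
        filter_upwards [c.eventually (lt_mem_nhds (not_le.1 h2))] with z h3 _ h5
        exact absurd h3 (not_lt.2 h5)
    · have c := (continuous_fst (X := ℝ) (Y := ℝ)).continuousAt (x := (x, (1 : ℝ)))
      filter_upwards [c.eventually (gt_mem_nhds (not_le.1 h1))] with z h3 h4 _
      exact absurd h3 (not_lt.2 h4)
  have c := (continuous_fst (X := ℝ) (Y := ℝ)).continuousAt (x := (x, (1 : ℝ)))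
  filter_upwards [key, c.eventually (lt_mem_nhds hx1), c.eventually (gt_mem_nhds hx2)] with z h1 h2 h3
  obtain ⟨e, he, h4, h5⟩ := lens2_cover z.1 M a b (le_of_lt h2) (le_of_lt h3)
  exact ⟨e, he, h4, h5, (h1 e he h4 h5).1, (h1 e he h4 h5).2⟩

theorem lens2_ok (hS : St_LLsorted) : St_lens2 := by
  intro n T pos J K hA hn
  obtain ⟨ρ₀, hρ₀, h⟩ := hS n T pos J K hA hn
  refine ⟨ρ₀, hρ₀, fun ρ h1 h2 => ?_⟩
  obtain ⟨hp, hne, hh⟩ := h ρ h1 h2
  refine ⟨fun x hx1 hx2 => ?_, fun z => ?_⟩
  · exact lens2_int (-2, 1) ((n : ℝ) + 1, 1) _ hne rfl rfl hh hp x hx1 hx2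
  · have hm : mir (mir z) = z := by
      unfold mir; ext <;> simp
    constructor
    · rintro ⟨e, he, h3, h4, h5, h6⟩
      rw [hm] at h6
      exact ⟨e, he, h3, h4, h6, h5⟩
    · rintro ⟨e, he, h3, h4, h5, h6⟩
      refine ⟨e, he, h3, h4, h6, ?_⟩
      rw [hm]
      exact h5

end Pool.Agent.H670R5
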