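import Pool.Agent.H670R5.St2

/-!
# The lower chain is sorted
-/

namespace Pool.Agent.H670R5

open Pool.Agent.NPC Pool.Agent.H679R2

private theorem LLS_mem_nd {n : ℕ} {T : List (ℕ × ℕ × ℕ × Bool)} {pos J K : ℕ → ℕ} {x : ℝ} :
    x ∈ nd n T pos J K ↔ x ∈ ND n T pos J K := by
  unfold nd
  exact Finset.mem_sort _

private theorem LLS_gap (S : Finset ℝ) : ∃ δ > 0, ∀ a ∈ S, ∀ b ∈ S, a < b → δ ≤ b - a := by
  by_cases hne : ((S ×ˢ S).filter fun p => p.1 < p.2).Nonempty
  · obtain ⟨p, hp, hmin⟩ := Finset.exists_min_image _ (fun p : ℝ × ℝ => p.2 - p.1) hne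
    refine ⟨p.2 - p.1, ?_, fun a ha b hb hab => ?_⟩
    · have := (Finset.mem_filter.1 hp).2
      linarith
    · exact hmin (a, b) (Finset.mem_filter.2 ⟨Finset.mem_product.2 ⟨ha, hb⟩, hab⟩)
  · refine ⟨1, one_pos, fun a ha b hb hab => ?_⟩
    exact absurd ⟨(a, b), Finset.mem_filter.2 ⟨Finset.mem_product.2 ⟨ha, hb⟩, hab⟩⟩ hne

private theorem LLS_blk (n : ℕ) (T : List (ℕ × ℕ × ℕ × Bool)) (pos J K : ℕ → ℕ) (ρ x : ℝ)
    (hρ : 0 < ρ) :
    (∀ p ∈ blk n T pos J K ρ x, x - ρ ≤ p.1 ∧ p.1 ≤ x + ρ) ∧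
    (blk n T pos J K ρ x).Pairwise (fun p q => p.1 < q.1) ∧ blk n T pos J K ρ x ≠ [] := by
  unfold blk
  split
  · refine ⟨?_, ?_, by simp⟩
    · intro p hp
      simp only [List.mem_cons, List.not_mem_nil, or_false] at hp
      rcases hp with rfl | rfl | rfl
      · simp only [ptA]; constructor <;> linarith
      · simp only [pp]; constructor <;> linarith
      · simp only [ptE]; constructor <;> linarith
    · simp only [List.pairwise_cons, List.mem_cons, List.not_mem_nil, or_false, ptA, pp, ptE,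
        forall_eq_or_imp, forall_eq, List.Pairwise.nil, and_true, IsEmpty.forall_iff,
        implies_true]
      refine ⟨⟨by linarith, by linarith⟩, by linarith⟩
  · refine ⟨?_, ?_, by simp⟩
    · intro p hp
      simp only [List.mem_cons, List.not_mem_nil, or_false] at hp
      subst hp
      simp only [pp]
      constructor <;> linarith
    · exact List.pairwise_singleton _ _

private theorem LLS_ht (n : ℕ) (T : List (ℕ × ℕ × ℕ × Bool)) (pos J K : ℕ → ℕ) (ρ x : ℝ)
    (hρ : 0 < ρ) (h1 : x ∈ XS n T pos J K → pvN n T pos J K x < x - ρ ∧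
      x + ρ < nxN n T pos J K x) : ∀ p ∈ blk n T pos J K ρ x, p.2 < 1 := by
  unfold blk
  split
  · rename_i hx
    obtain ⟨h2, h3⟩ := h1 hx
    intro p hp
    simp only [List.mem_cons, List.not_mem_nil, or_false] at hp
    rcases hp with rfl | rfl | rfl
    · simp only [ptA, chd]
      nlinarith [mul_pos hρ (sub_pos.2 h2), sq_nonneg (x - ρ)]
    · simp only [pp]
      nlinarith [sq_nonneg x]
    · simp only [ptE, chd]
      nlinarith [mul_pos hρ (sub_pos.2 h3), sq_nonneg (x + ρ)]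
  · intro p hp
    simp only [List.mem_cons, List.not_mem_nil, or_false] at hp
    subst hp
    simp only [pp]
    nlinarith [sq_nonneg x]

theorem LLsorted_ok (hX : St_X) (h1 : St_nd1) (h2 : St_nd2) : St_LLsorted := by
  intro n T pos J K hA hn
  obtain ⟨hX1, -, -, hX4, hX5, hX6, -⟩ := hX n T pos J K hA
  obtain ⟨hs, -⟩ := h1 n T pos J K hA
  obtain ⟨δ, hδ, hgap⟩ := LLS_gap (ND n T pos J K)
  refine ⟨min (δ / 4) (1 / 2), lt_min (by linarith) (by norm_num), fun ρ hρ hρ₀ => ?_⟩
  have hρ1 : ρ < δ / 4 := hρ₀.trans_le (min_le_left _ _)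
  have hρ2 : ρ < 1 / 2 := hρ₀.trans_le (min_le_right _ _)
  have hmem : ∀ p ∈ (nd n T pos J K).flatMap (blk n T pos J K ρ), -3 / 2 < p.1 ∧ p.1 < n + 1 := by
    intro p hp
    obtain ⟨x, hx, hpx⟩ := List.mem_flatMap.1 hp
    have h3 := (LLS_blk n T pos J K ρ x hρ).1 p hpx
    have h4 := hX4 x (LLS_mem_nd.1 hx)
    constructor <;> linarith [h3.1, h3.2, h4.1, h4.2]
  refine ⟨?_, ?_, ?_⟩
  · unfold LL
    rw [List.pairwise_cons]
    constructor
    · intro p hp
      rw [List.mem_append] at hp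
      rcases hp with hp | hp
      · have := (hmem p hp).1
        show (-2 : ℝ) < p.1
        linarith
      · rw [List.mem_singleton] at hp
        subst hp
        show (-2 : ℝ) < (n : ℝ) + 1
        have : (0 : ℝ) ≤ n := Nat.cast_nonneg n
        linarith
    · rw [List.pairwise_append]
      refine ⟨?_, List.pairwise_singleton _ _, ?_⟩
      · rw [List.pairwise_flatMap]
        refine ⟨fun x _ => (LLS_blk n T pos J K ρ x hρ).2.1, ?_⟩
        refine List.Pairwise.imp_of_mem ?_ hs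
        intro a b ha hb hab p hp q hq
        have h3 := ((LLS_blk n T pos J K ρ a hρ).1 p hp).2
        have h4 := ((LLS_blk n T pos J K ρ b hρ).1 q hq).1
        have h5 := hgap a (LLS_mem_nd.1 ha) b (LLS_mem_nd.1 hb) hab
        linarith
      · intro p hp q hq
        rw [List.mem_singleton] at hq
        subst hq
        exact (hmem p hp).2
  · intro h0
    rw [List.flatMap_eq_nil_iff] at h0
    exact (LLS_blk n T pos J K ρ _ hρ).2.2 (h0 _ (LLS_mem_nd.2 hX5))
  · intro p hp
    obtain ⟨x, hx, hpx⟩ := List.mem_flatMap.1 hp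
    refine LLS_ht n T pos J K ρ x hρ (fun hxs => ?_) p hpx
    unfold XS at hxs
    obtain ⟨u, hu, hux⟩ := Finset.mem_image.1 hxs
    rw [Finset.mem_Ico] at hu
    have h3 := hX1 u hu.2
    rw [hux] at h3
    obtain ⟨a1, a2, a3, a4, -⟩ := h2 n T pos J K hA x h3.1 h3.2.1 h3.2.2
    have h5 := hgap _ a1 x h3.1 a3
    have h6 := hgap x h3.1 _ a2 a4
    constructor <;> linarith

end Pool.Agent.H670R5
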