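import Pool.Agent.H670R5.St2

namespace Pool.Agent.H670R5

open Pool.Agent.NPC Pool.Agent.H679R2

private theorem LLZ_zip {α : Type} (A B : List α) (a b : α) :
    (a, b) ∈ (A ++ a :: b :: B).zip (A ++ a :: b :: B).tail := by
  induction A with
  | nil => simp
  | cons x A ih =>
    cases A with
    | nil => simp
    | cons y A =>
      simp only [List.cons_append, List.tail_cons, List.zip_cons_cons, List.mem_cons] at ih ⊢
      right
      exact ih

theorem LLzip_ok (hX : St_X) : St_LLzip := by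
  intro n T pos J K ρ hA u h1 h2
  have hmem : X n pos J K u ∈ ND n T pos J K := ((hX n T pos J K hA).1 u h2).1
  have hnd : X n pos J K u ∈ nd n T pos J K := by
    unfold nd
    exact (Finset.mem_sort _).2 hmem
  have hXS : X n pos J K u ∈ XS n T pos J K := by
    unfold XS
    exact Finset.mem_image.mpr ⟨u, Finset.mem_Ico.mpr ⟨h1, h2⟩, rfl⟩
  have hQ : Q n pos J K u = pp (X n pos J K u) := by
    unfold Q pp
    rw [if_neg (not_lt.mpr h1)]
  obtain ⟨L1, L2, hL⟩ := List.append_of_mem hnd
  set x := X n pos J K u with hx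
  have hblk : blk n T pos J K ρ x = [ptA n T pos J K ρ x, pp x, ptE n T pos J K ρ x] := by
    unfold blk
    rw [if_pos hXS]
  have hLL : LL n T pos J K ρ = (((-2, 1) : Pl) :: L1.flatMap (blk n T pos J K ρ)) ++
      ptA n T pos J K ρ x :: pp x :: (ptE n T pos J K ρ x ::
        (L2.flatMap (blk n T pos J K ρ) ++ [((n : ℝ) + 1, 1)])) := by
    unfold LL
    rw [hL, List.flatMap_append, List.flatMap_cons, hblk]
    simp
  have hLL2 : LL n T pos J K ρ =
      ((((-2, 1) : Pl) :: L1.flatMap (blk n T pos J K ρ)) ++ [ptA n T pos J K ρ x]) ++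
      pp x :: ptE n T pos J K ρ x ::
        (L2.flatMap (blk n T pos J K ρ) ++ [((n : ℝ) + 1, 1)]) := by
    rw [hLL]
    simp
  rw [hQ]
  refine ⟨?_, ?_⟩
  · rw [hLL]
    exact LLZ_zip _ _ _ _
  · rw [hLL2]
    exact LLZ_zip _ _ _ _

end Pool.Agent.H670R5
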