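import Pool.Agent.H670R5.St2

/-!
# Consecutive nodes
-/

namespace Pool.Agent.H670R5

open Pool.Agent.NPC Pool.Agent.H679R2

theorem nd1_zip (l : List ℝ) : l.Pairwise (· < ·) → ∀ e ∈ l.zip l.tail,
    e.1 < e.2 ∧ e.1 ∈ l ∧ e.2 ∈ l ∧ ∀ y ∈ l, y ≤ e.1 ∨ e.2 ≤ y := by
  induction l with
  | nil => intro _ e he; simp at he
  | cons a l ih =>
    cases l with
    | nil => intro _ e he; simp at he
    | cons b t =>
      intro h e he
      rw [List.pairwise_cons] at h
      obtain ⟨h1, h2⟩ := h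
      rw [List.tail_cons, List.zip_cons_cons, List.mem_cons] at he
      rcases he with rfl | he
      · refine ⟨h1 b (by simp), by simp, by simp, ?_⟩
        intro y hy
        rw [List.mem_cons] at hy
        rcases hy with rfl | hy
        · exact Or.inl le_rfl
        · right
          rw [List.mem_cons] at hy
          rcases hy with rfl | hy
          · exact le_rfl
          · rw [List.pairwise_cons] at h2
            exact (h2.1 y hy).le
      · obtain ⟨i1, i2, i3, i4⟩ := ih h2 e he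
        refine ⟨i1, List.mem_cons_of_mem _ i2, List.mem_cons_of_mem _ i3, ?_⟩
        intro y hy
        rw [List.mem_cons] at hy
        rcases hy with rfl | hy
        · left
          exact (h1 _ i2).le
        · exact i4 y hy

theorem nd1_ok (hX : St_X) : St_nd1 := by
  intro n T pos J K hA
  have hs : (nd n T pos J K).Pairwise (· < ·) := by
    unfold nd
    exact (Finset.sortedLT_sort _).pairwise
  refine ⟨hs, ?_⟩
  intro e he
  obtain ⟨h1, h2, h3, h4⟩ := nd1_zip _ hs e he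
  have hmem : ∀ y, y ∈ nd n T pos J K ↔ y ∈ ND n T pos J K := by
    intro y
    unfold nd
    exact Finset.mem_sort _
  obtain ⟨-, -, -, hb, -, -, -⟩ := hX n T pos J K hA
  have e1 := hb e.1 ((hmem _).1 h2)
  have e2 := hb e.2 ((hmem _).1 h3)
  refine ⟨h1, ?_, (hmem _).1 h2, (hmem _).1 h3, fun y hy => h4 y ((hmem _).2 hy)⟩
  -- the integer after `e.1`
  have hf1 : (⌊e.1⌋ : ℝ) ≤ e.1 := Int.floor_le _
  have hf2 : e.1 < ⌊e.1⌋ + 1 := Int.lt_floor_add_one _
  have hk0 : -1 ≤ ⌊e.1⌋ := Int.le_floor.2 (by push_cast; exact e1.1)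
  have hkn : ⌊e.1⌋ < (n : ℤ) := by
    have : (⌊e.1⌋ : ℝ) < (n : ℝ) := by linarith [e2.2]
    exact_mod_cast this
  obtain ⟨i, hi⟩ : ∃ i : ℕ, (i : ℤ) = ⌊e.1⌋ + 2 := ⟨(⌊e.1⌋ + 2).toNat, by
    rw [Int.toNat_of_nonneg (by omega)]⟩
  have hin : i < n + 2 := by omega
  have hiR : (i : ℝ) - 1 = (⌊e.1⌋ : ℝ) + 1 := by
    have : (i : ℝ) = (⌊e.1⌋ : ℝ) + 2 := by exact_mod_cast hi
    rw [this]; ring
  have hmemi : (i : ℝ) - 1 ∈ ND n T pos J K := by
    unfold ND
    rw [Finset.mem_union]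
    left
    exact Finset.mem_image.2 ⟨i, Finset.mem_range.2 hin, rfl⟩
  rcases h4 _ ((hmem _).2 hmemi) with h5 | h5
  · rw [hiR] at h5
    linarith
  · rw [hiR] at h5
    linarith

end Pool.Agent.H670R5
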