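import Pool.Agent.H670R5.St2

namespace Pool.Agent.H670R5

open Pool.Agent.NPC Pool.Agent.H679R2

theorem mem_zip_tail_of_consec (l : List ℝ) (hl : l.Pairwise (· < ·)) (y x : ℝ) (hy : y ∈ l)
    (hx : x ∈ l) (hyx : y < x) (hc : ∀ z ∈ l, z ≤ y ∨ x ≤ z) : (y, x) ∈ l.zip l.tail := by
  induction l with
  | nil => simp at hy
  | cons a t ih =>
    rw [List.pairwise_cons] at hl
    obtain ⟨ha, ht⟩ := hl
    rw [List.tail_cons]
    cases t with
    | nil =>
      simp only [List.mem_singleton] at hy hx
      rw [hy, hx] at hyx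
      exact absurd hyx (lt_irrefl _)
    | cons b t' =>
      rw [List.zip_cons_cons]
      rcases List.mem_cons.1 hy with h | h
      · have hxt : x ∈ b :: t' := by
          rcases List.mem_cons.1 hx with h' | h'
          · rw [h, h'] at hyx
            exact absurd hyx (lt_irrefl _)
          · exact h'
        have hab : a < b := ha b (by simp)
        rcases hc b (by simp) with h2 | h2
        · rw [h] at h2
          exact absurd (lt_of_lt_of_le hab h2) (lt_irrefl _)
        · rcases List.mem_cons.1 hxt with h3 | h3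
          · rw [h, h3]
            simp
          · rw [List.pairwise_cons] at ht
            have := ht.1 x h3
            exact absurd (lt_of_lt_of_le this h2) (lt_irrefl _)
      · have hxt : x ∈ b :: t' := by
          rcases List.mem_cons.1 hx with h' | h'
          · have h5 := ha y h
            rw [h'] at hyx
            exact absurd (lt_trans hyx h5) (lt_irrefl _)
          · exact h'
        have := ih ht h hxt (fun z hz => hc z (List.mem_cons_of_mem _ hz))
        rw [List.tail_cons] at this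
        exact List.mem_cons_of_mem _ this

theorem nd2_ok (hX : St_X) (h1 : St_nd1) : St_nd2 := by
  intro n T pos J K hA x hx hx1 hx2
  obtain ⟨-, -, -, -, hm1, hn, -⟩ := hX n T pos J K hA
  obtain ⟨hs, hz⟩ := h1 n T pos J K hA
  have hmem : ∀ y, y ∈ nd n T pos J K ↔ y ∈ ND n T pos J K := fun y => by
    unfold nd
    exact Finset.mem_sort _
  have hfin : (ND n T pos J K : Set ℝ).Finite := Finset.finite_toSet _
  -- previous node
  have f1 : {y : ℝ | y ∈ ND n T pos J K ∧ y < x}.Finite := hfin.subset (fun y hy => hy.1)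
  have f2 : {y : ℝ | y ∈ ND n T pos J K ∧ x < y}.Finite := hfin.subset (fun y hy => hy.1)
  have n1 : {y : ℝ | y ∈ ND n T pos J K ∧ y < x}.Nonempty := ⟨-1, hm1, hx1⟩
  have n2 : {y : ℝ | y ∈ ND n T pos J K ∧ x < y}.Nonempty := ⟨n, hn, hx2⟩
  have m1 : pvN n T pos J K x ∈ {y : ℝ | y ∈ ND n T pos J K ∧ y < x} := n1.csSup_mem f1
  have m2 : nxN n T pos J K x ∈ {y : ℝ | y ∈ ND n T pos J K ∧ x < y} := n2.csInf_mem f2
  have c1 : ∀ y ∈ ND n T pos J K, y ≤ pvN n T pos J K x ∨ x ≤ y := by
    intro y hy
    rcases lt_or_ge y x with h | h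
    · left
      exact le_csSup f1.bddAbove ⟨hy, h⟩
    · right
      exact h
  have c2 : ∀ y ∈ ND n T pos J K, y ≤ x ∨ nxN n T pos J K x ≤ y := by
    intro y hy
    rcases lt_or_ge x y with h | h
    · right
      exact csInf_le f2.bddBelow ⟨hy, h⟩
    · left
      exact h
  have z1 : (pvN n T pos J K x, x) ∈ (nd n T pos J K).zip (nd n T pos J K).tail :=
    mem_zip_tail_of_consec _ hs _ _ ((hmem _).2 m1.1) ((hmem _).2 hx) m1.2
      (fun z hz' => c1 z ((hmem z).1 hz'))
  have z2 : (x, nxN n T pos J K x) ∈ (nd n T pos J K).zip (nd n T pos J K).tail :=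
    mem_zip_tail_of_consec _ hs _ _ ((hmem _).2 hx) ((hmem _).2 m2.1) m2.2
      (fun z hz' => c2 z ((hmem z).1 hz'))
  exact ⟨m1.1, m2.1, m1.2, m2.2, (hz _ z1).2.1, (hz _ z2).2.1, c1, c2, z1, z2⟩

end Pool.Agent.H670R5
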