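import Pool.Agent.H670R5.St2

/-! Perturbation of a drawing into general position (task PERT). -/

namespace Pool.Agent.H670R5

open Pool.Agent.NPC Pool.Agent.H679R2 Filter Topology

/-- the perturbed points -/
private noncomputable def pertQ (q : ℕ → Pl) (ε : ℝ) (u : ℕ) : Pl :=
  ((q u).1 + ε * u, (q u).2 + ε * (u : ℝ) ^ 2)

private lemma pert_cont (q : ℕ → Pl) (u : ℕ) : Continuous (fun ε : ℝ => pertQ q ε u) := by
  unfold pertQ; fun_prop

private lemma pert_zero (q : ℕ → Pl) (u : ℕ) : pertQ q 0 u = q u := by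
  unfold pertQ; simp

private lemma pert_col {a b c : Pl} (h : Collinear ℝ {a, b, c}) : ori a b c = 0 := by
  rw [collinear_iff_of_mem (p₀ := a) (by simp)] at h
  obtain ⟨v, hv⟩ := h
  obtain ⟨s, hs⟩ := hv b (by simp)
  obtain ⟨t, ht⟩ := hv c (by simp)
  rw [hs, ht]
  simp only [ori, vadd_eq_add, Prod.fst_add, Prod.snd_add, Prod.smul_fst, Prod.smul_snd,
    smul_eq_mul]
  ring

private lemma pert_poly (c₀ c₁ c₂ : ℝ) (h : c₁ ≠ 0 ∨ c₂ ≠ 0) :
    ∀ᶠ ε : ℝ in 𝓝[≠] 0, c₀ + c₁ * ε + c₂ * ε ^ 2 ≠ 0 := by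
  have hfin : {ε : ℝ | c₀ + c₁ * ε + c₂ * ε ^ 2 = 0}.Finite := by
    set p : Polynomial ℝ := Polynomial.C c₀ + Polynomial.C c₁ * Polynomial.X +
      Polynomial.C c₂ * Polynomial.X ^ 2 with hp
    have hp0 : p ≠ 0 := by
      intro h0
      rcases h with h | h
      · apply h
        have : p.coeff 1 = 0 := by rw [h0]; simp
        simpa [hp, Polynomial.coeff_X, Polynomial.coeff_C, Polynomial.coeff_X_pow] using this
      · apply h
        have : p.coeff 2 = 0 := by rw [h0]; simp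
        simpa [hp, Polynomial.coeff_X, Polynomial.coeff_C, Polynomial.coeff_X_pow] using this
    refine (p.roots.toFinset.finite_toSet).subset ?_
    intro ε hε
    simp only [Set.mem_setOf_eq] at hε
    simp only [Finset.mem_coe, Multiset.mem_toFinset, Polynomial.mem_roots hp0,
      Polynomial.IsRoot.def]
    simp [hp, hε]
  have h1 : ({ε : ℝ | c₀ + c₁ * ε + c₂ * ε ^ 2 = 0} \ {0})ᶜ ∈ 𝓝 (0 : ℝ) :=
    (hfin.subset Set.diff_subset).isClosed.isOpen_compl.mem_nhds (by simp)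
  filter_upwards [mem_nhdsWithin_of_mem_nhds h1, self_mem_nhdsWithin] with ε h2 h3 h4
  exact h2 ⟨h4, h3⟩

private lemma pert_seg {P : Set Pl} (hP : IsClosed P) {a b : Pl}
    (h : Disjoint (segment ℝ a b) P) :
    ∃ δ > 0, ∀ a' b' : Pl, dist a' a < δ → dist b' b < δ → Disjoint (segment ℝ a' b') P := by
  have hc : IsCompact (segment ℝ a b) := by
    rw [← convexHull_pair]
    exact (Set.toFinite _).isCompact_convexHull (𝕜 := ℝ)
  obtain ⟨δ, hδ, hsub⟩ := hc.exists_thickening_subset_open hP.isOpen_compl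
    (Set.disjoint_left.1 h)
  refine ⟨δ, hδ, ?_⟩
  intro a' b' ha hb
  rw [Set.disjoint_left]
  intro x hx hxP
  obtain ⟨s, t, hs, ht, hst, rfl⟩ := hx
  have hmem : s • a' + t • b' ∈ Metric.thickening δ (segment ℝ a b) := by
    rw [Metric.mem_thickening_iff]
    refine ⟨s • a + t • b, ⟨s, t, hs, ht, hst, rfl⟩, ?_⟩
    have e : s • a' + t • b' - (s • a + t • b) = s • (a' - a) + t • (b' - b) := by
      simp only [smul_sub]; abel
    rw [dist_eq_norm, e]
    rw [dist_eq_norm] at ha hb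
    calc ‖s • (a' - a) + t • (b' - b)‖ ≤ ‖s • (a' - a)‖ + ‖t • (b' - b)‖ := norm_add_le _ _
      _ = s * ‖a' - a‖ + t * ‖b' - b‖ := by
          rw [norm_smul, norm_smul, Real.norm_of_nonneg hs, Real.norm_of_nonneg ht]
      _ < δ := by
          rcases hs.eq_or_lt with h0 | h0
          · rw [← h0] at hst ⊢
            have : t = 1 := by linarith
            rw [this]; linarith
          · have h1 : s * ‖a' - a‖ < s * δ := mul_lt_mul_of_pos_left ha h0
            have h2 : t * ‖b' - b‖ ≤ t * δ := mul_le_mul_of_nonneg_left hb.le ht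
            have h3 : s * δ + t * δ = δ := by rw [← add_mul, hst, one_mul]
            linarith
  exact hsub hmem hxP

theorem pert_ok : St_pert := by
  intro m q P A hP hA hN δ hδ
  have k1 : ∀ᶠ ε : ℝ in 𝓝[≠] 0, ∀ u ∈ Set.Iio m, dist (pertQ q ε u) (q u) < δ := by
    rw [Filter.eventually_all_finite (Set.finite_Iio m)]
    intro u _
    apply eventually_nhdsWithin_of_eventually_nhds
    have h1 : Tendsto (fun ε : ℝ => dist (pertQ q ε u) (q u)) (𝓝 0) (𝓝 0) := by
      have := ((pert_cont q u).dist (continuous_const (y := q u))).tendsto 0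
      simpa [pert_zero] using this
    exact h1.eventually (gt_mem_nhds hδ)
  have k2 : ∀ᶠ ε : ℝ in 𝓝[≠] 0, ∀ u ∈ Set.Iio m, ∀ v ∈ Set.Iio m, u ≠ v →
      pertQ q ε u ≠ pertQ q ε v := by
    rw [Filter.eventually_all_finite (Set.finite_Iio m)]
    intro u _
    rw [Filter.eventually_all_finite (Set.finite_Iio m)]
    intro v _
    rw [Filter.eventually_imp_distrib_left]
    intro huv
    have h1 : (u : ℝ) - v ≠ 0 := by
      rw [sub_ne_zero]; exact_mod_cast huv
    filter_upwards [pert_poly ((q u).1 - (q v).1) ((u : ℝ) - v) 0 (Or.inl h1)] with ε h2 h3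
    apply h2
    have := congrArg Prod.fst h3
    simp only [pertQ] at this
    linarith
  have k3 : ∀ᶠ ε : ℝ in 𝓝[≠] 0, ∀ u ∈ Set.Iio m, ∀ v ∈ Set.Iio m, ∀ w ∈ Set.Iio m,
      (u ≠ v ∧ v ≠ w ∧ u ≠ w) →
      ¬ Collinear ℝ {pertQ q ε u, pertQ q ε v, pertQ q ε w} := by
    rw [Filter.eventually_all_finite (Set.finite_Iio m)]
    intro u _
    rw [Filter.eventually_all_finite (Set.finite_Iio m)]
    intro v _
    rw [Filter.eventually_all_finite (Set.finite_Iio m)]
    intro w _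
    rw [Filter.eventually_imp_distrib_left]
    rintro ⟨huv, hvw, huw⟩
    have h1 : ((v : ℝ) - u) * ((w : ℝ) ^ 2 - (u : ℝ) ^ 2) -
        ((v : ℝ) ^ 2 - (u : ℝ) ^ 2) * ((w : ℝ) - u) ≠ 0 := by
      have e : ((v : ℝ) - u) * ((w : ℝ) ^ 2 - (u : ℝ) ^ 2) -
        ((v : ℝ) ^ 2 - (u : ℝ) ^ 2) * ((w : ℝ) - u) = ((v : ℝ) - u) * (w - u) * (w - v) := by
        ring
      rw [e]
      refine mul_ne_zero (mul_ne_zero ?_ ?_) ?_
      · rw [sub_ne_zero]; exact_mod_cast huv.symm
      · rw [sub_ne_zero]; exact_mod_cast huw.symm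
      · rw [sub_ne_zero]; exact_mod_cast hvw.symm
    filter_upwards [pert_poly (ori (q u) (q v) (q w))
      (((v : ℝ) - u) * ((q w).2 - (q u).2) + ((q v).1 - (q u).1) * ((w : ℝ) ^ 2 - (u : ℝ) ^ 2) -
        ((v : ℝ) ^ 2 - (u : ℝ) ^ 2) * ((q w).1 - (q u).1) -
        ((q v).2 - (q u).2) * ((w : ℝ) - u)) _ (Or.inr h1)] with ε h2 h3
    apply h2
    have := pert_col h3
    simp only [pertQ, ori] at this ⊢
    linear_combination this
  have k4 : ∀ᶠ ε : ℝ in 𝓝[≠] 0, ∀ u ∈ Set.Iio m, ∀ v ∈ Set.Iio m, (u ≠ v ∧ A u v) →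
      Disjoint (segment ℝ (pertQ q ε u) (pertQ q ε v)) P := by
    rw [Filter.eventually_all_finite (Set.finite_Iio m)]
    intro u hu
    rw [Filter.eventually_all_finite (Set.finite_Iio m)]
    intro v hv
    rw [Filter.eventually_imp_distrib_left]
    rintro ⟨huv, hadj⟩
    apply eventually_nhdsWithin_of_eventually_nhds
    obtain ⟨η, hη, hseg⟩ := pert_seg hP (hA u hu v hv huv hadj)
    have h1 : ∀ w : ℕ, ∀ᶠ ε : ℝ in 𝓝 0, dist (pertQ q ε w) (q w) < η := by
      intro w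
      have h1 : Tendsto (fun ε : ℝ => dist (pertQ q ε w) (q w)) (𝓝 0) (𝓝 0) := by
        have := ((pert_cont q w).dist (continuous_const (y := q w))).tendsto 0
        simpa [pert_zero] using this
      exact h1.eventually (gt_mem_nhds hη)
    filter_upwards [h1 u, h1 v] with ε h2 h3
    exact hseg _ _ h2 h3
  have k5 : ∀ᶠ ε : ℝ in 𝓝[≠] 0, ∀ u ∈ Set.Iio m, ∀ v ∈ Set.Iio m, (u ≠ v ∧ ¬ A u v) →
      (segment ℝ (pertQ q ε u) (pertQ q ε v) ∩ interior P).Nonempty := by
    rw [Filter.eventually_all_finite (Set.finite_Iio m)]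
    intro u hu
    rw [Filter.eventually_all_finite (Set.finite_Iio m)]
    intro v hv
    rw [Filter.eventually_imp_distrib_left]
    rintro ⟨huv, hadj⟩
    apply eventually_nhdsWithin_of_eventually_nhds
    obtain ⟨x, ⟨s, t, hs, ht, hst, rfl⟩, hx⟩ := hN u hu v hv huv hadj
    have h1 : Tendsto (fun ε : ℝ => s • pertQ q ε u + t • pertQ q ε v) (𝓝 0)
        (𝓝 (s • q u + t • q v)) := by
      have hc : Continuous (fun ε : ℝ => s • pertQ q ε u + t • pertQ q ε v) :=
        ((pert_cont q u).const_smul s).add ((pert_cont q v).const_smul t)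
      have := hc.tendsto 0
      simpa [pert_zero] using this
    filter_upwards [h1.eventually (isOpen_interior.mem_nhds hx)] with ε h2
    exact ⟨_, ⟨s, t, hs, ht, hst, rfl⟩, h2⟩
  obtain ⟨ε, h1, h2, h3, h4, h5⟩ := (k1.and (k2.and (k3.and (k4.and k5)))).exists
  refine ⟨pertQ q ε, h1, h2, ?_, ?_, ?_⟩
  · intro u hu v hv w hw huv hvw huw
    exact h3 u hu v hv w hw ⟨huv, hvw, huw⟩
  · intro u hu v hv huv ha
    exact h4 u hu v hv ⟨huv, ha⟩
  · intro u hu v hv huv ha
    exact h5 u hu v hv ⟨huv, ha⟩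

end Pool.Agent.H670R5
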