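import Pool.Agent.H670R5.St2
import Pool.Agent.H671R2.PolyAuto

/-!
# POLY : the reduction is computable in polynomial time
-/

set_option maxHeartbeats 4000000

namespace Pool.Agent.H670R5

open Pool.Agent.NPC Pool.Agent.H679R2

abbrev PolyO : Type := List (ℕ × Bool × ℕ)
abbrev PolyT : Type := List (ℕ × ℕ × ℕ × Bool)

theorem poly_partner {α : Type} [TEnc α] {f : α → ℕ} (hf : Poly f) :
    Poly (fun a => partner (f a)) := by
  unfold partner
  fun_prop

theorem poly_hg {α : Type} [TEnc α] {f g : α → ℕ} (hf : Poly f) (hg' : Poly g) :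
    Poly (fun a => hg (f a) (g a)) := by
  unfold hg
  fun_prop

theorem poly_hst {α : Type} [TEnc α] {f g h : α → ℕ} (hf : Poly f) (hg' : Poly g) (hh : Poly h) :
    Poly (fun a => hst (f a) (g a) (h a)) := by
  unfold hst
  fun_prop

attribute [local fun_prop] poly_partner poly_hg poly_hst

theorem poly_T1 : Poly T1 := by
  refine Poly.flatMap (F := fun (o : PolyO) (m : ℕ) => (List.range 6).map (fun r =>
    (2 * m, 2 * m + 1, hst o.length (hg o.length (2 * m)) r, true)))
    ((UPoly.add (UPoly.mul (UPoly.const 12) (UPoly.length Poly.id)) (UPoly.const 9)).range) ?_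
  refine NPC.Poly.map (F := fun (p : PolyO × ℕ) (r : ℕ) =>
    (2 * p.2, 2 * p.2 + 1, hst p.1.length (hg p.1.length (2 * p.2)) r, true)) (NPC.Poly.const _) ?_
  have hm : Poly (fun p : (PolyO × ℕ) × ℕ => 2 * p.1.2) :=
    Poly.mul (NPC.Poly.const 2) (Poly.snd (Poly.fst Poly.id))
  have hL : Poly (fun p : (PolyO × ℕ) × ℕ => p.1.1.length) :=
    Poly.length (Poly.fst (Poly.fst Poly.id))
  exact Poly.pair hm (Poly.pair (Poly.succ hm) (Poly.pair
    (poly_hst hL (poly_hg hL hm) (Poly.snd Poly.id)) (NPC.Poly.const true)))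

theorem poly_T2 : Poly T2 := by
  have hl := Pool.Agent.NPC.H679.lnE_poly
  refine Poly.flatMap (F := fun (o : PolyO) (k : ℕ) => (lnE o k).flatMap (fun q =>
    (List.range 6).map (fun r =>
    (24 * q.1.1 + 2 * q.1.2 + 1, 24 * q.2.1 + 2 * q.2.2 + 1, hst o.length 0 r, false))))
    (Poly.range_length Poly.id) ?_
  refine Poly.flatMap (F := fun (p : PolyO × ℕ) (q : (ℕ × ℕ) × (ℕ × ℕ)) =>
    (List.range 6).map (fun r =>
    (24 * q.1.1 + 2 * q.1.2 + 1, 24 * q.2.1 + 2 * q.2.2 + 1, hst p.1.length 0 r, false))) hl ?_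
  fun_prop

theorem poly_T3 : Poly T3 := by
  refine Poly.flatMap (F := fun (o : PolyO) (k : ℕ) => [1, 3, 5, 7].map (fun t =>
    (24 * k + 2 * (t - 1), 24 * k + 2 * t, 24 * k + 2 * ((t + 1) % 8), false)))
    (Poly.range_length Poly.id) ?_
  fun_prop

theorem poly_TOf : Poly TOf := Poly.append (Poly.append poly_T1 poly_T2) poly_T3

theorem upoly_nOf : UPoly nOf :=
  UPoly.add (UPoly.mul (UPoly.const 24) (UPoly.length Poly.id)) (UPoly.const 18)

theorem upoly_sz : UPoly (fun o : PolyO => sz (nOf o) (TOf o)) :=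
  UPoly.add (UPoly.mul (UPoly.const 2) upoly_nOf) (UPoly.length poly_TOf)

theorem poly_adjH {α : Type} [TEnc α] {n : α → ℕ} {T : α → PolyT} {u v : α → ℕ} (hn : Poly n)
    (hT : Poly T) (hu : Poly u) (hv : Poly v) : Poly (fun a => adjH (n a) (T a) (u a) (v a)) := by
  unfold adjH
  fun_prop

theorem poly_edg_eq (n : ℕ) (T : PolyT) : edg n T =
    ((List.range (sz n T)).flatMap (fun v => ((List.range (sz n T)).filter
      (fun u => decide (u < v))).map (fun u => (u, v)))).filter (fun q => adjH n T q.1 q.2) := by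
  unfold edg
  congr 1
  apply List.flatMap_congr
  intro v hv
  rw [List.mem_range] at hv
  congr 1
  obtain ⟨d, hd⟩ := Nat.exists_eq_add_of_le hv.le
  rw [hd, List.range_add, List.filter_append]
  have h1 : (List.range v).filter (fun k => decide (k < v)) = List.range v := by
    rw [List.filter_eq_self]
    intro k hk
    simpa using hk
  have h2 : ((List.range d).map (fun x => v + x)).filter (fun k => decide (k < v)) = [] := by
    rw [List.filter_eq_nil_iff]
    intro k hk
    simp at hk ⊢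
    omega
  rw [h1, h2, List.append_nil]

theorem poly_edg : Poly (fun o : PolyO => edg (nOf o) (TOf o)) := by
  have hr : Poly (fun o : PolyO => List.range (sz (nOf o) (TOf o))) := upoly_sz.range
  refine (Poly.filter (p := fun (o : PolyO) (q : ℕ × ℕ) => adjH (nOf o) (TOf o) q.1 q.2)
    (l := fun o : PolyO => (List.range (sz (nOf o) (TOf o))).flatMap (fun v =>
      ((List.range (sz (nOf o) (TOf o))).filter (fun u => decide (u < v))).map
        (fun u => (u, v)))) ?_ ?_).congr fun o => (poly_edg_eq _ _).symm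
  · refine Poly.flatMap (F := fun (o : PolyO) (v : ℕ) =>
      ((List.range (sz (nOf o) (TOf o))).filter (fun u => decide (u < v))).map
        (fun u => (u, v))) hr ?_
    refine NPC.Poly.map (F := fun (p : PolyO × ℕ) (u : ℕ) => (u, p.2))
      (Poly.filter (p := fun (p : PolyO × ℕ) (u : ℕ) => decide (u < p.2))
        (hr.comp (Poly.fst Poly.id)) ?_) ?_
    · fun_prop
    · fun_prop
  · exact poly_adjH (upoly_nOf.toPoly.comp (Poly.fst Poly.id)) (poly_TOf.comp (Poly.fst Poly.id))
      (Poly.fst (Poly.snd Poly.id)) (Poly.snd (Poly.snd Poly.id))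

theorem poly_inst : Poly (fun o : PolyO => instG (nOf o) (TOf o)) := by
  unfold instG
  refine Poly.pair (UPoly.mul (UPoly.const 2) upoly_sz).range ?_
  refine Poly.append poly_edg ?_
  refine NPC.Poly.map (F := fun (o : PolyO) (q : ℕ × ℕ) =>
    (q.1 + sz (nOf o) (TOf o), q.2 + sz (nOf o) (TOf o))) poly_edg ?_
  have hs : Poly (fun p : PolyO × (ℕ × ℕ) => sz (nOf p.1) (TOf p.1)) :=
    upoly_sz.toPoly.comp (Poly.fst Poly.id)
  exact Poly.pair (Poly.add (Poly.fst (Poly.snd Poly.id)) hs)
    (Poly.add (Poly.snd (Poly.snd Poly.id)) hs)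

theorem poly_ok : St_poly :=
  poly_inst.comp Pool.Agent.NPC.H679.occ_poly

end Pool.Agent.H670R5
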