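import Pool.Agent.H670R5.St2

/-!
# From an assignment to a linear order of the elements
-/

namespace Pool.Agent.H670R5

open Pool.Agent.NPC Pool.Agent.H679R2

/-- The place of every terminal on the one alternating cycle. -/
theorem POS_loc {V : Type} (M S : V → V) (hM : Function.Involutive M)
    (hS : Function.Involutive S) (p₀ : V) (c : ℕ)
    (h1 : ∀ i < c, ∀ j < c, (S ∘ M)^[i] p₀ = (S ∘ M)^[j] p₀ → i = j)
    (h2 : ∀ i < c, ∀ j < c, (S ∘ M)^[i] p₀ ≠ M ((S ∘ M)^[j] p₀))
    (h3 : ∀ v, ∃ i < c, v = (S ∘ M)^[i] p₀ ∨ v = M ((S ∘ M)^[i] p₀))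
    (h4 : (S ∘ M)^[c] p₀ = p₀) :
    ∃ loc : V → ℕ, Function.Injective loc ∧ (∀ v, loc v < 2 * c) ∧
      (∀ v, (loc v % 2 = 0 ∧ loc (M v) = loc v + 1) ∨ (loc v % 2 = 1 ∧ loc v = loc (M v) + 1)) ∧
      (∀ v, v ≠ p₀ → S v ≠ p₀ → (loc v % 2 = 1 ∧ loc (S v) % 2 = 0 ∧ loc (S v) = loc v + 1) ∨
        (loc v % 2 = 0 ∧ loc (S v) % 2 = 1 ∧ loc v = loc (S v) + 1)) := by
  classical
  set p : ℕ → V := fun i => (S ∘ M)^[i] p₀ with hp
  have h1' : ∀ i < c, ∀ j < c, p i = p j → i = j := h1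
  have h2' : ∀ i < c, ∀ j < c, p i ≠ M (p j) := h2
  have h4' : p c = p₀ := h4
  have h0' : p 0 = p₀ := rfl
  have hsucc : ∀ i, p (i + 1) = S (M (p i)) := fun i => by
    simp only [hp, Function.iterate_succ_apply', Function.comp_apply]
  choose ix hix hor using h3
  set loc : V → ℕ := fun v => if v = p (ix v) then 2 * ix v else 2 * ix v + 1 with hloc
  have e1 : ∀ i < c, loc (p i) = 2 * i := by
    intro i hi
    have hA : p i = p (ix (p i)) := by
      rcases hor (p i) with h | h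
      · exact h
      · exact absurd h (h2' i hi _ (hix _))
    have hB : ix (p i) = i := (h1' i hi _ (hix _) hA).symm
    simp only [hloc]
    rw [if_pos hA, hB]
  have e2 : ∀ i < c, loc (M (p i)) = 2 * i + 1 := by
    intro i hi
    have hn : ¬ M (p i) = p (ix (M (p i))) := fun h => h2' _ (hix _) i hi h.symm
    have hA : M (p i) = M (p (ix (M (p i)))) := by
      rcases hor (M (p i)) with h | h
      · exact absurd h hn
      · exact h
    have hB : ix (M (p i)) = i := (h1' i hi _ (hix _) (hM.injective hA)).symm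
    simp only [hloc]
    rw [if_neg hn, hB]
  have e3 : ∀ v, ∃ i < c, v = p i ∨ v = M (p i) := fun v => ⟨ix v, hix v, hor v⟩
  refine ⟨loc, ?_, ?_, ?_, ?_⟩
  · intro v w hvw
    obtain ⟨i, hi, rfl | rfl⟩ := e3 v <;> obtain ⟨j, hj, rfl | rfl⟩ := e3 w
    · rw [e1 i hi, e1 j hj] at hvw
      rw [show i = j by omega]
    · rw [e1 i hi, e2 j hj] at hvw
      omega
    · rw [e2 i hi, e1 j hj] at hvw
      omega
    · rw [e2 i hi, e2 j hj] at hvw
      rw [show i = j by omega]
  · intro v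
    obtain ⟨i, hi, rfl | rfl⟩ := e3 v
    · rw [e1 i hi]; omega
    · rw [e2 i hi]; omega
  · intro v
    obtain ⟨i, hi, rfl | rfl⟩ := e3 v
    · rw [e1 i hi, e2 i hi]; left; omega
    · rw [hM (p i), e1 i hi, e2 i hi]; right; omega
  · intro v hv hSv
    obtain ⟨i, hi, rfl | rfl⟩ := e3 v
    · -- `v = p i`
      obtain _ | i := i
      · exact absurd h0' hv
      · have hA : S (p (i + 1)) = M (p i) := by rw [hsucc, hS]
        rw [hA, e1 _ hi, e2 i (by omega)]
        right; omega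
    · -- `v = M (p i)`
      rw [← hsucc] at hSv ⊢
      have hi' : i + 1 < c := by
        rcases Nat.lt_or_ge (i + 1) c with h | h
        · exact h
        · exfalso
          apply hSv
          rw [show i + 1 = c by omega, h4']
      rw [e1 _ hi', e2 i hi]
      left; omega

theorem POS_mem_lnE (o : List (ℕ × Bool × ℕ)) (k : Fin o.length) (q : (ℕ × ℕ) × (ℕ × ℕ))
    (hq : q ∈ lnE o k.val) : ∃ t : Fin 12,
      q = ((k.val, t.val), (((sysOf o).M (k, t)).1.val, ((sysOf o).M (k, t)).2.val)) := by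
  have hc : ∀ k : Fin o.length, nx (cK o) k.val = ((sysOf o).α k).val := fun k =>
    nx_eq (cK o) o.length (by simp [cK]) k
  have hv : ∀ k : Fin o.length, nx (vK o) k.val = ((sysOf o).β k).val := fun k =>
    nx_eq (vK o) o.length (by simp [vK]) k
  have hz : ∀ k : Fin o.length, nx (zK o) k.val = ((sysOf o).γ k).val := fun k =>
    nx_eq (zK o) o.length (by simp [zK]) k
  have hs : ∀ k : Fin o.length, (sK o).getD k.val false = (sysOf o).sg k := fun k => rfl
  revert hq
  unfold lnE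
  rw [hc, hv, hz, hs, hs, T0N_eq, T0N_eq, T1N_eq, T1N_eq]
  simp only [List.mem_cons, List.not_mem_nil, or_false]
  rintro (rfl | rfl | rfl | rfl | rfl | rfl)
  · exact ⟨1, rfl⟩
  · exact ⟨2, rfl⟩
  · exact ⟨5, rfl⟩
  · exact ⟨9, rfl⟩
  · exact ⟨Pool.Agent.H679R2.T0 ((sysOf o).sg k), by rw [Sys.M_T0]⟩
  · exact ⟨Pool.Agent.H679R2.T1 ((sysOf o).sg k), by rw [Sys.M_T1]⟩

theorem POS_conn (o : List (ℕ × Bool × ℕ))
    (h : ∃ τ : ℕ → Bool, ∀ x ∈ o, ∃ y ∈ o, y.1 = x.1 ∧ τ y.2.2 = y.2.1) :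
    ∃ y z : Fin o.length → Bool, ∀ p q, Conn (sysOf o).M (Sys.S y z) p q := by
  obtain ⟨τ, hτ⟩ := h
  have hv : ∀ k : Fin o.length, (vK o).getD k.val 0 = (o[k.val]).2.2 := fun k =>
    getD_map o _ _ k.isLt _
  have hc : ∀ k : Fin o.length, (cK o).getD k.val 0 = (o[k.val]).1 := fun k =>
    getD_map o _ _ k.isLt _
  have hs : ∀ k : Fin o.length, (sysOf o).sg k = (o[k.val]).2.1 := fun k =>
    getD_map o _ _ k.isLt _
  have hz : ∀ k : Fin o.length, (zK o).getD k.val 0 = 0 := fun k => getD_map o _ _ k.isLt _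
  obtain ⟨z, hz⟩ := (sysOf o).exists_conn (fun k => τ (o[k.val]).2.2 == (o[k.val]).2.1)
    (by
      intro k
      have h1 : ∀ k : Fin o.length, ((τ (o[k.val]).2.2 == (o[k.val]).2.1) == (sysOf o).sg k) =
          τ (o[k.val]).2.2 := by
        intro k
        rw [hs]
        cases τ (o[k.val]).2.2 <;> cases (o[k.val]).2.1 <;> rfl
      rw [h1, h1]
      have h2 := nxt_key o.length (fun i => (vK o).getD i 0) k
      simp only [hv] at h2
      change τ (o[(nxt o.length (fun i => (vK o).getD i 0) k).val]).2.2 = _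
      rw [h2])
    (by
      intro k
      obtain ⟨y, hy, hy1, hy2⟩ := hτ (o[k.val]) (List.getElem_mem _)
      obtain ⟨i, hi, rfl⟩ := List.mem_iff_getElem.1 hy
      refine ⟨⟨i, hi⟩, by simp [hy2], ?_⟩
      obtain ⟨n, hn, hn'⟩ := nxt_orbit o.length (fun i => (cK o).getD i 0) _ ⟨i, hi⟩ k
        (by simp only [hc]; have := hc ⟨i, hi⟩; simp only at this; rw [this, hy1]) rfl
      obtain ⟨m, rfl⟩ : ∃ m, n = m + 1 := ⟨n - 1, by omega⟩
      rw [Function.iterate_succ_apply] at hn'
      exact ⟨m, hn'⟩)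
    (by
      intro j k
      obtain ⟨n, -, hn⟩ := nxt_orbit o.length (fun i => (zK o).getD i 0) _ j k
        (by simp only [hz]) rfl
      exact ⟨n, hn⟩)
  exact ⟨_, z, hz⟩

theorem POS_sig_oct : ∀ (y z : Bool) (t : Fin 12), (t = 1 ∨ t = 3 ∨ t = 5 ∨ t = 7) →
    (sig y z t).val = t.val - 1 ∨ (sig y z t).val = (t.val + 1) % 8 := by decide

theorem POS_sig_lt : ∀ (y z : Bool) (t : Fin 12), t.val < 8 → (sig y z t).val < 8 := by decide

theorem pos_ok (hO : St_orb) : St_pos := by
  classical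
  intro o ho hτ
  obtain ⟨y, z, hyz⟩ := POS_conn o hτ
  have hN0 : 0 < o.length := List.length_pos_of_ne_nil ho
  obtain ⟨c, h1, h2, h3, h4, h5⟩ := hO (Fin o.length × Fin 12) (sysOf o).M (Sys.S y z)
    (sysOf o).M_invol (Sys.S_invol y z) (sysOf o).M_ne (Sys.S_ne y z) hyz (⟨0, hN0⟩, 8)
  obtain ⟨loc, l1, l2, l3, l4⟩ := POS_loc (sysOf o).M (Sys.S y z) (sysOf o).M_invol
    (Sys.S_invol y z) (⟨0, hN0⟩, 8) c h1 h2 h3 h4
  have hc : 2 * c = 12 * o.length := by
    rw [← h5, Nat.card_prod, Nat.card_fin, Nat.card_fin, Nat.mul_comm]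
  set pos : ℕ → ℕ := fun x => if h : x < 24 * o.length then
    (if loc (⟨x / 24, by omega⟩, ⟨x % 24 / 2, by omega⟩) % 2 = 0 then
      2 * loc (⟨x / 24, by omega⟩, ⟨x % 24 / 2, by omega⟩) + x % 2 else
      2 * loc (⟨x / 24, by omega⟩, ⟨x % 24 / 2, by omega⟩) + 1 - x % 2) else x with hpos
  have key : ∀ (k : Fin o.length) (t : Fin 12) (e : ℕ), e < 2 → pos (24 * k.val + 2 * t.val + e) =
      if loc (k, t) % 2 = 0 then 2 * loc (k, t) + e else 2 * loc (k, t) + 1 - e := by
    intro k t e he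
    have hk := k.isLt
    have ht := t.isLt
    have hx : 24 * k.val + 2 * t.val + e < 24 * o.length := by omega
    simp only [hpos]
    rw [dif_pos hx]
    have e1 : (⟨(24 * k.val + 2 * t.val + e) / 24, by omega⟩ : Fin o.length) = k := Fin.ext (by
      show (24 * k.val + 2 * t.val + e) / 24 = k.val
      omega)
    have e2 : (⟨(24 * k.val + 2 * t.val + e) % 24 / 2, by omega⟩ : Fin 12) = t := Fin.ext (by
      show (24 * k.val + 2 * t.val + e) % 24 / 2 = t.val
      omega)
    have e3 : (24 * k.val + 2 * t.val + e) % 2 = e := by omega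
    rw [e1, e2, e3]
  have key2 : ∀ x, ¬ x < 24 * o.length → pos x = x := by
    intro x hx
    simp only [hpos]
    rw [dif_neg hx]
  have cas : ∀ x, x < 24 * o.length → ∃ (k : Fin o.length) (t : Fin 12) (e : ℕ), e < 2 ∧
      x = 24 * k.val + 2 * t.val + e := fun x hx =>
    ⟨⟨x / 24, by omega⟩, ⟨x % 24 / 2, by omega⟩, x % 2, by omega, by
      show x = 24 * (x / 24) + 2 * (x % 24 / 2) + x % 2
      omega⟩
  have bnd : ∀ x, x < 24 * o.length → pos x < 24 * o.length := by
    intro x hx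
    obtain ⟨k, t, e, he, rfl⟩ := cas x hx
    rw [key k t e he]
    have := l2 (k, t)
    split_ifs <;> omega
  refine ⟨pos, ⟨?_, ?_, ?_, ?_, ?_, ?_⟩⟩
  · intro v hv
    by_cases h : v < 24 * o.length
    · have := bnd v h
      unfold nOf
      omega
    · rw [key2 v h]
      exact hv
  · intro u hu v hv huv
    by_cases h : u < 24 * o.length
    · by_cases h' : v < 24 * o.length
      · obtain ⟨k, t, e, he, rfl⟩ := cas u h
        obtain ⟨k', t', e', he', rfl⟩ := cas v h'
        rw [key k t e he, key k' t' e' he'] at huv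
        have hl : loc (k, t) = loc (k', t') := by
          split_ifs at huv <;> omega
        rw [hl] at huv
        have hkt := l1 hl
        have hk : k = k' := congrArg Prod.fst hkt
        have ht : t = t' := congrArg Prod.snd hkt
        subst hk ht
        split_ifs at huv <;> omega
      · have := bnd u h
        rw [key2 v h'] at huv
        omega
    · by_cases h' : v < 24 * o.length
      · have := bnd v h'
        rw [key2 u h] at huv
        omega
      · rw [key2 u h, key2 v h'] at huv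
        exact huv
  · intro v hv
    by_cases h : v < 24 * o.length
    · obtain ⟨k, t, e, he, rfl⟩ := cas v h
      have hp : partner (24 * k.val + 2 * t.val + e) = 24 * k.val + 2 * t.val + (1 - e) := by
        unfold partner
        split_ifs <;> omega
      rw [hp, key k t e he, key k t (1 - e) (by omega)]
      unfold partner
      split_ifs <;> omega
    · rw [key2 v h]
      apply key2
      unfold partner
      split_ifs <;> omega
  · intro v hv _
    exact key2 v (by omega)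
  · intro k hk q hq
    obtain ⟨t, rfl⟩ := POS_mem_lnE o ⟨k, hk⟩ q hq
    set w := (sysOf o).M (⟨k, hk⟩, t) with hw
    have e1 := key ⟨k, hk⟩ t 1 (by omega)
    have e2 := key w.1 w.2 1 (by omega)
    have e3 := l3 (⟨k, hk⟩, t)
    rw [← hw] at e3
    simp only at e1 ⊢
    rw [e1, e2]
    change _ ∨ _
    have e4 : loc (w.1, w.2) = loc w := rfl
    rw [e4]
    rcases e3 with ⟨e5, e6⟩ | ⟨e5, e6⟩
    · rw [if_pos e5, if_neg (show ¬ loc w % 2 = 0 by omega)]
      omega
    · rw [if_neg (show ¬ loc (⟨k, hk⟩, t) % 2 = 0 by omega), if_pos (show loc w % 2 = 0 by omega)]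
      omega
  · intro k hk t ht
    have ht12 : t < 12 := by omega
    set v : Fin o.length × Fin 12 := (⟨k, hk⟩, ⟨t, ht12⟩) with hv
    have hS : Sys.S y z v = (⟨k, hk⟩, sig (y ⟨k, hk⟩) (z ⟨k, hk⟩) ⟨t, ht12⟩) := rfl
    set t' := sig (y ⟨k, hk⟩) (z ⟨k, hk⟩) ⟨t, ht12⟩ with ht'
    have hoct := POS_sig_oct (y ⟨k, hk⟩) (z ⟨k, hk⟩) ⟨t, ht12⟩ (by
      rcases ht with rfl | rfl | rfl | rfl
      · left; rfl
      · right; left; rfl
      · right; right; left; rfl
      · right; right; right; rfl)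
    have hlt := POS_sig_lt (y ⟨k, hk⟩) (z ⟨k, hk⟩) ⟨t, ht12⟩ (by
      show t < 8
      omega)
    rw [← ht'] at hoct hlt
    refine ⟨t'.val, hoct, ?_⟩
    have hA : v ≠ (⟨0, hN0⟩, 8) := by
      intro h
      have := congrArg (fun x => x.2.val) h
      simp only [hv] at this
      have h8 : ((8 : Fin 12) : ℕ) = 8 := rfl
      omega
    have hB : Sys.S y z v ≠ (⟨0, hN0⟩, 8) := by
      intro h
      rw [hS] at h
      have := congrArg (fun x => x.2.val) h
      simp only at this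
      have h8 : ((8 : Fin 12) : ℕ) = 8 := rfl
      omega
    have e1 : pos (24 * k + 2 * t) = if loc v % 2 = 0 then 2 * loc v + 0 else
        2 * loc v + 1 - 0 := key ⟨k, hk⟩ ⟨t, ht12⟩ 0 (by omega)
    have e2 : pos (24 * k + 2 * t'.val) = if loc (⟨k, hk⟩, t') % 2 = 0 then
        2 * loc (⟨k, hk⟩, t') + 0 else
        2 * loc (⟨k, hk⟩, t') + 1 - 0 := key ⟨k, hk⟩ t' 0 (by omega)
    have e3 := l4 v hA hB
    rw [hS] at e3
    rcases e3 with ⟨e5, e6, e7⟩ | ⟨e5, e6, e7⟩
    · rw [if_neg (show ¬ loc v % 2 = 0 by omega)] at e1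
      rw [if_pos e6] at e2
      omega
    · rw [if_pos e5] at e1
      rw [if_neg (show ¬ loc (⟨k, hk⟩, t') % 2 = 0 by omega)] at e2
      omega

end Pool.Agent.H670R5
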