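import Pool.Agent.H670R5.St2

/-!
# The rotation is transitive
-/

namespace Pool.Agent.H670R5

open Pool.Agent.NPC Pool.Agent.H679R2

theorem rot_aux (n : ℕ) (T : Set (Fin n)) (hT : T.Nonempty)
    (h : ∀ v ∈ T, finRotate n v ∈ T) : T = Set.univ := by
  match n, T, hT, h with
  | 0, T, hT, h => exact (hT.some.elim0)
  | 1, T, hT, h =>
    obtain ⟨t, ht⟩ := hT
    ext x
    simp only [Set.mem_univ, iff_true]
    rwa [Subsingleton.elim x t]
  | m + 2, T, hT, h =>
    obtain ⟨t, ht⟩ := hT
    have hpow : ∀ i : ℕ, ((finRotate (m + 2)) ^ i) t ∈ T := by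
      intro i
      induction i with
      | zero => simpa using ht
      | succ i ih =>
        rw [pow_succ']
        exact h _ ih
    ext x
    simp only [Set.mem_univ, iff_true]
    have hc : (finRotate (m + 2)).IsCycle := isCycle_finRotate
    have hs : (finRotate (m + 2)).support = Finset.univ := support_finRotate
    have h1 : finRotate (m + 2) t ≠ t := by
      have := Finset.mem_univ t
      rw [← hs, Equiv.Perm.mem_support] at this
      exact this
    have h2 : finRotate (m + 2) x ≠ x := by
      have := Finset.mem_univ x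
      rw [← hs, Equiv.Perm.mem_support] at this
      exact this
    obtain ⟨i, hi⟩ := hc.exists_pow_eq h1 h2
    rw [← hi]
    exact hpow i

theorem rot_ok : St_rot := by
  intro n σ S hS h
  have h1 : (σ ⁻¹' S) = Set.univ := by
    apply rot_aux
    · obtain ⟨s, hs⟩ := hS
      exact ⟨σ.symm s, by simpa using hs⟩
    · intro v hv
      have := h _ hv
      simpa [rotP] using this
  ext x
  simp only [Set.mem_univ, iff_true]
  have : σ.symm x ∈ σ ⁻¹' S := by rw [h1]; trivial
  simpa using this

end Pool.Agent.H670R5
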