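import Pool.Agent.H670R5.St2

/-!
# Sorting
-/

namespace Pool.Agent.H670R5

open Pool.Agent.NPC Pool.Agent.H679R2

/-- copy of `Fin n` without its order -/
def sort_W (n : ℕ) : Type := Fin n

instance (n : ℕ) : Fintype (sort_W n) := inferInstanceAs (Fintype (Fin n))

theorem sort_ok : St_sort := by
  intro n r htot hasym htr
  classical
  have hirr : ∀ a, ¬ r a a := fun a h => hasym a a h h
  letI inst : LinearOrder (sort_W n) :=
    { le := fun a b => a = b ∨ r a b
      lt := fun a b => r a b
      le_refl := fun a => Or.inl rfl
      le_trans := by
        rintro a b c (rfl | h1) (rfl | h2)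
        · exact Or.inl rfl
        · exact Or.inr h2
        · exact Or.inr h1
        · exact Or.inr (htr _ _ _ h1 h2)
      lt_iff_le_not_ge := by
        intro a b
        constructor
        · intro h
          refine ⟨Or.inr h, ?_⟩
          rintro (h' | h')
          · subst h'
            exact hirr _ h
          · exact hasym _ _ h h'
        · rintro ⟨h1 | h1, h2⟩
          · exact absurd (Or.inl h1.symm) h2
          · exact h1
      le_antisymm := by
        rintro a b (h1 | h1) (h2 | h2)
        · exact h1
        · exact h1
        · exact h2.symm
        · exact absurd h2 (hasym _ _ h1)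
      le_total := by
        intro a b
        by_cases h : a = b
        · exact Or.inl (Or.inl h)
        · rcases htot a b h with h' | h'
          · exact Or.inl (Or.inr h')
          · exact Or.inr (Or.inr h')
      toDecidableLE := fun _ _ => Classical.dec _
      toDecidableEq := fun _ _ => Classical.dec _
      toDecidableLT := fun _ _ => Classical.dec _ }
  have hcard : Fintype.card (sort_W n) = n := Fintype.card_fin n
  let σ : Fin n ≃o sort_W n := monoEquivOfFin (sort_W n) hcard
  refine ⟨σ.toEquiv, fun i j hij => ?_⟩
  have h : σ i < σ j := σ.strictMono hij
  exact h

end Pool.Agent.H670R5
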