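import Pool.Agent.H670R5.St2

namespace Pool.Agent.H670R5

open Pool.Agent.NPC Pool.Agent.H679R2

private theorem sound_col {a b c : Pl} (h : ori a b c = 0) : Collinear ℝ {a, b, c} := by
  rw [collinear_iff_of_mem (p₀ := a) (by simp)]
  have ha : ∀ v : Pl, ∃ r : ℝ, a = r • v +ᵥ a := fun v => ⟨0, by simp⟩
  by_cases hab : b = a
  · refine ⟨c - a, ?_⟩
    intro q hq
    rcases hq with hq | hq | hq
    · rw [hq]; exact ha _
    · rw [hq, hab]; exact ha _
    · refine ⟨1, ?_⟩
      rw [Set.mem_singleton_iff.1 hq, one_smul, vadd_eq_add, sub_add_cancel]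
  · have hr : ∃ r : ℝ, c = r • (b - a) +ᵥ a := by
      unfold ori at h
      by_cases h1 : b.1 - a.1 = 0
      · have h2 : b.2 - a.2 ≠ 0 := by
          intro h2
          apply hab
          ext
          · linarith
          · linarith
        refine ⟨(c.2 - a.2) / (b.2 - a.2), ?_⟩
        have h3 : c.1 - a.1 = 0 := by
          have : (b.2 - a.2) * (c.1 - a.1) = 0 := by rw [h1] at h; linarith
          rcases mul_eq_zero.1 this with h4 | h4
          · exact absurd h4 h2
          · exact h4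
        rw [vadd_eq_add]
        ext
        · simp only [Prod.fst_add, Prod.smul_fst, Prod.fst_sub, smul_eq_mul, h1, mul_zero, zero_add]
          linarith
        · simp only [Prod.snd_add, Prod.smul_snd, Prod.snd_sub, smul_eq_mul]
          field_simp
          ring
      · refine ⟨(c.1 - a.1) / (b.1 - a.1), ?_⟩
        rw [vadd_eq_add]
        ext
        · simp only [Prod.fst_add, Prod.smul_fst, Prod.fst_sub, smul_eq_mul]
          field_simp
          ring
        · simp only [Prod.snd_add, Prod.smul_snd, Prod.snd_sub, smul_eq_mul]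
          rw [div_mul_eq_mul_div, ← sub_eq_iff_eq_add, eq_div_iff h1]
          linarith
    refine ⟨b - a, ?_⟩
    intro q hq
    rcases hq with hq | hq | hq
    · rw [hq]; exact ha _
    · refine ⟨1, ?_⟩
      rw [hq, one_smul, vadd_eq_add, sub_add_cancel]
    · rw [Set.mem_singleton_iff.1 hq]
      exact hr

theorem sound_ok (hE : St_ext) (hC : St_conv) (hR : St_rot) (hT : St_triple) (hU : St_hull)
    (hK : St_cone) : St_sound := by
  intro n T p C hn hTT hG
  have hsz : ∀ u, u < n → u < sz n T := by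
    intro u hu
    unfold sz
    omega
  obtain ⟨σ, hσ⟩ := hC n p (by omega)
    (fun u hu v hv w hw h1 h2 h3 => hG.gp u (hsz u hu) v (hsz v hv) w (hsz w hw) h1 h2 h3)
    (fun z hz => ⟨p (n + z), hE n T p C hG z hz⟩)
  refine ⟨rotP n σ, fun S hS hS' => hR n σ S hS hS', ?_⟩
  intro t ht
  obtain ⟨h1, h2, h3, h12, h23, h13⟩ := hTT t ht
  obtain ⟨i, hi, hti⟩ := List.getElem_of_mem ht
  have hu1 : n ≤ 2 * n + i := by omega
  have hu2 : 2 * n + i < sz n T := by
    unfold sz
    omega
  have hAd : ∀ x, x < n → (Ad n T (2 * n + i) x ↔ x = t.1 ∨ x = t.2.1 ∨ x = t.2.2.1) := by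
    intro x hx
    have hget : T.getD (2 * n + i - 2 * n) (0, 0, 0, false) = t := by
      rw [Nat.add_sub_cancel_left, List.getD_eq_getElem _ _ hi, hti]
    have hadj : adjH n T x (2 * n + i) = true ↔ x = t.1 ∨ x = t.2.1 ∨ x = t.2.2.1 := by
      unfold adjH
      rw [if_neg (by omega), if_neg (by omega)]
      simp only [hget]
      rw [if_pos hx]
      simp
    unfold Ad
    constructor
    · rintro (⟨h, _⟩ | ⟨_, h⟩)
      · omega
      · exact hadj.1 h
    · intro h
      exact Or.inr ⟨by omega, hadj.2 h⟩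
  have hnon : ∃ v < n, ¬ Ad n T (2 * n + i) v := by
    by_contra hcon
    push Not at hcon
    have e0 := (hAd 0 (by omega)).1 (hcon 0 (by omega))
    have e1 := (hAd 1 (by omega)).1 (hcon 1 (by omega))
    have e2 := (hAd 2 (by omega)).1 (hcon 2 (by omega))
    have e3 := (hAd 3 (by omega)).1 (hcon 3 (by omega))
    omega
  have hres := hT n p σ (p (2 * n + i)) (fun x : Fin n => Ad n T (2 * n + i) x) (by omega) hσ
    (hU n T p C (by omega) hG (2 * n + i) hu1 hu2 hnon)
    (fun x y hxy h0 => by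
      have hne : (x : ℕ) ≠ y := fun h => hxy (Fin.ext h)
      exact hG.gp (2 * n + i) hu2 x (hsz x x.2) y (hsz y y.2) (by have := x.2; omega) hne
        (by have := y.2; omega) (sound_col h0))
    (fun x y z hx hy hz q1 q2 => hK n T p C hG (2 * n + i) hu1 hu2 x x.2 y y.2 z z.2 hx hy hz q1 q2)
    ⟨t.1, h1⟩ ⟨t.2.1, h2⟩ ⟨t.2.2.1, h3⟩
    (fun h => h12 (by simpa using congrArg Fin.val h))
    (fun h => h23 (by simpa using congrArg Fin.val h))
    (fun h => h13 (by simpa using congrArg Fin.val h))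
    (fun x => by
      rw [hAd x x.2]
      simp only [Fin.ext_iff])
  rcases hres with h | h | h
  · exact ⟨⟨t.1, h1⟩, ⟨t.2.1, h2⟩, h, Or.inl ⟨rfl, rfl⟩⟩
  · exact ⟨⟨t.1, h1⟩, ⟨t.2.2.1, h3⟩, h, Or.inr (Or.inl ⟨rfl, rfl⟩)⟩
  · exact ⟨⟨t.2.1, h2⟩, ⟨t.2.2.1, h3⟩, h, Or.inr (Or.inr ⟨rfl, rfl⟩)⟩

end Pool.Agent.H670R5
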