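import Pool.Agent.H670R5.St2

/-!
# TDIST: the triples of an instance are pairwise different as sets
-/

set_option autoImplicit false

namespace Pool.Agent.H670R5

open Pool.Agent.NPC Pool.Agent.H679R2

/-- numbers of the forward terminals -/
def tdistF (b : Bool) (t : ℕ) : Prop := t = 1 ∨ t = 2 ∨ t = 5 ∨ t = 9 ∨ t = T0N b ∨ t = T1N b

theorem tdist_nx_lt (keys : List ℕ) (k : ℕ) (hk : k < keys.length) : nx keys k < keys.length := by
  have h := nx_eq keys keys.length rfl ⟨k, hk⟩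
  have h2 : nx keys k = (nxt keys.length (fun i => keys.getD i 0) ⟨k, hk⟩).val := h
  rw [h2]
  exact (nxt keys.length (fun i => keys.getD i 0) ⟨k, hk⟩).isLt

theorem tdist_T0 (b : Bool) : T0N b = 3 ∨ T0N b = 6 := by cases b <;> simp [T0N]
theorem tdist_T1 (b : Bool) : T1N b = 4 ∨ T1N b = 7 := by cases b <;> simp [T1N]

theorem tdist_ln (o : List (ℕ × Bool × ℕ)) (k : ℕ) (hk : k < o.length)
    (q : (ℕ × ℕ) × (ℕ × ℕ)) (hq : q ∈ lnE o k) :
    q.1.1 = k ∧ q.1.2 < 12 ∧ q.2.1 < o.length ∧ q.2.2 < 12 ∧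
      tdistF ((sK o).getD q.1.1 false) q.1.2 ∧ ¬ tdistF ((sK o).getD q.2.1 false) q.2.2 := by
  have hc : nx (cK o) k < o.length := by
    have h1 : (cK o).length = o.length := by simp [cK]
    have h2 := tdist_nx_lt (cK o) k (by rw [h1]; exact hk)
    rwa [h1] at h2
  have hz : nx (zK o) k < o.length := by
    have h1 : (zK o).length = o.length := by simp [zK]
    have h2 := tdist_nx_lt (zK o) k (by rw [h1]; exact hk)
    rwa [h1] at h2
  have hv : nx (vK o) k < o.length := by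
    have h1 : (vK o).length = o.length := by simp [vK]
    have h2 := tdist_nx_lt (vK o) k (by rw [h1]; exact hk)
    rwa [h1] at h2
  unfold lnE at hq
  simp only [List.mem_cons, List.not_mem_nil, or_false] at hq
  have hF : ∀ b : Bool, ¬ tdistF b 0 ∧ ¬ tdistF b 8 ∧ ¬ tdistF b 10 ∧ ¬ tdistF b 11 ∧
      ¬ tdistF b (T0N (!b)) ∧ ¬ tdistF b (T1N (!b)) := by
    intro b
    cases b <;> simp [tdistF, T0N, T1N]
  have hG : ∀ b : Bool, tdistF b 1 ∧ tdistF b 2 ∧ tdistF b 5 ∧ tdistF b 9 ∧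
      tdistF b (T0N b) ∧ tdistF b (T1N b) := by
    intro b
    simp [tdistF]
  have hl0 : ∀ b : Bool, T0N b < 12 := by intro b; cases b <;> simp [T0N]
  have hl1 : ∀ b : Bool, T1N b < 12 := by intro b; cases b <;> simp [T1N]
  rcases hq with rfl | rfl | rfl | rfl | rfl | rfl
  · exact ⟨rfl, by norm_num, hc, by norm_num, (hG _).1, (hF _).1⟩
  · exact ⟨rfl, by norm_num, hk, by norm_num, (hG _).2.1, (hF _).2.1⟩
  · exact ⟨rfl, by norm_num, hk, by norm_num, (hG _).2.2.1, (hF _).2.2.1⟩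
  · exact ⟨rfl, by norm_num, hz, by norm_num, (hG _).2.2.2.1, (hF _).2.2.2.1⟩
  · exact ⟨rfl, hl0 _, hv, hl0 _, (hG _).2.2.2.2.1, (hF _).2.2.2.2.1⟩
  · exact ⟨rfl, hl1 _, hv, hl1 _, (hG _).2.2.2.2.2, (hF _).2.2.2.2.2⟩

theorem tdist_ln_nodup (o : List (ℕ × Bool × ℕ)) (k : ℕ) :
    ((lnE o k).map (fun q => q.1.2)).Nodup := by
  unfold lnE
  simp only [List.map_cons, List.map_nil]
  cases (sK o).getD k false <;> simp [T0N, T1N]

theorem tdist_mem1 (o : List (ℕ × Bool × ℕ)) (t : ℕ × ℕ × ℕ × Bool) : t ∈ T1 o ↔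
    ∃ m < 12 * o.length + 9, ∃ r < 6,
      t = (2 * m, 2 * m + 1, hst o.length (hg o.length (2 * m)) r, true) := by
  unfold T1
  simp only [List.mem_flatMap, List.mem_range, List.mem_map]
  constructor
  · rintro ⟨m, hm, r, hr, rfl⟩
    exact ⟨m, hm, r, hr, rfl⟩
  · rintro ⟨m, hm, r, hr, rfl⟩
    exact ⟨m, hm, r, hr, rfl⟩

theorem tdist_mem2 (o : List (ℕ × Bool × ℕ)) (t : ℕ × ℕ × ℕ × Bool) : t ∈ T2 o ↔
    ∃ k < o.length, ∃ q ∈ lnE o k, ∃ r < 6,
      t = (24 * q.1.1 + 2 * q.1.2 + 1, 24 * q.2.1 + 2 * q.2.2 + 1, hst o.length 0 r, false) := by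
  unfold T2
  simp only [List.mem_flatMap, List.mem_range, List.mem_map]
  constructor
  · rintro ⟨k, hk, q, hq, r, hr, rfl⟩
    exact ⟨k, hk, q, hq, r, hr, rfl⟩
  · rintro ⟨k, hk, q, hq, r, hr, rfl⟩
    exact ⟨k, hk, q, hq, r, hr, rfl⟩

theorem tdist_mem3 (o : List (ℕ × Bool × ℕ)) (t : ℕ × ℕ × ℕ × Bool) : t ∈ T3 o ↔
    ∃ k < o.length, ∃ s, (s = 1 ∨ s = 3 ∨ s = 5 ∨ s = 7) ∧
      t = (24 * k + 2 * (s - 1), 24 * k + 2 * s, 24 * k + 2 * ((s + 1) % 8), false) := by
  unfold T3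
  simp only [List.mem_flatMap, List.mem_range, List.mem_map, List.mem_cons, List.not_mem_nil,
    or_false]
  constructor
  · rintro ⟨k, hk, s, hs, rfl⟩
    exact ⟨k, hk, s, hs, rfl⟩
  · rintro ⟨k, hk, s, hs, rfl⟩
    exact ⟨k, hk, s, hs, rfl⟩

theorem tdist_hg (N m : ℕ) (r : ℕ) (hm : m < 12 * N + 9) (hr : r < 6) :
    hg N (2 * m) < 3 ∧ hst N (hg N (2 * m)) r ≠ 2 * m ∧ hst N (hg N (2 * m)) r ≠ 2 * m + 1 ∧
      24 * N ≤ hst N (hg N (2 * m)) r ∧ hst N (hg N (2 * m)) r < 24 * N + 18 := by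
  unfold hst hg
  split_ifs with h
  · omega
  · have h1 : (2 * m - 24 * N) / 6 < 3 := by omega
    omega

theorem tdist_nd1 (o : List (ℕ × Bool × ℕ)) : (T1 o).Nodup := by
  unfold T1
  rw [List.nodup_flatMap]
  constructor
  · intro m _
    refine List.Nodup.map_on ?_ List.nodup_range
    intro r _ r' _ he
    simp only [Prod.mk.injEq, hst] at he
    omega
  · refine List.nodup_range.pairwise_of_forall_ne ?_
    intro m _ m' _ hne
    rw [Function.onFun, List.disjoint_left]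
    intro x hx hx'
    simp only [List.mem_map, List.mem_range] at hx hx'
    obtain ⟨r, -, rfl⟩ := hx
    obtain ⟨r', -, he⟩ := hx'
    simp only [Prod.mk.injEq] at he
    omega

theorem tdist_nd2 (o : List (ℕ × Bool × ℕ)) : (T2 o).Nodup := by
  unfold T2
  rw [List.nodup_flatMap]
  constructor
  · intro k hk
    rw [List.mem_range] at hk
    rw [List.nodup_flatMap]
    constructor
    · intro q _
      refine List.Nodup.map_on ?_ List.nodup_range
      intro r _ r' _ he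
      simp only [Prod.mk.injEq, hst] at he
      omega
    · have h1 := tdist_ln_nodup o k
      have h2 : (lnE o k).Pairwise (fun q q' => q.1.2 ≠ q'.1.2) := List.pairwise_map.1 h1
      refine h2.imp_of_mem ?_
      intro q q' hq hq' hne
      rw [Function.onFun, List.disjoint_left]
      intro x hx hx'
      simp only [List.mem_map, List.mem_range] at hx hx'
      obtain ⟨r, -, rfl⟩ := hx
      obtain ⟨r', -, he⟩ := hx'
      obtain ⟨e1, -⟩ := tdist_ln o k hk q hq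
      obtain ⟨e2, -⟩ := tdist_ln o k hk q' hq'
      simp only [Prod.mk.injEq] at he
      omega
  · refine List.nodup_range.pairwise_of_forall_ne ?_
    intro k hk k' hk' hne
    rw [List.mem_range] at hk hk'
    rw [Function.onFun, List.disjoint_left]
    intro x hx hx'
    simp only [List.mem_flatMap, List.mem_map, List.mem_range] at hx hx'
    obtain ⟨q, hq, r, -, rfl⟩ := hx
    obtain ⟨q', hq', r', -, he⟩ := hx'
    obtain ⟨e1, e1', -⟩ := tdist_ln o k hk q hq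
    obtain ⟨e2, e2', -⟩ := tdist_ln o k' hk' q' hq'
    simp only [Prod.mk.injEq] at he
    omega

theorem tdist_nd3 (o : List (ℕ × Bool × ℕ)) : (T3 o).Nodup := by
  unfold T3
  rw [List.nodup_flatMap]
  constructor
  · intro k _
    simp only [List.map_cons, List.map_nil, List.nodup_cons, List.mem_cons, List.not_mem_nil,
      Prod.mk.injEq, or_false, List.nodup_nil, and_true, not_false_eq_true]
    omega
  · refine List.nodup_range.pairwise_of_forall_ne ?_
    intro k _ k' _ hne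
    rw [Function.onFun, List.disjoint_left]
    intro x hx hx'
    simp only [List.mem_map, List.mem_cons, List.not_mem_nil, or_false] at hx hx'
    obtain ⟨s, hs, rfl⟩ := hx
    obtain ⟨s', hs', he⟩ := hx'
    simp only [Prod.mk.injEq] at he
    omega

/-- `{2m, 2m+1, h}` determines `m` and `h` -/
theorem tdist_11 {m h m' h' : ℕ} (h1 : h ≠ 2 * m) (h2 : h ≠ 2 * m + 1) (h1' : h' ≠ 2 * m')
    (h2' : h' ≠ 2 * m' + 1)
    (H : ∀ x, (x = 2 * m ∨ x = 2 * m + 1 ∨ x = h) ↔ (x = 2 * m' ∨ x = 2 * m' + 1 ∨ x = h')) :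
    m = m' ∧ h = h' := by
  have a1 := (H (2 * m)).1 (by omega)
  have a2 := (H (2 * m + 1)).1 (by omega)
  have a3 := (H h).1 (by omega)
  omega

theorem tdist_22 {L a b h a' b' h' : ℕ} (ha : a < L) (hb : b < L) (hh : L ≤ h) (ha' : a' < L)
    (hb' : b' < L) (hh' : L ≤ h') (hab : a ≠ b) (hab' : a' ≠ b')
    (H : ∀ x, (x = a ∨ x = b ∨ x = h) ↔ (x = a' ∨ x = b' ∨ x = h')) :
    h = h' ∧ ((a = a' ∧ b = b') ∨ (a = b' ∧ b = a')) := by
  have a1 := (H a).1 (by omega)
  have a2 := (H b).1 (by omega)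
  have a3 := (H h).1 (by omega)
  omega

theorem tdist_33 {k s k' s' : ℕ} (hs : s = 1 ∨ s = 3 ∨ s = 5 ∨ s = 7)
    (hs' : s' = 1 ∨ s' = 3 ∨ s' = 5 ∨ s' = 7)
    (H : ∀ x, (x = 24 * k + 2 * (s - 1) ∨ x = 24 * k + 2 * s ∨ x = 24 * k + 2 * ((s + 1) % 8)) ↔
      (x = 24 * k' + 2 * (s' - 1) ∨ x = 24 * k' + 2 * s' ∨ x = 24 * k' + 2 * ((s' + 1) % 8))) :
    k = k' ∧ s = s' := by
  have a1 := (H (24 * k + 2 * (s - 1))).1 (by omega)
  have a2 := (H (24 * k + 2 * s)).1 (by omega)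
  have a3 := (H (24 * k + 2 * ((s + 1) % 8))).1 (by omega)
  rcases hs with rfl | rfl | rfl | rfl <;> rcases hs' with rfl | rfl | rfl | rfl <;>
    norm_num at a1 a2 a3 ⊢ <;> omega

theorem tdist_ok : St_tdist := by
  intro o
  -- the types are disjoint
  have key2 : ∀ k < o.length, ∀ q ∈ lnE o k,
      24 * q.1.1 + 2 * q.1.2 + 1 < 24 * o.length ∧ 24 * q.2.1 + 2 * q.2.2 + 1 < 24 * o.length ∧
      24 * q.1.1 + 2 * q.1.2 + 1 ≠ 24 * q.2.1 + 2 * q.2.2 + 1 := by
    intro k hk q hq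
    obtain ⟨e1, e2, e3, e4, e5, e6⟩ := tdist_ln o k hk q hq
    refine ⟨by omega, by omega, ?_⟩
    intro he
    have h1 : q.1.1 = q.2.1 := by omega
    have h2 : q.1.2 = q.2.2 := by omega
    rw [← h1, ← h2] at e6
    exact e6 e5
  refine ⟨?_, ?_, ?_⟩
  · unfold TOf
    rw [List.append_assoc, List.nodup_append, List.nodup_append]
    refine ⟨tdist_nd1 o, ⟨tdist_nd2 o, tdist_nd3 o, ?_⟩, ?_⟩
    · intro a ha b hb hab
      subst hab
      obtain ⟨k, hk, q, hq, r, hr, rfl⟩ := (tdist_mem2 o _).1 ha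
      obtain ⟨k', hk', s, hs, he⟩ := (tdist_mem3 o _).1 hb
      simp only [Prod.mk.injEq] at he
      omega
    · intro a ha b hb hab
      subst hab
      obtain ⟨m, hm, r, hr, rfl⟩ := (tdist_mem1 o _).1 ha
      rw [List.mem_append] at hb
      rcases hb with hb | hb
      · obtain ⟨k, hk, q, hq, r, hr, he⟩ := (tdist_mem2 o _).1 hb
        simp only [Prod.mk.injEq] at he
        exact absurd he.2.2.2 (by simp)
      · obtain ⟨k', hk', s, hs, he⟩ := (tdist_mem3 o _).1 hb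
        simp only [Prod.mk.injEq] at he
        exact absurd he.2.2.2 (by simp)
  · intro t ht
    unfold TOf at ht
    rw [List.mem_append, List.mem_append] at ht
    unfold nOf
    rcases ht with (ht | ht) | ht
    · obtain ⟨m, hm, r, hr, rfl⟩ := (tdist_mem1 o _).1 ht
      obtain ⟨h1, h2, h3, h4, h5⟩ := tdist_hg o.length m r hm hr
      dsimp only
      omega
    · obtain ⟨k, hk, q, hq, r, hr, rfl⟩ := (tdist_mem2 o _).1 ht
      obtain ⟨h1, h2, h3⟩ := key2 k hk q hq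
      dsimp only [hst]
      omega
    · obtain ⟨k', hk', s, hs, rfl⟩ := (tdist_mem3 o _).1 ht
      dsimp only
      omega
  · intro t ht t' ht' H
    unfold TOf at ht ht'
    rw [List.mem_append, List.mem_append] at ht ht'
    rcases ht with (ht | ht) | ht <;> rcases ht' with (ht' | ht') | ht'
    · obtain ⟨m, hm, r, hr, rfl⟩ := (tdist_mem1 o _).1 ht
      obtain ⟨m', hm', r', hr', rfl⟩ := (tdist_mem1 o _).1 ht'
      obtain ⟨h1, h2, h3, h4, h5⟩ := tdist_hg o.length m r hm hr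
      obtain ⟨h1', h2', h3', h4', h5'⟩ := tdist_hg o.length m' r' hm' hr'
      obtain ⟨e1, e2⟩ := tdist_11 h2 h3 h2' h3' H
      subst e1
      rw [e2]
    · exfalso
      obtain ⟨m, hm, r, hr, rfl⟩ := (tdist_mem1 o _).1 ht
      obtain ⟨k, hk, q, hq, r', hr', rfl⟩ := (tdist_mem2 o _).1 ht'
      obtain ⟨h1, h2, h3, h4, h5⟩ := tdist_hg o.length m r hm hr
      obtain ⟨g1, g2, g3⟩ := key2 k hk q hq
      have a1 := (H (2 * m)).1 (Or.inl rfl)
      have a2 := (H (24 * q.1.1 + 2 * q.1.2 + 1)).2 (Or.inl rfl)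
      dsimp only [hst] at *
      omega
    · exfalso
      obtain ⟨m, hm, r, hr, rfl⟩ := (tdist_mem1 o _).1 ht
      obtain ⟨k', hk', s, hs, rfl⟩ := (tdist_mem3 o _).1 ht'
      obtain ⟨h1, h2, h3, h4, h5⟩ := tdist_hg o.length m r hm hr
      have a1 := (H (hst o.length (hg o.length (2 * m)) r)).1 (Or.inr (Or.inr rfl))
      dsimp only at a1
      omega
    · exfalso
      obtain ⟨m, hm, r, hr, rfl⟩ := (tdist_mem1 o _).1 ht'
      obtain ⟨k, hk, q, hq, r', hr', rfl⟩ := (tdist_mem2 o _).1 ht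
      obtain ⟨h1, h2, h3, h4, h5⟩ := tdist_hg o.length m r hm hr
      obtain ⟨g1, g2, g3⟩ := key2 k hk q hq
      have a1 := (H (2 * m)).2 (Or.inl rfl)
      have a2 := (H (24 * q.1.1 + 2 * q.1.2 + 1)).1 (Or.inl rfl)
      dsimp only [hst] at *
      omega
    · obtain ⟨k, hk, q, hq, r, hr, rfl⟩ := (tdist_mem2 o _).1 ht
      obtain ⟨k', hk', q', hq', r', hr', rfl⟩ := (tdist_mem2 o _).1 ht'
      obtain ⟨g1, g2, g3⟩ := key2 k hk q hq
      obtain ⟨g1', g2', g3'⟩ := key2 k' hk' q' hq'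
      have hh : 24 * o.length ≤ hst o.length 0 r := by unfold hst; omega
      have hh' : 24 * o.length ≤ hst o.length 0 r' := by unfold hst; omega
      obtain ⟨e1, e2⟩ := tdist_22 g1 g2 hh g1' g2' hh' g3 g3' H
      rcases e2 with ⟨e2, e3⟩ | ⟨e2, e3⟩
      · rw [e1, e2, e3]
      · exfalso
        obtain ⟨i1, i2, i3, i4, i5, i6⟩ := tdist_ln o k hk q hq
        obtain ⟨j1, j2, j3, j4, j5, j6⟩ := tdist_ln o k' hk' q' hq'
        have c1 : q.1.1 = q'.2.1 := by omega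
        have c2 : q.1.2 = q'.2.2 := by omega
        rw [← c1, ← c2] at j6
        exact j6 i5
    · exfalso
      obtain ⟨k, hk, q, hq, r, hr, rfl⟩ := (tdist_mem2 o _).1 ht
      obtain ⟨k', hk', s, hs, rfl⟩ := (tdist_mem3 o _).1 ht'
      have a1 := (H (hst o.length 0 r)).1 (Or.inr (Or.inr rfl))
      dsimp only [hst] at a1
      omega
    · exfalso
      obtain ⟨m, hm, r, hr, rfl⟩ := (tdist_mem1 o _).1 ht'
      obtain ⟨k', hk', s, hs, rfl⟩ := (tdist_mem3 o _).1 ht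
      obtain ⟨h1, h2, h3, h4, h5⟩ := tdist_hg o.length m r hm hr
      have a1 := (H (hst o.length (hg o.length (2 * m)) r)).2 (Or.inr (Or.inr rfl))
      dsimp only at a1
      omega
    · exfalso
      obtain ⟨k, hk, q, hq, r, hr, rfl⟩ := (tdist_mem2 o _).1 ht'
      obtain ⟨k', hk', s, hs, rfl⟩ := (tdist_mem3 o _).1 ht
      have a1 := (H (hst o.length 0 r)).2 (Or.inr (Or.inr rfl))
      dsimp only [hst] at a1
      omega
    · obtain ⟨k, hk, s, hs, rfl⟩ := (tdist_mem3 o _).1 ht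
      obtain ⟨k', hk', s', hs', rfl⟩ := (tdist_mem3 o _).1 ht'
      obtain ⟨e1, e2⟩ := tdist_33 hs hs' H
      subst e1
      subst e2
      rfl

end Pool.Agent.H670R5
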