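import Pool.Agent.H670R5.St2

namespace Pool.Agent.H670R5

open Pool.Agent.NPC Pool.Agent.H679R2

theorem tooth1_slab (a x ρ : ℝ) (A B C z : Pl) (hA : |A.1 - x| ≤ ρ) (hB : |B.1 - x| ≤ ρ)
    (hC : |C.1 - x| ≤ ρ) (hz : z ∈ tri A B C) : |z.1 - x| ≤ ρ := by
  have hconv : Convex ℝ {z : Pl | |z.1 - x| ≤ ρ} := by
    intro p hp q hq s t hs ht hst
    simp only [Set.mem_ofPred_eq] at hp hq ⊢
    rw [abs_le] at hp hq ⊢
    have e : (s • p + t • q).1 - x = s * (p.1 - x) + t * (q.1 - x) := by
      simp only [Prod.fst_add, Prod.smul_fst, smul_eq_mul]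
      linear_combination x * hst
    rw [e]
    have e2 : t = 1 - s := by linarith
    constructor
    · nlinarith [mul_nonneg hs (by linarith [hp.1] : 0 ≤ (p.1 - x) + ρ),
        mul_nonneg ht (by linarith [hq.1] : 0 ≤ (q.1 - x) + ρ)]
    · nlinarith [mul_nonneg hs (by linarith [hp.2] : 0 ≤ ρ - (p.1 - x)),
        mul_nonneg ht (by linarith [hq.2] : 0 ≤ ρ - (q.1 - x))]
  have hsub : ({A, B, C} : Set Pl) ⊆ {z : Pl | |z.1 - x| ≤ ρ} := by
    rintro w (rfl | rfl | rfl)
    · exact hA
    · exact hB
    · exact hC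
  exact convexHull_min hsub hconv hz

theorem tooth1_sep (a b : ℝ) (A B C D P : Pl)
    (hA : a * (A.1 - P.1) + b * (A.2 - P.2) < 0)
    (hB : a * (B.1 - P.1) + b * (B.2 - P.2) < 0)
    (hC : 0 ≤ a * (C.1 - P.1) + b * (C.2 - P.2))
    (hD : 0 ≤ a * (D.1 - P.1) + b * (D.2 - P.2)) :
    tri A P B ∩ tri P C D ⊆ {P} := by
  rintro z ⟨hz1, hz2⟩
  have key : ∀ (p q : Pl) (s t : ℝ), s + t = 1 →
      a * ((s • p + t • q).1 - P.1) + b * ((s • p + t • q).2 - P.2) =
      s * (a * (p.1 - P.1) + b * (p.2 - P.2)) + t * (a * (q.1 - P.1) + b * (q.2 - P.2)) := by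
    intro p q s t hst
    simp only [Prod.fst_add, Prod.smul_fst, smul_eq_mul, Prod.snd_add, Prod.smul_snd]
    linear_combination (a * P.1 + b * P.2) * hst
  have hconv1 : Convex ℝ {z : Pl | a * (z.1 - P.1) + b * (z.2 - P.2) < 0 ∨ z = P} := by
    intro p hp q hq s t hs ht hst
    simp only [Set.mem_ofPred_eq] at hp hq ⊢
    rcases eq_or_lt_of_le hs with hs0 | hs0
    · have ht1 : t = 1 := by linarith
      rw [← hs0, ht1, zero_smul, one_smul, zero_add]
      exact hq
    rcases eq_or_lt_of_le ht with ht0 | ht0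
    · have hs1 : s = 1 := by linarith
      rw [← ht0, hs1, zero_smul, one_smul, add_zero]
      exact hp
    rw [key p q s t hst]
    rcases hp with hp | rfl <;> rcases hq with hq | rfl
    · left
      nlinarith [mul_pos hs0 (neg_pos.2 hp), mul_pos ht0 (neg_pos.2 hq)]
    · left
      nlinarith [mul_pos hs0 (neg_pos.2 hp)]
    · left
      nlinarith [mul_pos ht0 (neg_pos.2 hq)]
    · right
      rw [← add_smul, hst, one_smul]
  have hconv2 : Convex ℝ {z : Pl | 0 ≤ a * (z.1 - P.1) + b * (z.2 - P.2)} := by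
    intro p hp q hq s t hs ht hst
    simp only [Set.mem_ofPred_eq] at hp hq ⊢
    rw [key p q s t hst]
    exact add_nonneg (mul_nonneg hs hp) (mul_nonneg ht hq)
  have h1 : z ∈ {z : Pl | a * (z.1 - P.1) + b * (z.2 - P.2) < 0 ∨ z = P} := by
    apply convexHull_min _ hconv1 hz1
    rintro w (rfl | rfl | rfl)
    · exact Or.inl hA
    · exact Or.inr rfl
    · exact Or.inl hB
  have h2 : z ∈ {z : Pl | 0 ≤ a * (z.1 - P.1) + b * (z.2 - P.2)} := by
    apply convexHull_min _ hconv2 hz2
    rintro w (rfl | rfl | rfl)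
    · simp
    · exact hC
    · exact hD
  simp only [Set.mem_ofPred_eq] at h1 h2
  rcases h1 with h1 | h1
  · linarith
  · exact h1

/-- the computation -/
theorem tooth1_core (x ρ pv nx sL tL sR tR c h : ℝ) (hρ : 0 < ρ) (hsL : |sL| = 1) (hsR : |sR| = 1)
    (h1 : sL * (tL - (x - pv)) < 0) (h2 : sR * (tR + (nx - x)) < 0)
    (hA : 0 < c * (x - pv) + h) (hTL : sL * (c * tL + h) < 0) (hE : 0 ≤ h - c * (nx - x))
    (hTR : 0 ≤ sR * (c * tR + h)) (A E TL TR P : Pl) (eA : A = (x - ρ, chd pv x (x - ρ)))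
    (eE : E = (x + ρ, chd x nx (x + ρ))) (eP : P = (x, -x ^ 2 + 1 / 16))
    (eTL : TL = (x + sL * ρ, (-x ^ 2 + 1 / 16) + sL * ρ * (tL - 2 * x)))
    (eTR : TR = (x + sR * ρ, (-x ^ 2 + 1 / 16) + sR * ρ * (tR - 2 * x))) :
    ori A P TL < 0 ∧ ori P E TR < 0 ∧ (∀ z ∈ tri A P TL, |z.1 - x| ≤ ρ) ∧
    (∀ z ∈ tri P E TR, |z.1 - x| ≤ ρ) ∧ tri A P TL ∩ tri P E TR ⊆ {P} := by
  have hρ2 : 0 < ρ ^ 2 := by positivity
  refine ⟨?_, ?_, ?_, ?_, ?_⟩
  · have e : ori A P TL = ρ ^ 2 * (sL * (tL - (x - pv))) := by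
      rw [eA, eP, eTL]
      simp only [ori, chd]
      ring
    rw [e]
    exact mul_neg_of_pos_of_neg hρ2 h1
  · have e : ori P E TR = ρ ^ 2 * (sR * (tR + (nx - x))) := by
      rw [eE, eP, eTR]
      simp only [ori, chd]
      ring
    rw [e]
    exact mul_neg_of_pos_of_neg hρ2 h2
  · intro z hz
    refine tooth1_slab 0 x ρ A P TL z ?_ ?_ ?_ hz
    · rw [eA]
      simp only [sub_sub_cancel_left, abs_neg, abs_of_pos hρ, le_refl]
    · rw [eP]
      simp [hρ.le]
    · rw [eTL]
      simp only [add_sub_cancel_left, abs_mul, hsL, one_mul, abs_of_pos hρ, le_refl]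
  · intro z hz
    refine tooth1_slab 0 x ρ P E TR z ?_ ?_ ?_ hz
    · rw [eP]
      simp [hρ.le]
    · rw [eE]
      simp only [add_sub_cancel_left, abs_of_pos hρ, le_refl]
    · rw [eTR]
      simp only [add_sub_cancel_left, abs_mul, hsR, one_mul, abs_of_pos hρ, le_refl]
  · apply tooth1_sep (2 * x * c + h) c
    · have e : (2 * x * c + h) * (A.1 - P.1) + c * (A.2 - P.2) = -(ρ * (c * (x - pv) + h)) := by
        rw [eA, eP]
        simp only [chd]
        ring
      rw [e]
      exact neg_neg_of_pos (mul_pos hρ hA)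
    · have e : (2 * x * c + h) * (TL.1 - P.1) + c * (TL.2 - P.2) =
          ρ * (sL * (c * tL + h)) := by
        rw [eTL, eP]
        simp only
        ring
      rw [e]
      exact mul_neg_of_pos_of_neg hρ hTL
    · have e : (2 * x * c + h) * (E.1 - P.1) + c * (E.2 - P.2) = ρ * (h - c * (nx - x)) := by
        rw [eE, eP]
        simp only [chd]
        ring
      rw [e]
      exact mul_nonneg hρ.le hE
    · have e : (2 * x * c + h) * (TR.1 - P.1) + c * (TR.2 - P.2) =
          ρ * (sR * (c * tR + h)) := by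
        rw [eTR, eP]
        simp only
        ring
      rw [e]
      exact mul_nonneg hρ.le hTR

theorem tooth1_int (n : ℕ) (T : List (ℕ × ℕ × ℕ × Bool)) (pos J K : ℕ → ℕ) (j : ℕ)
    (hj : j ≤ n) : (j : ℝ) ∈ ND n T pos J K := by
  unfold ND
  rw [Finset.mem_union]
  left
  rw [Finset.mem_image]
  refine ⟨j + 1, Finset.mem_range.2 (by omega), ?_⟩
  push_cast
  ring

theorem tooth1_ok (hX : St_X) (h1 : St_nd1) (h2 : St_nd2) : St_tooth1 := by
  intro n T pos J K hArr ρ hρ u hnu hu
  obtain ⟨hX1, hX1a, hX1b⟩ := (hX n T pos J K hArr).1 u hu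
  obtain ⟨hpvm, hnxm, hpv, hnx, hpv1, hnx1, hpvy, hnxy, -, -⟩ :=
    h2 n T pos J K hArr (X n pos J K u) hX1 hX1a hX1b
  set x := X n pos J K u with hxdef
  set pv := pvN n T pos J K x with hpvdef
  set nx := nxN n T pos J K x with hnxdef
  have hQ : Q n pos J K u = (x, -x ^ 2 + 1 / 16) := by
    unfold Q
    rw [if_neg (by omega)]
  have eTL : tipL n pos J K ρ u = (x + sdL n J K u * ρ,
      (-x ^ 2 + 1 / 16) + sdL n J K u * ρ * (slL n J K u - 2 * x)) := by
    unfold tipL
    rw [hQ]
  have eTR : tipR n pos J K ρ u = (x + sdR n J K u * ρ,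
      (-x ^ 2 + 1 / 16) + sdR n J K u * ρ * (slR n J K u - 2 * x)) := by
    unfold tipR
    rw [hQ]
  by_cases hu2 : u < 2 * n
  · -- opponents
    have hsdL : sdL n J K u = -1 := by unfold sdL; rw [if_pos hu2]
    have hslL : slL n J K u = 5 / 8 := by unfold slL loS; rw [if_pos hu2, if_pos hu2]
    have hsdR : sdR n J K u = 1 := by unfold sdR; rw [if_pos hu2]
    have hslR : slR n J K u = -(5 / 8) := by unfold slR upS; rw [if_pos hu2, if_pos hu2]
    have hvn : u - n < n := by omega
    have hev := hArr.even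
    have hpn : partner (u - n) < n := by
      unfold partner
      split_ifs <;> omega
    have hpos : pos (u - n) < n := hArr.lt _ hvn
    have hpart := hArr.part _ hvn
    have hXu : x = if pos (u - n) % 2 = 0 then (pos (u - n) : ℝ) + 1 / 4
        else (pos (u - n) : ℝ) - 1 / 4 := by
      rw [hxdef]
      unfold X
      rw [if_neg (by omega), if_pos hu2]
    have hu' : partner (u - n) + n < sz n T := by unfold sz; omega
    have hX' := ((hX n T pos J K hArr).1 (partner (u - n) + n) hu').1
    have hXu' : X n pos J K (partner (u - n) + n) = if partner (pos (u - n)) % 2 = 0 then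
        ((partner (pos (u - n)) : ℕ) : ℝ) + 1 / 4
        else ((partner (pos (u - n)) : ℕ) : ℝ) - 1 / 4 := by
      unfold X
      rw [if_neg (by omega), if_pos (by omega), Nat.add_sub_cancel, hpart]
    have hint := tooth1_int n T pos J K (pos (u - n)) hpos.le
    have hgap : x - pv ≤ 1 / 2 ∧ nx - x ≤ 1 / 2 := by
      by_cases hpar : pos (u - n) % 2 = 0
      · have hp : partner (pos (u - n)) = pos (u - n) + 1 := by
          unfold partner; rw [if_pos hpar]
        rw [if_pos hpar] at hXu
        rw [hp, if_neg (by omega)] at hXu'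
        rw [hXu'] at hX'
        push_cast at hX'
        constructor
        · rcases hpvy _ hint with h | h
          · linarith
          · linarith
        · rcases hnxy _ hX' with h | h
          · linarith
          · linarith
      · have hp : partner (pos (u - n)) = pos (u - n) - 1 := by
          unfold partner; rw [if_neg hpar]
        have hp1 : 1 ≤ pos (u - n) := by omega
        rw [if_neg hpar] at hXu
        rw [hp, if_pos (by omega)] at hXu'
        rw [hXu'] at hX'
        rw [Nat.cast_sub hp1, Nat.cast_one] at hX'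
        constructor
        · rcases hpvy _ hX' with h | h
          · linarith
          · linarith
        · rcases hnxy _ hint with h | h
          · linarith
          · linarith
    have := tooth1_core x ρ pv nx (-1) (5 / 8) 1 (-(5 / 8)) 0 1 hρ (by norm_num) (by norm_num)
      (by linarith [hgap.1]) (by linarith [hgap.2]) (by norm_num) (by norm_num) (by norm_num)
      (by norm_num) (ptA n T pos J K ρ x) (ptE n T pos J K ρ x) (tipL n pos J K ρ u)
      (tipR n pos J K ρ u) (Q n pos J K u) rfl rfl hQ (by rw [eTL, hsdL, hslL])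
      (by rw [eTR, hsdR, hslR])
    exact this
  · -- triples
    have hi : u - 2 * n < T.length := by unfold sz at hu; omega
    obtain ⟨hJn, hKn⟩ := hArr.lt' _ hi
    obtain ⟨hJK, hJK1⟩ := hArr.ne _ hi
    have hXu : x = (J (u - 2 * n) : ℝ) - 1 / (16 * hh J K (u - 2 * n)) := by
      rw [hxdef]
      unfold X hh
      rw [if_neg (by omega), if_neg hu2]
    have hint := tooth1_int n T pos J K (J (u - 2 * n)) hJn.le
    by_cases hle : J (u - 2 * n) ≤ K (u - 2 * n)
    · have hsg : sg J K (u - 2 * n) = 1 := by unfold sg; rw [if_pos hle]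
      have hsdL : sdL n J K u = 1 := by unfold sdL; rw [if_neg hu2, hsg]
      have hslL : slL n J K u = -(hh J K (u - 2 * n)) - 5 / 8 := by
        unfold slL loS; rw [if_neg hu2, if_pos hle, if_neg hu2, hsg, one_mul]
      have hsdR : sdR n J K u = 1 := by unfold sdR; rw [if_neg hu2, hsg]
      have hslR : slR n J K u = -(hh J K (u - 2 * n)) + 5 / 8 := by
        unfold slR upS; rw [if_neg hu2, if_pos hle, if_neg hu2, hsg, one_mul]
      have hh1 : 3 / 2 ≤ hh J K (u - 2 * n) := by
        have : J (u - 2 * n) + 1 ≤ K (u - 2 * n) := by omega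
        have h' : (J (u - 2 * n) : ℝ) + 1 ≤ K (u - 2 * n) := by exact_mod_cast this
        unfold hh
        linarith
      set h := hh J K (u - 2 * n) with hhd
      have hd : 1 / (16 * h) ≤ 1 / 24 := by
        apply one_div_le_one_div_of_le <;> linarith
      have hd0 : 0 < 1 / (16 * h) := by positivity
      have hgap : nx - x ≤ 1 / 24 := by
        rcases hnxy _ hint with h' | h'
        · linarith
        · linarith
      have := tooth1_core x ρ pv nx 1 (-h - 5 / 8) 1 (-h + 5 / 8) 1 h hρ (by norm_num)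
        (by norm_num) (by linarith) (by linarith) (by linarith) (by linarith) (by linarith)
        (by linarith) (ptA n T pos J K ρ x) (ptE n T pos J K ρ x) (tipL n pos J K ρ u)
        (tipR n pos J K ρ u) (Q n pos J K u) rfl rfl hQ (by rw [eTL, hsdL, hslL])
        (by rw [eTR, hsdR, hslR])
      exact this
    · have hsg : sg J K (u - 2 * n) = -1 := by unfold sg; rw [if_neg hle]
      have hsdL : sdL n J K u = -1 := by unfold sdL; rw [if_neg hu2, hsg]
      have hslL : slL n J K u = -(hh J K (u - 2 * n)) + (-1) * (5 / 8) := by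
        unfold slL upS; rw [if_neg hu2, if_neg hle, if_neg hu2, hsg]
      have hsdR : sdR n J K u = -1 := by unfold sdR; rw [if_neg hu2, hsg]
      have hslR : slR n J K u = -(hh J K (u - 2 * n)) - (-1) * (5 / 8) := by
        unfold slR loS; rw [if_neg hu2, if_neg hle, if_neg hu2, hsg]
      have hh1 : hh J K (u - 2 * n) ≤ -(3 / 2) := by
        have : K (u - 2 * n) + 2 ≤ J (u - 2 * n) := by omega
        have h' : (K (u - 2 * n) : ℝ) + 2 ≤ J (u - 2 * n) := by exact_mod_cast this
        unfold hh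
        linarith
      set h := hh J K (u - 2 * n) with hhd
      have hd : -(1 / (16 * h)) ≤ 1 / 24 := by
        have : -(1 / (16 * h)) = 1 / (16 * (-h)) := by
          rw [mul_neg, one_div, one_div, inv_neg]
        rw [this]
        apply one_div_le_one_div_of_le <;> linarith
      have hd0 : 1 / (16 * h) < 0 := one_div_neg.2 (by linarith)
      have hgap : x - pv ≤ 1 / 24 := by
        rcases hpvy _ hint with h' | h'
        · linarith
        · linarith
      have := tooth1_core x ρ pv nx (-1) (-h + (-1) * (5 / 8)) (-1) (-h - (-1) * (5 / 8)) (-1) (-h)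
        hρ (by norm_num)
        (by norm_num) (by linarith) (by linarith) (by linarith) (by linarith) (by linarith)
        (by linarith) (ptA n T pos J K ρ x) (ptE n T pos J K ρ x) (tipL n pos J K ρ u)
        (tipR n pos J K ρ u) (Q n pos J K u) rfl rfl hQ (by rw [eTL, hsdL, hslL])
        (by rw [eTR, hsdR, hslR])
      exact this

end Pool.Agent.H670R5
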