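import Pool.Agent.H670R5.St2

/-! task TO3 -/

namespace Pool.Agent.H670R5

open Pool.Agent.NPC Pool.Agent.H679R2

theorem TO3_ev {P : ℝ → Prop} (h : ∀ᶠ ρ in nhds (0 : ℝ), P ρ) :
    ∃ ρ₀ > 0, ∀ ρ, 0 < ρ → ρ < ρ₀ → P ρ := by
  obtain ⟨ε, hε, hb⟩ := Metric.eventually_nhds_iff.1 h
  exact ⟨ε, hε, fun ρ h0 h1 => hb (by rw [Real.dist_eq, sub_zero, abs_of_pos h0]; exact h1)⟩

theorem TO3_hgt (p q w : Pl) (hp : p.2 < 1) (hq : q.2 < 1) (hw : w.2 < 1) :
    ∀ z ∈ tri p q w, z.2 < 1 := by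
  have hc : Convex ℝ {z : Pl | z.2 < 1} :=
    convex_halfSpace_lt (f := fun z : Pl => z.2) (LinearMap.snd ℝ ℝ ℝ).isLinear 1
  have hs : tri p q w ⊆ {z : Pl | z.2 < 1} := by
    apply convexHull_min _ hc
    rintro z (rfl | rfl | rfl)
    · exact hp
    · exact hq
    · exact hw
  exact fun z hz => hs hz

theorem TO3_lim {f : ℝ → ℝ} (hf : Continuous f) {c : ℝ} (h : f 0 < c) :
    ∀ᶠ ρ in nhds (0 : ℝ), f ρ < c :=
  hf.continuousAt.eventually_lt continuousAt_const h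

theorem tooth3_ok (hX : St_X) (hT : St_tooth1) : St_tooth3 := by
  intro n T pos J K hA
  obtain ⟨hX1, hX2, -, -, -, -, -⟩ := hX n T pos J K hA
  have hQ : ∀ u, n ≤ u → (Q n pos J K u).2 < 1 := by
    intro u hu
    have : ¬ u < n := not_lt.mpr hu
    simp only [Q, this, if_false]
    nlinarith [sq_nonneg (X n pos J K u)]
  have key : ∀ u ∈ Finset.Ico n (sz n T), ∀ᶠ ρ in nhds (0 : ℝ),
      ((ptA n T pos J K ρ (X n pos J K u)).2 < 1 ∧ (ptE n T pos J K ρ (X n pos J K u)).2 < 1 ∧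
      (tipL n pos J K ρ u).2 < 1 ∧ (tipR n pos J K ρ u).2 < 1 ∧ ρ < X n pos J K u + 1 ∧
      ρ < n - X n pos J K u) ∧ ∀ v ∈ Finset.Ico n (sz n T), u ≠ v →
      2 * ρ < |X n pos J K u - X n pos J K v| := by
    intro u hu
    obtain ⟨hu1, hu2⟩ := Finset.mem_Ico.1 hu
    have hq := hQ u hu1
    have hx := hX1 u hu2
    refine ((?_ : ∀ᶠ ρ in nhds (0 : ℝ), _).and ((?_ : ∀ᶠ ρ in nhds (0 : ℝ), _).and
      ((?_ : ∀ᶠ ρ in nhds (0 : ℝ), _).and ((?_ : ∀ᶠ ρ in nhds (0 : ℝ), _).and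
      ((?_ : ∀ᶠ ρ in nhds (0 : ℝ), _).and (?_ : ∀ᶠ ρ in nhds (0 : ℝ), _)))))).and ?_
    · apply TO3_lim
      · unfold ptA chd; fun_prop
      · unfold ptA chd
        simp only [sub_zero]
        nlinarith [sq_nonneg (X n pos J K u)]
    · apply TO3_lim
      · unfold ptE chd; fun_prop
      · unfold ptE chd
        simp only [add_zero]
        nlinarith [sq_nonneg (X n pos J K u)]
    · apply TO3_lim
      · unfold tipL; fun_prop
      · unfold tipL
        simpa using hq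
    · apply TO3_lim
      · unfold tipR; fun_prop
      · unfold tipR
        simpa using hq
    · exact TO3_lim continuous_id (by simp only [id]; linarith [hx.2.1])
    · exact TO3_lim continuous_id (by simp only [id]; linarith [hx.2.2])
    · rw [Filter.eventually_all_finset]
      intro v hv
      obtain ⟨hv1, hv2⟩ := Finset.mem_Ico.1 hv
      by_cases huv : u = v
      · exact Filter.Eventually.of_forall (fun ρ h => absurd huv h)
      · have hne : X n pos J K u - X n pos J K v ≠ 0 := fun h =>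
          huv (hX2 u hu1 hu2 v hv1 hv2 (sub_eq_zero.1 h))
        have : ∀ᶠ ρ in nhds (0 : ℝ), 2 * ρ < |X n pos J K u - X n pos J K v| :=
          TO3_lim (by fun_prop) (by simpa using hne)
        exact this.mono (fun ρ h _ => h)
  rw [← Filter.eventually_all_finset] at key
  obtain ⟨ρ₀, hρ₀, hk⟩ := TO3_ev key
  refine ⟨ρ₀, hρ₀, fun ρ h0 h1 u hu1 hu2 => ?_⟩
  obtain ⟨⟨a1, a2, a3, a4, a5, a6⟩, a7⟩ := hk ρ h0 h1 u (Finset.mem_Ico.2 ⟨hu1, hu2⟩)
  have habs : ∀ u, n ≤ u → u < sz n T → ∀ z ∈ earL n T pos J K ρ u ∪ earR n T pos J K ρ u,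
      |z.1 - X n pos J K u| ≤ ρ := by
    intro u hu1 hu2 z hz
    obtain ⟨-, -, b1, b2, -⟩ := hT n T pos J K hA ρ h0 u hu1 hu2
    rcases hz with hz | hz
    · exact b1 z hz
    · exact b2 z hz
  refine ⟨fun z hz => ?_, fun v hv1 hv2 huv => ?_⟩
  · have h2 := abs_le.1 (habs u hu1 hu2 z hz)
    refine ⟨by linarith [h2.1], by linarith [h2.2], ?_⟩
    rcases hz with hz | hz
    · exact TO3_hgt _ _ _ a1 (hQ u hu1) a3 z hz
    · exact TO3_hgt _ _ _ (hQ u hu1) a2 a4 z hz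
  · rw [Set.disjoint_left]
    intro z hz hz'
    have h2 := abs_le.1 (habs u hu1 hu2 z hz)
    have h3 := abs_le.1 (habs v hv1 hv2 z hz')
    have h4 := a7 v (Finset.mem_Ico.2 ⟨hv1, hv2⟩) huv
    have h5 : |X n pos J K u - X n pos J K v| ≤ 2 * ρ :=
      abs_le.2 ⟨by linarith [h2.1, h2.2, h3.1, h3.2], by linarith [h2.1, h2.2, h3.1, h3.2]⟩
    linarith

end Pool.Agent.H670R5
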