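import Pool.Agent.H670R5.St2

set_option autoImplicit false

namespace Pool.Agent.H670R5

open Pool.Agent.NPC Pool.Agent.H679R2

theorem TO4_half {P Q' R : Pl} {α β γ : ℝ} (hP : 0 ≤ α * P.1 + β * P.2 + γ)
    (hQ : 0 ≤ α * Q'.1 + β * Q'.2 + γ) (hR : 0 ≤ α * R.1 + β * R.2 + γ) :
    ∀ z ∈ tri P Q' R, 0 ≤ α * z.1 + β * z.2 + γ := by
  have hc : Convex ℝ {z : Pl | 0 ≤ α * z.1 + β * z.2 + γ} := by
    intro x hx y hy a b ha hb hab
    have hx' : 0 ≤ α * x.1 + β * x.2 + γ := hx
    have hy' : 0 ≤ α * y.1 + β * y.2 + γ := hy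
    show 0 ≤ α * (a • x + b • y).1 + β * (a • x + b • y).2 + γ
    have e : α * (a • x + b • y).1 + β * (a • x + b • y).2 + γ =
        a * (α * x.1 + β * x.2 + γ) + b * (α * y.1 + β * y.2 + γ) := by
      simp only [Prod.fst_add, Prod.snd_add, Prod.smul_fst, Prod.smul_snd, smul_eq_mul]
      linear_combination (-γ) * hab
    rw [e]
    positivity
  intro z hz
  refine convexHull_min ?_ hc hz
  intro w hw
  simp only [Set.mem_insert_iff, Set.mem_singleton_iff] at hw
  rcases hw with rfl | rfl | rfl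
  · exact hP
  · exact hQ
  · exact hR

theorem TO4_ge {P Q' R : Pl} {x q s : ℝ} (hP : (P.1 - x) * (s - 2 * x) ≤ P.2 - q)
    (hQ : (Q'.1 - x) * (s - 2 * x) ≤ Q'.2 - q) (hR : (R.1 - x) * (s - 2 * x) ≤ R.2 - q) :
    ∀ z ∈ tri P Q' R, (z.1 - x) * (s - 2 * x) ≤ z.2 - q := by
  intro z hz
  have := TO4_half (P := P) (Q' := Q') (R := R) (α := -(s - 2 * x)) (β := 1)
    (γ := x * (s - 2 * x) - q) (by linarith) (by linarith) (by linarith) z hz
  linarith

theorem TO4_le {P Q' R : Pl} {x q s : ℝ} (hP : P.2 - q ≤ (P.1 - x) * (s - 2 * x))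
    (hQ : Q'.2 - q ≤ (Q'.1 - x) * (s - 2 * x)) (hR : R.2 - q ≤ (R.1 - x) * (s - 2 * x)) :
    ∀ z ∈ tri P Q' R, z.2 - q ≤ (z.1 - x) * (s - 2 * x) := by
  intro z hz
  have := TO4_half (P := P) (Q' := Q') (R := R) (α := (s - 2 * x)) (β := -1)
    (γ := q - x * (s - 2 * x)) (by linarith) (by linarith) (by linarith) z hz
  linarith

theorem TO4_int (n : ℕ) (T : List (ℕ × ℕ × ℕ × Bool)) (pos J K : ℕ → ℕ) (m : ℕ) (hm : m < n) :
    (m : ℝ) ∈ ND n T pos J K := by
  unfold ND
  apply Finset.mem_union_left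
  rw [Finset.mem_image]
  refine ⟨m + 1, Finset.mem_range.2 (by omega), ?_⟩
  push_cast
  ring

theorem TO4_partner_lt {n v : ℕ} (hn : n % 2 = 0) (hv : v < n) : partner v < n := by
  unfold partner
  split_ifs <;> omega

/-- gaps at an opponent -/
theorem TO4_gapO (hX : St_X) (h2 : St_nd2) (n : ℕ) (T : List (ℕ × ℕ × ℕ × Bool)) (pos J K : ℕ → ℕ)
    (hA : Arr n T pos J K) (u : ℕ) (h1u : n ≤ u) (h2u : u < 2 * n) :
    X n pos J K u - pvN n T pos J K (X n pos J K u) ≤ 1 / 2 ∧
    nxN n T pos J K (X n pos J K u) - X n pos J K u ≤ 1 / 2 := by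
  have hsz : 2 * n ≤ sz n T := by unfold sz; omega
  obtain ⟨hx1, hx2, hx3⟩ := (hX n T pos J K hA).1 u (by omega)
  obtain ⟨_, _, _, _, _, _, hpv, hnx, _, _⟩ := h2 n T pos J K hA _ hx1 hx2 hx3
  have hvlt : u - n < n := by omega
  have hplt := hA.lt _ hvlt
  have hp1 := TO4_int n T pos J K _ hplt
  have hpart := hA.part _ hvlt
  have hv' := TO4_partner_lt hA.even hvlt
  have hX' := ((hX n T pos J K hA).1 (n + partner (u - n)) (by omega)).1
  have e1 : X n pos J K (n + partner (u - n)) =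
      (if pos (partner (u - n)) % 2 = 0 then (pos (partner (u - n)) : ℝ) + 1 / 4
        else (pos (partner (u - n)) : ℝ) - 1 / 4) := by
    unfold X
    rw [if_neg (by omega), if_pos (by omega), show n + partner (u - n) - n = partner (u - n) by omega]
  have e2 : X n pos J K u = (if pos (u - n) % 2 = 0 then (pos (u - n) : ℝ) + 1 / 4
        else (pos (u - n) : ℝ) - 1 / 4) := by
    unfold X
    rw [if_neg (by omega), if_pos (by omega)]
  rw [e1, hpart] at hX'
  by_cases hev : pos (u - n) % 2 = 0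
  · rw [if_pos hev] at e2
    have e3 : partner (pos (u - n)) = pos (u - n) + 1 := by unfold partner; rw [if_pos hev]
    rw [e3, if_neg (by omega)] at hX'
    push_cast at hX'
    rw [e2] at hpv hnx ⊢
    constructor
    · rcases hpv _ hp1 with h | h <;> linarith
    · rcases hnx _ hX' with h | h <;> linarith
  · rw [if_neg hev] at e2
    have e3 : partner (pos (u - n)) = pos (u - n) - 1 := by unfold partner; rw [if_neg hev]
    have e4 : ((pos (u - n) - 1 : ℕ) : ℝ) = (pos (u - n) : ℝ) - 1 := by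
      rw [Nat.cast_sub (by omega)]; simp
    rw [e3, if_pos (by omega), e4] at hX'
    rw [e2] at hpv hnx ⊢
    constructor
    · rcases hpv _ hX' with h | h <;> linarith
    · rcases hnx _ hp1 with h | h <;> linarith

/-- gaps at a triple vertex -/
theorem TO4_gapT (hX : St_X) (h2 : St_nd2) (n : ℕ) (T : List (ℕ × ℕ × ℕ × Bool)) (pos J K : ℕ → ℕ)
    (hA : Arr n T pos J K) (u : ℕ) (h1u : 2 * n ≤ u) (h2u : u < sz n T) :
    (J (u - 2 * n) ≤ K (u - 2 * n) → 3 / 2 ≤ hh J K (u - 2 * n) ∧
      nxN n T pos J K (X n pos J K u) - X n pos J K u ≤ 1 / 24) ∧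
    (¬ J (u - 2 * n) ≤ K (u - 2 * n) → hh J K (u - 2 * n) ≤ -(3 / 2) ∧
      X n pos J K u - pvN n T pos J K (X n pos J K u) ≤ 1 / 24) := by
  obtain ⟨hx1, hx2, hx3⟩ := (hX n T pos J K hA).1 u h2u
  obtain ⟨_, _, _, _, _, _, hpv, hnx, _, _⟩ := h2 n T pos J K hA _ hx1 hx2 hx3
  have hiT : u - 2 * n < T.length := by unfold sz at h2u; omega
  have hne := hA.ne _ hiT
  have hlt := hA.lt' _ hiT
  have hJ := TO4_int n T pos J K _ hlt.1
  set i := u - 2 * n with hi
  have e1 : X n pos J K u = (J i : ℝ) - 1 / (16 * hh J K i) := by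
    unfold X hh
    rw [if_neg (by omega), if_neg (by omega)]
  constructor
  · intro hJK
    have hlt' : J i + 1 ≤ K i := by
      have := hne.1
      omega
    have hc : (J i : ℝ) + 1 ≤ K i := by exact_mod_cast hlt'
    have hh1 : 3 / 2 ≤ hh J K i := by unfold hh; linarith
    refine ⟨hh1, ?_⟩
    have hinv : 1 / (16 * hh J K i) ≤ 1 / 24 :=
      one_div_le_one_div_of_le (by norm_num) (by linarith)
    have hinv0 : 0 < 1 / (16 * hh J K i) := by positivity
    rcases hnx _ hJ with h | h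
    · rw [e1] at h; linarith
    · rw [e1] at h ⊢; linarith
  · intro hJK
    have hlt' : K i + 2 ≤ J i := by
      have := hne.2
      omega
    have hc : (K i : ℝ) + 2 ≤ J i := by exact_mod_cast hlt'
    have hh1 : hh J K i ≤ -(3 / 2) := by unfold hh; linarith
    refine ⟨hh1, ?_⟩
    have hinv : 1 / (16 * (-hh J K i)) ≤ 1 / 24 :=
      one_div_le_one_div_of_le (by norm_num) (by linarith)
    have hinv0 : 0 < 1 / (16 * (-hh J K i)) := by
      have : 0 < -hh J K i := by linarith
      positivity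
    have e5 : 1 / (16 * (-hh J K i)) = -(1 / (16 * hh J K i)) := by
      rw [mul_neg, one_div_neg_eq_neg_one_div]
    rw [e5] at hinv hinv0
    rcases hpv _ hJ with h | h
    · rw [e1] at h ⊢; linarith
    · rw [e1] at h; linarith

theorem tooth4_ok (hX : St_X) (_h1 : St_nd1) (h2 : St_nd2) : St_tooth4 := by
  intro n T pos J K hA ρ hρ u hnu husz z hz hW
  obtain ⟨hx1, hx2, hx3⟩ := (hX n T pos J K hA).1 u husz
  obtain ⟨_, _, hpvlt, hnxlt, hpv1, hnx1, _, _, _, _⟩ := h2 n T pos J K hA _ hx1 hx2 hx3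
  have hQ1 : (Q n pos J K u).1 = X n pos J K u := rfl
  have hQ2 : (Q n pos J K u).2 = -(X n pos J K u) ^ 2 + 1 / 16 := by
    unfold Q
    simp only
    rw [if_neg (by omega)]
  set x := X n pos J K u with hx
  set pv := pvN n T pos J K x with hpvd
  set nx := nxN n T pos J K x with hnxd
  have hA1 : (ptA n T pos J K ρ x).1 = x - ρ := rfl
  have hA2 : (ptA n T pos J K ρ x).2 = -(pv + x) * (x - ρ) + pv * x + 1 / 16 := rfl
  have hE1 : (ptE n T pos J K ρ x).1 = x + ρ := rfl
  have hE2 : (ptE n T pos J K ρ x).2 = -(x + nx) * (x + ρ) + x * nx + 1 / 16 := rfl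
  have hL1 : (tipL n pos J K ρ u).1 = x + sdL n J K u * ρ := rfl
  have hL2 : (tipL n pos J K ρ u).2 = (Q n pos J K u).2 + sdL n J K u * ρ * (slL n J K u - 2 * x) := rfl
  have hR1 : (tipR n pos J K ρ u).1 = x + sdR n J K u * ρ := rfl
  have hR2 : (tipR n pos J K ρ u).2 = (Q n pos J K u).2 + sdR n J K u * ρ * (slR n J K u - 2 * x) := rfl
  unfold InW at hW
  rw [hQ1] at hW
  by_cases h2n : u < 2 * n
  · rw [if_pos h2n] at hW
    obtain ⟨g1, g2⟩ := TO4_gapO hX h2 n T pos J K hA u hnu h2n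
    rw [← hpvd] at g1
    rw [← hnxd] at g2
    have hup : upS n J K u = -(5 / 8) := by unfold upS; rw [if_pos h2n]
    have hlo : loS n J K u = 5 / 8 := by unfold loS; rw [if_pos h2n]
    rcases hz with hz | hz
    · have hsl : slL n J K u = 5 / 8 := by unfold slL; rw [if_pos h2n, hlo]
      have hsd : sdL n J K u = -1 := by unfold sdL; rw [if_pos h2n]
      have := TO4_ge (x := x) (q := (Q n pos J K u).2) (s := 5 / 8)
        (P := ptA n T pos J K ρ x) (Q' := Q n pos J K u) (R := tipL n pos J K ρ u)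
        (by rw [hA1, hA2, hQ2]; nlinarith) (by rw [hQ1]; simp) (by rw [hL1, hL2, hsl, hsd]; linarith)
        z hz
      rw [hlo] at hW
      linarith [hW.2]
    · have hsl : slR n J K u = -(5 / 8) := by unfold slR; rw [if_pos h2n, hup]
      have hsd : sdR n J K u = 1 := by unfold sdR; rw [if_pos h2n]
      have := TO4_ge (x := x) (q := (Q n pos J K u).2) (s := -(5 / 8))
        (P := Q n pos J K u) (Q' := ptE n T pos J K ρ x) (R := tipR n pos J K ρ u)
        (by rw [hQ1]; simp) (by rw [hE1, hE2, hQ2]; nlinarith)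
        (by rw [hR1, hR2, hsl, hsd]; linarith)
        z hz
      rw [hup] at hW
      linarith [hW.1]
  · rw [if_neg h2n] at hW
    obtain ⟨g1, g2⟩ := TO4_gapT hX h2 n T pos J K hA u (by omega) husz
    rw [← hpvd] at g2
    rw [← hnxd] at g1
    by_cases hJK : J (u - 2 * n) ≤ K (u - 2 * n)
    · obtain ⟨b1, b2⟩ := g1 hJK
      have hsg : sg J K (u - 2 * n) = 1 := by unfold sg; rw [if_pos hJK]
      have hup : upS n J K u = -(hh J K (u - 2 * n)) + 5 / 8 := by
        unfold upS; rw [if_neg h2n, hsg]; ring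
      have hlo : loS n J K u = -(hh J K (u - 2 * n)) - 5 / 8 := by
        unfold loS; rw [if_neg h2n, hsg]; ring
      set h := hh J K (u - 2 * n) with hh'
      rcases hz with hz | hz
      · have hsl : slL n J K u = -h - 5 / 8 := by unfold slL; rw [if_neg h2n, if_pos hJK, hlo]
        have hsd : sdL n J K u = 1 := by unfold sdL; rw [if_neg h2n, hsg]
        have := TO4_le (x := x) (q := (Q n pos J K u).2) (s := -h - 5 / 8)
          (P := ptA n T pos J K ρ x) (Q' := Q n pos J K u) (R := tipL n pos J K ρ u)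
          (by rw [hA1, hA2, hQ2]; nlinarith) (by rw [hQ1]; simp)
          (by rw [hL1, hL2, hsl, hsd]; linarith)
          z hz
        rw [hlo] at hW
        linarith [hW.2]
      · have hsl : slR n J K u = -h + 5 / 8 := by unfold slR; rw [if_neg h2n, if_pos hJK, hup]
        have hsd : sdR n J K u = 1 := by unfold sdR; rw [if_neg h2n, hsg]
        have := TO4_ge (x := x) (q := (Q n pos J K u).2) (s := -h + 5 / 8)
          (P := Q n pos J K u) (Q' := ptE n T pos J K ρ x) (R := tipR n pos J K ρ u)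
          (by rw [hQ1]; simp) (by rw [hE1, hE2, hQ2]; nlinarith)
          (by rw [hR1, hR2, hsl, hsd]; linarith)
          z hz
        rw [hup] at hW
        linarith [hW.1]
    · obtain ⟨b1, b2⟩ := g2 hJK
      have hsg : sg J K (u - 2 * n) = -1 := by unfold sg; rw [if_neg hJK]
      have hup : upS n J K u = -(hh J K (u - 2 * n)) - 5 / 8 := by
        unfold upS; rw [if_neg h2n, hsg]; ring
      have hlo : loS n J K u = -(hh J K (u - 2 * n)) + 5 / 8 := by
        unfold loS; rw [if_neg h2n, hsg]; ring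
      set h := hh J K (u - 2 * n) with hh'
      rcases hz with hz | hz
      · have hsl : slL n J K u = -h - 5 / 8 := by unfold slL; rw [if_neg h2n, if_neg hJK, hup]
        have hsd : sdL n J K u = -1 := by unfold sdL; rw [if_neg h2n, hsg]
        have := TO4_ge (x := x) (q := (Q n pos J K u).2) (s := -h - 5 / 8)
          (P := ptA n T pos J K ρ x) (Q' := Q n pos J K u) (R := tipL n pos J K ρ u)
          (by rw [hA1, hA2, hQ2]; nlinarith) (by rw [hQ1]; simp)
          (by rw [hL1, hL2, hsl, hsd]; linarith)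
          z hz
        rw [hup] at hW
        linarith [hW.1]
      · have hsl : slR n J K u = -h + 5 / 8 := by unfold slR; rw [if_neg h2n, if_neg hJK, hlo]
        have hsd : sdR n J K u = -1 := by unfold sdR; rw [if_neg h2n, hsg]
        have := TO4_le (x := x) (q := (Q n pos J K u).2) (s := -h + 5 / 8)
          (P := Q n pos J K u) (Q' := ptE n T pos J K ρ x) (R := tipR n pos J K ρ u)
          (by rw [hQ1]; simp) (by rw [hE1, hE2, hQ2]; nlinarith)
          (by rw [hR1, hR2, hsl, hsd]; linarith)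
          z hz
        rw [hlo] at hW
        linarith [hW.2]

end Pool.Agent.H670R5
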