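import Pool.Agent.H670R5.St2

/-!
# Directions outside of the window point into a tooth (task TO5)
-/

namespace Pool.Agent.H670R5

open Pool.Agent.NPC Pool.Agent.H679R2

private theorem TO5_solve (ρ x p1 p2 q1 q2 r y : ℝ) (hρ : 0 < ρ) (hD : p1 * q2 - p2 * q1 ≠ 0)
    (hα : 0 < (r * q2 - (y + 2 * x * r) * q1) / (p1 * q2 - p2 * q1))
    (hβ : 0 ≤ (p1 * (y + 2 * x * r) - p2 * r) / (p1 * q2 - p2 * q1)) :
    ∃ α β : ℝ, 0 < α ∧ 0 ≤ β ∧ r = α * (ρ * p1) + β * (ρ * q1) ∧
      y = α * (ρ * (p2 - 2 * x * p1)) + β * (ρ * (q2 - 2 * x * q1)) := by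
  have key : ∀ N1 N2 D s t : ℝ, D ≠ 0 →
      N1 / D / ρ * (ρ * s) + N2 / D / ρ * (ρ * t) = (N1 * s + N2 * t) / D := by
    intro N1 N2 D s t hD
    field_simp
  refine ⟨(r * q2 - (y + 2 * x * r) * q1) / (p1 * q2 - p2 * q1) / ρ,
    (p1 * (y + 2 * x * r) - p2 * r) / (p1 * q2 - p2 * q1) / ρ, div_pos hα hρ,
    div_nonneg hβ hρ.le, ?_, ?_⟩
  · rw [key _ _ _ _ _ hD, eq_div_iff hD]
    ring
  · rw [key _ _ _ _ _ hD, eq_div_iff hD]
    ring

private theorem TO5_Q (n : ℕ) (pos J K : ℕ → ℕ) (u : ℕ) (hu : n ≤ u) :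
    Q n pos J K u = (X n pos J K u, -(X n pos J K u) ^ 2 + 1 / 16) := by
  unfold Q
  rw [if_neg (by omega)]

private theorem TO5_left (x ρ pv sd sl r y : ℝ) (hρ : 0 < ρ)
    (hD : 0 < (-1) * (sd * sl) - (pv - x) * sd)
    (h1 : 0 < sd * (sl * r - (y + 2 * x * r))) (h2 : y + 2 * x * r ≤ (x - pv) * r) :
    ∃ α β : ℝ, 0 < α ∧ 0 ≤ β ∧ r = α * (-ρ) + β * (sd * ρ) ∧
      y = α * (ρ * (pv + x)) + β * (sd * ρ * (sl - 2 * x)) := by
  obtain ⟨α, β, ha, hb, e1, e2⟩ := TO5_solve ρ x (-1) (pv - x) sd (sd * sl) r y hρ hD.ne'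
    (div_pos (by linarith) hD) (div_nonneg (by linarith) hD.le)
  refine ⟨α, β, ha, hb, ?_, ?_⟩
  · rw [e1]
    ring
  · rw [e2]
    ring

private theorem TO5_right (x ρ nx sd sl r y : ℝ) (hρ : 0 < ρ)
    (hD : 1 * (sd * sl) - (x - nx) * sd < 0)
    (h1 : sd * (sl * r - (y + 2 * x * r)) < 0) (h2 : y + 2 * x * r ≤ -(nx - x) * r) :
    ∃ α β : ℝ, 0 < α ∧ 0 ≤ β ∧ r = α * ρ + β * (sd * ρ) ∧
      y = α * (-ρ * (x + nx)) + β * (sd * ρ * (sl - 2 * x)) := by
  obtain ⟨α, β, ha, hb, e1, e2⟩ := TO5_solve ρ x 1 (x - nx) sd (sd * sl) r y hρ hD.ne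
    (div_pos_of_neg_of_neg (by linarith) hD) (div_nonneg_of_nonpos (by linarith) hD.le)
  refine ⟨α, β, ha, hb, ?_, ?_⟩
  · rw [e1]
    ring
  · rw [e2]
    ring

theorem tooth5_ok (hT : St_tooth1) : St_tooth5 := by
  intro n T pos J K hA ρ hρ u hu hus z hz hz1 hz2 hO
  obtain ⟨hL, hR, -, -, -⟩ := hT n T pos J K hA ρ hρ u hu hus
  have hQ := TO5_Q n pos J K u hu
  obtain ⟨x, hx⟩ : ∃ x, x = X n pos J K u := ⟨_, rfl⟩
  obtain ⟨pv, hpv⟩ : ∃ pv, pv = pvN n T pos J K x := ⟨_, rfl⟩
  obtain ⟨nx, hnx⟩ : ∃ nx, nx = nxN n T pos J K x := ⟨_, rfl⟩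
  obtain ⟨a, b⟩ := z
  have hQ1 : (Q n pos J K u).1 = x := by rw [hQ, hx]
  have hQ2 : (Q n pos J K u).2 = -x ^ 2 + 1 / 16 := by rw [hQ, hx]
  -- orientation
  have hDL : 0 < (-1) * (sdL n J K u * slL n J K u) - (pv - x) * sdL n J K u := by
    have e : ori (ptA n T pos J K ρ (X n pos J K u)) (Q n pos J K u) (tipL n pos J K ρ u) =
        -ρ ^ 2 * ((-1) * (sdL n J K u * slL n J K u) - (pv - x) * sdL n J K u) := by
      unfold ori ptA tipL chd
      rw [hQ1, hQ2, ← hx, ← hpv]
      ring
    rw [e] at hL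
    by_contra hc
    push Not at hc
    have : 0 ≤ -ρ ^ 2 * ((-1) * (sdL n J K u * slL n J K u) - (pv - x) * sdL n J K u) :=
      mul_nonneg_of_nonpos_of_nonpos (by nlinarith) hc
    linarith
  have hDR : 1 * (sdR n J K u * slR n J K u) - (x - nx) * sdR n J K u < 0 := by
    have e : ori (Q n pos J K u) (ptE n T pos J K ρ (X n pos J K u)) (tipR n pos J K ρ u) =
        ρ ^ 2 * (1 * (sdR n J K u * slR n J K u) - (x - nx) * sdR n J K u) := by
      unfold ori ptE tipR chd
      rw [hQ1, hQ2, ← hx, ← hnx]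
      ring
    rw [e] at hR
    by_contra hc
    push Not at hc
    have : 0 ≤ ρ ^ 2 * (1 * (sdR n J K u * slR n J K u) - (x - nx) * sdR n J K u) :=
      mul_nonneg (by positivity) hc
    linarith
  -- relative coordinates
  obtain ⟨r, hr⟩ : ∃ r, r = a - x := ⟨_, rfl⟩
  obtain ⟨y, hy⟩ : ∃ y, y = b - (-x ^ 2 + 1 / 16) := ⟨_, rfl⟩
  have h1 : y + 2 * x * r ≤ (x - pv) * r := by
    have : b ≤ chd pv x a := by
      rw [hpv, hx]
      exact hz1
    unfold chd at this
    rw [hy, hr]
    nlinarith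
  have h2 : y + 2 * x * r ≤ -(nx - x) * r := by
    have : b ≤ chd x nx a := by
      rw [hnx, hx]
      exact hz2
    unfold chd at this
    rw [hy, hr]
    nlinarith
  have hne : ¬ (r = 0 ∧ y = 0) := by
    rintro ⟨e1, e2⟩
    apply hz
    rw [hQ, ← hx]
    refine Prod.ext ?_ ?_
    · show a = x
      linarith
    · show b = -x ^ 2 + 1 / 16
      linarith
  -- the two possible conclusions
  have hleft : 0 < sdL n J K u * (slL n J K u * r - (y + 2 * x * r)) →
      ∃ α β : ℝ, 0 < α ∧ 0 ≤ β ∧ (a, b) - Q n pos J K u =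
        α • (ptA n T pos J K ρ (X n pos J K u) - Q n pos J K u) +
        β • (tipL n pos J K ρ u - Q n pos J K u) := by
    intro hq
    obtain ⟨α, β, ha, hb, e1, e2⟩ := TO5_left x ρ pv _ _ r y hρ hDL hq h1
    refine ⟨α, β, ha, hb, ?_⟩
    refine Prod.ext ?_ ?_
    · simp only [Prod.fst_sub, Prod.fst_add, Prod.smul_fst, smul_eq_mul, hQ1]
      unfold ptA tipL
      simp only [hQ1, ← hx]
      rw [← hr, e1]
      ring
    · simp only [Prod.snd_sub, Prod.snd_add, Prod.smul_snd, smul_eq_mul, hQ2]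
      unfold ptA tipL chd
      simp only [hQ1, hQ2, ← hx, ← hpv]
      rw [← hy, e2]
      ring
  have hright : sdR n J K u * (slR n J K u * r - (y + 2 * x * r)) < 0 →
      ∃ α β : ℝ, 0 < α ∧ 0 ≤ β ∧ (a, b) - Q n pos J K u =
        α • (ptE n T pos J K ρ (X n pos J K u) - Q n pos J K u) +
        β • (tipR n pos J K ρ u - Q n pos J K u) := by
    intro hq
    obtain ⟨α, β, ha, hb, e1, e2⟩ := TO5_right x ρ nx _ _ r y hρ hDR hq h2
    refine ⟨α, β, ha, hb, ?_⟩
    refine Prod.ext ?_ ?_
    · simp only [Prod.fst_sub, Prod.fst_add, Prod.smul_fst, smul_eq_mul, hQ1]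
      unfold ptE tipR
      simp only [hQ1, ← hx]
      rw [← hr, e1]
      ring
    · simp only [Prod.snd_sub, Prod.snd_add, Prod.smul_snd, smul_eq_mul, hQ2]
      unfold ptE tipR chd
      simp only [hQ1, hQ2, ← hx, ← hnx]
      rw [← hy, e2]
      ring
  unfold OutW at hO
  simp only [hQ1, hQ2] at hO
  rw [← hr, ← hy] at hO
  by_cases hu2 : u < 2 * n
  · -- opponents
    rw [if_pos hu2] at hO
    have eu : upS n J K u = -(5 / 8) := by unfold upS; rw [if_pos hu2]
    have el : loS n J K u = 5 / 8 := by unfold loS; rw [if_pos hu2]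
    have e1 : sdL n J K u = -1 := by unfold sdL; rw [if_pos hu2]
    have e2 : slL n J K u = 5 / 8 := by unfold slL; rw [if_pos hu2, el]
    have e3 : sdR n J K u = 1 := by unfold sdR; rw [if_pos hu2]
    have e4 : slR n J K u = -(5 / 8) := by unfold slR; rw [if_pos hu2, eu]
    rw [eu, el] at hO
    rcases lt_trichotomy r 0 with hr0 | hr0 | hr0
    · left
      apply hleft
      rw [e1, e2]
      rcases hO with hO | hO <;> nlinarith
    · exfalso
      rw [hr0] at hO h1
      rcases hO with hO | hO <;> nlinarith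
    · right
      apply hright
      rw [e3, e4]
      rcases hO with hO | hO <;> nlinarith
  · rw [if_neg hu2] at hO
    by_cases hJK : J (u - 2 * n) ≤ K (u - 2 * n)
    · have es : sg J K (u - 2 * n) = 1 := by unfold sg; rw [if_pos hJK]
      have hval : (1 : ℝ) / 2 ≤ hh J K (u - 2 * n) := by
        have : (J (u - 2 * n) : ℝ) ≤ K (u - 2 * n) := by exact_mod_cast hJK
        unfold hh
        linarith
      have el : loS n J K u = -(hh J K (u - 2 * n)) - 5 / 8 := by
        unfold loS; rw [if_neg hu2, es]; ring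
      have e1 : sdL n J K u = 1 := by unfold sdL; rw [if_neg hu2, es]
      have e2 : slL n J K u = loS n J K u := by unfold slL; rw [if_neg hu2, if_pos hJK]
      have e3 : sdR n J K u = 1 := by unfold sdR; rw [if_neg hu2, es]
      have e4 : slR n J K u = upS n J K u := by unfold slR; rw [if_neg hu2, if_pos hJK]
      rw [e1, e2] at hleft hDL
      rw [e3, e4] at hright hDR
      rcases le_or_gt r 0 with hr0 | hr0
      · left
        apply hleft
        by_contra hc
        push Not at hc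
        have h3 : 0 ≤ (x - pv - loS n J K u) * r := by nlinarith
        have h4 : 0 < x - pv - loS n J K u := by linarith
        have h5 : 0 ≤ r := by
          by_contra h6
          push Not at h6
          nlinarith
        have h6 : r = 0 := le_antisymm hr0 h5
        apply hne
        refine ⟨h6, ?_⟩
        rw [h6] at hc h1
        nlinarith
      · rcases hO with hO | hO
        · right
          apply hright
          nlinarith
        · left
          apply hleft
          nlinarith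
    · have es : sg J K (u - 2 * n) = -1 := by unfold sg; rw [if_neg hJK]
      have hval : hh J K (u - 2 * n) ≤ -(1 / 2 : ℝ) := by
        have h0 : K (u - 2 * n) + 1 ≤ J (u - 2 * n) := by omega
        have : (K (u - 2 * n) : ℝ) + 1 ≤ J (u - 2 * n) := by exact_mod_cast h0
        unfold hh
        linarith
      have el : loS n J K u = -(hh J K (u - 2 * n)) + 5 / 8 := by
        unfold loS; rw [if_neg hu2, es]; ring
      have e1 : sdL n J K u = -1 := by unfold sdL; rw [if_neg hu2, es]
      have e2 : slL n J K u = upS n J K u := by unfold slL; rw [if_neg hu2, if_neg hJK]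
      have e3 : sdR n J K u = -1 := by unfold sdR; rw [if_neg hu2, es]
      have e4 : slR n J K u = loS n J K u := by unfold slR; rw [if_neg hu2, if_neg hJK]
      rw [e1, e2] at hleft hDL
      rw [e3, e4] at hright hDR
      rcases le_or_gt 0 r with hr0 | hr0
      · right
        apply hright
        by_contra hc
        push Not at hc
        have h3 : (nx - x + loS n J K u) * r ≤ 0 := by nlinarith
        have h4 : 0 < nx - x + loS n J K u := by linarith
        have h5 : r ≤ 0 := by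
          by_contra h6
          push Not at h6
          nlinarith
        have h6 : r = 0 := le_antisymm h5 hr0
        apply hne
        refine ⟨h6, ?_⟩
        rw [h6] at hc h1
        nlinarith
      · rcases hO with hO | hO
        · left
          apply hleft
          nlinarith
        · right
          apply hright
          nlinarith

end Pool.Agent.H670R5
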