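import Pool.Agent.H670R5.St2

namespace Pool.Agent.H670R5

open Pool.Agent.NPC Pool.Agent.H679R2

/-- affine function (height above the chord) -/
private noncomputable def to2phi (a b : ℝ) (z : Pl) : ℝ := z.2 - chd a b z.1

private lemma to2_phi_comb (a b : ℝ) (p q w : Pl) (s t r : ℝ) (h : s + t + r = 1) :
    to2phi a b (s • p + t • q + r • w) = s * to2phi a b p + t * to2phi a b q + r * to2phi a b w := by
  have hr : r = 1 - s - t := by linarith
  subst hr
  simp only [to2phi, chd, Prod.fst_add, Prod.snd_add, Prod.smul_fst, Prod.smul_snd, smul_eq_mul]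
  ring

private lemma to2_tri_mem {p q w z : Pl} (h : z ∈ tri p q w) :
    ∃ s t r : ℝ, 0 ≤ s ∧ 0 ≤ t ∧ 0 ≤ r ∧ s + t + r = 1 ∧ z = s • p + t • q + r • w := by
  unfold tri at h
  rw [convexHull_insert (by simp)] at h
  rw [convexJoin_singleton_left] at h
  simp only [Set.mem_iUnion] at h
  obtain ⟨y, hy, hz⟩ := h
  rw [convexHull_pair] at hy
  obtain ⟨a, b, ha, hb, hab, rfl⟩ := hy
  obtain ⟨c, d, hc, hd, hcd, rfl⟩ := hz
  refine ⟨c, d * a, d * b, hc, mul_nonneg hd ha, mul_nonneg hd hb, ?_, ?_⟩
  · rw [add_assoc, ← mul_add, hab, mul_one, hcd]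
  · rw [smul_add, smul_smul, smul_smul, add_assoc]

/-- all three vertices strictly below -/
private lemma to2_below {a b : ℝ} {p q w z : Pl} (h : z ∈ tri p q w)
    (hp : to2phi a b p < 0) (hq : to2phi a b q < 0) (hw : to2phi a b w < 0) :
    z.2 < chd a b z.1 := by
  obtain ⟨s, t, r, hs, ht, hr, hsum, rfl⟩ := to2_tri_mem h
  have := to2_phi_comb a b p q w s t r hsum
  have h1 : to2phi a b (s • p + t • q + r • w) < 0 := by
    rw [this]
    rcases hs.eq_or_lt with h0 | h0
    · rcases ht.eq_or_lt with h2 | h2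
      · have : r = 1 := by rw [← h0, ← h2] at hsum; linarith
        rw [← h0, ← h2, this]; linarith
      · nlinarith [mul_neg_of_pos_of_neg h2 hq, mul_nonpos_of_nonneg_of_nonpos hr hw.le,
          mul_nonpos_of_nonneg_of_nonpos hs hp.le]
    · nlinarith [mul_neg_of_pos_of_neg h0 hp, mul_nonpos_of_nonneg_of_nonpos hr hw.le,
          mul_nonpos_of_nonneg_of_nonpos ht hq.le]
  unfold to2phi at h1
  linarith

/-- base on the chord, tip strictly below -/
private lemma to2_base {a b : ℝ} {p q w z : Pl} (h : z ∈ tri p q w)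
    (hp : to2phi a b p = 0) (hq : to2phi a b q = 0) (hw : to2phi a b w < 0) :
    z.2 < chd a b z.1 ∨ z ∈ segment ℝ p q := by
  obtain ⟨s, t, r, hs, ht, hr, hsum, rfl⟩ := to2_tri_mem h
  have := to2_phi_comb a b p q w s t r hsum
  rcases hr.eq_or_lt with h0 | h0
  · right
    refine ⟨s, t, hs, ht, by rw [← h0] at hsum; linarith, ?_⟩
    rw [← h0, zero_smul, add_zero]
  · left
    have h1 : to2phi a b (s • p + t • q + r • w) < 0 := by
      rw [this, hp, hq]
      nlinarith [mul_neg_of_pos_of_neg h0 hw]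
    unfold to2phi at h1
    linarith

/-- the point `p` on the chord, the others strictly below -/
private lemma to2_point {a b : ℝ} {p q w z : Pl} (h : z ∈ tri p q w)
    (hp : to2phi a b p = 0) (hq : to2phi a b q < 0) (hw : to2phi a b w < 0) :
    z.2 < chd a b z.1 ∨ z = p := by
  obtain ⟨s, t, r, hs, ht, hr, hsum, rfl⟩ := to2_tri_mem h
  have := to2_phi_comb a b p q w s t r hsum
  by_cases h0 : t = 0 ∧ r = 0
  · right
    have : s = 1 := by rw [h0.1, h0.2] at hsum; linarith
    rw [h0.1, h0.2, this]; simp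
  · left
    have h1 : to2phi a b (s • p + t • q + r • w) < 0 := by
      rw [this, hp]
      rcases ht.eq_or_lt with h2 | h2
      · have h3 : 0 < r := lt_of_le_of_ne hr (fun h => h0 ⟨h2.symm, h.symm⟩)
        nlinarith [mul_neg_of_pos_of_neg h3 hw, mul_nonpos_of_nonneg_of_nonpos ht hq.le]
      · nlinarith [mul_neg_of_pos_of_neg h2 hq, mul_nonpos_of_nonneg_of_nonpos hr hw.le]
    unfold to2phi at h1
    linarith

private lemma to2_point' {a b : ℝ} {p q w z : Pl} (h : z ∈ tri p q w)
    (hp : to2phi a b p < 0) (hq : to2phi a b q = 0) (hw : to2phi a b w < 0) :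
    z.2 < chd a b z.1 ∨ z = q := by
  have h' : z ∈ tri q p w := by
    unfold tri at h ⊢
    rwa [Set.insert_comm]
  exact to2_point h' hq hp hw

private lemma to2_Q (n : ℕ) (pos J K : ℕ → ℕ) {u : ℕ} (hu : n ≤ u) :
    Q n pos J K u = (X n pos J K u, -(X n pos J K u) ^ 2 + 1 / 16) := by
  unfold Q; rw [if_neg (by omega)]

private lemma to2_small (c g : ℝ) (hg : 0 < g) : ∀ᶠ ρ in nhdsWithin (0 : ℝ) (Set.Ioi 0),
    c * ρ < g := by
  have h1 : Filter.Tendsto (fun ρ : ℝ => c * ρ) (nhdsWithin (0 : ℝ) (Set.Ioi 0)) (nhds 0) := by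
    have : Filter.Tendsto (fun ρ : ℝ => c * ρ) (nhds 0) (nhds (c * 0)) :=
      (continuous_const.mul continuous_id).tendsto 0
    rw [mul_zero] at this
    exact this.mono_left nhdsWithin_le_nhds
  exact h1.eventually (gt_mem_nhds hg)

/-- the slopes: the right tip against the left chord, the left tip against the right chord -/
private lemma to2_slopes (n : ℕ) (T : List (ℕ × ℕ × ℕ × Bool)) (pos J K : ℕ → ℕ)
    (hA : Arr n T pos J K) (u : ℕ) (_hu : n ≤ u) (hu' : u < sz n T) (d : ℝ) (hd : 0 < d)
    (hd1 : d ≤ 1) :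
    sdR n J K u * (slR n J K u - d) < 0 ∧ sdL n J K u * (slL n J K u + d) < 0 := by
  by_cases h2 : u < 2 * n
  · simp only [sdR, slR, sdL, slL, if_pos h2, upS, loS]
    constructor <;> linarith
  · have hi : u - 2 * n < T.length := by unfold sz at hu'; omega
    have hne := hA.ne _ hi
    simp only [sdR, slR, sdL, slL, if_neg h2, upS, loS, sg, hh]
    by_cases hJK : J (u - 2 * n) ≤ K (u - 2 * n)
    · simp only [if_pos hJK]
      have h3 : J (u - 2 * n) + 1 ≤ K (u - 2 * n) := by
        have := hne.1; omega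
      have h4 : (J (u - 2 * n) : ℝ) + 1 ≤ K (u - 2 * n) := by exact_mod_cast h3
      constructor <;> linarith
    · simp only [if_neg hJK]
      have h3 : K (u - 2 * n) + 2 ≤ J (u - 2 * n) := by
        have := hne.2; omega
      have h4 : (K (u - 2 * n) : ℝ) + 2 ≤ J (u - 2 * n) := by exact_mod_cast h3
      constructor <;> linarith

private lemma to2_ori {a b : ℝ} {p q w : Pl} (hp : to2phi a b p = 0) (hq : to2phi a b q = 0)
    (hpq : p.1 < q.1) (h : ori p q w < 0) : to2phi a b w < 0 := by
  have e : ori p q w = (q.1 - p.1) * (to2phi a b w - to2phi a b p) -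
      (to2phi a b q - to2phi a b p) * (w.1 - p.1) := by
    simp only [ori, to2phi, chd]; ring
  rw [e, hp, hq] at h
  by_contra hc
  push Not at hc
  have := mul_nonneg (sub_pos.2 hpq).le hc
  linarith

private lemma to2_phiQ (a b x : ℝ) :
    to2phi a b ((x, -x ^ 2 + 1 / 16) : Pl) = -((x - a) * (x - b)) := by
  simp only [to2phi, chd]; ring

private lemma to2_phiA (n : ℕ) (T : List (ℕ × ℕ × ℕ × Bool)) (pos J K : ℕ → ℕ) (a b x ρ : ℝ) :
    to2phi a b (ptA n T pos J K ρ x) =
      -((x - a) * (x - b)) + (pvN n T pos J K x + x - a - b) * ρ := by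
  simp only [to2phi, chd, ptA]; ring

private lemma to2_phiE (n : ℕ) (T : List (ℕ × ℕ × ℕ × Bool)) (pos J K : ℕ → ℕ) (a b x ρ : ℝ) :
    to2phi a b (ptE n T pos J K ρ x) =
      -((x - a) * (x - b)) - (x + nxN n T pos J K x - a - b) * ρ := by
  simp only [to2phi, chd, ptE]; ring

private lemma to2_phiL (n : ℕ) (pos J K : ℕ → ℕ) (a b ρ : ℝ) {u : ℕ} (hu : n ≤ u) :
    to2phi a b (tipL n pos J K ρ u) =
      -((X n pos J K u - a) * (X n pos J K u - b)) +
        (sdL n J K u * (slL n J K u - 2 * X n pos J K u + a + b)) * ρ := by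
  simp only [to2phi, chd, tipL, to2_Q n pos J K hu]; ring

private lemma to2_phiR (n : ℕ) (pos J K : ℕ → ℕ) (a b ρ : ℝ) {u : ℕ} (hu : n ≤ u) :
    to2phi a b (tipR n pos J K ρ u) =
      -((X n pos J K u - a) * (X n pos J K u - b)) +
        (sdR n J K u * (slR n J K u - 2 * X n pos J K u + a + b)) * ρ := by
  simp only [to2phi, chd, tipR, to2_Q n pos J K hu]; ring

theorem tooth2_ok (hX : St_X) (hnd1 : St_nd1) (hnd2 : St_nd2) (ht1 : St_tooth1) : St_tooth2 := by
  intro n T pos J K hA
  have hXX := hX n T pos J K hA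
  have key : ∀ᶠ ρ in nhdsWithin (0 : ℝ) (Set.Ioi 0), ∀ u ∈ Finset.Ico n (sz n T),
      ∀ e ∈ ((nd n T pos J K).zip (nd n T pos J K).tail).toFinset,
      (∀ z ∈ earL n T pos J K ρ u, z.2 < chd e.1 e.2 z.1 ∨
        z ∈ segment ℝ (ptA n T pos J K ρ (X n pos J K u)) (Q n pos J K u)) ∧
      (∀ z ∈ earR n T pos J K ρ u, z.2 < chd e.1 e.2 z.1 ∨
        z ∈ segment ℝ (Q n pos J K u) (ptE n T pos J K ρ (X n pos J K u))) := by
    rw [Filter.eventually_all_finset]
    intro u hu
    rw [Filter.eventually_all_finset]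
    intro e he
    rw [List.mem_toFinset] at he
    rw [Finset.mem_Ico] at hu
    obtain ⟨hu1, hu2⟩ := hu
    obtain ⟨hxm, hx1, hx2⟩ := hXX.1 u hu2
    obtain ⟨he1, he2, he3, he4, he5⟩ := (hnd1 n T pos J K hA).2 e he
    obtain ⟨hpm, hnm, hpx, hxn, hp1, hn1, hpv, hnx, -, -⟩ :=
      hnd2 n T pos J K hA (X n pos J K u) hxm hx1 hx2
    have hs := to2_slopes n T pos J K hA u hu1 hu2
    have hQ := to2_Q n pos J K hu1
    have hself : ∀ᶠ ρ in nhdsWithin (0 : ℝ) (Set.Ioi 0), (0 : ℝ) < ρ := self_mem_nhdsWithin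
    have fQ := fun a b : ℝ => (congrArg (to2phi a b) hQ).trans (to2_phiQ a b (X n pos J K u))
    have fA := fun a b ρ : ℝ => to2_phiA n T pos J K a b (X n pos J K u) ρ
    have fE := fun a b ρ : ℝ => to2_phiE n T pos J K a b (X n pos J K u) ρ
    have fL := fun a b ρ : ℝ => to2_phiL n pos J K a b ρ hu1
    have fR := fun a b ρ : ℝ => to2_phiR n pos J K a b ρ hu1
    have ht := fun (ρ : ℝ) (hρ : 0 < ρ) => ht1 n T pos J K hA ρ hρ u hu1 hu2
    simp only [earL, earR] at ht ⊢
    generalize hxd : X n pos J K u = x at *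
    generalize pvN n T pos J K x = pv at *
    generalize nxN n T pos J K x = nx at *
    have far : 0 < (x - e.1) * (x - e.2) → ∀ᶠ ρ in nhdsWithin (0 : ℝ) (Set.Ioi 0),
        (∀ z ∈ tri (ptA n T pos J K ρ x) (Q n pos J K u) (tipL n pos J K ρ u),
          z.2 < chd e.1 e.2 z.1 ∨ z ∈ segment ℝ (ptA n T pos J K ρ x) (Q n pos J K u)) ∧
        (∀ z ∈ tri (Q n pos J K u) (ptE n T pos J K ρ x) (tipR n pos J K ρ u),
          z.2 < chd e.1 e.2 z.1 ∨ z ∈ segment ℝ (Q n pos J K u) (ptE n T pos J K ρ x)) := by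
      intro hg
      filter_upwards [to2_small (pv + x - e.1 - e.2) _ hg, to2_small (-(x + nx - e.1 - e.2)) _ hg,
        to2_small (sdL n J K u * (slL n J K u - 2 * x + e.1 + e.2)) _ hg,
        to2_small (sdR n J K u * (slR n J K u - 2 * x + e.1 + e.2)) _ hg] with ρ h1 h2 h3 h4
      have gQ : to2phi e.1 e.2 (Q n pos J K u) < 0 := by rw [fQ]; linarith
      constructor
      · intro z hz
        left
        exact to2_below hz (by rw [fA]; linarith) gQ (by rw [fL]; linarith)
      · intro z hz
        left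
        exact to2_below hz gQ (by rw [fE]; linarith) (by rw [fR]; linarith)
    rcases lt_trichotomy e.2 x with h | h | h
    · -- far
      exact far (by nlinarith)
    · -- `e = (pv, x)`
      have e1 : e.1 = pv := by
        apply le_antisymm
        · rcases hpv e.1 he3 with h' | h'
          · exact h'
          · linarith
        · rcases he5 pv hpm with h' | h'
          · exact h'
          · linarith
      have hs' := (hs (x - pv) (by linarith) (by linarith)).1
      filter_upwards [hself] with ρ hρ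
      have ht' := (ht ρ hρ).1
      have gQ : to2phi e.1 e.2 (Q n pos J K u) = 0 := by rw [fQ, h]; ring
      have gA : to2phi e.1 e.2 (ptA n T pos J K ρ x) = 0 := by rw [fA, h, e1]; ring
      constructor
      · intro z hz
        refine to2_base hz gA gQ (to2_ori gA gQ ?_ ht')
        rw [hQ]; simp only [ptA]; linarith
      · intro z hz
        rcases to2_point hz gQ (by rw [fE, h, e1]; nlinarith) (by
          rw [fR, h, e1]
          have : sdR n J K u * (slR n J K u - 2 * x + pv + x) * ρ < 0 :=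
            mul_neg_of_neg_of_pos (by nlinarith) hρ
          nlinarith) with h' | h'
        · left; exact h'
        · right; rw [h']; exact left_mem_segment _ _ _
    · have hx1' : x ≤ e.1 := by
        rcases he5 x hxm with h' | h'
        · exact h'
        · linarith
      rcases hx1'.lt_or_eq with h' | h'
      · exact far (by nlinarith)
      · -- `e = (x, nx)`
        have e2 : e.2 = nx := by
          apply le_antisymm
          · rcases he5 nx hnm with h' | h'
            · linarith
            · exact h'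
          · rcases hnx e.2 he4 with h' | h'
            · linarith
            · exact h'
        have hs' := (hs (nx - x) (by linarith) (by linarith)).2
        filter_upwards [hself] with ρ hρ
        have ht' := (ht ρ hρ).2.1
        have gQ : to2phi e.1 e.2 (Q n pos J K u) = 0 := by rw [fQ, h']; ring
        have gE : to2phi e.1 e.2 (ptE n T pos J K ρ x) = 0 := by rw [fE, ← h', e2]; ring
        constructor
        · intro z hz
          rcases to2_point' hz (by rw [fA, ← h', e2]; nlinarith) gQ (by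
            rw [fL, ← h', e2]
            have : sdL n J K u * (slL n J K u - 2 * x + x + nx) * ρ < 0 :=
              mul_neg_of_neg_of_pos (by nlinarith) hρ
            nlinarith) with h'' | h''
          · left; exact h''
          · right; rw [h'']; exact right_mem_segment _ _ _
        · intro z hz
          refine to2_base hz gQ gE (to2_ori gQ gE ?_ ht')
          rw [hQ]; simp only [ptE]; linarith
  rw [Filter.Eventually, mem_nhdsGT_iff_exists_Ioo_subset] at key
  obtain ⟨ρ₀, hρ₀, hsub⟩ := key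
  refine ⟨ρ₀, hρ₀, fun ρ h1 h2 u hu1 hu2 e he => ?_⟩
  exact hsub ⟨h1, h2⟩ u (Finset.mem_Ico.2 ⟨hu1, hu2⟩) e (List.mem_toFinset.2 he)

end Pool.Agent.H670R5
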