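import Pool.Agent.H670R5.St2

/-!
Task TRI1: the triangle as the intersection of three half planes.
-/

namespace Pool.Agent.H670R5

open Pool.Agent.NPC Pool.Agent.H679R2

private theorem tri1_aff (a b x y : Pl) (s t : ℝ) (hst : s + t = 1) :
    ori a b (s • x + t • y) = s * ori a b x + t * ori a b y := by
  unfold ori
  simp only [Prod.fst_add, Prod.snd_add, Prod.smul_fst, Prod.smul_snd, smul_eq_mul]
  have ht : t = 1 - s := by linarith
  subst ht
  ring

private theorem tri1_cyc (a b c : Pl) : ori b c a = ori a b c := by
  unfold ori
  ring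

private theorem tri1_cyc2 (a b c : Pl) : ori c a b = ori a b c := by
  unfold ori
  ring

private theorem tri1_aa (a b : Pl) : ori a b a = 0 := by
  unfold ori
  ring

private theorem tri1_bb (a b : Pl) : ori a b b = 0 := by
  unfold ori
  ring

theorem tri1_ok : St_tri1 := by
  intro a b c x hD
  constructor
  · intro hx
    have hsub : tri a b c ⊆ {y | 0 ≤ ori a b y ∧ 0 ≤ ori b c y ∧ 0 ≤ ori c a y} := by
      refine convexHull_min ?_ ?_
      · intro y hy
        have h1 := tri1_cyc a b c
        have h2 := tri1_cyc2 a b c
        rcases hy with rfl | rfl | rfl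
        · refine ⟨(tri1_aa _ _).ge, by rw [h1]; exact hD.le, (tri1_bb _ _).ge⟩
        · refine ⟨(tri1_bb _ _).ge, (tri1_aa _ _).ge, by rw [h2]; exact hD.le⟩
        · refine ⟨hD.le, (tri1_bb _ _).ge, (tri1_aa _ _).ge⟩
      · intro y hy z hz s t hs ht hst
        refine ⟨?_, ?_, ?_⟩
        · rw [tri1_aff _ _ _ _ _ _ hst]
          exact add_nonneg (mul_nonneg hs hy.1) (mul_nonneg ht hz.1)
        · rw [tri1_aff _ _ _ _ _ _ hst]
          exact add_nonneg (mul_nonneg hs hy.2.1) (mul_nonneg ht hz.2.1)
        · rw [tri1_aff _ _ _ _ _ _ hst]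
          exact add_nonneg (mul_nonneg hs hy.2.2) (mul_nonneg ht hz.2.2)
    exact hsub hx
  · rintro ⟨h1, h2, h3⟩
    have hsum : ori b c x + ori c a x + ori a b x = ori a b c := by
      unfold ori
      ring
    have hne : ori a b c ≠ 0 := hD.ne'
    have hc := convex_convexHull ℝ ({a, b, c} : Set Pl)
    have key := hc.sum_mem (t := (Finset.univ : Finset (Fin 3)))
      (w := ![ori b c x / ori a b c, ori c a x / ori a b c, ori a b x / ori a b c])
      (z := ![a, b, c]) (by
        intro i _
        fin_cases i
        · exact div_nonneg h2 hD.le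
        · exact div_nonneg h3 hD.le
        · exact div_nonneg h1 hD.le)
      (by
        rw [Fin.sum_univ_three]
        show ori b c x / ori a b c + ori c a x / ori a b c + ori a b x / ori a b c = 1
        rw [← add_div, ← add_div, hsum, div_self hne])
      (by
        intro i _
        apply subset_convexHull
        fin_cases i
        · exact Or.inl rfl
        · exact Or.inr (Or.inl rfl)
        · exact Or.inr (Or.inr rfl))
    have hx : x = ∑ i : Fin 3,
        (![ori b c x / ori a b c, ori c a x / ori a b c, ori a b x / ori a b c] : Fin 3 → ℝ) i •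
          (![a, b, c] : Fin 3 → Pl) i := by
      rw [Fin.sum_univ_three]
      show x = (ori b c x / ori a b c) • a + (ori c a x / ori a b c) • b +
        (ori a b x / ori a b c) • c
      ext
      · simp only [Prod.fst_add, Prod.smul_fst, smul_eq_mul]
        field_simp
        unfold ori
        ring
      · simp only [Prod.snd_add, Prod.smul_snd, smul_eq_mul]
        field_simp
        unfold ori
        ring
    rw [hx]
    exact key

end Pool.Agent.H670R5
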