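import Pool.Agent.H670R5.St2

/-!
# TRI2: the interior of a triangle (helper880)
-/

set_option autoImplicit false

namespace Pool.Agent.H670R5

private theorem tri2_cont (p q : Pl) : Continuous (fun x : Pl => ori p q x) := by
  unfold ori
  fun_prop

private theorem tri2_strict (p q : Pl) (S : Set Pl) (hS : ∀ y ∈ S, 0 ≤ ori p q y)
    (hpq : 0 < (q.1 - p.1) ^ 2 + (q.2 - p.2) ^ 2) (x : Pl) (hx : x ∈ interior S) :
    0 < ori p q x := by
  have hc : Continuous (fun s : ℝ => ((x.1 + s * (q.2 - p.2), x.2 - s * (q.1 - p.1)) : Pl)) := by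
    fun_prop
  have h0 : (fun s : ℝ => ((x.1 + s * (q.2 - p.2), x.2 - s * (q.1 - p.1)) : Pl)) 0 ∈
      interior S := by
    have : ((x.1 + 0 * (q.2 - p.2), x.2 - 0 * (q.1 - p.1)) : Pl) = x := by
      ext <;> simp
    show ((x.1 + 0 * (q.2 - p.2), x.2 - 0 * (q.1 - p.1)) : Pl) ∈ interior S
    rw [this]
    exact hx
  have hev := (hc.continuousAt (x := 0)).preimage_mem_nhds (isOpen_interior.mem_nhds h0)
  obtain ⟨ε, hε, hball⟩ := Metric.mem_nhds_iff.1 hev
  have h1 : (ε / 2) ∈ Metric.ball (0 : ℝ) ε := by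
    rw [Metric.mem_ball, Real.dist_eq, sub_zero, abs_of_pos (by linarith)]
    linarith
  have h2 := hS _ (interior_subset (hball h1))
  simp only [ori] at h2 ⊢
  nlinarith [mul_pos hε hpq]

theorem tri2_ok (h : St_tri1) : St_tri2 := by
  intro a b c x habc
  have hab : 0 < (b.1 - a.1) ^ 2 + (b.2 - a.2) ^ 2 := by
    by_contra hcon
    have h1 : (b.1 - a.1) ^ 2 = 0 := by nlinarith [sq_nonneg (b.1 - a.1), sq_nonneg (b.2 - a.2)]
    have h2 : (b.2 - a.2) ^ 2 = 0 := by nlinarith [sq_nonneg (b.1 - a.1), sq_nonneg (b.2 - a.2)]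
    rw [pow_eq_zero_iff (by norm_num)] at h1 h2
    unfold ori at habc
    rw [h1, h2] at habc
    simp at habc
  have hbc : 0 < (c.1 - b.1) ^ 2 + (c.2 - b.2) ^ 2 := by
    by_contra hcon
    have h1 : (c.1 - b.1) ^ 2 = 0 := by nlinarith [sq_nonneg (c.1 - b.1), sq_nonneg (c.2 - b.2)]
    have h2 : (c.2 - b.2) ^ 2 = 0 := by nlinarith [sq_nonneg (c.1 - b.1), sq_nonneg (c.2 - b.2)]
    rw [pow_eq_zero_iff (by norm_num)] at h1 h2
    unfold ori at habc
    have h3 : c.1 = b.1 := by linarith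
    have h4 : c.2 = b.2 := by linarith
    rw [h3, h4] at habc
    nlinarith
  have hca : 0 < (a.1 - c.1) ^ 2 + (a.2 - c.2) ^ 2 := by
    by_contra hcon
    have h1 : (a.1 - c.1) ^ 2 = 0 := by nlinarith [sq_nonneg (a.1 - c.1), sq_nonneg (a.2 - c.2)]
    have h2 : (a.2 - c.2) ^ 2 = 0 := by nlinarith [sq_nonneg (a.1 - c.1), sq_nonneg (a.2 - c.2)]
    rw [pow_eq_zero_iff (by norm_num)] at h1 h2
    unfold ori at habc
    have h3 : c.1 = a.1 := by linarith
    have h4 : c.2 = a.2 := by linarith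
    rw [h3, h4] at habc
    nlinarith
  constructor
  · intro hx
    exact ⟨tri2_strict a b _ (fun y hy => ((h a b c y habc).1 hy).1) hab x hx,
      tri2_strict b c _ (fun y hy => ((h a b c y habc).1 hy).2.1) hbc x hx,
      tri2_strict c a _ (fun y hy => ((h a b c y habc).1 hy).2.2) hca x hx⟩
  · intro hx
    have hopen : IsOpen {y : Pl | 0 < ori a b y ∧ 0 < ori b c y ∧ 0 < ori c a y} :=
      (isOpen_lt continuous_const (tri2_cont a b)).inter
        ((isOpen_lt continuous_const (tri2_cont b c)).inter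
          (isOpen_lt continuous_const (tri2_cont c a)))
    exact interior_maximal (fun y hy => (h a b c y habc).2 ⟨hy.1.le, hy.2.1.le, hy.2.2.le⟩)
      hopen hx

end Pool.Agent.H670R5
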