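import Pool.Agent.H670R5.St2

namespace Pool.Agent.H670R5

open Pool.Agent.NPC Pool.Agent.H679R2

private theorem TRILOC_cont (p q : Pl) : Continuous (fun x : Pl => ori p q x) := by
  unfold ori
  fun_prop

theorem triLoc_ok (h1 : St_tri1) : St_triLoc := by
  intro a b c m hD hm
  obtain ⟨s, t, hs, ht, hst, rfl⟩ := hm
  have ht' : t = 1 - s := by linarith
  have e1 : ori b c (s • a + t • b) = s * ori a b c := by
    rw [ht']
    simp only [ori, Prod.fst_add, Prod.snd_add, Prod.smul_fst, Prod.smul_snd, smul_eq_mul]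
    ring
  have e2 : ori c a (s • a + t • b) = t * ori a b c := by
    have hs' : s = 1 - t := by linarith
    rw [hs']
    simp only [ori, Prod.fst_add, Prod.snd_add, Prod.smul_fst, Prod.smul_snd, smul_eq_mul]
    ring
  have ho : IsOpen {x : Pl | 0 < ori b c x ∧ 0 < ori c a x} :=
    (isOpen_lt continuous_const (TRILOC_cont b c)).inter
      (isOpen_lt continuous_const (TRILOC_cont c a))
  obtain ⟨δ, hδ, hb⟩ := Metric.isOpen_iff.1 ho (s • a + t • b)
    ⟨by rw [e1]; positivity, by rw [e2]; positivity⟩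
  refine ⟨δ, hδ, fun x hx hx0 => ?_⟩
  have h2 := hb (Metric.mem_ball.2 hx)
  exact (h1 a b c x hD).2 ⟨hx0, h2.1.le, h2.2.le⟩

end Pool.Agent.H670R5
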