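import Pool.Agent.H670R5.St2

/-!
Task TRIPLE: three neighbours of an outer point that are an interval in the angular order: two of
them are consecutive on the convex polygon.
-/

namespace Pool.Agent.H670R5

open Pool.Agent.NPC Pool.Agent.H679R2

theorem TRIPLE_ori_anti (b x y : Pl) : ori b x y = - ori b y x := by unfold ori; ring

theorem TRIPLE_rot (n : ℕ) (σ : Equiv.Perm (Fin n)) (i j : Fin n) (h : (j : ℕ) = i + 1) :
    σ j = rotP n σ (σ i) := by
  show σ j = σ (finRotate n (σ.symm (σ i)))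
  rw [Equiv.symm_apply_apply]
  congr 1
  obtain ⟨m, rfl⟩ : ∃ m, n = m + 1 := ⟨n - 1, by have := i.2; omega⟩
  apply Fin.ext
  rw [coe_finRotate]
  split_ifs with h1
  · have := j.2
    rw [h1] at h
    simp at h
    omega
  · exact h

theorem TRIPLE_rot' (n : ℕ) (σ : Equiv.Perm (Fin n)) (i j : Fin n) (hi : (i : ℕ) = n - 1)
    (hj : (j : ℕ) = 0) : σ j = rotP n σ (σ i) := by
  show σ j = σ (finRotate n (σ.symm (σ i)))
  rw [Equiv.symm_apply_apply]
  congr 1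
  obtain ⟨m, rfl⟩ : ∃ m, n = m + 1 := ⟨n - 1, by have := i.2; omega⟩
  apply Fin.ext
  rw [coe_finRotate]
  have : i = Fin.last m := Fin.ext (by simpa using hi)
  rw [if_pos this, hj]

theorem TRIPLE_core (hF : St_four) (n : ℕ) (f : ℕ → Pl) (σ : Equiv.Perm (Fin n)) (b : Pl)
    (N : Fin n → Prop)
    (hc : ∀ i j k : Fin n, i < j → j < k → 0 < ori (f (σ i)) (f (σ j)) (f (σ k)))
    (hne : ∀ x y : Fin n, x ≠ y → ori b (f x) (f y) ≠ 0)
    (hN : ∀ x y z : Fin n, N x → N y → ¬ N z → 0 < ori b (f x) (f z) → 0 < ori b (f z) (f y) →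
      False)
    (i j k : Fin n) (hij : i < j) (hjk : j < k) (hNN : ∀ x, N x ↔ x = σ i ∨ x = σ j ∨ x = σ k) :
    (j : ℕ) = i + 1 ∨ (k : ℕ) = j + 1 ∨ ((i : ℕ) = 0 ∧ (k : ℕ) = n - 1) := by
  by_contra hcon
  push Not at hcon
  obtain ⟨h1, h2, h3⟩ := hcon
  have hij' : (i : ℕ) < j := hij
  have hjk' : (j : ℕ) < k := hjk
  have hk' := k.2
  -- types
  have typ : ∀ z : Fin n, z ≠ i → z ≠ j → z ≠ k →
      (∀ x, N x → 0 < ori b (f x) (f (σ z))) ∨ (∀ x, N x → 0 < ori b (f (σ z)) (f x)) := by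
    intro z hzi hzj hzk
    have hz : ¬ N (σ z) := by
      rw [hNN]
      rintro (h | h | h)
      · exact hzi (σ.injective h)
      · exact hzj (σ.injective h)
      · exact hzk (σ.injective h)
    by_cases hA : ∀ x, N x → 0 < ori b (f x) (f (σ z))
    · exact Or.inl hA
    · right
      push Not at hA
      obtain ⟨x0, hx0, hx1⟩ := hA
      have hx0z : x0 ≠ σ z := fun h => hz (h ▸ hx0)
      have hlt : 0 < ori b (f (σ z)) (f x0) := by
        have := hne x0 (σ z) hx0z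
        have h2 := TRIPLE_ori_anti b (f x0) (f (σ z))
        rcases lt_or_eq_of_le hx1 with h3 | h3
        · linarith
        · exact absurd h3 this
      intro x hx
      by_contra hle
      have hxz : x ≠ σ z := fun h => hz (h ▸ hx)
      have hlt2 : 0 < ori b (f x) (f (σ z)) := by
        have := hne (σ z) x hxz.symm
        have h2 := TRIPLE_ori_anti b (f x) (f (σ z))
        rcases lt_or_eq_of_le (not_lt.1 hle) with h3 | h3
        · linarith
        · exact absurd h3 this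
      exact hN x x0 (σ z) hx hx0 hz hlt2 hlt
  have alt : ∀ p q r s : Fin n, p < q → q < r → r < s →
      (0 < ori b (f (σ p)) (f (σ q)) ∧ 0 < ori b (f (σ p)) (f (σ s)) ∧
        0 < ori b (f (σ r)) (f (σ q)) ∧ 0 < ori b (f (σ r)) (f (σ s)) ∨
       0 < ori b (f (σ q)) (f (σ p)) ∧ 0 < ori b (f (σ s)) (f (σ p)) ∧
        0 < ori b (f (σ q)) (f (σ r)) ∧ 0 < ori b (f (σ s)) (f (σ r))) → False := by
    intro p q r s hpq hqr hrs h
    exact hF b _ _ _ _ (hc p q r hpq hqr) (hc p q s hpq (hqr.trans hrs))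
      (hc p r s (hpq.trans hqr) hrs) (hc q r s hqr hrs) h
  have hNi : N (σ i) := (hNN _).2 (Or.inl rfl)
  have hNj : N (σ j) := (hNN _).2 (Or.inr (Or.inl rfl))
  have hNk : N (σ k) := (hNN _).2 (Or.inr (Or.inr rfl))
  -- the three other elements
  obtain ⟨z1, hz1⟩ : ∃ z : Fin n, (z : ℕ) = i + 1 := ⟨⟨i + 1, by omega⟩, rfl⟩
  obtain ⟨z2, hz2⟩ : ∃ z : Fin n, (z : ℕ) = j + 1 := ⟨⟨j + 1, by omega⟩, rfl⟩
  have t1 := typ z1 (by intro h; rw [h] at hz1; omega) (by intro h; rw [h] at hz1; omega)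
    (by intro h; rw [h] at hz1; omega)
  have t2 := typ z2 (by intro h; rw [h] at hz2; omega) (by intro h; rw [h] at hz2; omega)
    (by intro h; rw [h] at hz2; omega)
  have o1 : i < z1 := by rw [Fin.lt_def]; omega
  have o2 : z1 < j := by rw [Fin.lt_def]; omega
  have o3 : j < z2 := by rw [Fin.lt_def]; omega
  have o4 : z2 < k := by rw [Fin.lt_def]; omega
  rcases Nat.lt_or_ge ((k : ℕ) + 1) n with hk1 | hk1
  · obtain ⟨z3, hz3⟩ : ∃ z : Fin n, (z : ℕ) = k + 1 := ⟨⟨k + 1, hk1⟩, rfl⟩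
    have t3 := typ z3 (by intro h; rw [h] at hz3; omega) (by intro h; rw [h] at hz3; omega)
      (by intro h; rw [h] at hz3; omega)
    have o5 : k < z3 := by rw [Fin.lt_def]; omega
    rcases t1 with t1 | t1 <;> rcases t2 with t2 | t2
    · exact alt i z1 j z2 o1 o2 o3 (Or.inl ⟨t1 _ hNi, t2 _ hNi, t1 _ hNj, t2 _ hNj⟩)
    · rcases t3 with t3 | t3
      · exact alt i z1 j z3 o1 o2 (o3.trans (o4.trans o5))
          (Or.inl ⟨t1 _ hNi, t3 _ hNi, t1 _ hNj, t3 _ hNj⟩)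
      · exact alt j z2 k z3 o3 o4 o5 (Or.inr ⟨t2 _ hNj, t3 _ hNj, t2 _ hNk, t3 _ hNk⟩)
    · rcases t3 with t3 | t3
      · exact alt j z2 k z3 o3 o4 o5 (Or.inl ⟨t2 _ hNj, t3 _ hNj, t2 _ hNk, t3 _ hNk⟩)
      · exact alt i z1 j z3 o1 o2 (o3.trans (o4.trans o5))
          (Or.inr ⟨t1 _ hNi, t3 _ hNi, t1 _ hNj, t3 _ hNj⟩)
    · exact alt i z1 j z2 o1 o2 o3 (Or.inr ⟨t1 _ hNi, t2 _ hNi, t1 _ hNj, t2 _ hNj⟩)
  · have hi0 : 0 < (i : ℕ) := by
      by_contra h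
      exact h3 (by omega) (by omega)
    obtain ⟨z3, hz3⟩ : ∃ z : Fin n, (z : ℕ) = 0 := ⟨⟨0, by omega⟩, rfl⟩
    have t3 := typ z3 (by intro h; rw [h] at hz3; omega) (by intro h; rw [h] at hz3; omega)
      (by intro h; rw [h] at hz3; omega)
    have o5 : z3 < i := by rw [Fin.lt_def]; omega
    rcases t1 with t1 | t1 <;> rcases t2 with t2 | t2
    · exact alt i z1 j z2 o1 o2 o3 (Or.inl ⟨t1 _ hNi, t2 _ hNi, t1 _ hNj, t2 _ hNj⟩)
    · rcases t3 with t3 | t3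
      · exact alt z3 i z1 j o5 o1 o2 (Or.inr ⟨t3 _ hNi, t3 _ hNj, t1 _ hNi, t1 _ hNj⟩)
      · exact alt z3 j z2 k (o5.trans (o1.trans o2)) o3 o4
          (Or.inl ⟨t3 _ hNj, t3 _ hNk, t2 _ hNj, t2 _ hNk⟩)
    · rcases t3 with t3 | t3
      · exact alt z3 j z2 k (o5.trans (o1.trans o2)) o3 o4
          (Or.inr ⟨t3 _ hNj, t3 _ hNk, t2 _ hNj, t2 _ hNk⟩)
      · exact alt z3 i z1 j o5 o1 o2 (Or.inl ⟨t3 _ hNi, t3 _ hNj, t1 _ hNi, t1 _ hNj⟩)
    · exact alt i z1 j z2 o1 o2 o3 (Or.inr ⟨t1 _ hNi, t2 _ hNi, t1 _ hNj, t2 _ hNj⟩)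

/-- sorted version -/
theorem TRIPLE_srt (hF : St_four) (n : ℕ) (f : ℕ → Pl) (σ : Equiv.Perm (Fin n)) (b : Pl)
    (N : Fin n → Prop)
    (hc : ∀ i j k : Fin n, i < j → j < k → 0 < ori (f (σ i)) (f (σ j)) (f (σ k)))
    (hne : ∀ x y : Fin n, x ≠ y → ori b (f x) (f y) ≠ 0)
    (hN : ∀ x y z : Fin n, N x → N y → ¬ N z → 0 < ori b (f x) (f z) → 0 < ori b (f z) (f y) →
      False)
    (i j k : Fin n) (hij : i < j) (hjk : j < k) (hNN : ∀ x, N x ↔ x = σ i ∨ x = σ j ∨ x = σ k) :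
    σ j = rotP n σ (σ i) ∨ σ k = rotP n σ (σ j) ∨ σ i = rotP n σ (σ k) := by
  rcases TRIPLE_core hF n f σ b N hc hne hN i j k hij hjk hNN with h | h | ⟨h, h'⟩
  · exact Or.inl (TRIPLE_rot n σ i j h)
  · exact Or.inr (Or.inl (TRIPLE_rot n σ j k h))
  · exact Or.inr (Or.inr (TRIPLE_rot' n σ k i h' h))

theorem triple_ok (_hH : St_half) (hF : St_four) : St_triple := by
  intro n f σ b N _ hc _ hne hN a c d hac hcd had hNN
  obtain ⟨i, rfl⟩ := σ.surjective a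
  obtain ⟨j, rfl⟩ := σ.surjective c
  obtain ⟨k, rfl⟩ := σ.surjective d
  have hij : i ≠ j := fun h => hac (by rw [h])
  have hjk : j ≠ k := fun h => hcd (by rw [h])
  have hik : i ≠ k := fun h => had (by rw [h])
  have S := TRIPLE_srt hF n f σ b N hc hne hN
  rcases lt_or_gt_of_ne hij with h1 | h1 <;> rcases lt_or_gt_of_ne hjk with h2 | h2 <;>
    rcases lt_or_gt_of_ne hik with h3 | h3
  · have := S i j k h1 h2 (by intro x; rw [hNN])
    tauto
  · exact absurd (h1.trans h2) (not_lt.2 h3.le)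
  · have := S i k j h3 h2 (by intro x; rw [hNN]; tauto)
    tauto
  · have := S k i j h3 h1 (by intro x; rw [hNN]; tauto)
    tauto
  · have := S j i k h1 h3 (by intro x; rw [hNN]; tauto)
    tauto
  · have := S j k i h2 h3 (by intro x; rw [hNN]; tauto)
    tauto
  · exact absurd (h2.trans h1) (not_lt.2 h3.le)
  · have := S k j i h2 h1 (by intro x; rw [hNN]; tauto)
    tauto

end Pool.Agent.H670R5
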