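import Pool.Agent.H670R5.St2

namespace Pool.Agent.H670R5

open Pool.Agent.NPC Pool.Agent.H679R2

private theorem WBB_X (n : ℕ) (pos J K : ℕ → ℕ) (u : ℕ) (h1 : n ≤ u) (h2 : u < 2 * n) :
    ∃ k : ℕ, (pos (u - n) = 2 * k ∧ X n pos J K u = 2 * (k : ℝ) + 1 / 4) ∨
      (pos (u - n) = 2 * k + 1 ∧ X n pos J K u = 2 * (k : ℝ) + 3 / 4) := by
  refine ⟨pos (u - n) / 2, ?_⟩
  have hn : ¬ u < n := not_lt.mpr h1
  rcases Nat.mod_two_eq_zero_or_one (pos (u - n)) with h | h
  · left
    have e : pos (u - n) = 2 * (pos (u - n) / 2) := by omega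
    refine ⟨e, ?_⟩
    have e' : (pos (u - n) : ℝ) = 2 * ((pos (u - n) / 2 : ℕ) : ℝ) := by exact_mod_cast e
    unfold X
    rw [if_neg hn, if_pos h2, if_pos h, e']
  · right
    have e : pos (u - n) = 2 * (pos (u - n) / 2) + 1 := by omega
    refine ⟨e, ?_⟩
    have e' : (pos (u - n) : ℝ) = 2 * ((pos (u - n) / 2 : ℕ) : ℝ) + 1 := by exact_mod_cast e
    unfold X
    rw [if_neg hn, if_pos h2, if_neg (by omega), e']
    ring

private theorem WBB_partner (x : ℕ) : partner (partner x) = x := by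
  unfold partner
  split_ifs <;> omega

private theorem WBB_Ad (n : ℕ) (T : List (ℕ × ℕ × ℕ × Bool)) (u v : ℕ) (h1 : n ≤ u)
    (h2 : u < 2 * n) (h3 : n ≤ v) (h4 : v < 2 * n) (huv : u ≠ v) :
    Ad n T u v ↔ v - n ≠ partner (u - n) := by
  have key : ∀ a b : ℕ, n ≤ a → b < 2 * n → n ≤ b →
      (adjH n T a b = true ↔ b - n ≠ partner (a - n)) := by
    intro a b ha hb hb'
    unfold adjH
    rw [if_neg (not_lt.mpr hb'), if_pos hb, if_neg (not_lt.mpr ha), decide_eq_true_iff]
  unfold Ad
  rcases lt_or_gt_of_ne huv with h | h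
  · constructor
    · rintro (⟨-, h5⟩ | ⟨h5, -⟩)
      · exact (key u v h1 h4 h3).1 h5
      · omega
    · intro h5
      exact Or.inl ⟨h, (key u v h1 h4 h3).2 h5⟩
  · constructor
    · rintro (⟨h5, -⟩ | ⟨-, h5⟩)
      · omega
      · have h6 := (key v u h3 h2 h1).1 h5
        intro h7
        apply h6
        rw [h7, WBB_partner]
    · intro h5
      refine Or.inr ⟨h, (key v u h3 h2 h1).2 ?_⟩
      intro h6
      apply h5
      rw [h6, WBB_partner]

theorem wBB_ok : St_wBB := by
  intro n T pos J K hA u v h1 h2 h3 h4 huv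
  have hn := hA.even
  have hun : u - n < n := by omega
  have hvn : v - n < n := by omega
  have hpu : partner (u - n) < n := by unfold partner; split_ifs <;> omega
  obtain ⟨k, hk⟩ := WBB_X n pos J K u h1 h2
  obtain ⟨l, hl⟩ := WBB_X n pos J K v h3 h4
  have hne : pos (u - n) ≠ pos (v - n) := by
    intro h
    have := hA.inj _ hun _ hvn h
    omega
  have hQu1 : (Q n pos J K u).1 = X n pos J K u := rfl
  have hQv1 : (Q n pos J K v).1 = X n pos J K v := rfl
  have hQu2 : (Q n pos J K u).2 = -(X n pos J K u) ^ 2 + 1 / 16 := by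
    simp only [Q]; rw [if_neg (not_lt.mpr h1)]
  have hQv2 : (Q n pos J K v).2 = -(X n pos J K v) ^ 2 + 1 / 16 := by
    simp only [Q]; rw [if_neg (not_lt.mpr h3)]
  have hup : upS n J K u = -(5 / 8) := by unfold upS; rw [if_pos h2]
  have hlo : loS n J K u = 5 / 8 := by unfold loS; rw [if_pos h2]
  rw [WBB_Ad n T u v h1 h2 h3 h4 huv]
  unfold InW OutW
  rw [if_pos h2, if_pos h2, hup, hlo, hQu1, hQv1, hQu2, hQv2]
  constructor
  · intro hadj
    have hkl : k ≠ l := by
      intro hkl
      subst hkl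
      apply hadj
      have h5 : pos (v - n) = pos (partner (u - n)) := by
        rw [hA.part _ hun]
        unfold partner
        rcases hk with ⟨hk, -⟩ | ⟨hk, -⟩ <;> rcases hl with ⟨hl, -⟩ | ⟨hl, -⟩ <;>
          rw [hk] at hne ⊢ <;> rw [hl] at hne ⊢ <;> split_ifs <;> omega
      exact hA.inj _ hvn _ hpu h5
    set a := X n pos J K u with ha
    set b := X n pos J K v with hb
    have hr : 3 / 2 ≤ b - a ∨ b - a ≤ -(3 / 2) := by
      rcases lt_or_gt_of_ne hkl with h | h
      · left
        have h5 : (k : ℝ) + 1 ≤ l := by exact_mod_cast h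
        rcases hk with ⟨-, hk⟩ | ⟨-, hk⟩ <;> rcases hl with ⟨-, hl⟩ | ⟨-, hl⟩ <;>
          rw [hk, hl] <;> linarith
      · right
        have h5 : (l : ℝ) + 1 ≤ k := by exact_mod_cast h
        rcases hk with ⟨-, hk⟩ | ⟨-, hk⟩ <;> rcases hl with ⟨-, hl⟩ | ⟨-, hl⟩ <;>
          rw [hk, hl] <;> linarith
    have e1 : -b ^ 2 + 1 / 16 - (-a ^ 2 + 1 / 16) = -(2 * a) * (b - a) - (b - a) ^ 2 := by ring
    rw [e1]
    set r := b - a with hrdef
    constructor
    · rcases hr with hr | hr
      · nlinarith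
      · nlinarith
    · rcases hr with hr | hr
      · nlinarith
      · nlinarith
  · intro hadj
    push Not at hadj
    have h5 : pos (v - n) = partner (pos (u - n)) := by
      rw [hadj, hA.part _ hun]
    set a := X n pos J K u with ha
    set b := X n pos J K v with hb
    have hr : b - a = 1 / 2 ∨ b - a = -(1 / 2) := by
      unfold partner at h5
      rcases hk with ⟨hk, hk'⟩ | ⟨hk, hk'⟩
      · rw [hk, if_pos (by omega)] at h5
        rcases hl with ⟨hl, hl'⟩ | ⟨hl, hl'⟩
        · omega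
        · have : l = k := by omega
          left
          rw [hk', hl', this]; ring
      · rw [hk, if_neg (by omega)] at h5
        rcases hl with ⟨hl, hl'⟩ | ⟨hl, hl'⟩
        · have : l = k := by omega
          right
          rw [hk', hl', this]; ring
        · omega
    have e1 : -b ^ 2 + 1 / 16 - (-a ^ 2 + 1 / 16) = -(2 * a) * (b - a) - (b - a) ^ 2 := by ring
    rw [e1]
    rcases hr with hr | hr
    · left
      rw [hr]
      linarith
    · right
      rw [hr]
      linarith

end Pool.Agent.H670R5
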