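import Pool.Agent.H670R5.St2

/-!
# Windows: opponents and triple vertices
-/

namespace Pool.Agent.H670R5

open Pool.Agent.NPC Pool.Agent.H679R2

theorem wBT_out (h r s : ℝ) (hh : (3 / 2 ≤ h ∧ s = 1) ∨ (h ≤ -(3 / 2) ∧ s = -1)) (hr : r ≠ 0)
    (hd : r - h < -(5 / 8) ∨ 5 / 8 < r - h) :
    r * (r - h + s * (5 / 8)) < 0 ∨ 0 < r * (r - h - s * (5 / 8)) := by
  rcases hh with ⟨h1, rfl⟩ | ⟨h1, rfl⟩
  · rcases lt_or_gt_of_ne hr with h2 | h2
    · right
      exact mul_pos_of_neg_of_neg h2 (by linarith)
    · rcases hd with h3 | h3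
      · left
        exact mul_neg_of_pos_of_neg h2 (by linarith)
      · right
        exact mul_pos h2 (by linarith)
  · rcases lt_or_gt_of_ne hr with h2 | h2
    · rcases hd with h3 | h3
      · right
        exact mul_pos_of_neg_of_neg h2 (by linarith)
      · left
        exact mul_neg_of_neg_of_pos h2 (by linarith)
    · right
      exact mul_pos h2 (by linarith)

theorem wBT_in (h r s : ℝ) (hh : (3 / 2 ≤ h ∧ s = 1) ∨ (h ≤ -(3 / 2) ∧ s = -1))
    (hd1 : -(5 / 8) < r - h) (hd2 : r - h < 5 / 8) :
    0 < r * (r - h + s * (5 / 8)) ∧ r * (r - h - s * (5 / 8)) < 0 := by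
  rcases hh with ⟨h1, rfl⟩ | ⟨h1, rfl⟩
  · have h2 : 0 < r := by linarith
    exact ⟨mul_pos h2 (by linarith), mul_neg_of_pos_of_neg h2 (by linarith)⟩
  · have h2 : r < 0 := by linarith
    exact ⟨mul_pos_of_neg_of_neg h2 (by linarith), mul_neg_of_neg_of_pos h2 (by linarith)⟩

theorem wBT_delta (h : ℝ) (hh : 3 / 2 ≤ h ∨ h ≤ -(3 / 2)) :
    -(1 / 24) ≤ 1 / (16 * h) ∧ 1 / (16 * h) ≤ 1 / 24 := by
  rcases hh with h1 | h1
  · have h2 : 0 < 16 * h := by linarith
    have h3 : 0 < 1 / (16 * h) := by positivity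
    refine ⟨by linarith, ?_⟩
    rw [div_le_div_iff₀ h2 (by norm_num)]
    linarith
  · have h2 : 0 < 16 * (-h) := by linarith
    have e : 1 / (16 * h) = -(1 / (16 * (-h))) := by
      rw [mul_neg, one_div_neg_eq_neg_one_div, neg_neg]
    have h3 : 0 < 1 / (16 * (-h)) := by positivity
    rw [e]
    refine ⟨?_, by linarith⟩
    have : 1 / (16 * (-h)) ≤ 1 / 24 := by
      rw [div_le_div_iff₀ h2 (by norm_num)]
      linarith
    linarith

theorem wBT_ok : St_wBT := by
  intro n T pos J K hA u v hu1 hu2 hv1 hv2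
  have hi : v - 2 * n < T.length := by
    unfold sz at hv2
    omega
  set i := v - 2 * n with hidef
  have hun : ¬ u < n := by omega
  have hvn : ¬ v < n := by omega
  have hv2n : ¬ v < 2 * n := by omega
  have huv : u < v := by omega
  have hw : u - n < n := by omega
  -- adjacency
  have hAd : Ad n T u v ↔ ((T.getD i (0, 0, 0, false)).2.2.2 = true ∧
      (u - n = (T.getD i (0, 0, 0, false)).1 ∨ u - n = (T.getD i (0, 0, 0, false)).2.1)) := by
    unfold Ad adjH
    simp only [hvn, hv2n, hun, hu2, if_false, if_true, ← hidef]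
    constructor
    · rintro (⟨h1, h2⟩ | ⟨h1, h2⟩)
      · simpa using h2
      · omega
    · intro h
      left
      exact ⟨huv, by simpa using h⟩
  obtain ⟨hne1, hne2⟩ := hA.ne i hi
  obtain ⟨ht1, ht2, ht3⟩ := hA.tlt i hi
  have hfl := hA.flag i hi
  have hfl' := hA.flag' i hi
  have hhf := hA.hf i hi
  -- coordinates
  set h : ℝ := (K i : ℝ) + 1 / 2 - (J i : ℝ) with hhdef
  have hsgn : (3 / 2 ≤ h ∧ sg J K i = 1) ∨ (h ≤ -(3 / 2) ∧ sg J K i = -1) := by
    unfold sg
    rcases lt_or_ge (K i) (J i) with h1 | h1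
    · right
      have h2 : K i + 2 ≤ J i := by omega
      have h3 : (K i : ℝ) + 2 ≤ J i := by exact_mod_cast h2
      refine ⟨by rw [hhdef]; linarith, if_neg (by omega)⟩
    · left
      have h2 : J i + 1 ≤ K i := by omega
      have h3 : (J i : ℝ) + 1 ≤ K i := by exact_mod_cast h2
      refine ⟨by rw [hhdef]; linarith, if_pos h1⟩
  have hXv : X n pos J K v = (J i : ℝ) - 1 / (16 * h) := by
    unfold X
    rw [if_neg hvn, if_neg hv2n]
  have hQv : Q n pos J K v = (X n pos J K v, -(X n pos J K v) ^ 2 + 1 / 16) := by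
    unfold Q
    rw [if_neg hvn]
  have hQu : Q n pos J K u = (X n pos J K u, -(X n pos J K u) ^ 2 + 1 / 16) := by
    unfold Q
    rw [if_neg hun]
  obtain ⟨hδ1, hδ2⟩ := wBT_delta h (by rcases hsgn with h1 | h1; exacts [Or.inl h1.1, Or.inr h1.1])
  set δ : ℝ := 1 / (16 * h) with hδ
  set a := pos (u - n) with ha
  have hXu : (a % 2 = 0 ∧ X n pos J K u = (a : ℝ) + 1 / 4) ∨
      (a % 2 = 1 ∧ X n pos J K u = (a : ℝ) - 1 / 4) := by
    unfold X
    rw [if_neg hun, if_pos hu2]
    rcases Nat.mod_two_eq_zero_or_one a with h1 | h1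
    · left; exact ⟨h1, if_pos h1⟩
    · right; exact ⟨h1, if_neg (by omega)⟩
  have hupv : upS n J K v = -h + sg J K i * (5 / 8) := by
    unfold upS hh
    rw [if_neg hv2n]
  have hlov : loS n J K v = -h - sg J K i * (5 / 8) := by
    unfold loS hh
    rw [if_neg hv2n]
  have hupu : upS n J K u = -(5 / 8) := by
    unfold upS
    rw [if_pos hu2]
  have hlou : loS n J K u = 5 / 8 := by
    unfold loS
    rw [if_pos hu2]
  -- the far pair
  have hfar : (T.getD i (0, 0, 0, false)).2.2.2 = true →
      (K i % 2 = 0 ∧ ((pos (T.getD i (0, 0, 0, false)).1 = K i ∧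
        pos (T.getD i (0, 0, 0, false)).2.1 = K i + 1) ∨
      (pos (T.getD i (0, 0, 0, false)).2.1 = K i ∧
        pos (T.getD i (0, 0, 0, false)).1 = K i + 1))) := by
    intro hf
    refine ⟨hfl.1 hf, ?_⟩
    have hc := hfl' hf
    rcases hhf with ⟨h1, h2⟩ | ⟨h1, h2⟩ | ⟨h1, h2⟩
    · rw [hc] at h2
      omega
    · rw [hc] at h2
      omega
    · exact h2
  rw [hAd]
  refine ⟨?_, ?_⟩
  · rintro ⟨hf, hu⟩
    obtain ⟨hK, hp⟩ := hfar hf
    have haK : a = K i ∨ a = K i + 1 := by
      rw [ha]
      rcases hu with hu | hu <;> rw [hu] <;> omega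
    have hXK : X n pos J K u = (K i : ℝ) + 1 / 4 ∨ X n pos J K u = (K i : ℝ) + 3 / 4 := by
      rcases haK with h1 | h1
      · left
        rcases hXu with ⟨h2, h3⟩ | ⟨h2, h3⟩
        · rw [h3, h1]
        · omega
      · right
        rcases hXu with ⟨h2, h3⟩ | ⟨h2, h3⟩
        · omega
        · rw [h3, h1]
          push_cast
          ring
    set r : ℝ := X n pos J K u - X n pos J K v with hr
    have hrh : r - h = X n pos J K u - (K i : ℝ) - 1 / 2 + δ := by
      rw [hr, hXv, hhdef]
      ring
    have hr1 : -(5 / 8) < r - h := by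
      rw [hrh]
      rcases hXK with h1 | h1 <;> rw [h1] <;> linarith
    have hr2 : r - h < 5 / 8 := by
      rw [hrh]
      rcases hXK with h1 | h1 <;> rw [h1] <;> linarith
    obtain ⟨k1, k2⟩ := wBT_in h r _ hsgn hr1 hr2
    have hrr : 5 / 8 < r ∨ r < -(5 / 8) := by
      have hd : |r - h| ≤ 1 / 4 + 1 / 24 := by
        rw [hrh, abs_le]
        rcases hXK with h1 | h1 <;> rw [h1] <;> constructor <;> linarith
      rw [abs_le] at hd
      rcases hsgn with h1 | h1
      · left; linarith [hd.1, h1.1]
      · right; linarith [hd.2, h1.1]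
    constructor
    · unfold InW
      rw [if_pos hu2, hQu, hQv, hupu, hlou]
      simp only
      have e : -(X n pos J K v) ^ 2 + 1 / 16 - (-(X n pos J K u) ^ 2 + 1 / 16) =
          -(r ^ 2) + r * (2 * X n pos J K u) := by
        rw [hr]; ring
      have e2 : X n pos J K v - X n pos J K u = -r := by rw [hr]; ring
      rw [e, e2]
      have q1 : 0 < r * (r + 5 / 8) := by
        rcases hrr with h1 | h1
        · exact mul_pos (by linarith) (by linarith)
        · exact mul_pos_of_neg_of_neg (by linarith) (by linarith)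
      have q2 : 0 < r * (r - 5 / 8) := by
        rcases hrr with h1 | h1
        · exact mul_pos (by linarith) (by linarith)
        · exact mul_pos_of_neg_of_neg (by linarith) (by linarith)
      clear_value r
      constructor
      · linarith [q1, q2]
      · linarith [q1, q2]
    · unfold InW
      rw [if_neg hv2n, hQu, hQv, hupv, hlov]
      simp only
      have e : -(X n pos J K u) ^ 2 + 1 / 16 - (-(X n pos J K v) ^ 2 + 1 / 16) =
          -(r ^ 2) - r * (2 * X n pos J K v) := by
        rw [hr]; ring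
      rw [e, ← hr]
      constructor
      · linarith [k1, k2]
      · linarith [k1, k2]
  · intro hnot
    have hnK : ¬ (K i % 2 = 0 ∧ (a = K i ∨ a = K i + 1)) := by
      rintro ⟨h1, h2⟩
      have hf := hfl.2 h1
      obtain ⟨-, hp⟩ := hfar hf
      apply hnot
      refine ⟨hf, ?_⟩
      rcases hp with ⟨p1, p2⟩ | ⟨p1, p2⟩
      · rcases h2 with h2 | h2
        · left
          exact hA.inj _ hw _ ht1 (by rw [← ha, h2, p1])
        · right
          exact hA.inj _ hw _ ht2 (by rw [← ha, h2, p2])
      · rcases h2 with h2 | h2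
        · right
          exact hA.inj _ hw _ ht2 (by rw [← ha, h2, p1])
        · left
          exact hA.inj _ hw _ ht1 (by rw [← ha, h2, p2])
    set r : ℝ := X n pos J K u - X n pos J K v with hr
    have hrh : r - h = X n pos J K u - (K i : ℝ) - 1 / 2 + δ := by
      rw [hr, hXv, hhdef]
      ring
    have hrJ : r = X n pos J K u - (J i : ℝ) + δ := by
      rw [hr, hXv]
      ring
    have hr0 : r ≠ 0 := by
      rcases hXu with ⟨h2, h3⟩ | ⟨h2, h3⟩
      · rcases lt_or_ge a (J i) with h4 | h4
        · have h5 : (a : ℝ) + 1 ≤ J i := by exact_mod_cast h4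
          have : r < 0 := by rw [hrJ, h3]; linarith
          exact this.ne
        · have h5 : (J i : ℝ) ≤ a := by exact_mod_cast h4
          have : 0 < r := by rw [hrJ, h3]; linarith
          exact this.ne'
      · rcases le_or_gt a (J i) with h4 | h4
        · have h5 : (a : ℝ) ≤ J i := by exact_mod_cast h4
          have : r < 0 := by rw [hrJ, h3]; linarith
          exact this.ne
        · have h5 : (J i : ℝ) + 1 ≤ a := by exact_mod_cast h4
          have : 0 < r := by rw [hrJ, h3]; linarith
          exact this.ne'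
    have hd : r - h < -(5 / 8) ∨ 5 / 8 < r - h := by
      rw [hrh]
      rcases lt_or_ge a (K i) with h4 | h4
      · left
        have h5 : (a : ℝ) + 1 ≤ K i := by exact_mod_cast h4
        rcases hXu with ⟨h2, h3⟩ | ⟨h2, h3⟩ <;> rw [h3] <;> linarith
      · rcases lt_or_ge (K i + 1) a with h6 | h6
        · right
          have h5 : (K i : ℝ) + 1 + 1 ≤ a := by exact_mod_cast h6
          rcases hXu with ⟨h2, h3⟩ | ⟨h2, h3⟩ <;> rw [h3] <;> linarith
        · rcases (by omega : a = K i ∨ a = K i + 1) with h7 | h7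
          · left
            have h8 : a % 2 = 1 := by omega
            rcases hXu with ⟨h2, h3⟩ | ⟨h2, h3⟩
            · omega
            · rw [h3, h7]
              linarith
          · right
            have h8 : a % 2 = 0 := by omega
            rcases hXu with ⟨h2, h3⟩ | ⟨h2, h3⟩
            · rw [h3, h7]
              push_cast
              linarith
            · omega
    have key := wBT_out h r _ hsgn hr0 hd
    unfold OutW
    rw [if_neg hv2n, hQu, hQv, hupv, hlov]
    simp only
    have e : -(X n pos J K u) ^ 2 + 1 / 16 - (-(X n pos J K v) ^ 2 + 1 / 16) =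
        -(r ^ 2) - r * (2 * X n pos J K v) := by
      rw [hr]; ring
    rw [e, ← hr]
    rcases key with k | k
    · left; linarith [k]
    · right; linarith [k]

end Pool.Agent.H670R5
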