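import Pool.Agent.H670R5.St2

namespace Pool.Agent.H670R5

open Pool.Agent.NPC Pool.Agent.H679R2

private theorem wdisp_aux {a b p q : ℝ} (ha : 0 ≤ a) (hb : 0 ≤ b) (hab : a + b = 1) (hp : 0 < p)
    (hq : 0 < q) : 0 < a * p + b * q := by
  rcases eq_or_lt_of_le ha with h | h
  · have hb1 : b = 1 := by linarith
    rw [← h, hb1]; linarith
  · have h1 := mul_pos h hp
    have h2 := mul_nonneg hb hq.le
    linarith

private theorem wdisp_lt {a b c d s x1 x2 y1 y2 : ℝ} (ha : 0 ≤ a) (hb : 0 ≤ b) (hab : a + b = 1)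
    (hx : x2 - c < (x1 - d) * s) (hy : y2 - c < (y1 - d) * s) :
    (a * x2 + b * y2) - c < ((a * x1 + b * y1) - d) * s := by
  have h := wdisp_aux ha hb hab (sub_pos.2 hx) (sub_pos.2 hy)
  have hb' : b = 1 - a := by linarith
  subst hb'
  have e : ((a * x1 + (1 - a) * y1) - d) * s - ((a * x2 + (1 - a) * y2) - c) =
    a * ((x1 - d) * s - (x2 - c)) + (1 - a) * ((y1 - d) * s - (y2 - c)) := by ring
  linarith

private theorem wdisp_gt {a b c d s x1 x2 y1 y2 : ℝ} (ha : 0 ≤ a) (hb : 0 ≤ b) (hab : a + b = 1)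
    (hx : (x1 - d) * s < x2 - c) (hy : (y1 - d) * s < y2 - c) :
    ((a * x1 + b * y1) - d) * s < (a * x2 + b * y2) - c := by
  have h := wdisp_aux ha hb hab (sub_pos.2 hx) (sub_pos.2 hy)
  have hb' : b = 1 - a := by linarith
  subst hb'
  have e : ((a * x2 + (1 - a) * y2) - c) - ((a * x1 + (1 - a) * y1) - d) * s =
    a * ((x2 - c) - (x1 - d) * s) + (1 - a) * ((y2 - c) - (y1 - d) * s) := by ring
  linarith

private theorem wdisp_convex (n : ℕ) (pos J K : ℕ → ℕ) (u : ℕ) :
    Convex ℝ {z : Pl | InW n pos J K u z} := by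
  intro x hx y hy a b ha hb hab
  simp only [Set.mem_setOf_eq, InW] at hx hy ⊢
  split_ifs at hx hy ⊢ with h
  · refine ⟨?_, ?_⟩
    · have := wdisp_lt ha hb hab hx.1 hy.1
      simpa [Prod.fst_add, Prod.snd_add, smul_eq_mul] using this
    · have := wdisp_lt ha hb hab hx.2 hy.2
      simpa [Prod.fst_add, Prod.snd_add, smul_eq_mul] using this
  · refine ⟨?_, ?_⟩
    · have := wdisp_lt ha hb hab hx.1 hy.1
      simpa [Prod.fst_add, Prod.snd_add, smul_eq_mul] using this
    · have := wdisp_gt ha hb hab hx.2 hy.2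
      simpa [Prod.fst_add, Prod.snd_add, smul_eq_mul] using this

private theorem wdisp_isOpen (n : ℕ) (pos J K : ℕ → ℕ) (u : ℕ) :
    IsOpen {z : Pl | InW n pos J K u z} := by
  by_cases h : u < 2 * n
  · have e : {z : Pl | InW n pos J K u z} = {z : Pl | z.2 - (Q n pos J K u).2 <
        (z.1 - (Q n pos J K u).1) * (upS n J K u - 2 * (Q n pos J K u).1)} ∩
        {z : Pl | z.2 - (Q n pos J K u).2 <
        (z.1 - (Q n pos J K u).1) * (loS n J K u - 2 * (Q n pos J K u).1)} := by
      ext z; simp [InW, h]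
    rw [e]
    apply IsOpen.inter <;> exact isOpen_lt (by fun_prop) (by fun_prop)
  · have e : {z : Pl | InW n pos J K u z} = {z : Pl | z.2 - (Q n pos J K u).2 <
        (z.1 - (Q n pos J K u).1) * (upS n J K u - 2 * (Q n pos J K u).1)} ∩
        {z : Pl | (z.1 - (Q n pos J K u).1) * (loS n J K u - 2 * (Q n pos J K u).1) <
          z.2 - (Q n pos J K u).2} := by
      ext z; simp [InW, h]
    rw [e]
    apply IsOpen.inter <;> exact isOpen_lt (by fun_prop) (by fun_prop)

private theorem wdisp_sg (J K : ℕ → ℕ) (i : ℕ) : sg J K i * sg J K i = 1 := by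
  unfold sg; split_ifs <;> norm_num

private theorem wdisp_own (n : ℕ) (pos J K : ℕ → ℕ) (u : ℕ) (hu : n ≤ u) (τ : ℝ) (hτ : 0 < τ) :
    InW n pos J K u (Qt n pos J K τ u) := by
  unfold InW
  split_ifs with h
  · have h1 : (Qt n pos J K τ u).1 = (Q n pos J K u).1 := by
      simp [Qt, dirV, not_lt.mpr hu, h]
    have h2 : (Qt n pos J K τ u).2 = (Q n pos J K u).2 - τ := by
      simp [Qt, dirV, not_lt.mpr hu, h]; ring
    rw [h1, h2]
    constructor <;> simp <;> linarith
  · have hs := wdisp_sg J K (u - 2 * n)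
    have hX : (Q n pos J K u).1 = X n pos J K u := rfl
    have h1 : (Qt n pos J K τ u).1 = (Q n pos J K u).1 + τ * sg J K (u - 2 * n) := by
      simp [Qt, dirV, not_lt.mpr hu, h]
    have h2 : (Qt n pos J K τ u).2 = (Q n pos J K u).2 + τ * (sg J K (u - 2 * n) *
        (-(hh J K (u - 2 * n)) - 2 * X n pos J K u)) := by
      simp [Qt, dirV, not_lt.mpr hu, h]
    rw [h1, h2, hX]
    unfold upS loS
    rw [if_neg h, if_neg h]
    set s := sg J K (u - 2 * n)
    set k := hh J K (u - 2 * n)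
    set x := X n pos J K u
    constructor
    · have e : (x + τ * s - x) * (-k + s * (5 / 8) - 2 * x) -
          ((Q n pos J K u).2 + τ * (s * (-k - 2 * x)) - (Q n pos J K u).2) = τ * (s * s) * (5 / 8) := by
        ring
      rw [hs] at e
      linarith
    · have e : ((Q n pos J K u).2 + τ * (s * (-k - 2 * x)) - (Q n pos J K u).2) -
          (x + τ * s - x) * (-k - s * (5 / 8) - 2 * x) = τ * (s * s) * (5 / 8) := by
        ring
      rw [hs] at e
      linarith

theorem wdisp_ok (hX : St_X) : St_wdisp := by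
  intro n T pos J K _
  refine ⟨fun u _ _ => wdisp_convex n pos J K u, ?_⟩
  have hev : ∀ᶠ τ in nhds (0 : ℝ), ∀ u ∈ Set.Iio (sz n T), ∀ v ∈ Set.Iio (sz n T),
      InW n pos J K u (Q n pos J K v) → InW n pos J K u (Qt n pos J K τ v) := by
    rw [Filter.eventually_all_finite (Set.finite_Iio _)]
    intro u _
    rw [Filter.eventually_all_finite (Set.finite_Iio _)]
    intro v _
    by_cases h : InW n pos J K u (Q n pos J K v)
    · have hc : ContinuousAt (fun τ : ℝ => Qt n pos J K τ v) 0 := by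
        unfold Qt
        exact (continuous_const.add (continuous_id.smul continuous_const)).continuousAt
      have h0 : (fun τ : ℝ => Qt n pos J K τ v) 0 = Q n pos J K v := by simp [Qt]
      have := hc.eventually (show ∀ᶠ z in nhds ((fun τ : ℝ => Qt n pos J K τ v) 0),
        InW n pos J K u z from by
          rw [h0]; exact (wdisp_isOpen n pos J K u).mem_nhds h)
      filter_upwards [this] with τ hτ _ using hτ
    · exact Filter.Eventually.of_forall (fun τ hh => absurd hh h)
  rw [Metric.eventually_nhds_iff] at hev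
  obtain ⟨τ₀, hτ₀, H⟩ := hev
  refine ⟨τ₀, hτ₀, ?_⟩
  intro τ h1 h2 u hu hu'
  refine ⟨wdisp_own n pos J K u hu τ h1, ?_⟩
  intro v hv hin
  exact H (by rw [Real.dist_eq, sub_zero, abs_of_pos h1]; exact h2) u hu' v hv hin

end Pool.Agent.H670R5
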