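import Pool.Agent.H670R5.St2

/-! Task WIN: summary of the windows. -/

namespace Pool.Agent.H670R5

open Pool.Agent.NPC Pool.Agent.H679R2

private theorem win_symm {n : ℕ} {T : List (ℕ × ℕ × ℕ × Bool)} {u v : ℕ} :
    Ad n T u v ↔ Ad n T v u := Or.comm

private theorem win_KK {n : ℕ} {T : List (ℕ × ℕ × ℕ × Bool)} {u v : ℕ} (hu : u < n) (hv : v < n)
    (huv : u ≠ v) : Ad n T u v := by
  rcases Nat.lt_or_gt_of_ne huv with h | h
  · exact Or.inl ⟨h, by simp [adjH, hv]⟩
  · exact Or.inr ⟨h, by simp [adjH, hu]⟩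

theorem win_ok (hKB : St_wKB) (hKT : St_wKT) (hBB : St_wBB) (hBT : St_wBT) (hTT : St_wTT) :
    St_win := by
  intro n T pos J K hA u hu v hv huv
  rcases lt_or_ge u n with hu1 | hu1
  · -- `u` is an element
    refine ⟨fun _ h => absurd hu1 (not_lt.2 h), fun h => Or.inr ?_⟩
    rcases lt_or_ge v n with hv1 | hv1
    · exact absurd (win_KK hu1 hv1 huv) h
    · refine ⟨hv1, ?_⟩
      rcases lt_or_ge v (2 * n) with hv2 | hv2
      · exact (hKB n T pos J K hA v u hu1 hv1 hv2).2 h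
      · exact (hKT n T pos J K hA v u hu1 hv2 hv).2 h
  · rcases lt_or_ge u (2 * n) with hu2 | hu2
    · rcases lt_or_ge v n with hv1 | hv1
      · have h1 := hKB n T pos J K hA u v hv1 hu1 hu2
        exact ⟨fun h _ => h1.1 (win_symm.1 h),
          fun h => Or.inl ⟨hu1, h1.2 (fun h' => h (win_symm.1 h'))⟩⟩
      · rcases lt_or_ge v (2 * n) with hv2 | hv2
        · have h1 := hBB n T pos J K hA u v hu1 hu2 hv1 hv2 huv
          exact ⟨fun h _ => h1.1 h, fun h => Or.inl ⟨hu1, h1.2 h⟩⟩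
        · have h1 := hBT n T pos J K hA u v hu1 hu2 hv2 hv
          exact ⟨fun h _ => (h1.1 h).1, fun h => Or.inr ⟨hv1, h1.2 h⟩⟩
    · rcases lt_or_ge v n with hv1 | hv1
      · have h1 := hKT n T pos J K hA u v hv1 hu2 hu
        exact ⟨fun h _ => h1.1 (win_symm.1 h),
          fun h => Or.inl ⟨hu1, h1.2 (fun h' => h (win_symm.1 h'))⟩⟩
      · rcases lt_or_ge v (2 * n) with hv2 | hv2
        · have h1 := hBT n T pos J K hA v u hv1 hv2 hu2 hu
          exact ⟨fun h _ => (h1.1 (win_symm.1 h)).2,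
            fun h => Or.inl ⟨hu1, h1.2 (fun h' => h (win_symm.1 h'))⟩⟩
        · have h1 := hTT n T pos J K hA u v hu2 hu hv2 hv huv
          refine ⟨fun h _ => absurd h h1.1, fun _ => ?_⟩
          rcases h1.2 with h2 | h2
          · exact Or.inl ⟨hu1, h2⟩
          · exact Or.inr ⟨hv1, h2⟩

end Pool.Agent.H670R5
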