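import Pool.Agent.H670R5.St2

namespace Pool.Agent.H670R5

open Pool.Agent.NPC Pool.Agent.H679R2

private theorem wKB_ad (n : ℕ) (T : List (ℕ × ℕ × ℕ × Bool)) (u v : ℕ) (hv : v < n) (hu : n ≤ u)
    (hu2 : u < 2 * n) : Ad n T v u ↔ v ≠ u - n := by
  have h1 : v < u := by omega
  have h2 : ¬ u < v := by omega
  have h3 : ¬ u < n := by omega
  unfold Ad adjH
  simp only [h1, h2, h3, hu2, hv, if_true, if_false, true_and, false_and, or_false,
    decide_eq_true_eq]

private theorem wKB_in (x m : ℝ) (h : 3 / 4 ≤ |m - x|) :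
    -m ^ 2 + 0 - (-x ^ 2 + 1 / 16) < (m - x) * (-(5 / 8) - 2 * x) ∧
    -m ^ 2 + 0 - (-x ^ 2 + 1 / 16) < (m - x) * (5 / 8 - 2 * x) := by
  rcases le_total 0 (m - x) with h0 | h0
  · rw [abs_of_nonneg h0] at h
    constructor <;> nlinarith
  · rw [abs_of_nonpos h0] at h
    constructor <;> nlinarith

private theorem wKB_out (x m : ℝ) (h : m - x = 1 / 4 ∨ m - x = -(1 / 4)) :
    (m - x) * (-(5 / 8) - 2 * x) < -m ^ 2 + 0 - (-x ^ 2 + 1 / 16) ∨
    (m - x) * (5 / 8 - 2 * x) < -m ^ 2 + 0 - (-x ^ 2 + 1 / 16) := by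
  rcases h with h | h
  · left
    have : m = x + 1 / 4 := by linarith
    subst this
    nlinarith
  · right
    have : m = x - 1 / 4 := by linarith
    subst this
    nlinarith

theorem wKB_ok : St_wKB := by
  intro n T pos J K hA u v hv hu hu2
  have hw : u - n < n := by omega
  have hun : ¬ u < n := by omega
  rw [wKB_ad n T u v hv hu hu2]
  have hQv : Q n pos J K v = ((pos v : ℝ), -(pos v : ℝ) ^ 2 + 0) := by
    simp only [Q, X, hv, if_true]
  have hQu : Q n pos J K u = (X n pos J K u, -(X n pos J K u) ^ 2 + 1 / 16) := by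
    simp only [Q, hun, if_false]
  have hX : X n pos J K u = (pos (u - n) : ℝ) + 1 / 4 ∨
      X n pos J K u = (pos (u - n) : ℝ) - 1 / 4 := by
    simp only [X, hun, hu2, if_false, if_true]
    split_ifs
    · exact Or.inl rfl
    · exact Or.inr rfl
  have hup : upS n J K u = -(5 / 8) := by simp only [upS, hu2, if_true]
  have hlo : loS n J K u = 5 / 8 := by simp only [loS, hu2, if_true]
  constructor
  · intro hne
    have hpos : pos v ≠ pos (u - n) := fun h => hne (hA.inj v hv (u - n) hw h)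
    have h1 : (1 : ℝ) ≤ |(pos v : ℝ) - (pos (u - n) : ℝ)| := by
      have h2 : (1 : ℤ) ≤ |(pos v : ℤ) - (pos (u - n) : ℤ)| := by
        apply Int.one_le_abs
        intro h
        apply hpos
        omega
      exact_mod_cast h2
    have h3 : 3 / 4 ≤ |(pos v : ℝ) - X n pos J K u| := by
      rcases hX with h | h <;> rw [h]
      · have h4 := abs_sub_abs_le_abs_sub ((pos v : ℝ) - (pos (u - n) : ℝ)) (1 / 4)
        rw [abs_of_pos (by norm_num : (0 : ℝ) < 1 / 4)] at h4
        have h5 : (pos v : ℝ) - ((pos (u - n) : ℝ) + 1 / 4) =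
          (pos v : ℝ) - (pos (u - n) : ℝ) - 1 / 4 := by ring
        rw [h5]
        linarith
      · have h4 := abs_sub_abs_le_abs_sub ((pos v : ℝ) - (pos (u - n) : ℝ)) (-(1 / 4))
        rw [abs_neg, abs_of_pos (by norm_num : (0 : ℝ) < 1 / 4)] at h4
        have h5 : (pos v : ℝ) - ((pos (u - n) : ℝ) - 1 / 4) =
          (pos v : ℝ) - (pos (u - n) : ℝ) - -(1 / 4) := by ring
        rw [h5]
        linarith
    unfold InW
    rw [if_pos hu2, hQu, hQv, hup, hlo]
    exact wKB_in _ _ h3
  · intro hne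
    have he : v = u - n := not_not.1 hne
    unfold OutW
    rw [if_pos hu2, hQu, hQv, hup, hlo]
    apply wKB_out
    rw [he]
    rcases hX with h | h <;> rw [h]
    · right
      ring
    · left
      ring

end Pool.Agent.H670R5
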