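import Pool.Agent.H670R5.St2

/-!
# Windows of the triple vertices and the elements
-/

namespace Pool.Agent.H670R5

open Pool.Agent.NPC Pool.Agent.H679R2

private theorem wKT_in (h δ d : ℝ) (hh : 3 / 2 ≤ h) (hδ : δ * h = 1 / 16)
    (hd : d = 0 ∨ d = h - 1 / 2 ∨ d = h + 1 / 2) :
    0 < (d + δ) * (d + δ - h + 5 / 8) + 1 / 16 ∧ (d + δ) * (d + δ - h - 5 / 8) + 1 / 16 < 0 := by
  have h0 : 0 < δ := by
    by_contra hc
    push Not at hc
    nlinarith
  have h1 : δ ≤ 1 / 24 := by nlinarith
  rcases hd with hd | hd | hd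
  · subst hd
    constructor
    · nlinarith
    · nlinarith
  · subst hd
    constructor
    · nlinarith
    · nlinarith
  · subst hd
    constructor
    · nlinarith
    · nlinarith

private theorem wKT_out (h δ d : ℝ) (hh : 3 / 2 ≤ h) (hδ : δ * h = 1 / 16)
    (hd : d ≤ -1 ∨ (1 ≤ d ∧ d ≤ h - 3 / 2) ∨ h + 3 / 2 ≤ d) :
    (d + δ) * (d + δ - h + 5 / 8) + 1 / 16 < 0 ∨ 0 < (d + δ) * (d + δ - h - 5 / 8) + 1 / 16 := by
  have h0 : 0 < δ := by
    by_contra hc
    push Not at hc
    nlinarith
  have h1 : δ ≤ 1 / 24 := by nlinarith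
  rcases hd with hd | ⟨hd, hd'⟩ | hd
  · right
    have : 0 < (-(d + δ)) * (-(d + δ - h - 5 / 8)) := by
      apply mul_pos <;> linarith
    linarith
  · left
    have : (1 : ℝ) * (7 / 8 - 1 / 24) ≤ (d + δ) * (-(d + δ - h + 5 / 8)) := by
      apply mul_le_mul <;> linarith
    linarith
  · right
    have : 0 < (d + δ) * (d + δ - h - 5 / 8) := by
      apply mul_pos <;> linarith
    linarith

/-- both signs of `h` -/
private theorem wKT_core (J K m : ℕ) (hJ : J ≠ K ∧ J ≠ K + 1) (h δ r s : ℝ)
    (hh : h = (K : ℝ) + 1 / 2 - J) (hδ : δ = 1 / (16 * h)) (hr : r = (m : ℝ) - (J - δ))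
    (hs : s = if J ≤ K then 1 else -1) :
    ((m = J ∨ m = K ∨ m = K + 1) →
      -r ^ 2 - 1 / 16 < r * (-h + s * (5 / 8)) ∧ r * (-h - s * (5 / 8)) < -r ^ 2 - 1 / 16) ∧
    (¬ (m = J ∨ m = K ∨ m = K + 1) →
      r * (-h + s * (5 / 8)) < -r ^ 2 - 1 / 16 ∨ -r ^ 2 - 1 / 16 < r * (-h - s * (5 / 8))) := by
  by_cases hc : J ≤ K
  · rw [if_pos hc] at hs
    have hJK : J + 1 ≤ K := by omega
    have hJK' : (J : ℝ) + 1 ≤ K := by exact_mod_cast hJK
    have hh3 : 3 / 2 ≤ h := by rw [hh]; linarith
    have hδh : δ * h = 1 / 16 := by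
      rw [hδ]
      field_simp
    subst hs
    have hrd : r = ((m : ℝ) - J) + δ := by rw [hr]; ring
    constructor
    · intro hm
      have := wKT_in h δ ((m : ℝ) - J) hh3 hδh (by
        rcases hm with hm | hm | hm
        · left; rw [hm]; ring
        · right; left; rw [hm, hh]; ring
        · right; right; rw [hm, hh]; push_cast; ring)
      rw [hrd]
      constructor
      · nlinarith [this.1]
      · nlinarith [this.2]
    · intro hm
      have := wKT_out h δ ((m : ℝ) - J) hh3 hδh (by
        have hcase : m + 1 ≤ J ∨ (J + 1 ≤ m ∧ m + 1 ≤ K) ∨ K + 2 ≤ m := by omega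
        rcases hcase with h1 | ⟨h1, h2⟩ | h1
        · left
          have : (m : ℝ) + 1 ≤ J := by exact_mod_cast h1
          linarith
        · right; left
          have e1 : (J : ℝ) + 1 ≤ m := by exact_mod_cast h1
          have e2 : (m : ℝ) + 1 ≤ K := by exact_mod_cast h2
          constructor
          · linarith
          · rw [hh]; linarith
        · right; right
          have : (K : ℝ) + 2 ≤ m := by exact_mod_cast h1
          rw [hh]; linarith)
      rw [hrd]
      rcases this with h1 | h1
      · left; nlinarith [h1]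
      · right; nlinarith [h1]
  · rw [if_neg hc] at hs
    have hJK : K + 2 ≤ J := by omega
    have hJK' : (K : ℝ) + 2 ≤ J := by exact_mod_cast hJK
    have hh3 : 3 / 2 ≤ -h := by rw [hh]; linarith
    have hne : h ≠ 0 := by intro h0; rw [h0] at hh3; norm_num at hh3
    have hδh : (-δ) * (-h) = 1 / 16 := by
      rw [hδ]
      field_simp
    subst hs
    have hrd : r = ((m : ℝ) - J) + δ := by rw [hr]; ring
    constructor
    · intro hm
      have := wKT_in (-h) (-δ) (-((m : ℝ) - J)) hh3 hδh (by
        rcases hm with hm | hm | hm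
        · left; rw [hm]; ring
        · right; right; rw [hm, hh]; ring
        · right; left; rw [hm, hh]; push_cast; ring)
      rw [hrd]
      constructor
      · nlinarith [this.1]
      · nlinarith [this.2]
    · intro hm
      have := wKT_out (-h) (-δ) (-((m : ℝ) - J)) hh3 hδh (by
        have hcase : J + 1 ≤ m ∨ (m + 1 ≤ J ∧ K + 2 ≤ m) ∨ m + 1 ≤ K := by omega
        rcases hcase with h1 | ⟨h1, h2⟩ | h1
        · left
          have : (J : ℝ) + 1 ≤ m := by exact_mod_cast h1
          linarith
        · right; left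
          have e1 : (m : ℝ) + 1 ≤ J := by exact_mod_cast h1
          have e2 : (K : ℝ) + 2 ≤ m := by exact_mod_cast h2
          constructor
          · linarith
          · rw [hh]; linarith
        · right; right
          have : (m : ℝ) + 1 ≤ K := by exact_mod_cast h1
          rw [hh]; linarith)
      rw [hrd]
      rcases this with h1 | h1
      · left; nlinarith [h1]
      · right; nlinarith [h1]

theorem wKT_ok : St_wKT := by
  intro n T pos J K hA u v hv hu huz
  have hun : ¬ u < n := by omega
  have hu2 : ¬ u < 2 * n := by omega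
  have hiT : u - 2 * n < T.length := by unfold sz at huz; omega
  set i := u - 2 * n with hi
  set t := T.getD i (0, 0, 0, false) with ht
  have htl := hA.tlt i hiT
  have hf := hA.hf i hiT
  rw [← ht] at htl hf
  have hAd : Ad n T v u ↔ (pos v = J i ∨ pos v = K i ∨ pos v = K i + 1) := by
    have h1 : Ad n T v u ↔ (v = t.1 ∨ v = t.2.1 ∨ v = t.2.2.1) := by
      unfold Ad adjH
      rw [if_neg hun, if_neg hu2]
      simp only [← hi, ← ht, if_pos hv]
      constructor
      · rintro (⟨_, h⟩ | ⟨h, _⟩)
        · simpa using h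
        · omega
      · intro h
        left
        exact ⟨by omega, by simpa using h⟩
    rw [h1]
    constructor
    · rintro (h | h | h) <;> subst h <;> unfold HostFar at hf <;> omega
    · intro h
      unfold HostFar at hf
      have i1 := hA.inj v hv t.1 htl.1
      have i2 := hA.inj v hv t.2.1 htl.2.1
      have i3 := hA.inj v hv t.2.2.1 htl.2.2
      by_contra hcon
      push Not at hcon
      have j1 : pos v ≠ pos t.1 := fun h => hcon.1 (i1 h)
      have j2 : pos v ≠ pos t.2.1 := fun h => hcon.2.1 (i2 h)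
      have j3 : pos v ≠ pos t.2.2.1 := fun h => hcon.2.2 (i3 h)
      omega
  have hQv : Q n pos J K v = ((pos v : ℝ), -(pos v : ℝ) ^ 2) := by
    unfold Q X
    rw [if_pos hv, if_pos hv]
    simp
  have hXu : X n pos J K u = (J i : ℝ) - 1 / (16 * (((K i : ℕ) : ℝ) + 1 / 2 - (J i : ℝ))) := by
    unfold X
    rw [if_neg hun, if_neg hu2]
  have hQu : Q n pos J K u = (X n pos J K u, -(X n pos J K u) ^ 2 + 1 / 16) := by
    unfold Q
    rw [if_neg hun]
  have hup : upS n J K u = -(hh J K i) + sg J K i * (5 / 8) := by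
    unfold upS
    rw [if_neg hu2]
  have hlo : loS n J K u = -(hh J K i) - sg J K i * (5 / 8) := by
    unfold loS
    rw [if_neg hu2]
  have hcore := wKT_core (J i) (K i) (pos v) (hA.ne i hiT) (hh J K i) (1 / (16 * hh J K i))
    ((pos v : ℝ) - X n pos J K u) (sg J K i) rfl rfl (by rw [hXu]; rfl) rfl
  have e : -(pos v : ℝ) ^ 2 - (-(X n pos J K u) ^ 2 + 1 / 16) =
      -((pos v : ℝ) - X n pos J K u) ^ 2 - 1 / 16 -
        ((pos v : ℝ) - X n pos J K u) * (2 * X n pos J K u) := by ring
  constructor
  · intro had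
    have := hcore.1 (hAd.mp had)
    unfold InW
    rw [if_neg hu2, hQv, hQu, hup, hlo]
    simp only
    rw [e]
    constructor
    · linarith [this.1]
    · linarith [this.2]
  · intro had
    have := hcore.2 (fun h => had (hAd.mpr h))
    unfold OutW
    rw [if_neg hu2, hQv, hQu, hup, hlo]
    simp only
    rw [e]
    rcases this with h1 | h1
    · left; linarith
    · right; linarith

end Pool.Agent.H670R5
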