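import Pool.Agent.H670R5.St2

/-!
# Two triple vertices do not see each other
-/

namespace Pool.Agent.H670R5

open Pool.Agent.NPC Pool.Agent.H679R2

theorem wTT_inv {h : ℝ} (hh : 3 / 2 ≤ h ∨ h ≤ -(3 / 2)) :
    -(1 / 24) ≤ 1 / (16 * h) ∧ 1 / (16 * h) ≤ 1 / 24 := by
  rcases hh with hh | hh
  · have h1 : 0 < 1 / (16 * h) := by positivity
    have h2 : 1 / (16 * h) ≤ 1 / 24 := one_div_le_one_div_of_le (by norm_num) (by linarith)
    exact ⟨by linarith, h2⟩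
  · have h1 : 0 < 1 / (16 * (-h)) := by
      have : 0 < -h := by linarith
      positivity
    have h2 : 1 / (16 * (-h)) ≤ 1 / 24 := one_div_le_one_div_of_le (by norm_num) (by linarith)
    have h3 : 1 / (16 * (-h)) = -(1 / (16 * h)) := by
      rw [mul_neg, one_div_neg_eq_neg_one_div]
    rw [h3] at h1 h2
    exact ⟨by linarith, by linarith⟩

theorem wTT_h {J K : ℕ} (h1 : J ≠ K) (h2 : J ≠ K + 1) :
    (J ≤ K ∧ 3 / 2 ≤ (K : ℝ) + 1 / 2 - (J : ℝ)) ∨ (¬ J ≤ K ∧ (K : ℝ) + 1 / 2 - (J : ℝ) ≤ -(3 / 2)) := by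
  rcases le_or_gt J K with h | h
  · left
    refine ⟨h, ?_⟩
    have h3 : (J : ℝ) + 1 ≤ K := by exact_mod_cast (show J + 1 ≤ K by omega)
    linarith
  · right
    refine ⟨not_le.2 h, ?_⟩
    have h3 : (K : ℝ) + 2 ≤ J := by exact_mod_cast (show K + 2 ≤ J by omega)
    linarith

theorem wTT_real {r h a s : ℝ} (ha : (s = 1 ∧ 3 / 2 ≤ h) ∨ (s = -1 ∧ h ≤ -(3 / 2)))
    (h1 : ¬ (r * (-h + s * (5 / 8) - 2 * a) < -r ^ 2 - 2 * a * r))
    (h2 : ¬ (-r ^ 2 - 2 * a * r < r * (-h - s * (5 / 8) - 2 * a))) :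
    r = 0 ∨ (h - 5 / 8 ≤ r ∧ r ≤ h + 5 / 8) := by
  rw [not_lt] at h1 h2
  rcases eq_or_ne r 0 with hr | hr
  · exact Or.inl hr
  right
  rcases ha with ⟨rfl, hh⟩ | ⟨rfl, hh⟩
  · -- `r (r - (h - 5/8)) ≥ 0`, `r (r - (h + 5/8)) ≤ 0`
    have h3 : 0 ≤ r * (r - (h - 5 / 8)) := by nlinarith
    have h4 : r * (r - (h + 5 / 8)) ≤ 0 := by nlinarith
    have h5 : 0 < r := by
      by_contra hcon
      have h6 : r < 0 := lt_of_le_of_ne (not_lt.1 hcon) hr
      nlinarith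
    exact ⟨by nlinarith, by nlinarith⟩
  · have h3 : 0 ≤ r * (r - (h + 5 / 8)) := by nlinarith
    have h4 : r * (r - (h - 5 / 8)) ≤ 0 := by nlinarith
    have h5 : r < 0 := by
      by_contra hcon
      have h6 : 0 < r := lt_of_le_of_ne (not_lt.1 hcon) (Ne.symm hr)
      nlinarith
    exact ⟨by nlinarith, by nlinarith⟩

theorem wTT_key {n : ℕ} {T : List (ℕ × ℕ × ℕ × Bool)} {pos J K : ℕ → ℕ} (hA : Arr n T pos J K)
    {u v : ℕ} (hu : 2 * n ≤ u) (hu' : u < sz n T) (hv : 2 * n ≤ v) (hv' : v < sz n T)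
    (h : ¬ OutW n pos J K u (Q n pos J K v)) :
    X n pos J K v - X n pos J K u = 0 ∨ J (v - 2 * n) = K (u - 2 * n) ∨
      J (v - 2 * n) = K (u - 2 * n) + 1 := by
  have hi : u - 2 * n < T.length := by unfold sz at hu'; omega
  have hi' : v - 2 * n < T.length := by unfold sz at hv'; omega
  obtain ⟨h1, h2⟩ := hA.ne _ hi
  obtain ⟨h1', h2'⟩ := hA.ne _ hi'
  unfold OutW at h
  rw [if_neg (by omega), not_or] at h
  obtain ⟨h3, h4⟩ := h
  have e1 : (Q n pos J K v).1 - (Q n pos J K u).1 = X n pos J K v - X n pos J K u := rfl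
  have e2 : (Q n pos J K v).2 - (Q n pos J K u).2 =
      -(X n pos J K v - X n pos J K u) ^ 2 - 2 * X n pos J K u *
        (X n pos J K v - X n pos J K u) := by
    unfold Q
    simp only
    rw [if_neg (by omega), if_neg (by omega)]
    ring
  have e3 : (Q n pos J K u).1 = X n pos J K u := rfl
  rw [e1, e2, e3] at h3 h4
  unfold upS at h3
  unfold loS at h4
  rw [if_neg (by omega)] at h3 h4
  have hsg : (sg J K (u - 2 * n) = 1 ∧ 3 / 2 ≤ hh J K (u - 2 * n)) ∨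
      (sg J K (u - 2 * n) = -1 ∧ hh J K (u - 2 * n) ≤ -(3 / 2)) := by
    unfold sg hh
    rcases wTT_h h1 h2 with ⟨h5, h6⟩ | ⟨h5, h6⟩
    · exact Or.inl ⟨if_pos h5, h6⟩
    · exact Or.inr ⟨if_neg h5, h6⟩
  rcases wTT_real hsg h3 h4 with h5 | ⟨h5, h6⟩
  · exact Or.inl h5
  right
  have hb := wTT_inv (h := (K (u - 2 * n) : ℝ) + 1 / 2 - (J (u - 2 * n) : ℝ))
    (by rcases wTT_h h1 h2 with ⟨_, h6⟩ | ⟨_, h6⟩
        · exact Or.inl h6
        · exact Or.inr h6)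
  have hb' := wTT_inv (h := (K (v - 2 * n) : ℝ) + 1 / 2 - (J (v - 2 * n) : ℝ))
    (by rcases wTT_h h1' h2' with ⟨_, h6⟩ | ⟨_, h6⟩
        · exact Or.inl h6
        · exact Or.inr h6)
  have hXu : X n pos J K u = (J (u - 2 * n) : ℝ) -
      1 / (16 * ((K (u - 2 * n) : ℝ) + 1 / 2 - (J (u - 2 * n) : ℝ))) := by
    unfold X
    rw [if_neg (by omega), if_neg (by omega)]
  have hXv : X n pos J K v = (J (v - 2 * n) : ℝ) -
      1 / (16 * ((K (v - 2 * n) : ℝ) + 1 / 2 - (J (v - 2 * n) : ℝ))) := by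
    unfold X
    rw [if_neg (by omega), if_neg (by omega)]
  rw [hXu, hXv] at h5 h6
  unfold hh at h5 h6
  have h7 : (J (v - 2 * n) : ℝ) < K (u - 2 * n) + 2 := by linarith [hb.1, hb.2, hb'.1, hb'.2]
  have h8 : (K (u - 2 * n) : ℝ) < J (v - 2 * n) + 1 := by linarith [hb.1, hb.2, hb'.1, hb'.2]
  have h9 : J (v - 2 * n) < K (u - 2 * n) + 2 := by exact_mod_cast h7
  have h10 : K (u - 2 * n) < J (v - 2 * n) + 1 := by exact_mod_cast h8
  omega

theorem wTT_zero {n : ℕ} {T : List (ℕ × ℕ × ℕ × Bool)} {pos J K : ℕ → ℕ}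
    (hA : Arr n T pos J K) {u v : ℕ} (hu : 2 * n ≤ u) (hu' : u < sz n T) (hv : 2 * n ≤ v)
    (hv' : v < sz n T) (h : X n pos J K v - X n pos J K u = 0) : u = v := by
  have hi : u - 2 * n < T.length := by unfold sz at hu'; omega
  have hi' : v - 2 * n < T.length := by unfold sz at hv'; omega
  obtain ⟨h1, h2⟩ := hA.ne _ hi
  obtain ⟨h1', h2'⟩ := hA.ne _ hi'
  have hw : 3 / 2 ≤ (K (u - 2 * n) : ℝ) + 1 / 2 - (J (u - 2 * n) : ℝ) ∨
      (K (u - 2 * n) : ℝ) + 1 / 2 - (J (u - 2 * n) : ℝ) ≤ -(3 / 2) := by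
    rcases wTT_h h1 h2 with ⟨_, h6⟩ | ⟨_, h6⟩
    · exact Or.inl h6
    · exact Or.inr h6
  have hw' : 3 / 2 ≤ (K (v - 2 * n) : ℝ) + 1 / 2 - (J (v - 2 * n) : ℝ) ∨
      (K (v - 2 * n) : ℝ) + 1 / 2 - (J (v - 2 * n) : ℝ) ≤ -(3 / 2) := by
    rcases wTT_h h1' h2' with ⟨_, h6⟩ | ⟨_, h6⟩
    · exact Or.inl h6
    · exact Or.inr h6
  have hb := wTT_inv hw
  have hb' := wTT_inv hw'
  have hXu : X n pos J K u = (J (u - 2 * n) : ℝ) -
      1 / (16 * ((K (u - 2 * n) : ℝ) + 1 / 2 - (J (u - 2 * n) : ℝ))) := by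
    unfold X
    rw [if_neg (by omega), if_neg (by omega)]
  have hXv : X n pos J K v = (J (v - 2 * n) : ℝ) -
      1 / (16 * ((K (v - 2 * n) : ℝ) + 1 / 2 - (J (v - 2 * n) : ℝ))) := by
    unfold X
    rw [if_neg (by omega), if_neg (by omega)]
  rw [hXu, hXv] at h
  have h7 : (J (v - 2 * n) : ℝ) < J (u - 2 * n) + 1 := by linarith [hb.1, hb.2, hb'.1, hb'.2]
  have h8 : (J (u - 2 * n) : ℝ) < J (v - 2 * n) + 1 := by linarith [hb.1, hb.2, hb'.1, hb'.2]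
  have h9 : J (v - 2 * n) < J (u - 2 * n) + 1 := by exact_mod_cast h7
  have h10 : J (u - 2 * n) < J (v - 2 * n) + 1 := by exact_mod_cast h8
  have hJ : J (u - 2 * n) = J (v - 2 * n) := by omega
  have hJ' : (J (u - 2 * n) : ℝ) = J (v - 2 * n) := by rw [hJ]
  have h11 : 1 / (16 * ((K (u - 2 * n) : ℝ) + 1 / 2 - (J (u - 2 * n) : ℝ))) =
      1 / (16 * ((K (v - 2 * n) : ℝ) + 1 / 2 - (J (v - 2 * n) : ℝ))) := by linarith
  have h12 : 16 * ((K (u - 2 * n) : ℝ) + 1 / 2 - (J (u - 2 * n) : ℝ)) =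
      16 * ((K (v - 2 * n) : ℝ) + 1 / 2 - (J (v - 2 * n) : ℝ)) := by
    have := congrArg (fun t : ℝ => t⁻¹) h11
    simpa only [one_div, inv_inv] using this
  have h13 : (K (u - 2 * n) : ℝ) = K (v - 2 * n) := by linarith
  have h14 : K (u - 2 * n) = K (v - 2 * n) := by exact_mod_cast h13
  have h15 := hA.dist _ hi _ hi' hJ h14
  omega

theorem wTT_ok : St_wTT := by
  intro n T pos J K hA u v hu hu' hv hv' huv
  refine ⟨?_, ?_⟩
  · have h1 : ∀ u v : ℕ, 2 * n ≤ u → 2 * n ≤ v → adjH n T u v = false := by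
      intro u v hu hv
      unfold adjH
      rw [if_neg (by omega), if_neg (by omega)]
      simp only
      rw [if_neg (by omega), if_neg (by omega)]
    rintro (⟨_, h⟩ | ⟨_, h⟩)
    · rw [h1 u v hu hv] at h
      exact absurd h (by decide)
    · rw [h1 v u hv hu] at h
      exact absurd h (by decide)
  · by_contra hcon
    rw [not_or] at hcon
    obtain ⟨hc1, hc2⟩ := hcon
    have hi : u - 2 * n < T.length := by unfold sz at hu'; omega
    have hi' : v - 2 * n < T.length := by unfold sz at hv'; omega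
    rcases wTT_key hA hu hu' hv hv' hc1 with h | h
    · exact huv (wTT_zero hA hu hu' hv hv' h)
    rcases wTT_key hA hv hv' hu hu' hc2 with h' | h'
    · exact huv (wTT_zero hA hv hv' hu hu' h').symm
    exact hA.conf _ hi _ hi' (by omega) ⟨h', h⟩

end Pool.Agent.H670R5
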