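import Pool.Agent.H670R5.St2

/-!
# The abscissas of the vertices
-/

namespace Pool.Agent.H670R5

open Pool.Agent.NPC Pool.Agent.H679R2

private theorem X_nat {a b : ℕ} {d : ℝ} (h : (a : ℝ) = b + d) (h1 : -1 < d) (h2 : d < 1) :
    a = b ∧ d = 0 := by
  have h3 : (a : ℤ) < b + 1 := by
    have : (a : ℝ) < b + 1 := by linarith
    exact_mod_cast this
  have h4 : (b : ℤ) < a + 1 := by
    have : (b : ℝ) < a + 1 := by linarith
    exact_mod_cast this
  have h5 : a = b := by omega
  subst h5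
  exact ⟨rfl, by linarith⟩

private theorem X_del {n : ℕ} {T : List (ℕ × ℕ × ℕ × Bool)} {pos J K : ℕ → ℕ}
    (h : Arr n T pos J K) {i : ℕ} (hi : i < T.length) :
    (K i : ℝ) + 1 / 2 - (J i : ℝ) ≠ 0 ∧
    -(1 / 24) ≤ 1 / (16 * ((K i : ℝ) + 1 / 2 - (J i : ℝ))) ∧
    1 / (16 * ((K i : ℝ) + 1 / 2 - (J i : ℝ))) ≤ 1 / 24 ∧
    1 / (16 * ((K i : ℝ) + 1 / 2 - (J i : ℝ))) ≠ 0 := by
  obtain ⟨h1, h2⟩ := h.ne i hi
  rcases Nat.lt_or_ge (J i) (K i) with h3 | h3
  · have h4 : (J i : ℝ) + 1 ≤ K i := by exact_mod_cast h3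
    have h5 : 3 / 2 ≤ (K i : ℝ) + 1 / 2 - (J i : ℝ) := by linarith
    have h6 : 0 < 1 / (16 * ((K i : ℝ) + 1 / 2 - (J i : ℝ))) := by positivity
    refine ⟨by positivity, by linarith, ?_, h6.ne'⟩
    rw [div_le_div_iff₀ (by positivity) (by norm_num)]
    linarith
  · have h3' : K i + 2 ≤ J i := by omega
    have h4 : (K i : ℝ) + 2 ≤ J i := by exact_mod_cast h3'
    have h5 : (K i : ℝ) + 1 / 2 - (J i : ℝ) ≤ -(3 / 2) := by linarith
    have h7 : 0 < -((K i : ℝ) + 1 / 2 - (J i : ℝ)) := by linarith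
    have h8 : 1 / (16 * ((K i : ℝ) + 1 / 2 - (J i : ℝ))) =
        -(1 / (16 * -((K i : ℝ) + 1 / 2 - (J i : ℝ)))) := by
      rw [mul_neg, div_neg, neg_neg]
    have h6 : 0 < 1 / (16 * -((K i : ℝ) + 1 / 2 - (J i : ℝ))) := by positivity
    have h9 : 1 / (16 * -((K i : ℝ) + 1 / 2 - (J i : ℝ))) ≤ 1 / 24 := by
      rw [div_le_div_iff₀ (by positivity) (by norm_num)]
      linarith
    refine ⟨by linarith, ?_, ?_, ?_⟩
    · rw [h8]
      linarith
    · rw [h8]
      linarith
    · rw [h8]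
      exact neg_ne_zero.2 h6.ne'

/-- the three kinds of abscissas -/
private theorem X_cases {n : ℕ} {T : List (ℕ × ℕ × ℕ × Bool)} {pos J K : ℕ → ℕ}
    (h : Arr n T pos J K) {u : ℕ} (hu : u < sz n T) (hn : n ≤ u) :
    (u < 2 * n ∧ pos (u - n) < n ∧ ∃ e : ℝ, (e = 1 / 4 ∧ pos (u - n) % 2 = 0 ∨
      e = -(1 / 4) ∧ pos (u - n) % 2 = 1) ∧ X n pos J K u = pos (u - n) + e) ∨
    (2 * n ≤ u ∧ u - 2 * n < T.length ∧ J (u - 2 * n) < n ∧
      X n pos J K u = (J (u - 2 * n) : ℝ) +
        -(1 / (16 * ((K (u - 2 * n) : ℝ) + 1 / 2 - (J (u - 2 * n) : ℝ))))) := by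
  unfold sz at hu
  unfold X
  rw [if_neg (by omega)]
  by_cases h2 : u < 2 * n
  · left
    rw [if_pos h2]
    refine ⟨h2, h.lt _ (by omega), ?_⟩
    by_cases h3 : pos (u - n) % 2 = 0
    · exact ⟨1 / 4, Or.inl ⟨rfl, h3⟩, by rw [if_pos h3]⟩
    · exact ⟨-(1 / 4), Or.inr ⟨rfl, by omega⟩, by rw [if_neg h3]; ring⟩
  · right
    rw [if_neg h2]
    exact ⟨by omega, by omega, (h.lt' _ (by omega)).1, by ring⟩

theorem X_ok : St_X := by
  intro n T pos J K h
  have hlow : ∀ u < n, X n pos J K u = pos u := fun u hu => by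
    unfold X
    rw [if_pos hu]
  have hb : ∀ u < sz n T, -1 < X n pos J K u ∧ X n pos J K u < n := by
    intro u hu
    rcases Nat.lt_or_ge u n with h1 | h1
    · rw [hlow u h1]
      have h2 : (pos u : ℝ) < n := by exact_mod_cast h.lt u h1
      have h3 : (0 : ℝ) ≤ pos u := Nat.cast_nonneg _
      exact ⟨by linarith, h2⟩
    · rcases X_cases h hu h1 with ⟨h2, h3, e, he, hX⟩ | ⟨h2, h3, h4, hX⟩
      · rw [hX]
        have h4 : (pos (u - n) : ℝ) + 1 ≤ n := by exact_mod_cast h3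
        have h5 : (0 : ℝ) ≤ pos (u - n) := Nat.cast_nonneg _
        rcases he with ⟨he, -⟩ | ⟨he, -⟩ <;> rw [he] <;> constructor <;> linarith
      · rw [hX]
        obtain ⟨-, d1, d2, -⟩ := X_del h h3
        have h5 : (J (u - 2 * n) : ℝ) + 1 ≤ n := by exact_mod_cast h4
        have h6 : (0 : ℝ) ≤ J (u - 2 * n) := Nat.cast_nonneg _
        constructor <;> linarith
  have hmem : ∀ u < sz n T, X n pos J K u ∈ ND n T pos J K := by
    intro u hu
    unfold ND
    rw [Finset.mem_union]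
    rcases Nat.lt_or_ge u n with h1 | h1
    · left
      rw [hlow u h1, Finset.mem_image]
      exact ⟨pos u + 1, Finset.mem_range.2 (by have := h.lt u h1; omega), by push_cast; ring⟩
    · right
      unfold XS
      exact Finset.mem_image_of_mem _ (Finset.mem_Ico.2 ⟨h1, hu⟩)
  refine ⟨fun u hu => ⟨hmem u hu, hb u hu⟩, ?_, ?_, ?_, ?_, ?_, ?_⟩
  · intro u hu1 hu v hv1 hv huv
    rcases X_cases h hu hu1 with ⟨h2, h3, e, he, hX⟩ | ⟨h2, h3, h4, hX⟩
    · rcases X_cases h hv hv1 with ⟨k2, k3, e', he', hX'⟩ | ⟨k2, k3, k4, hX'⟩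
      · rw [hX, hX'] at huv
        have hd : (pos (u - n) : ℝ) = pos (v - n) + (e' - e) := by linarith
        have hb' : -1 < e' - e ∧ e' - e < 1 := by
          rcases he with ⟨he, -⟩ | ⟨he, -⟩ <;> rcases he' with ⟨he', -⟩ | ⟨he', -⟩ <;>
            rw [he, he'] <;> constructor <;> norm_num
        have h5 := (X_nat hd hb'.1 hb'.2).1
        have h6 := h.inj _ (by omega) _ (by omega) h5
        omega
      · exfalso
        rw [hX, hX'] at huv
        obtain ⟨-, d1, d2, -⟩ := X_del h k3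
        have hd : (pos (u - n) : ℝ) = J (v - 2 * n) +
            (-(1 / (16 * ((K (v - 2 * n) : ℝ) + 1 / 2 - (J (v - 2 * n) : ℝ)))) - e) := by
          linarith
        rcases he with ⟨he, -⟩ | ⟨he, -⟩
        · have h5 := (X_nat hd (by rw [he]; linarith) (by rw [he]; linarith)).2
          rw [he] at h5
          linarith
        · have h5 := (X_nat hd (by rw [he]; linarith) (by rw [he]; linarith)).2
          rw [he] at h5
          linarith
    · rcases X_cases h hv hv1 with ⟨k2, k3, e', he', hX'⟩ | ⟨k2, k3, k4, hX'⟩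
      · exfalso
        rw [hX, hX'] at huv
        obtain ⟨-, d1, d2, -⟩ := X_del h h3
        have hd : (J (u - 2 * n) : ℝ) = pos (v - n) +
            (1 / (16 * ((K (u - 2 * n) : ℝ) + 1 / 2 - (J (u - 2 * n) : ℝ))) + e') := by
          linarith
        rcases he' with ⟨he', -⟩ | ⟨he', -⟩
        · have h5 := (X_nat hd (by rw [he']; linarith) (by rw [he']; linarith)).2
          rw [he'] at h5
          linarith
        · have h5 := (X_nat hd (by rw [he']; linarith) (by rw [he']; linarith)).2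
          rw [he'] at h5
          linarith
      · rw [hX, hX'] at huv
        obtain ⟨z1, d1, d2, -⟩ := X_del h h3
        obtain ⟨z2, d1', d2', -⟩ := X_del h k3
        have hd : (J (u - 2 * n) : ℝ) = J (v - 2 * n) +
            (1 / (16 * ((K (u - 2 * n) : ℝ) + 1 / 2 - (J (u - 2 * n) : ℝ))) -
            1 / (16 * ((K (v - 2 * n) : ℝ) + 1 / 2 - (J (v - 2 * n) : ℝ)))) := by
          linarith
        obtain ⟨hJ, h0⟩ := X_nat hd (by linarith) (by linarith)
        have h5 : 1 / (16 * ((K (u - 2 * n) : ℝ) + 1 / 2 - (J (u - 2 * n) : ℝ))) =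
            1 / (16 * ((K (v - 2 * n) : ℝ) + 1 / 2 - (J (v - 2 * n) : ℝ))) := by linarith
        rw [div_eq_div_iff (mul_ne_zero (by norm_num) z1) (mul_ne_zero (by norm_num) z2)] at h5
        have h6 : (K (u - 2 * n) : ℝ) = K (v - 2 * n) := by
          rw [hJ] at h5
          linarith
        have h7 : K (u - 2 * n) = K (v - 2 * n) := by exact_mod_cast h6
        have h8 := h.dist _ h3 _ k3 hJ h7
        omega
  · intro u hu v hv huv
    rw [hlow u hu, hlow v hv] at huv
    exact h.inj u hu v hv (by exact_mod_cast huv)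
  · intro y hy
    unfold ND at hy
    rw [Finset.mem_union, Finset.mem_image] at hy
    rcases hy with ⟨i, hi, rfl⟩ | hy
    · rw [Finset.mem_range] at hi
      have h1 : (i : ℝ) ≤ n + 1 := by
        have : i ≤ n + 1 := by omega
        exact_mod_cast this
      have h2 : (0 : ℝ) ≤ i := Nat.cast_nonneg _
      constructor <;> linarith
    · unfold XS at hy
      obtain ⟨u, hu, rfl⟩ := Finset.mem_image.1 hy
      have h1 := hb u (Finset.mem_Ico.1 hu).2
      exact ⟨h1.1.le, h1.2.le⟩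
  · unfold ND
    rw [Finset.mem_union, Finset.mem_image]
    exact Or.inl ⟨0, Finset.mem_range.2 (by omega), by simp⟩
  · unfold ND
    rw [Finset.mem_union, Finset.mem_image]
    exact Or.inl ⟨n + 1, Finset.mem_range.2 (by omega), by push_cast; ring⟩
  · intro u hu1 hu v hv huv
    rw [hlow v hv] at huv
    rcases X_cases h hu hu1 with ⟨h2, h3, e, he, hX⟩ | ⟨h2, h3, h4, hX⟩
    · rw [hX] at huv
      have hd : (pos v : ℝ) = pos (u - n) + e := by linarith
      rcases he with ⟨he, -⟩ | ⟨he, -⟩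
      · have h5 := (X_nat hd (by rw [he]; norm_num) (by rw [he]; norm_num)).2
        rw [he] at h5
        norm_num at h5
      · have h5 := (X_nat hd (by rw [he]; norm_num) (by rw [he]; norm_num)).2
        rw [he] at h5
        norm_num at h5
    · rw [hX] at huv
      obtain ⟨-, d1, d2, d3⟩ := X_del h h3
      have h5 := (X_nat huv.symm (by linarith) (by linarith)).2
      exact d3 (neg_eq_zero.1 h5)

end Pool.Agent.H670R5
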