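import Pool.Agent.H670R5.Fin
import Pool.Agent.H670R5.T_ARR
import Pool.Agent.H670R5.T_ATT
import Pool.Agent.H670R5.T_BASE
import Pool.Agent.H670R5.T_BELOW
import Pool.Agent.H670R5.T_COMP
import Pool.Agent.H670R5.T_CONE
import Pool.Agent.H670R5.T_CONV
import Pool.Agent.H670R5.T_CONV1
import Pool.Agent.H670R5.T_CONV2
import Pool.Agent.H670R5.T_DIR
import Pool.Agent.H670R5.T_DISP
import Pool.Agent.H670R5.T_EAR
import Pool.Agent.H670R5.T_EARCON
import Pool.Agent.H670R5.T_EARFR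
import Pool.Agent.H670R5.T_EARFR2
import Pool.Agent.H670R5.T_EARINT
import Pool.Agent.H670R5.T_EARLIST
import Pool.Agent.H670R5.T_EARSD
import Pool.Agent.H670R5.T_EARSIM
import Pool.Agent.H670R5.T_EDGES
import Pool.Agent.H670R5.T_EOK
import Pool.Agent.H670R5.T_EVAL
import Pool.Agent.H670R5.T_EXT
import Pool.Agent.H670R5.T_F1
import Pool.Agent.H670R5.T_F2
import Pool.Agent.H670R5.T_F3
import Pool.Agent.H670R5.T_F4
import Pool.Agent.H670R5.T_FAR
import Pool.Agent.H670R5.T_FORCE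
import Pool.Agent.H670R5.T_FOUR
import Pool.Agent.H670R5.T_FULL
import Pool.Agent.H670R5.T_GOOD
import Pool.Agent.H670R5.T_HALF
import Pool.Agent.H670R5.T_HULL
import Pool.Agent.H670R5.T_LEMA
import Pool.Agent.H670R5.T_LEMTRI
import Pool.Agent.H670R5.T_LENS
import Pool.Agent.H670R5.T_LENS1
import Pool.Agent.H670R5.T_LENS2
import Pool.Agent.H670R5.T_LLS
import Pool.Agent.H670R5.T_LLZ
import Pool.Agent.H670R5.T_ND1
import Pool.Agent.H670R5.T_ND2
import Pool.Agent.H670R5.T_ORB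
import Pool.Agent.H670R5.T_PERT
import Pool.Agent.H670R5.T_POLY
import Pool.Agent.H670R5.T_POS
import Pool.Agent.H670R5.T_ROT
import Pool.Agent.H670R5.T_SORT
import Pool.Agent.H670R5.T_SOUND
import Pool.Agent.H670R5.T_TDIST
import Pool.Agent.H670R5.T_TO1
import Pool.Agent.H670R5.T_TOO2
import Pool.Agent.H670R5.T_TO3
import Pool.Agent.H670R5.T_TO4
import Pool.Agent.H670R5.T_TO5
import Pool.Agent.H670R5.T_TRI1
import Pool.Agent.H670R5.T_TRI2
import Pool.Agent.H670R5.T_TRI3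
import Pool.Agent.H670R5.T_TRILOC
import Pool.Agent.H670R5.T_TRIPLE
import Pool.Agent.H670R5.T_WBB
import Pool.Agent.H670R5.T_WBT
import Pool.Agent.H670R5.T_WDISP
import Pool.Agent.H670R5.T_WIN
import Pool.Agent.H670R5.T_WKB
import Pool.Agent.H670R5.T_WKT
import Pool.Agent.H670R5.T_WTT
import Pool.Agent.H670R5.T_X

/-!
# All steps together
-/

namespace Pool.Agent.H670R5

theorem m_tri2 : St_tri2 := tri2_ok tri1_ok
theorem m_tri3 : St_tri3 := tri3_ok tri1_ok m_tri2
theorem m_triLoc : St_triLoc := triLoc_ok tri1_ok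
theorem m_base : St_base := base_ok tri1_ok m_tri2 m_tri3 m_triLoc
theorem m_earInt : St_earInt := earInt_ok m_triLoc m_tri3
theorem m_ear : St_ear := ear_ok earList_ok earSimple_ok (earFront_ok m_tri3 m_earInt)
  (earFront2_ok m_tri3 m_tri2) (earConn_ok m_tri3 m_earInt) (earSide_ok m_triLoc)
theorem m_lens : St_lens := lens_ok tri1_ok m_base m_ear
theorem m_attach : St_attach := attach_ok m_ear m_earInt
theorem m_good : St_good := good_ok lemA_ok (lemTri_ok m_tri3)
theorem m_cone : St_cone := cone_ok tri1_ok half_ok hull_ok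
theorem m_sound : St_sound := sound_ok (ext_ok m_cone) (conv_ok conv1_ok conv2_ok sort_ok)
  rot_ok (triple_ok half_ok four_ok) hull_ok m_cone
theorem m_win : St_win := win_ok wKB_ok wKT_ok wBB_ok wBT_ok wTT_ok
theorem m_nd1 : St_nd1 := nd1_ok X_ok
theorem m_nd2 : St_nd2 := nd2_ok X_ok m_nd1
theorem m_LLs : St_LLsorted := LLsorted_ok X_ok m_nd1 m_nd2
theorem m_LLz : St_LLzip := LLzip_ok X_ok
theorem m_lens1 : St_lens1 := lens1_ok X_ok m_nd1 m_nd2
theorem m_lens2 : St_lens2 := lens2_ok m_LLs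
theorem m_tooth1 : St_tooth1 := tooth1_ok X_ok m_nd1 m_nd2
theorem m_tooth2 : St_tooth2 := tooth2_ok X_ok m_nd1 m_nd2 m_tooth1
theorem m_tooth3 : St_tooth3 := tooth3_ok X_ok m_tooth1
theorem m_tooth4 : St_tooth4 := tooth4_ok X_ok m_nd1 m_nd2
theorem m_tooth5 : St_tooth5 := tooth5_ok m_tooth1
theorem m_below : St_below := below_ok X_ok m_nd1
theorem m_disp : St_disp := disp_ok X_ok m_nd1
theorem m_F1 : St_F1 := F1_ok m_lens m_attach m_LLs m_LLz m_lens1 m_lens2 m_tooth1 m_tooth2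
  m_tooth3 X_ok
theorem m_F2 : St_F2 := F2_ok m_F1 m_win X_ok m_nd2 m_tooth1 m_tooth5 (dir_ok m_tri2) m_below
theorem m_F3 : St_F3 := F3_ok m_win X_ok m_lens1 m_tooth3 m_tooth4 m_disp (wdisp_ok X_ok)
  (far_ok X_ok)
theorem m_F4 : St_F4 := F4_ok X_ok m_lens2
theorem m_full : St_full := full_ok m_F1 m_F2 m_F3 m_F4 pert_ok X_ok m_disp

theorem allSt : AllSt where
  good := m_good
  sound := m_sound
  eok := eok_ok force_ok
  eval := eval_ok
  pos := pos_ok orb_ok
  tdist := tdist_ok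
  arr := arr_ok tdist_ok
  edges := edges_ok
  poly := poly_ok
  full := m_full
  comp := comp_ok

end Pool.Agent.H670R5
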