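import Pool.Agent.H670R5.St3

namespace Pool.Agent.H670R5

open Pool.Agent.NPC Pool.Agent.H679R2

private theorem cA_mul {r s A B : ℝ} (hr : |r| ≤ A) (hs : |s| ≤ B) (hA : 0 ≤ A) :
    -(A * B) ≤ r * s := by
  have h1 : |r * s| ≤ A * B := by
    rw [abs_mul]
    exact mul_le_mul hr hs (abs_nonneg _) hA
  exact (abs_le.1 h1).1

theorem cA_ok (hX : St_X) (h1 : St_nd1) : St_cA := by
  intro n T pos J K hA
  obtain ⟨hX1, -, -, hX4, -⟩ := hX n T pos J K hA
  obtain ⟨-, hn2⟩ := h1 n T pos J K hA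
  have hN : (0 : ℝ) ≤ n := Nat.cast_nonneg n
  refine ⟨20 * ((n : ℝ) + 3) ^ 2 + 100, ?_⟩
  intro Y hY c hc
  have hc2 : c.2 = -Y := by rcases hc with rfl | rfl <;> rfl
  have hc1 : -3 ≤ c.1 ∧ c.1 ≤ n + 2 := by
    rcases hc with rfl | rfl
    · constructor <;> simp only <;> linarith
    · constructor <;> simp only <;> linarith
  have hca : |c.1| ≤ n + 3 := abs_le.2 ⟨by linarith [hc1.1], by linarith [hc1.2]⟩
  have key : ∀ x s : ℝ, -1 < x → x < n → |s| ≤ n + 2 →
      -Y - (-x ^ 2 + 1 / 16) < (c.1 - x) * (s - 2 * x) := by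
    intro x s hx1 hx2 hs
    have h2 : |c.1 - x| ≤ 2 * (n + 3) := by
      rw [abs_le]; constructor <;> linarith [hc1.1, hc1.2]
    have h3 : |s - 2 * x| ≤ 3 * (n + 3) := by
      have := abs_le.1 hs
      rw [abs_le]; constructor <;> linarith [this.1, this.2]
    have h4 := cA_mul h2 h3 (by linarith)
    have h5 : x ^ 2 ≤ ((n : ℝ) + 3) ^ 2 := by
      apply sq_le_sq'
      · linarith
      · linarith
    nlinarith
  refine ⟨?_, ?_, ?_, ?_⟩
  · rw [hc2]
    have h5 : c.1 ^ 2 ≤ ((n : ℝ) + 3) ^ 2 := by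
      rw [← sq_abs c.1]
      exact pow_le_pow_left₀ (abs_nonneg _) hca 2
    nlinarith [sq_nonneg ((n : ℝ) + 3)]
  · intro e he
    obtain ⟨-, -, m1, m2, -⟩ := hn2 e he
    have b1 := hX4 _ m1
    have b2 := hX4 _ m2
    rw [hc2]
    unfold chd
    have h2 : |(-(e.1 + e.2))| ≤ 2 * (n + 3) := by
      rw [abs_le]; constructor <;> linarith [b1.1, b1.2, b2.1, b2.2]
    have h3 := cA_mul h2 hca (by linarith)
    have h4 : |e.1| ≤ n + 3 := by
      rw [abs_le]; constructor <;> linarith [b1.1, b1.2]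
    have h5 : |e.2| ≤ n + 3 := by
      rw [abs_le]; constructor <;> linarith [b2.1, b2.2]
    have h6 := cA_mul h4 h5 (by linarith)
    nlinarith
  · intro u hu hu2
    have hu3 : u < sz n T := by unfold sz; omega
    obtain ⟨-, hx1, hx2⟩ := hX1 u hu3
    unfold InW
    rw [if_pos hu2]
    have hQ1 : (Q n pos J K u).1 = X n pos J K u := rfl
    have hQ2 : (Q n pos J K u).2 = -(X n pos J K u) ^ 2 + 1 / 16 := by
      unfold Q; simp only; rw [if_neg (by omega)]
    rw [hQ1, hQ2, hc2]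
    constructor
    · apply key _ _ hx1 hx2
      unfold upS
      rw [if_pos hu2, abs_le]
      constructor <;> linarith
    · apply key _ _ hx1 hx2
      unfold loS
      rw [if_pos hu2, abs_le]
      constructor <;> linarith
  · intro u hu hu2
    obtain ⟨-, hx1, hx2⟩ := hX1 u hu2
    have hi : u - 2 * n < T.length := by unfold sz at hu2; omega
    obtain ⟨l1, l2⟩ := hA.lt' (u - 2 * n) hi
    unfold OutW
    rw [if_neg (by omega)]
    have hQ1 : (Q n pos J K u).1 = X n pos J K u := rfl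
    have hQ2 : (Q n pos J K u).2 = -(X n pos J K u) ^ 2 + 1 / 16 := by
      unfold Q; simp only; rw [if_neg (by omega)]
    rw [hQ1, hQ2, hc2]
    right
    apply key _ _ hx1 hx2
    unfold loS
    rw [if_neg (by omega)]
    have c1 : (J (u - 2 * n) : ℝ) + 1 ≤ n := by exact_mod_cast l1
    have c2 : (K (u - 2 * n) : ℝ) + 1 + 1 ≤ n := by exact_mod_cast l2
    have c3 : (0 : ℝ) ≤ J (u - 2 * n) := Nat.cast_nonneg _
    have c4 : (0 : ℝ) ≤ K (u - 2 * n) := Nat.cast_nonneg _
    unfold hh sg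
    rw [abs_le]
    split_ifs <;> constructor <;> linarith

end Pool.Agent.H670R5
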