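import Pool.Agent.H670R5.St3
import Pool.Agent.H670R5.T_LENS1

/-!
# The box containing the lens
-/

set_option autoImplicit false

namespace Pool.Agent.H670R5

open Pool.Agent.NPC Pool.Agent.H679R2

private theorem lens3m_low (x x' N : ℝ) (z : Pl) (hN : 1 ≤ N) (h1 : -1 ≤ x) (h2 : x' ≤ N)
    (h : x ≤ z.1 ∧ z.1 ≤ x' ∧ chd x x' z.1 ≤ z.2) :
    -2 ≤ z.1 ∧ z.1 ≤ N + 1 ∧ -N ^ 2 + 1 / 16 ≤ z.2 ∧ (z.1 ≤ -1 → -15 / 16 ≤ z.2) := by
  obtain ⟨a, b, c⟩ := h
  unfold chd at c
  refine ⟨by linarith, by linarith, ?_, ?_⟩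
  · -- the chord is above the smaller end
    have hx2 : x ^ 2 ≤ N ^ 2 := by nlinarith
    have hx2' : x' ^ 2 ≤ N ^ 2 := by nlinarith
    have key : -N ^ 2 ≤ -(x + x') * z.1 + x * x' := by
      have hlin : (x' - x) * (-(x + x') * z.1 + x * x') =
          (x' - z.1) * (-x ^ 2) + (z.1 - x) * (-x' ^ 2) := by ring
      rcases eq_or_lt_of_le (a.trans b) with h0 | h0
      · have hz : z.1 = x := by linarith
        rw [hz, ← h0]
        nlinarith
      · have h3 : (x' - x) * (-N ^ 2) ≤ (x' - x) * (-(x + x') * z.1 + x * x') := by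
          rw [hlin]
          nlinarith
        exact le_of_mul_le_mul_left h3 (by linarith)
    linarith
  · intro hz
    have h3 : z.1 = -1 := by linarith
    have h4 : x = -1 := by linarith
    rw [h3, h4] at c
    linarith

private theorem lens3m_main (hX : St_X) (h1 : St_nd1) (h2 : St_nd2) (n : ℕ)
    (T : List (ℕ × ℕ × ℕ × Bool)) (pos J K : ℕ → ℕ) (hA : Arr n T pos J K) (hn : 0 < n) :
    ∃ ρ₀ > 0, ∀ ρ, 0 < ρ → ρ < ρ₀ → ∀ e ∈ (LL n T pos J K ρ).zip (LL n T pos J K ρ).tail,
    ∀ z ∈ trap e.1 e.2, -2 ≤ z.1 ∧ z.1 ≤ n + 1 ∧ -(n : ℝ) ^ 2 + 1 / 16 ≤ z.2 ∧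
      (z.1 ≤ -1 → -15 / 16 ≤ z.2) := by
  classical
  have hn1 : (1 : ℝ) ≤ n := by exact_mod_cast hn
  obtain ⟨hX1, -, -, hX4, hX5, hX6, -⟩ := hX n T pos J K hA
  obtain ⟨hs, hc⟩ := h1 n T pos J K hA
  have h2' := h2 n T pos J K hA
  obtain ⟨g, hg, hgap⟩ := lens1_gap _ (fun e he => (hc e he).1)
  refine ⟨g / 2, by linarith, ?_⟩
  intro ρ hρ hρg e he z hze
  have hmem : ∀ y, y ∈ nd n T pos J K ↔ y ∈ ND n T pos J K := fun y => by
    unfold nd; exact Finset.mem_sort _
  have hXS : ∀ x, x ∈ XS n T pos J K → x ∈ ND n T pos J K ∧ -1 < x ∧ x < n := by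
    intro x hx
    unfold XS at hx
    rw [Finset.mem_image] at hx
    obtain ⟨u, hu, rfl⟩ := hx
    rw [Finset.mem_Ico] at hu
    exact hX1 u hu.2
  have hchd1 : ∀ x x' : ℝ, chd x x' x = -x ^ 2 + 1 / 16 := fun x x' => by unfold chd; ring
  have hchd2 : ∀ x x' : ℝ, chd x x' x' = -x' ^ 2 + 1 / 16 := fun x x' => by unfold chd; ring
  have hz1 := lens1_zip (blk n T pos J K ρ) (fun x => x ∈ XS n T pos J K)
    (ptA n T pos J K ρ) pp (ptE n T pos J K ρ)
    (fun x => if x ∈ XS n T pos J K then ptE n T pos J K ρ x else pp x)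
    (fun x => if x ∈ XS n T pos J K then ptA n T pos J K ρ x else pp x)
    (fun x hx => by unfold blk; rw [if_pos hx]) (fun x hx => by unfold blk; rw [if_neg hx])
    (fun x hx => if_pos hx) (fun x hx => if_neg hx)
    (fun x hx => if_pos hx) (fun x hx => if_neg hx) (((n : ℝ) + 1, 1) : Pl)
    (nd n T pos J K) ((-2, 1) : Pl) e he
  rcases hz1 with ⟨h0, -⟩ | ⟨x, N', h0, rfl⟩ | ⟨x, hx, hS, rfl | rfl⟩ | ⟨p, hp, rfl⟩ |
    ⟨x, h0, rfl⟩
  · exfalso
    have := (hmem (-1)).mpr hX5
    rw [h0] at this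
    exact List.not_mem_nil this
  · have hx1 : x = -1 := by
      have h3 := (hmem (-1)).mpr hX5
      rw [h0] at h3 hs
      rcases List.mem_cons.mp h3 with h3 | h3
      · exact h3.symm
      · have h4 := (List.pairwise_cons.mp hs).1 _ h3
        have h5 := (hX4 x ((hmem x).mp (by rw [h0]; exact List.mem_cons_self))).1
        linarith
    have hxs : x ∉ XS n T pos J K := fun hc' => by
      have := (hXS x hc').2.1
      linarith
    have hfst : (if x ∈ XS n T pos J K then ptA n T pos J K ρ x else pp x) = pp (-1) := by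
      rw [if_neg hxs, hx1]
    simp only [hfst] at hze
    obtain ⟨q1, q2, q3, -⟩ := hze
    unfold pp at q2 q3
    unfold ori at q3
    simp only at q1 q2 q3
    have q4 : -15 / 16 ≤ z.2 := by nlinarith
    refine ⟨q1, by linarith, by nlinarith, fun _ => q4⟩
  · obtain ⟨h3, h4, h5⟩ := hXS x hS
    obtain ⟨k1, -, k3, -, -, -, -, -, k9, -⟩ := h2' x h3 h4 h5
    refine lens3m_low (pvN n T pos J K x) x n z hn1 (hX4 _ k1).1 h5.le ?_
    have hg2 := hgap _ k9
    simp only at hg2
    refine lens1_trap _ _ _ _ z ?_ ?_ ?_ ?_ ?_ hze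
    · rfl
    · unfold pp
      simp only
      rw [hchd2]
    · unfold ptA pp
      simp only
      linarith
    · unfold ptA
      simp only
      linarith
    · exact le_rfl
  · obtain ⟨h3, h4, h5⟩ := hXS x hS
    obtain ⟨-, k2, -, k4, -, -, -, -, -, k10⟩ := h2' x h3 h4 h5
    refine lens3m_low x (nxN n T pos J K x) n z hn1 h4.le (hX4 _ k2).2 ?_
    have hg2 := hgap _ k10
    simp only at hg2
    refine lens1_trap _ _ _ _ z ?_ ?_ ?_ ?_ ?_ hze
    · unfold pp
      simp only
      rw [hchd1]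
    · rfl
    · unfold ptE pp
      simp only
      linarith
    · exact le_rfl
    · unfold ptE
      simp only
      linarith
  · have hg2 := hgap _ hp
    obtain ⟨c1, -, c3, c4, c5⟩ := hc p hp
    obtain ⟨x, x'⟩ := p
    simp only at hg2 c1 c3 c4 c5 hze ⊢
    have hl : (if x ∈ XS n T pos J K then ptE n T pos J K ρ x else pp x).2 =
        chd x x' (if x ∈ XS n T pos J K then ptE n T pos J K ρ x else pp x).1 ∧
        x ≤ (if x ∈ XS n T pos J K then ptE n T pos J K ρ x else pp x).1 ∧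
        (if x ∈ XS n T pos J K then ptE n T pos J K ρ x else pp x).1 ≤ x + ρ := by
      split_ifs with hS
      · obtain ⟨h3, h4, h5⟩ := hXS x hS
        obtain ⟨-, k2, -, k4, -, -, -, k8, -, -⟩ := h2' x h3 h4 h5
        have e1 : nxN n T pos J K x = x' := by
          apply le_antisymm
          · rcases k8 x' c4 with h | h
            · linarith
            · exact h
          · rcases c5 _ k2 with h | h
            · linarith
            · exact h
        unfold ptE
        simp only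
        rw [e1]
        exact ⟨rfl, by linarith, le_rfl⟩
      · unfold pp
        simp only
        rw [hchd1]
        exact ⟨rfl, le_rfl, by linarith⟩
    have hf : (if x' ∈ XS n T pos J K then ptA n T pos J K ρ x' else pp x').2 =
        chd x x' (if x' ∈ XS n T pos J K then ptA n T pos J K ρ x' else pp x').1 ∧
        (if x' ∈ XS n T pos J K then ptA n T pos J K ρ x' else pp x').1 ≤ x' ∧
        x' - ρ ≤ (if x' ∈ XS n T pos J K then ptA n T pos J K ρ x' else pp x').1 := by
      split_ifs with hS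
      · obtain ⟨h3, h4, h5⟩ := hXS x' hS
        obtain ⟨k1, -, k3, -, -, -, k7, -, -, -⟩ := h2' x' h3 h4 h5
        have e1 : pvN n T pos J K x' = x := by
          apply le_antisymm
          · rcases c5 _ k1 with h | h
            · exact h
            · linarith
          · rcases k7 x c3 with h | h
            · exact h
            · linarith
        unfold ptA
        simp only
        rw [e1]
        exact ⟨rfl, by linarith, le_rfl⟩
      · unfold pp
        simp only
        rw [hchd2]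
        exact ⟨rfl, le_rfl, by linarith⟩
    exact lens3m_low x x' n z hn1 (hX4 _ c3).1 (hX4 _ c4).2
      (lens1_trap x x' _ _ z hl.1 hf.1 (by linarith [hl.2.2, hf.2.2]) hl.2.1 hf.2.1 hze)
  · have hx1 := lens1_last _ hs x h0 n ((hmem _).mpr hX6)
    have hx2 : x ≤ n := (hX4 x ((hmem x).mp (List.mem_of_getLast? h0))).2
    have hx3 : x = n := le_antisymm hx2 hx1
    have hxs : x ∉ XS n T pos J K := fun hc' => by
      have := (hXS x hc').2.2
      linarith
    have hfst : (if x ∈ XS n T pos J K then ptE n T pos J K ρ x else pp x) = pp n := by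
      rw [if_neg hxs, hx3]
    simp only [hfst] at hze
    obtain ⟨q1, q2, q3, -⟩ := hze
    unfold pp at q1 q3
    unfold ori at q3
    simp only at q1 q2 q3
    refine ⟨by linarith, q2, ?_, fun h' => by linarith⟩
    have q5 : 0 ≤ (1 + (n : ℝ) ^ 2 - 1 / 16) * (z.1 - n) :=
      mul_nonneg (by nlinarith) (by linarith)
    nlinarith

theorem lens3_ok (hX : St_X) (h1 : St_nd1) (h2 : St_nd2) : St_lens3 := by
  intro n T pos J K hA hn
  obtain ⟨ρ₀, h0, hm⟩ := lens3m_main hX h1 h2 n T pos J K hA hn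
  obtain ⟨ρ₁, h0', hm'⟩ := lens1_ok hX h1 h2 n T pos J K hA hn
  have hn1 : (1 : ℝ) ≤ n := by exact_mod_cast hn
  refine ⟨ρ₀, h0, fun ρ hρ hρ' z hz => ?_⟩
  obtain ⟨e, he, hze⟩ := hz
  obtain ⟨a1, a2, a3, a4⟩ := hm ρ hρ hρ' e he z hze
  have hzm : mir z ∈ trap e.1 e.2 := by
    obtain ⟨b1, b2, b3, b4⟩ := hze
    refine ⟨b1, b2, b4, ?_⟩
    have : mir (mir z) = z := by unfold mir; ext <;> simp
    rw [this]
    exact b3
  obtain ⟨-, -, c3, -⟩ := hm ρ hρ hρ' e he _ hzm
  have c4 : -(n : ℝ) ^ 2 + 1 / 16 ≤ 2 - z.2 := c3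
  refine ⟨a1, a2, by nlinarith, by nlinarith, a4, fun _ => a3⟩

end Pool.Agent.H670R5
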