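import Pool.Agent.H670R5.St3

set_option autoImplicit false

namespace Pool.Agent.H670R5

open Pool.Agent.NPC Pool.Agent.H679R2

theorem iEdges_old (n : ℕ) (T : List (ℕ × ℕ × ℕ × Bool)) (u v : ℕ)
    (h : (u, v) ∈ (instG n T).2) : u < 2 * sz n T ∧ v < 2 * sz n T := by
  have key : ∀ a b : ℕ, (a, b) ∈ edg n T → a < sz n T ∧ b < sz n T := by
    intro a b hab
    unfold edg at hab
    simp only [List.mem_filter, List.mem_flatMap, List.mem_range, List.mem_map,
      Prod.mk.injEq] at hab
    obtain ⟨⟨x, hx, y, hy, h1, h2⟩, -⟩ := hab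
    omega
  unfold instG at h
  simp only [List.mem_append, List.mem_map] at h
  rcases h with h | ⟨⟨a, b⟩, hab, h⟩
  · have := key _ _ h
    omega
  · have := key _ _ hab
    simp only [Prod.mk.injEq] at h
    omega

theorem iEdges_new (n : ℕ) (T : List (ℕ × ℕ × ℕ × Bool)) (x y : ℕ) :
    (x, y) ∈ newE n T ↔
      ((x = 2 * sz n T ∧ y = 2 * sz n T + 1) ∨ (x = 2 * sz n T ∧ y = 2 * sz n T + 2) ∨
        (x = 2 * sz n T + 1 ∧ y = 2 * sz n T + 3) ∨ (x = 2 * sz n T + 2 ∧ y = 2 * sz n T + 3) ∨
        (x < 2 * n ∧ (y = 2 * sz n T ∨ y = 2 * sz n T + 1)) ∨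
        (sz n T ≤ x ∧ x < sz n T + 2 * n ∧ (y = 2 * sz n T + 2 ∨ y = 2 * sz n T + 3))) := by
  unfold newE
  simp only [List.mem_append, List.mem_cons, List.not_mem_nil, or_false, List.mem_flatMap,
    List.mem_range, Prod.mk.injEq]
  constructor
  · rintro ((h | h | h | h) | ⟨w, hw, h | h | h | h⟩) <;> omega
  · rintro (h | h | h | h | ⟨h1, h2 | h2⟩ | ⟨h1, h2, h3 | h3⟩)
    · exact Or.inl (Or.inl h)
    · exact Or.inl (Or.inr (Or.inl h))
    · exact Or.inl (Or.inr (Or.inr (Or.inl h)))
    · exact Or.inl (Or.inr (Or.inr (Or.inr h)))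
    · exact Or.inr ⟨x, h1, Or.inl ⟨rfl, h2⟩⟩
    · exact Or.inr ⟨x, h1, Or.inr (Or.inl ⟨rfl, h2⟩)⟩
    · exact Or.inr ⟨x - sz n T, by omega, Or.inr (Or.inr (Or.inl ⟨by omega, h3⟩))⟩
    · exact Or.inr ⟨x - sz n T, by omega, Or.inr (Or.inr (Or.inr ⟨by omega, h3⟩))⟩

theorem iEdges_ok (h : St_edges) : St_iEdges := by
  intro n T u v hu hv huv
  have hs : 2 * n ≤ sz n T := by unfold sz; omega
  have e : ∀ a b : ℕ, (a, b) ∈ (instI n T).2 ↔ (a, b) ∈ (instG n T).2 ∨ (a, b) ∈ newE n T := by
    intro a b
    unfold instI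
    simp only [List.mem_append]
  rw [e, e, iEdges_new, iEdges_new]
  unfold Ad3 AdC
  have o1 := iEdges_old n T u v
  have o2 := iEdges_old n T v u
  by_cases h1 : u < 2 * sz n T
  · by_cases h2 : v < 2 * sz n T
    · have h3 := h n T u v h1 h2 huv
      constructor
      · intro h4
        left
        refine ⟨h1, h2, h3.mp ?_⟩
        rcases h4 with (h4 | h4) | (h4 | h4)
        · exact Or.inl h4
        · exfalso; omega
        · exact Or.inr h4
        · exfalso; omega
      · rintro (h4 | h4 | h4 | h4)
        · rcases h3.mpr h4.2.2 with h5 | h5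
          · exact Or.inl (Or.inl h5)
          · exact Or.inr (Or.inl h5)
        · exfalso; omega
        · exfalso; omega
        · exfalso; omega
    · constructor
      · rintro ((h4 | h4) | (h4 | h4))
        · exfalso; exact h2 (o1 h4).2
        · right; right; left; omega
        · exfalso; exact h2 (o2 h4).1
        · exfalso; omega
      · rintro (h4 | h4 | h4 | h4)
        · exfalso; omega
        · exfalso; omega
        · left; right; omega
        · exfalso; omega
  · by_cases h2 : v < 2 * sz n T
    · constructor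
      · rintro ((h4 | h4) | (h4 | h4))
        · exfalso; exact h1 (o1 h4).1
        · exfalso; omega
        · exfalso; exact h1 (o2 h4).2
        · right; left; omega
      · rintro (h4 | h4 | h4 | h4)
        · exfalso; omega
        · right; right; omega
        · exfalso; omega
        · exfalso; omega
    · constructor
      · rintro ((h4 | h4) | (h4 | h4))
        · exfalso; exact h1 (o1 h4).1
        · right; right; right; omega
        · exfalso; exact h1 (o2 h4).2
        · right; right; right; omega
      · rintro (h4 | h4 | h4 | h4)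
        · exfalso; omega
        · exfalso; omega
        · exfalso; omega
        · by_cases h5 : u < v
          · left; right; omega
          · right; right; omega

end Pool.Agent.H670R5
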