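import Pool.Agent.H670R5.St3

/-!
# ILIM : all edges and nonedges in the limit position
-/

namespace Pool.Agent.H670R5

open Pool.Agent.NPC Pool.Agent.H679R2
open Topology Filter

theorem ILIM_mir_mir (z : Pl) : mir (mir z) = z := by
  unfold mir
  ext <;> simp

theorem ILIM_mir_cont : Continuous mir := by
  unfold mir
  fun_prop

theorem ILIM_mir_comb (a b : ℝ) (x y : Pl) (hab : a + b = 1) :
    mir (a • x + b • y) = a • mir x + b • mir y := by
  unfold mir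
  ext
  · simp
  · simp
    linear_combination (-2 : ℝ) * hab

theorem ILIM_mir_seg {x y z : Pl} (h : z ∈ segment ℝ x y) : mir z ∈ segment ℝ (mir x) (mir y) := by
  obtain ⟨a, b, ha, hb, hab, rfl⟩ := h
  exact ⟨a, b, ha, hb, hab, (ILIM_mir_comb a b x y hab).symm⟩

theorem ILIM_mir_int {P : Set Pl} (hP : ∀ z, mir z ∈ P ↔ z ∈ P) {z : Pl} (h : z ∈ interior P) :
    mir z ∈ interior P := by
  have h1 : mir ⁻¹' (interior P) ⊆ interior P := by
    apply interior_maximal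
    · intro w hw
      exact (hP w).mp (interior_subset hw)
    · exact isOpen_interior.preimage ILIM_mir_cont
  apply h1
  show mir (mir z) ∈ interior P
  rw [ILIM_mir_mir]
  exact h

theorem ILIM_mir_dis {P : Set Pl} (hP : ∀ z, mir z ∈ P ↔ z ∈ P) {x y : Pl}
    (h : Disjoint (segment ℝ x y) P) : Disjoint (segment ℝ (mir x) (mir y)) P := by
  rw [Set.disjoint_left] at h ⊢
  intro z hz hzP
  have h1 := ILIM_mir_seg hz
  rw [ILIM_mir_mir, ILIM_mir_mir] at h1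
  exact h h1 ((hP z).mpr hzP)

theorem ILIM_mir_ne {P : Set Pl} (hP : ∀ z, mir z ∈ P ↔ z ∈ P) {x y : Pl}
    (h : (segment ℝ x y ∩ interior P).Nonempty) :
    (segment ℝ (mir x) (mir y) ∩ interior P).Nonempty := by
  obtain ⟨z, hz1, hz2⟩ := h
  exact ⟨mir z, ILIM_mir_seg hz1, ILIM_mir_int hP hz2⟩

theorem ILIM_open {P : Set Pl} (f g : ℝ → Pl) (hf : Continuous f) (hg : Continuous g)
    (h : (segment ℝ (f 0) (g 0) ∩ interior P).Nonempty) :
    ∀ᶠ τ in 𝓝[>] (0 : ℝ), (segment ℝ (f τ) (g τ) ∩ interior P).Nonempty := by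
  obtain ⟨z, ⟨a, b, ha, hb, hab, hz⟩, hz2⟩ := h
  have hc : Continuous (fun τ : ℝ => a • f τ + b • g τ) := by fun_prop
  have hev : ∀ᶠ τ in 𝓝 (0 : ℝ), a • f τ + b • g τ ∈ interior P := by
    apply hc.continuousAt.eventually_mem
    apply isOpen_interior.mem_nhds
    show a • f 0 + b • g 0 ∈ interior P
    rw [hz]
    exact hz2
  filter_upwards [hev.filter_mono nhdsWithin_le_nhds] with τ hτ
  exact ⟨_, ⟨a, b, ha, hb, hab, rfl⟩, hτ⟩

theorem ILIM_Qt_cont (n : ℕ) (pos J K : ℕ → ℕ) (u : ℕ) :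
    Continuous (fun τ : ℝ => Qt n pos J K τ u) := by
  unfold Qt
  fun_prop

theorem ILIM_Qt_zero (n : ℕ) (pos J K : ℕ → ℕ) (u : ℕ) : Qt n pos J K 0 u = Q n pos J K u := by
  unfold Qt
  rw [zero_smul, add_zero]

/-! ### Adjacency -/

theorem ILIM_sz (n : ℕ) (T : List (ℕ × ℕ × ℕ × Bool)) : 2 * n ≤ sz n T := by
  unfold sz; omega

theorem ILIM_adA {n : ℕ} {T : List (ℕ × ℕ × ℕ × Bool)} {u v : ℕ} (hu : u < sz n T)
    (hv : v < sz n T) : Ad3 n T u v ↔ Ad n T u v := by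
  unfold Ad3 Ad2
  constructor
  · rintro (⟨_, _, ⟨_, _, h⟩ | ⟨h, _⟩⟩ | ⟨h, _⟩ | ⟨_, h, _⟩ | ⟨h, _⟩)
    · exact h
    all_goals omega
  · intro h
    exact Or.inl ⟨by omega, by omega, Or.inl ⟨hu, hv, h⟩⟩

theorem ILIM_adAB {n : ℕ} {T : List (ℕ × ℕ × ℕ × Bool)} {u v : ℕ} (hu : u < sz n T)
    (hv : sz n T ≤ v) (hv' : v < 2 * sz n T) : ¬ Ad3 n T u v := by
  unfold Ad3 Ad2
  rintro (⟨_, _, ⟨_, h, _⟩ | ⟨h, _⟩⟩ | ⟨h, _⟩ | ⟨_, h, _⟩ | ⟨h, _⟩) <;> omega

theorem ILIM_adB {n : ℕ} {T : List (ℕ × ℕ × ℕ × Bool)} {u v : ℕ} (hu : sz n T ≤ u)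
    (hu' : u < 2 * sz n T) (hv : sz n T ≤ v) (hv' : v < 2 * sz n T) :
    Ad3 n T u v ↔ Ad n T (u - sz n T) (v - sz n T) := by
  unfold Ad3 Ad2
  constructor
  · rintro (⟨_, _, ⟨h, _⟩ | ⟨_, _, h⟩⟩ | ⟨h, _⟩ | ⟨_, h, _⟩ | ⟨h, _⟩)
    · omega
    · exact h
    all_goals omega
  · intro h
    exact Or.inl ⟨by omega, by omega, Or.inr ⟨hu, hv, h⟩⟩

theorem ILIM_adC {n : ℕ} {T : List (ℕ × ℕ × ℕ × Bool)} {u v : ℕ} (hu : u < 2 * sz n T)
    (hv : 2 * sz n T ≤ v) : Ad3 n T u v ↔ AdC n T (v - 2 * sz n T) u := by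
  unfold Ad3
  constructor
  · rintro (⟨_, h, _⟩ | ⟨h, _⟩ | ⟨_, _, h⟩ | ⟨h, _⟩)
    · omega
    · omega
    · exact h
    · omega
  · intro h
    exact Or.inr (Or.inr (Or.inl ⟨hu, hv, h⟩))

theorem ILIM_adD {n : ℕ} {T : List (ℕ × ℕ × ℕ × Bool)} {u v : ℕ} (hu : 2 * sz n T ≤ u)
    (hv : 2 * sz n T ≤ v) : Ad3 n T u v ↔ (u - 2 * sz n T) + (v - 2 * sz n T) ≠ 3 := by
  unfold Ad3
  constructor
  · rintro (⟨_, h, _⟩ | ⟨_, h, _⟩ | ⟨h, _, _⟩ | ⟨_, _, h⟩)
    · omega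
    · omega
    · omega
    · exact h
  · intro h
    exact Or.inr (Or.inr (Or.inr ⟨hu, hv, h⟩))

theorem ILIM_symm {n : ℕ} {T : List (ℕ × ℕ × ℕ × Bool)} {u v : ℕ} (h : Ad3 n T u v) :
    Ad3 n T v u := by
  unfold Ad3 Ad2 Ad at *
  rcases h with ⟨h1, h2, ⟨h3, h4, h5⟩ | ⟨h3, h4, h5⟩⟩ | ⟨h1, h2, h3⟩ | ⟨h1, h2, h3⟩ | ⟨h1, h2, h3⟩
  · exact Or.inl ⟨h2, h1, Or.inl ⟨h4, h3, h5.symm⟩⟩
  · exact Or.inl ⟨h2, h1, Or.inr ⟨h4, h3, h5.symm⟩⟩
  · exact Or.inr (Or.inr (Or.inl ⟨h2, h1, h3⟩))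
  · exact Or.inr (Or.inl ⟨h2, h1, h3⟩)
  · exact Or.inr (Or.inr (Or.inr ⟨h2, h1, by omega⟩))

/-! ### Segments outside of the box -/

theorem ILIM_hor {P : Set Pl} {x y : Pl} {h : ℝ} (hx : x.2 = h) (hy : y.2 = h)
    (hb : ∀ z ∈ P, h < z.2) : Disjoint (segment ℝ x y) P := by
  rw [Set.disjoint_left]
  rintro z ⟨a, b, ha, hb', hab, rfl⟩ hz
  have h1 := hb _ hz
  have h2 : (a • x + b • y).2 = h := by
    simp only [Prod.snd_add, Prod.smul_snd, smul_eq_mul, hx, hy]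
    rw [← add_mul, hab, one_mul]
  rw [h2] at h1
  exact lt_irrefl _ h1

theorem ILIM_ver {P : Set Pl} {x y : Pl} {h : ℝ} (hx : x.1 = h) (hy : y.1 = h)
    (hb : ∀ z ∈ P, z.1 ≠ h) : Disjoint (segment ℝ x y) P := by
  rw [Set.disjoint_left]
  rintro z ⟨a, b, ha, hb', hab, rfl⟩ hz
  have h1 := hb _ hz
  have h2 : (a • x + b • y).1 = h := by
    simp only [Prod.fst_add, Prod.smul_fst, smul_eq_mul, hx, hy]
    rw [← add_mul, hab, one_mul]
  exact h1 h2

theorem ILIM_core (n : ℕ) (T : List (ℕ × ℕ × ℕ × Bool)) (P : Set Pl)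
    (hP : ∀ z, mir z ∈ P ↔ z ∈ P) (q : ℕ → Pl) (Y : ℝ)
    (e1 : ∀ u < sz n T, ∀ v < sz n T, u ≠ v → Ad n T u v → Disjoint (segment ℝ (q u) (q v)) P)
    (e2 : ∀ u < sz n T, ∀ v < sz n T, u ≠ v → ¬ Ad n T u v →
      (segment ℝ (q u) (q v) ∩ interior P).Nonempty)
    (e3 : ∀ u < sz n T, ∀ v < sz n T, (segment ℝ (q u) (mir (q v)) ∩ interior P).Nonempty)
    (c1 : ∀ c, IsCor n Y c → ∀ u < 2 * n, Disjoint (segment ℝ c (q u)) P)
    (c2 : ∀ c, IsCor n Y c → ∀ u, 2 * n ≤ u → u < sz n T →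
      (segment ℝ c (q u) ∩ interior P).Nonempty)
    (c3 : ∀ c, IsCor n Y c → ∀ u < sz n T, (segment ℝ c (mir (q u)) ∩ interior P).Nonempty)
    (d1 : (segment ℝ ((-3, -Y) : Pl) ((n : ℝ) + 2, 2 + Y) ∩ interior P).Nonempty)
    (d2 : (segment ℝ (((n : ℝ) + 2, -Y) : Pl) (-3, 2 + Y) ∩ interior P).Nonempty)
    (box : ∀ z ∈ P, -2 ≤ z.1 ∧ z.1 ≤ n + 1 ∧ -Y < z.2)
    (u v : ℕ) (huv : u < v) (hv : v < 2 * sz n T + 4) :
    (Ad3 n T u v → Disjoint (segment ℝ (four n T Y q u) (four n T Y q v)) P) ∧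
    (¬ Ad3 n T u v → (segment ℝ (four n T Y q u) (four n T Y q v) ∩ interior P).Nonempty) := by
  have hs : 2 * n ≤ sz n T := ILIM_sz n T
  have m0 : mir ((-3, -Y) : Pl) = (-3, 2 + Y) := by
    unfold mir
    simp [sub_neg_eq_add]
  have m1 : mir (((n : ℝ) + 2, -Y) : Pl) = ((n : ℝ) + 2, 2 + Y) := by
    unfold mir
    simp [sub_neg_eq_add]
  have k0 : IsCor n Y (-3, -Y) := Or.inl rfl
  have k1 : IsCor n Y ((n : ℝ) + 2, -Y) := Or.inr rfl
  have pA : ∀ u, u < sz n T → four n T Y q u = q u := by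
    intro u hu
    unfold four two
    rw [if_pos (by omega), if_pos hu]
  have pB : ∀ u, sz n T ≤ u → u < 2 * sz n T → four n T Y q u = mir (q (u - sz n T)) := by
    intro u hu hu'
    unfold four two
    rw [if_pos hu', if_neg (by omega)]
  have p0 : four n T Y q (2 * sz n T) = (-3, -Y) := by
    unfold four
    rw [if_neg (by omega), if_pos rfl]
  have p1 : four n T Y q (2 * sz n T + 1) = ((n : ℝ) + 2, -Y) := by
    unfold four
    rw [if_neg (by omega), if_neg (by omega), if_pos rfl]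
  have p2 : four n T Y q (2 * sz n T + 2) = mir (-3, -Y) := by
    unfold four
    rw [if_neg (by omega), if_neg (by omega), if_neg (by omega), if_pos rfl, m0]
  have p3 : four n T Y q (2 * sz n T + 3) = mir ((n : ℝ) + 2, -Y) := by
    unfold four
    rw [if_neg (by omega), if_neg (by omega), if_neg (by omega), if_neg (by omega), m1]
  -- a lower corner and a vertex of the two copies
  have low : ∀ (i : ℕ) (c : Pl), i < 2 → IsCor n Y c → ∀ u, u < 2 * sz n T →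
      (AdC n T i u → Disjoint (segment ℝ (four n T Y q u) c) P) ∧
      (¬ AdC n T i u → (segment ℝ (four n T Y q u) c ∩ interior P).Nonempty) := by
    intro i c hi hc u hu
    unfold AdC
    by_cases hus : u < sz n T
    · rw [pA u hus, segment_symm]
      constructor
      · rintro (⟨_, h⟩ | ⟨h, _⟩)
        · exact c1 c hc u h
        · omega
      · intro h
        exact c2 c hc u (by by_contra h'; exact h (Or.inl ⟨hi, by omega⟩)) hus
    · rw [pB u (by omega) hu, segment_symm]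
      constructor
      · rintro (⟨_, h⟩ | ⟨h, _⟩) <;> omega
      · intro h
        exact c3 c hc (u - sz n T) (by omega)
  have upp : ∀ (i : ℕ) (c : Pl), 2 ≤ i → IsCor n Y c → ∀ u, u < 2 * sz n T →
      (AdC n T i u → Disjoint (segment ℝ (four n T Y q u) (mir c)) P) ∧
      (¬ AdC n T i u → (segment ℝ (four n T Y q u) (mir c) ∩ interior P).Nonempty) := by
    intro i c hi hc u hu
    unfold AdC
    by_cases hus : u < sz n T
    · rw [pA u hus, segment_symm]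
      constructor
      · rintro (⟨h, _⟩ | ⟨_, h, _⟩) <;> omega
      · intro h
        have h1 := ILIM_mir_ne hP (c3 c hc u hus)
        rw [ILIM_mir_mir] at h1
        exact h1
    · rw [pB u (by omega) hu, segment_symm]
      constructor
      · rintro (⟨h, _⟩ | ⟨_, _, h⟩)
        · omega
        · exact ILIM_mir_dis hP (c1 c hc (u - sz n T) (by omega))
      · intro h
        exact ILIM_mir_ne hP (c2 c hc (u - sz n T)
          (by by_contra h'; exact h (Or.inr ⟨hi, by omega, by omega⟩)) (by omega))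
  have bL : Disjoint (segment ℝ ((-3, -Y) : Pl) (mir (-3, -Y))) P := by
    refine ILIM_ver (h := -3) rfl (by rw [m0]) ?_
    intro z hz h
    have := (box z hz).1
    rw [h] at this
    norm_num at this
  have bR : Disjoint (segment ℝ (((n : ℝ) + 2, -Y) : Pl) (mir ((n : ℝ) + 2, -Y))) P := by
    refine ILIM_ver (h := (n : ℝ) + 2) rfl (by rw [m1]) ?_
    intro z hz h
    have := (box z hz).2.1
    rw [h] at this
    linarith
  have bB : Disjoint (segment ℝ ((-3, -Y) : Pl) ((n : ℝ) + 2, -Y)) P :=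
    ILIM_hor (h := -Y) rfl rfl (fun z hz => (box z hz).2.2)
  by_cases hv1 : v < sz n T
  · rw [ILIM_adA (by omega) hv1, pA u (by omega), pA v hv1]
    exact ⟨e1 u (by omega) v hv1 (by omega), e2 u (by omega) v hv1 (by omega)⟩
  by_cases hv2 : v < 2 * sz n T
  · by_cases hu1 : u < sz n T
    · rw [pA u hu1, pB v (by omega) hv2]
      exact ⟨fun h => absurd h (ILIM_adAB hu1 (by omega) hv2),
        fun _ => e3 u hu1 (v - sz n T) (by omega)⟩
    · rw [ILIM_adB (by omega) (by omega) (by omega) hv2, pB u (by omega) (by omega),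
        pB v (by omega) hv2]
      exact ⟨fun h => ILIM_mir_dis hP (e1 _ (by omega) _ (by omega) (by omega) h),
        fun h => ILIM_mir_ne hP (e2 _ (by omega) _ (by omega) (by omega) h)⟩
  obtain hv3 | hv3 | hv3 | hv3 : v = 2 * sz n T ∨ v = 2 * sz n T + 1 ∨ v = 2 * sz n T + 2 ∨
      v = 2 * sz n T + 3 := by omega
  · subst hv3
    rw [ILIM_adC huv le_rfl, p0]
    exact low _ _ (by omega) k0 u huv
  · subst hv3
    by_cases hu : u < 2 * sz n T
    · rw [ILIM_adC hu (by omega), p1]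
      exact low _ _ (by omega) k1 u hu
    · obtain rfl : u = 2 * sz n T := by omega
      rw [ILIM_adD le_rfl (by omega), p0, p1]
      exact ⟨fun _ => bB, fun h => absurd (by omega) h⟩
  · subst hv3
    by_cases hu : u < 2 * sz n T
    · rw [ILIM_adC hu (by omega), p2]
      exact upp _ _ (by omega) k0 u hu
    · obtain rfl | rfl : u = 2 * sz n T ∨ u = 2 * sz n T + 1 := by omega
      · rw [ILIM_adD le_rfl (by omega), p0, p2]
        exact ⟨fun _ => bL, fun h => absurd (by omega) h⟩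
      · rw [ILIM_adD (by omega) (by omega), p1, p2, m0]
        exact ⟨fun h => absurd (by omega) h, fun _ => d2⟩
  · subst hv3
    by_cases hu : u < 2 * sz n T
    · rw [ILIM_adC hu (by omega), p3]
      exact upp _ _ (by omega) k1 u hu
    · obtain rfl | rfl | rfl : u = 2 * sz n T ∨ u = 2 * sz n T + 1 ∨ u = 2 * sz n T + 2 := by omega
      · rw [ILIM_adD le_rfl (by omega), p0, p3, m1]
        exact ⟨fun h => absurd (by omega) h, fun _ => d1⟩
      · rw [ILIM_adD (by omega) (by omega), p1, p3]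
        exact ⟨fun _ => bR, fun h => absurd (by omega) h⟩
      · rw [ILIM_adD (by omega) (by omega), p2, p3]
        exact ⟨fun _ => ILIM_mir_dis hP bB, fun h => absurd (by omega) h⟩

theorem iLim_ok (hX : St_X) (hF1 : St_F1) (hF2 : St_F2) (hF3 : St_F3) (hF4 : St_F4)
    (hG3 : St_cG3) (hG2 : St_cG2) (hcX : St_cX) (hB : St_box) (hD : St_disp) : St_iLim := by
  intro n T pos J K hA hn
  obtain ⟨ρ2, hρ2, h2⟩ := hF2 n T pos J K hA hn
  obtain ⟨ρ3, hρ3, h3⟩ := hF3 n T pos J K hA hn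
  obtain ⟨ρ4, hρ4, h4⟩ := hF4 n T pos J K hA hn
  obtain ⟨Ya, hYa⟩ := hG3 n T pos J K hA hn
  obtain ⟨Yb, hYb⟩ := hG2 n T pos J K hA hn
  obtain ⟨Yc, hYc⟩ := hcX n T pos J K hA hn
  obtain ⟨H, ρ8, hρ8, h8⟩ := hB n T pos J K hA hn
  refine ⟨max (max Ya Yb) (max Yc (H + 1)), ?_⟩
  intro Y hY
  obtain ⟨ρ5, hρ5, h5⟩ := hYa Y (((le_max_left _ _).trans (le_max_left _ _)).trans hY)
  obtain ⟨ρ6, hρ6, h6⟩ := hYb Y (((le_max_right _ _).trans (le_max_left _ _)).trans hY)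
  obtain ⟨ρ7, hρ7, h7⟩ := hYc Y (((le_max_left _ _).trans (le_max_right _ _)).trans hY)
  have hHY : H + 1 ≤ Y := ((le_max_right _ _).trans (le_max_right _ _)).trans hY
  refine ⟨min (min (min ρ2 ρ3) (min ρ4 ρ5)) (min (min ρ6 ρ7) ρ8),
    lt_min (lt_min (lt_min hρ2 hρ3) (lt_min hρ4 hρ5)) (lt_min (lt_min hρ6 hρ7) hρ8), ?_⟩
  intro ρ hρ hρ'
  simp only [lt_min_iff] at hρ'
  obtain ⟨⟨⟨r2, r3⟩, r4, r5⟩, ⟨r6, r7⟩, r8⟩ := hρ'
  replace h2 := h2 ρ hρ r2
  obtain ⟨τ3, hτ3, h3⟩ := h3 ρ hρ r3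
  obtain ⟨h4, -, h4c⟩ := h4 ρ hρ r4
  obtain ⟨τ5, hτ5, h5⟩ := h5 ρ hρ r5
  replace h6 := h6 ρ hρ r6
  obtain ⟨h7, h7a, h7b⟩ := h7 ρ hρ r7
  replace h8 := h8 ρ hρ r8
  set P := OB n T pos J K ρ with hPdef
  have ev1 : ∀ᶠ τ in 𝓝[>] (0 : ℝ), ∀ u ∈ Finset.range (sz n T), ∀ v ∈ Finset.range (sz n T),
      u ≠ v → ¬ Ad n T u v →
      (segment ℝ (Qt n pos J K τ u) (Qt n pos J K τ v) ∩ interior P).Nonempty := by
    rw [Filter.eventually_all_finset]
    intro u hu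
    rw [Filter.eventually_all_finset]
    intro v hv
    rw [Filter.eventually_imp_distrib_left]
    intro huv
    rw [Filter.eventually_imp_distrib_left]
    intro hAd
    apply ILIM_open _ _ (ILIM_Qt_cont n pos J K u) (ILIM_Qt_cont n pos J K v)
    rw [ILIM_Qt_zero, ILIM_Qt_zero]
    exact h2 u (Finset.mem_range.mp hu) v (Finset.mem_range.mp hv) huv hAd
  have ev2 : ∀ᶠ τ in 𝓝[>] (0 : ℝ), ∀ u ∈ Finset.range (sz n T), ∀ v ∈ Finset.range (sz n T),
      (segment ℝ (Qt n pos J K τ u) (mir (Qt n pos J K τ v)) ∩ interior P).Nonempty := by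
    rw [Filter.eventually_all_finset]
    intro u hu
    rw [Filter.eventually_all_finset]
    intro v hv
    apply ILIM_open (fun τ => Qt n pos J K τ u) (fun τ => mir (Qt n pos J K τ v))
      (ILIM_Qt_cont n pos J K u) (ILIM_mir_cont.comp (ILIM_Qt_cont n pos J K v))
    show (segment ℝ (Qt n pos J K 0 u) (mir (Qt n pos J K 0 v)) ∩ interior P).Nonempty
    rw [ILIM_Qt_zero, ILIM_Qt_zero]
    exact h4 u (Finset.mem_range.mp hu) v (Finset.mem_range.mp hv)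
  have ev3 : ∀ᶠ τ in 𝓝[>] (0 : ℝ), τ < τ3 ∧ τ < τ5 := by
    have e2 : ∀ᶠ τ in 𝓝[>] (0 : ℝ), τ < τ3 := (eventually_lt_nhds hτ3).filter_mono nhdsWithin_le_nhds
    have e3 : ∀ᶠ τ in 𝓝[>] (0 : ℝ), τ < τ5 := (eventually_lt_nhds hτ5).filter_mono nhdsWithin_le_nhds
    filter_upwards [e2, e3] with τ b c
    exact ⟨b, c⟩
  have ev4 : ∀ c, IsCor n Y c → ∀ᶠ τ in 𝓝[>] (0 : ℝ), ∀ u ∈ Finset.range (sz n T), 2 * n ≤ u →
      (segment ℝ c (Qt n pos J K τ u) ∩ interior P).Nonempty := by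
    intro c hc
    rw [Filter.eventually_all_finset]
    intro u hu
    rw [Filter.eventually_imp_distrib_left]
    intro hu2
    apply ILIM_open (fun _ => c) (fun τ => Qt n pos J K τ u) continuous_const
      (ILIM_Qt_cont n pos J K u)
    show (segment ℝ c (Qt n pos J K 0 u) ∩ interior P).Nonempty
    rw [ILIM_Qt_zero]
    exact h6 c hc u hu2 (Finset.mem_range.mp hu)
  have ev5 : ∀ c, IsCor n Y c → ∀ᶠ τ in 𝓝[>] (0 : ℝ), ∀ u ∈ Finset.range (sz n T),
      (segment ℝ c (mir (Qt n pos J K τ u)) ∩ interior P).Nonempty := by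
    intro c hc
    rw [Filter.eventually_all_finset]
    intro u hu
    apply ILIM_open (fun _ => c) (fun τ => mir (Qt n pos J K τ u)) continuous_const
      (ILIM_mir_cont.comp (ILIM_Qt_cont n pos J K u))
    show (segment ℝ c (mir (Qt n pos J K 0 u)) ∩ interior P).Nonempty
    rw [ILIM_Qt_zero]
    exact h7 c hc u (Finset.mem_range.mp hu)
  have k0 : IsCor n Y (-3, -Y) := Or.inl rfl
  have k1 : IsCor n Y ((n : ℝ) + 2, -Y) := Or.inr rfl
  have ev := ev1.and (ev2.and (ev3.and ((ev4 _ k0).and ((ev4 _ k1).and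
    ((ev5 _ k0).and (ev5 _ k1))))))
  obtain ⟨τ0, hτ0, hsub⟩ := mem_nhdsGT_iff_exists_Ioo_subset.mp ev
  refine ⟨τ0, hτ0, ?_⟩
  intro τ hτ hτ'
  obtain ⟨g1, g2, ⟨g3, g3'⟩, g4, g4', g5, g5'⟩ := hsub ⟨hτ, hτ'⟩
  have core := ILIM_core n T P h4c (Qt n pos J K τ) Y (h3 τ hτ g3)
    (fun u hu v hv => g1 u (Finset.mem_range.mpr hu) v (Finset.mem_range.mpr hv))
    (fun u hu v hv => g2 u (Finset.mem_range.mpr hu) v (Finset.mem_range.mpr hv))
    (h5 τ hτ g3')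
    (by
      rintro c (rfl | rfl) u hu hu'
      · exact g4 u (Finset.mem_range.mpr hu') hu
      · exact g4' u (Finset.mem_range.mpr hu') hu)
    (by
      rintro c (rfl | rfl) u hu
      · exact g5 u (Finset.mem_range.mpr hu)
      · exact g5' u (Finset.mem_range.mpr hu))
    h7a h7b
    (fun z hz => ⟨(h8 z hz).1, (h8 z hz).2.1, by
      have := (h8 z hz).2.2.1
      linarith⟩)
  constructor
  · intro u hu v hv huv hAd
    rcases lt_or_gt_of_ne huv with h | h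
    · exact (core u v h hv).1 hAd
    · rw [segment_symm]
      exact (core v u h hu).1 (ILIM_symm hAd)
  · intro u hu v hv huv hAd
    rcases lt_or_gt_of_ne huv with h | h
    · exact (core u v h hv).2 hAd
    · rw [segment_symm]
      exact (core v u h hu).2 (fun h' => hAd (ILIM_symm h'))

end Pool.Agent.H670R5
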