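import Pool.Agent.H670R5.Main
import Pool.Agent.H670R5.FinI
import Pool.Agent.H670R5.U_IEDGES
import Pool.Agent.H670R5.U_IPOLY
import Pool.Agent.H670R5.T_CAm
import Pool.Agent.H670R5.T_LENSm
import Pool.Agent.H670R5.U_BOX
import Pool.Agent.H670R5.U_CFAR
import Pool.Agent.H670R5.U_CG3
import Pool.Agent.H670R5.U_CG2
import Pool.Agent.H670R5.U_CX
import Pool.Agent.H670R5.U_QUAD
import Pool.Agent.H670R5.U_RECT
import Pool.Agent.H670R5.U_ILIM
import Pool.Agent.H670R5.U_IFULL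

/-!
# All steps together: the inside version
-/

namespace Pool.Agent.H670R5

theorem m_cA : St_cA := cA_ok X_ok m_nd1
theorem m_lens3 : St_lens3 := lens3_ok X_ok m_nd1 m_nd2
theorem m_box : St_box := box_ok m_lens3 m_tooth3 m_tooth1
theorem m_cFar : St_cFar := cFar_ok X_ok
theorem m_cG3 : St_cG3 := cG3_ok X_ok m_cA m_lens1 m_lens3 m_tooth3 m_tooth4 m_disp
  (wdisp_ok X_ok) m_cFar
theorem m_cG2 : St_cG2 := cG2_ok X_ok m_cA m_F1 m_nd2 m_tooth1 m_tooth5 (dir_ok m_tri2)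
theorem m_cX : St_cX := cX_ok X_ok m_lens2
theorem m_iLim : St_iLim := iLim_ok X_ok m_F1 m_F2 m_F3 m_F4 m_cG3 m_cG2 m_cX m_box m_disp
theorem m_iFull : St_iFull := iFull_ok m_iLim m_F1 pert_ok m_box rect_ok

theorem allStI : AllStI where
  all := allSt
  edges := iEdges_ok edges_ok
  poly := iPoly_ok poly_ok
  full := m_iFull
  quad := quad_ok

end Pool.Agent.H670R5
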