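import Pool.Agent.H670R5.Geo

/-!
# Statements of the parts
-/

namespace Pool.Agent.H670R5

open Pool.Agent.NPC Pool.Agent.H679R2

/-! ### Triangles and polygons -/

def St_tri1 : Prop := ∀ a b c x : Pl, 0 < ori a b c →
  (x ∈ tri a b c ↔ 0 ≤ ori a b x ∧ 0 ≤ ori b c x ∧ 0 ≤ ori c a x)

def St_tri2 : Prop := ∀ a b c x : Pl, 0 < ori a b c →
  (x ∈ interior (tri a b c) ↔ 0 < ori a b x ∧ 0 < ori b c x ∧ 0 < ori c a x)

def St_tri3 : Prop := ∀ a b c : Pl, 0 < ori a b c →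
  tri a b c ⊆ closure (interior (tri a b c)) ∧ IsConnected (interior (tri a b c)) ∧
  IsCompact (tri a b c) ∧
  frontier (tri a b c) = segment ℝ a b ∪ segment ℝ b c ∪ segment ℝ c a ∧
  openSegment ℝ a b ⊆ closure (interior (tri a b c))

/-- near an inner point of a side, the triangle contains everything on its side of the line -/
def St_triLoc : Prop := ∀ a b c m : Pl, 0 < ori a b c → m ∈ openSegment ℝ a b →
  ∃ δ > 0, ∀ x, dist x m < δ → 0 ≤ ori a b x → x ∈ tri a b c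

def St_base : Prop := ∀ a b c : Pl, 0 < ori a b c → PolyReg [a, b, c] (tri a b c)

/-- the edges of the list `l'` are those of `l`, with `(p,q)` replaced by `(p,w)`, `(w,q)` -/
def Ins (l l' : List Pl) (p q w : Pl) : Prop :=
  ∀ e, e ∈ cycEdges l' ↔ (e ∈ cycEdges l ∧ e ≠ (p, q)) ∨ e = (p, w) ∨ e = (w, q)

def St_earList : Prop := ∀ (l : List Pl) (p q w : Pl), 3 ≤ l.length → l.Nodup →
  (p, q) ∈ cycEdges l → w ∉ l → ∃ l' : List Pl, l'.length = l.length + 1 ∧ l'.Nodup ∧ Ins l l' p q w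

def St_earSimple : Prop := ∀ (l l' : List Pl) (P : Set Pl) (p q w : Pl), IsSimplePolygon l →
  bdry l ⊆ P → (p, q) ∈ cycEdges l → ori p q w < 0 → tri p q w ∩ P ⊆ segment ℝ p q →
  l'.length = l.length + 1 → l'.Nodup → Ins l l' p q w → IsSimplePolygon l'

def St_earInt : Prop := ∀ (l : List Pl) (P : Set Pl) (p q w : Pl), PolyReg l P →
  (p, q) ∈ cycEdges l → ori p q w < 0 →
  openSegment ℝ p q ⊆ interior (P ∪ tri p q w) ∧ openSegment ℝ p q ⊆ closure (interior P) ∧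
  openSegment ℝ p q ⊆ closure (interior (tri p q w))

def St_earFront : Prop := ∀ (l l' : List Pl) (P : Set Pl) (p q w : Pl), PolyReg l P →
  (p, q) ∈ cycEdges l → ori p q w < 0 → Ins l l' p q w →
  frontier (P ∪ tri p q w) ⊆ bdry l'

def St_earFront2 : Prop := ∀ (l l' : List Pl) (P : Set Pl) (p q w : Pl), PolyReg l P →
  (p, q) ∈ cycEdges l → ori p q w < 0 → tri p q w ∩ P ⊆ segment ℝ p q → Ins l l' p q w →
  bdry l' ⊆ frontier (P ∪ tri p q w)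

def St_earConn : Prop := ∀ (l : List Pl) (P : Set Pl) (p q w : Pl), PolyReg l P →
  (p, q) ∈ cycEdges l → ori p q w < 0 →
  IsConnected (interior (P ∪ tri p q w)) ∧ P ∪ tri p q w ⊆ closure (interior (P ∪ tri p q w))

def St_earSide : Prop := ∀ (l l' : List Pl) (P : Set Pl) (p q w : Pl), PolyReg l P →
  (p, q) ∈ cycEdges l → ori p q w < 0 → Ins l l' p q w →
  ∀ e ∈ cycEdges l', ∀ m ∈ openSegment ℝ e.1 e.2, ∃ δ > 0, ∀ x, dist x m < δ →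
    0 ≤ ori e.1 e.2 x → x ∈ P ∪ tri p q w

/-- adding a triangle to a side -/
def St_ear : Prop := ∀ (l : List Pl) (P : Set Pl) (p q w : Pl), PolyReg l P →
  (p, q) ∈ cycEdges l → ori p q w < 0 → tri p q w ∩ P ⊆ segment ℝ p q →
  ∃ l', PolyReg l' (P ∪ tri p q w) ∧ Ins l l' p q w

def St_lens : Prop := ∀ (a b : Pl) (M : List Pl), M ≠ [] → a.2 = 1 → b.2 = 1 →
  (∀ p ∈ M, p.2 < 1) → (a :: (M ++ [b])).Pairwise (fun p q => p.1 < q.1) →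
  ∃ l, PolyReg l (lens (a :: (M ++ [b]))) ∧
    ∀ e ∈ (a :: (M ++ [b])).zip (a :: (M ++ [b])).tail,
      e ∈ cycEdges l ∧ (mir e.2, mir e.1) ∈ cycEdges l

def St_attach : Prop := ∀ (es : List (Pl × Pl × Pl)) (l : List Pl) (P : Set Pl), PolyReg l P →
  (∀ e ∈ es, (e.1, e.2.1) ∈ cycEdges l ∧ ori e.1 e.2.1 e.2.2 < 0 ∧
    tri e.1 e.2.1 e.2.2 ∩ P ⊆ segment ℝ e.1 e.2.1) →
  es.Pairwise (fun e e' => (e.1, e.2.1) ≠ (e'.1, e'.2.1) ∧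
    tri e.1 e.2.1 e.2.2 ∩ tri e'.1 e'.2.1 e'.2.2 ⊆ segment ℝ e.1 e.2.1 ∩ segment ℝ e'.1 e'.2.1) →
  ∃ l', PolyReg l' (P ∪ {x | ∃ e ∈ es, x ∈ tri e.1 e.2.1 e.2.2}) ∧
    ∀ e ∈ es, openSegment ℝ e.1 e.2.1 ⊆ interior (P ∪ {x | ∃ e ∈ es, x ∈ tri e.1 e.2.1 e.2.2})

def St_comp : Prop := ∀ (l : List Pl) (P : Set Pl), PolyReg l P →
  IsSideOf l (interior P) ∧ Bornology.IsBounded (interior P) ∧ closure (interior P) = P

/-! ### Perturbation into general position -/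

def St_pert : Prop := ∀ (m : ℕ) (q : ℕ → Pl) (P : Set Pl) (A : ℕ → ℕ → Prop), IsClosed P →
  (∀ u < m, ∀ v < m, u ≠ v → A u v → Disjoint (segment ℝ (q u) (q v)) P) →
  (∀ u < m, ∀ v < m, u ≠ v → ¬ A u v → (segment ℝ (q u) (q v) ∩ interior P).Nonempty) →
  ∀ δ > 0, ∃ q' : ℕ → Pl, (∀ u < m, dist (q' u) (q u) < δ) ∧
    (∀ u < m, ∀ v < m, u ≠ v → q' u ≠ q' v) ∧
    (∀ u < m, ∀ v < m, ∀ w < m, u ≠ v → v ≠ w → u ≠ w → ¬ Collinear ℝ {q' u, q' v, q' w}) ∧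
    (∀ u < m, ∀ v < m, u ≠ v → A u v → Disjoint (segment ℝ (q' u) (q' v)) P) ∧
    (∀ u < m, ∀ v < m, u ≠ v → ¬ A u v → (segment ℝ (q' u) (q' v) ∩ interior P).Nonempty)

/-! ### Soundness -/

/-- A representation of one copy in which the triangles do not meet the obstacle. -/
structure Good (n : ℕ) (T : List (ℕ × ℕ × ℕ × Bool)) (p : ℕ → Pl) (C : Set Pl) : Prop where
  gp : ∀ u < sz n T, ∀ v < sz n T, ∀ w < sz n T, u ≠ v → v ≠ w → u ≠ w →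
    ¬ Collinear ℝ {p u, p v, p w}
  adj : ∀ u < sz n T, ∀ v < sz n T, u ≠ v →
    (Ad n T u v ↔ Disjoint (segment ℝ (p u) (p v)) C)
  tr : ∀ u < sz n T, ∀ v < sz n T, ∀ w < sz n T, Ad n T u v → Ad n T v w → Ad n T u w →
    Disjoint (tri (p u) (p v) (p w)) C

def St_lemA : Prop := ∀ (V W : Set Pl) (C : Set Pl), V.Finite → W.Finite → V.Nonempty →
  W.Nonempty → Disjoint V W → Disjoint V C → Disjoint W C →
  (∀ x ∈ V, ∀ y ∈ W, ¬ Disjoint (segment ℝ x y) C) →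
  ¬ (C ⊆ convexHull ℝ V ∧ C ⊆ convexHull ℝ W)

def St_lemTri : Prop := ∀ (a b c : Pl) (C : Set Pl), IsPreconnected C → ¬ Collinear ℝ {a, b, c} →
  Disjoint (segment ℝ a b) C → Disjoint (segment ℝ b c) C → Disjoint (segment ℝ a c) C →
  Disjoint (tri a b c) C ∨ C ⊆ tri a b c

def St_good : Prop := ∀ (n : ℕ) (T : List (ℕ × ℕ × ℕ × Bool)) (p : ℕ → Pl) (C : Set Pl),
  IsPreconnected C → 0 < sz n T → (∀ u < 2 * sz n T, p u ∉ C) →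
  (∀ u < 2 * sz n T, ∀ v < 2 * sz n T, u ≠ v → p u ≠ p v) →
  (∀ u < 2 * sz n T, ∀ v < 2 * sz n T, ∀ w < 2 * sz n T, u ≠ v → v ≠ w → u ≠ w →
    ¬ Collinear ℝ {p u, p v, p w}) →
  (∀ u < 2 * sz n T, ∀ v < 2 * sz n T, u ≠ v →
    (Ad2 n T u v ↔ Disjoint (segment ℝ (p u) (p v)) C)) → ∃ p', Good n T p' C

/-- from a point outside of the hull the angular order is transitive -/
def St_half : Prop := ∀ (b : Pl) (S : Set Pl), S.Finite → b ∉ convexHull ℝ S →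
  ∀ x ∈ S, ∀ y ∈ S, ∀ z ∈ S, 0 < ori b x y → 0 < ori b y z → 0 < ori b x z

def St_hull : Prop := ∀ (n : ℕ) (T : List (ℕ × ℕ × ℕ × Bool)) (p : ℕ → Pl) (C : Set Pl),
  3 ≤ n → Good n T p C → ∀ u, n ≤ u → u < sz n T → (∃ v < n, ¬ Ad n T u v) →
  p u ∉ convexHull ℝ (p '' {v | v < n})

def St_cone : Prop := ∀ (n : ℕ) (T : List (ℕ × ℕ × ℕ × Bool)) (p : ℕ → Pl) (C : Set Pl),
  Good n T p C → ∀ u, n ≤ u → u < sz n T → ∀ x < n, ∀ y < n, ∀ z < n, Ad n T u x → Ad n T u y →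
  ¬ Ad n T u z → 0 < ori (p u) (p x) (p z) → 0 < ori (p u) (p z) (p y) → False

def St_ext : Prop := ∀ (n : ℕ) (T : List (ℕ × ℕ × ℕ × Bool)) (p : ℕ → Pl) (C : Set Pl),
  Good n T p C → ∀ z < n, (∀ u < n, u ≠ z → 0 < ori (p (n + z)) (p z) (p u)) ∨
    (∀ u < n, u ≠ z → ori (p (n + z)) (p z) (p u) < 0)

def St_conv1 : Prop := ∀ z b x y w : Pl,
  (0 < ori b z x ∧ 0 < ori b z y ∧ 0 < ori b z w ∨
    ori b z x < 0 ∧ ori b z y < 0 ∧ ori b z w < 0) →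
  0 < ori z x y → 0 < ori z y w → 0 < ori z x w

def St_conv2 : Prop := ∀ z a c d b : Pl,
  (0 < ori b c z ∧ 0 < ori b c a ∧ 0 < ori b c d ∨
    ori b c z < 0 ∧ ori b c a < 0 ∧ ori b c d < 0) →
  0 < ori z a c → 0 < ori z c d → 0 < ori z a d → ori a c d ≠ 0 → 0 < ori a c d

def St_sort : Prop := ∀ (n : ℕ) (r : Fin n → Fin n → Prop), (∀ a b, a ≠ b → r a b ∨ r b a) →
  (∀ a b, r a b → ¬ r b a) → (∀ a b c, r a b → r b c → r a c) →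
  ∃ σ : Equiv.Perm (Fin n), ∀ i j, i < j → r (σ i) (σ j)

def St_conv : Prop := ∀ (n : ℕ) (f : ℕ → Pl), 3 ≤ n →
  (∀ u < n, ∀ v < n, ∀ w < n, u ≠ v → v ≠ w → u ≠ w → ¬ Collinear ℝ {f u, f v, f w}) →
  (∀ z < n, ∃ b, (∀ u < n, u ≠ z → 0 < ori b (f z) (f u)) ∨
    (∀ u < n, u ≠ z → ori b (f z) (f u) < 0)) →
  ∃ σ : Equiv.Perm (Fin n), ∀ i j k : Fin n, i < j → j < k →
    0 < ori (f (σ i)) (f (σ j)) (f (σ k))

def St_four : Prop := ∀ b p q r s : Pl, 0 < ori p q r → 0 < ori p q s → 0 < ori p r s →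
  0 < ori q r s → (0 < ori b p q ∧ 0 < ori b p s ∧ 0 < ori b r q ∧ 0 < ori b r s ∨
    0 < ori b q p ∧ 0 < ori b s p ∧ 0 < ori b q r ∧ 0 < ori b s r) → False

/-- conjugated rotation -/
def rotP (n : ℕ) (σ : Equiv.Perm (Fin n)) : Equiv.Perm (Fin n) :=
  (σ.symm.trans (finRotate n)).trans σ

def St_rot : Prop := ∀ (n : ℕ) (σ : Equiv.Perm (Fin n)) (S : Set (Fin n)), S.Nonempty →
  (∀ v ∈ S, rotP n σ v ∈ S) → S = Set.univ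

def St_triple : Prop := ∀ (n : ℕ) (f : ℕ → Pl) (σ : Equiv.Perm (Fin n)) (b : Pl)
  (N : Fin n → Prop), 3 ≤ n →
  (∀ i j k : Fin n, i < j → j < k → 0 < ori (f (σ i)) (f (σ j)) (f (σ k))) →
  b ∉ convexHull ℝ (f '' {v | v < n}) →
  (∀ x y : Fin n, x ≠ y → ori b (f x) (f y) ≠ 0) →
  (∀ x y z : Fin n, N x → N y → ¬ N z → 0 < ori b (f x) (f z) → 0 < ori b (f z) (f y) → False) →
  ∀ a c d : Fin n, a ≠ c → c ≠ d → a ≠ d → (∀ x, N x ↔ x = a ∨ x = c ∨ x = d) →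
  (c = rotP n σ a ∨ a = rotP n σ c) ∨ (d = rotP n σ a ∨ a = rotP n σ d) ∨
    (d = rotP n σ c ∨ c = rotP n σ d)

def St_sound : Prop := ∀ (n : ℕ) (T : List (ℕ × ℕ × ℕ × Bool)) (p : ℕ → Pl) (C : Set Pl),
  5 ≤ n → (∀ t ∈ T, t.1 < n ∧ t.2.1 < n ∧ t.2.2.1 < n ∧ t.1 ≠ t.2.1 ∧ t.2.1 ≠ t.2.2.1 ∧
    t.1 ≠ t.2.2.1) → Good n T p C → CycArr n T

/-! ### From a cyclic arrangement to an assignment -/

/-- neighbours in a cyclic arrangement, on numbers -/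
def EE (n : ℕ) (nx : Equiv.Perm (Fin n)) (u v : ℕ) : Prop :=
  ∃ (hu : u < n) (hv : v < n), (⟨v, hv⟩ : Fin n) = nx ⟨u, hu⟩ ∨ (⟨u, hu⟩ : Fin n) = nx ⟨v, hv⟩

structure EOK (o : List (ℕ × Bool × ℕ)) (E : ℕ → ℕ → Prop) : Prop where
  lt : ∀ u v, E u v → u < nOf o ∧ v < nOf o
  symm : ∀ u v, E u v → E v u
  deg : ∀ u a b c, E u a → E u b → E u c → a = b ∨ b = c ∨ a = c
  closed : ∀ S : Set ℕ, (∃ v ∈ S, v < nOf o) → (∀ v ∈ S, ∀ w, E v w → w ∈ S) →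
    ∀ v < nOf o, v ∈ S
  part : ∀ m, 2 * m + 1 < nOf o → E (2 * m) (2 * m + 1)
  link : ∀ k < o.length, ∀ q ∈ lnE o k,
    E (24 * q.1.1 + 2 * q.1.2 + 1) (24 * q.2.1 + 2 * q.2.2 + 1)
  oct : ∀ k < o.length, ∀ t < 8, E (24 * k + 2 * t) (24 * k + 2 * ((t + 1) % 8)) ∨
    E (24 * k + 2 * t) (24 * k + 2 * ((t + 7) % 8))

def St_force : Prop := ∀ (n : ℕ) (nx : Equiv.Perm (Fin n)) (T : List (ℕ × ℕ × ℕ × Bool))
  (a b : ℕ) (h : ℕ → ℕ) (fl : Bool), a < n → b < n →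
  (∀ r < 6, h r < n ∧ h r ≠ a ∧ h r ≠ b) → (∀ r < 6, ∀ s < 6, h r = h s → r = s) →
  (∀ r < 6, (a, b, h r, fl) ∈ T) →
  (∀ t ∈ T, ∃ u v : Fin n, (v = nx u ∨ u = nx v) ∧
      ((u.val = t.1 ∧ v.val = t.2.1) ∨ (u.val = t.1 ∧ v.val = t.2.2.1) ∨
        (u.val = t.2.1 ∧ v.val = t.2.2.1))) → EE n nx a b

def St_eok : Prop := ∀ (o : List (ℕ × Bool × ℕ)) (nx : Equiv.Perm (Fin (nOf o))),
  (∀ S : Set (Fin (nOf o)), S.Nonempty → (∀ v ∈ S, nx v ∈ S) → S = Set.univ) →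
  (∀ t ∈ TOf o, ∃ u v : Fin (nOf o), (v = nx u ∨ u = nx v) ∧
      ((u.val = t.1 ∧ v.val = t.2.1) ∨ (u.val = t.1 ∧ v.val = t.2.2.1) ∨
        (u.val = t.2.1 ∧ v.val = t.2.2.1))) → EOK o (EE (nOf o) nx)

def St_eval : Prop := ∀ (o : List (ℕ × Bool × ℕ)) (E : ℕ → ℕ → Prop), EOK o E →
  ∃ τ : ℕ → Bool, ∀ x ∈ o, ∃ y ∈ o, y.1 = x.1 ∧ τ y.2.2 = y.2.1

/-! ### From an assignment to a linear arrangement -/

def St_orb : Prop := ∀ (V : Type) [Finite V] (M S : V → V), Function.Involutive M →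
  Function.Involutive S → (∀ v, M v ≠ v) → (∀ v, S v ≠ v) → (∀ p q, Conn M S p q) →
  ∀ p₀ : V, ∃ c : ℕ, (∀ i < c, ∀ j < c, (S ∘ M)^[i] p₀ = (S ∘ M)^[j] p₀ → i = j) ∧
    (∀ i < c, ∀ j < c, (S ∘ M)^[i] p₀ ≠ M ((S ∘ M)^[j] p₀)) ∧
    (∀ v, ∃ i < c, v = (S ∘ M)^[i] p₀ ∨ v = M ((S ∘ M)^[i] p₀)) ∧ (S ∘ M)^[c] p₀ = p₀ ∧
    Nat.card V = 2 * c

structure PosOK (o : List (ℕ × Bool × ℕ)) (pos : ℕ → ℕ) : Prop where
  lt : ∀ v < nOf o, pos v < nOf o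
  inj : ∀ u < nOf o, ∀ v < nOf o, pos u = pos v → u = v
  part : ∀ v < nOf o, pos (partner v) = partner (pos v)
  dum : ∀ v, 24 * o.length ≤ v → v < nOf o → pos v = v
  link : ∀ k < o.length, ∀ q ∈ lnE o k,
    pos (24 * q.1.1 + 2 * q.1.2 + 1) = pos (24 * q.2.1 + 2 * q.2.2 + 1) + 1 ∨
    pos (24 * q.2.1 + 2 * q.2.2 + 1) = pos (24 * q.1.1 + 2 * q.1.2 + 1) + 1
  oct : ∀ k < o.length, ∀ t, t = 1 ∨ t = 3 ∨ t = 5 ∨ t = 7 →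
    ∃ t', (t' = t - 1 ∨ t' = (t + 1) % 8) ∧
    (pos (24 * k + 2 * t) = pos (24 * k + 2 * t') + 1 ∨
      pos (24 * k + 2 * t') = pos (24 * k + 2 * t) + 1)

def St_pos : Prop := ∀ (o : List (ℕ × Bool × ℕ)), o ≠ [] →
  (∃ τ : ℕ → Bool, ∀ x ∈ o, ∃ y ∈ o, y.1 = x.1 ∧ τ y.2.2 = y.2.1) → ∃ pos, PosOK o pos

def St_tdist : Prop := ∀ (o : List (ℕ × Bool × ℕ)), (TOf o).Nodup ∧
  (∀ t ∈ TOf o, t.1 < nOf o ∧ t.2.1 < nOf o ∧ t.2.2.1 < nOf o ∧ t.1 ≠ t.2.1 ∧ t.2.1 ≠ t.2.2.1 ∧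
    t.1 ≠ t.2.2.1) ∧
  ∀ t ∈ TOf o, ∀ t' ∈ TOf o,
    (∀ x, (x = t.1 ∨ x = t.2.1 ∨ x = t.2.2.1) ↔ (x = t'.1 ∨ x = t'.2.1 ∨ x = t'.2.2.1)) → t = t'

def St_arr : Prop := ∀ (o : List (ℕ × Bool × ℕ)) (pos : ℕ → ℕ), PosOK o pos →
  ∃ J K, Arr (nOf o) (TOf o) pos J K

/-! ### The code of the graph -/

def St_edges : Prop := ∀ (n : ℕ) (T : List (ℕ × ℕ × ℕ × Bool)) (u v : ℕ), u < 2 * sz n T →
  v < 2 * sz n T → u ≠ v →
  (((u, v) ∈ (instG n T).2 ∨ (v, u) ∈ (instG n T).2) ↔ Ad2 n T u v)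

def St_poly : Prop := Poly red5

end Pool.Agent.H670R5
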