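import Pool.Agent.H670R5.Fin

/-!
# Inside-obstacle representations: definitions and statements

Four vertices `S, S+1, S+2, S+3` (`S = 2 sz`) are added to the two copies; they are placed at the
corners of a large rectangle around the obstacle.
-/

namespace Pool.Agent.H670R5

open Pool.Agent.NPC Pool.Agent.H679R2

/-- the new edges -/
def newE (n : ℕ) (T : List (ℕ × ℕ × ℕ × Bool)) : List (ℕ × ℕ) :=
  [(2 * sz n T, 2 * sz n T + 1), (2 * sz n T, 2 * sz n T + 2), (2 * sz n T + 1, 2 * sz n T + 3),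
    (2 * sz n T + 2, 2 * sz n T + 3)] ++
  (List.range (2 * n)).flatMap (fun u => [(u, 2 * sz n T), (u, 2 * sz n T + 1),
    (u + sz n T, 2 * sz n T + 2), (u + sz n T, 2 * sz n T + 3)])

/-- the extended graph -/
def instI (n : ℕ) (T : List (ℕ × ℕ × ℕ × Bool)) : List ℕ × List (ℕ × ℕ) :=
  (List.range (2 * sz n T + 4), (instG n T).2 ++ newE n T)

/-- adjacency of a corner `2 sz + i` and a vertex `u < 2 sz` -/
def AdC (n : ℕ) (T : List (ℕ × ℕ × ℕ × Bool)) (i u : ℕ) : Prop :=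
  (i < 2 ∧ u < 2 * n) ∨ (2 ≤ i ∧ sz n T ≤ u ∧ u < sz n T + 2 * n)

/-- adjacency in the extended graph -/
def Ad3 (n : ℕ) (T : List (ℕ × ℕ × ℕ × Bool)) (u v : ℕ) : Prop :=
  (u < 2 * sz n T ∧ v < 2 * sz n T ∧ Ad2 n T u v) ∨
  (2 * sz n T ≤ u ∧ v < 2 * sz n T ∧ AdC n T (u - 2 * sz n T) v) ∨
  (u < 2 * sz n T ∧ 2 * sz n T ≤ v ∧ AdC n T (v - 2 * sz n T) u) ∨
  (2 * sz n T ≤ u ∧ 2 * sz n T ≤ v ∧ (u - 2 * sz n T) + (v - 2 * sz n T) ≠ 3)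

/-- The instance of a 3-CNF formula. -/
def red6 (φ : List (Lit ℕ × Lit ℕ × Lit ℕ)) : List ℕ × List (ℕ × ℕ) :=
  instI (nOf (occ φ)) (TOf (occ φ))

/-- The graph has an inside-obstacle representation: the obstacle is the interior of a simple
polygon and lies in the complement of the unbounded component of the complement of the drawing. -/
def InsideObs (I : List ℕ × List (ℕ × ℕ)) : Prop :=
  ∃ (l : List Pl) (C : Set Pl) (p : {v : ℕ // v ∈ I.1} → Pl),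
    IsSimplePolygon l ∧ IsSideOf l C ∧ Bornology.IsBounded C ∧ VisRep (toGraph I) p C ∧
    ∀ x ∈ C, Bornology.IsBounded (connectedComponentIn (drawing (toGraph I) p)ᶜ x)

/-- the lower corners -/
def IsCor (n : ℕ) (Y : ℝ) (c : Pl) : Prop := c = (-3, -Y) ∨ c = ((n : ℝ) + 2, -Y)

/-! ### Statements -/

def St_iEdges : Prop := ∀ (n : ℕ) (T : List (ℕ × ℕ × ℕ × Bool)) (u v : ℕ),
  u < 2 * sz n T + 4 → v < 2 * sz n T + 4 → u ≠ v →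
  (((u, v) ∈ (instI n T).2 ∨ (v, u) ∈ (instI n T).2) ↔ Ad3 n T u v)

def St_iPoly : Prop := Poly red6

/-- the corners: below all chords, in the windows of the opponents, outside of the windows of the
triple vertices -/
def St_cA : Prop := ∀ (n : ℕ) (T : List (ℕ × ℕ × ℕ × Bool)) (pos J K : ℕ → ℕ),
  Arr n T pos J K → ∃ Y₀ : ℝ, ∀ Y, Y₀ ≤ Y → ∀ c, IsCor n Y c →
    c.2 ≤ -c.1 ^ 2 ∧
    (∀ e ∈ (nd n T pos J K).zip (nd n T pos J K).tail, c.2 < chd e.1 e.2 c.1) ∧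
    (∀ u, n ≤ u → u < 2 * n → InW n pos J K u c) ∧
    (∀ u, 2 * n ≤ u → u < sz n T → OutW n pos J K u c)

/-- the box containing the lens; its parts at the sides -/
def St_lens3 : Prop := ∀ (n : ℕ) (T : List (ℕ × ℕ × ℕ × Bool)) (pos J K : ℕ → ℕ),
  Arr n T pos J K → 0 < n → ∃ ρ₀ > 0, ∀ ρ, 0 < ρ → ρ < ρ₀ → ∀ z ∈ lens (LL n T pos J K ρ),
  -2 ≤ z.1 ∧ z.1 ≤ n + 1 ∧ -((n : ℝ) + 1) ^ 2 ≤ z.2 ∧ z.2 ≤ 2 + ((n : ℝ) + 1) ^ 2 ∧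
  (z.1 ≤ -1 → -15 / 16 ≤ z.2) ∧ (n ≤ z.1 → -(n : ℝ) ^ 2 + 1 / 16 ≤ z.2)

/-- the box containing the obstacle -/
def St_box : Prop := ∀ (n : ℕ) (T : List (ℕ × ℕ × ℕ × Bool)) (pos J K : ℕ → ℕ),
  Arr n T pos J K → 0 < n → ∃ H : ℝ, ∃ ρ₀ > 0, ∀ ρ, 0 < ρ → ρ < ρ₀ → ∀ z ∈ OB n T pos J K ρ,
  -2 ≤ z.1 ∧ z.1 ≤ n + 1 ∧ -H ≤ z.2 ∧ z.2 ≤ 2 + H

/-- edges of corners are far from the teeth of the other vertices -/
def St_cFar : Prop := ∀ (n : ℕ) (T : List (ℕ × ℕ × ℕ × Bool)) (pos J K : ℕ → ℕ) (c : Pl),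
  Arr n T pos J K → c.2 ≤ -c.1 ^ 2 → (c.1 < -1 ∨ n < c.1) →
  ∃ ρ₀ > 0, ∃ τ₀ > 0, ∀ ρ, 0 < ρ → ρ < ρ₀ → ∀ τ, 0 < τ → τ < τ₀ →
  ∀ u, n ≤ u → u < sz n T → ∀ v < sz n T, v ≠ u →
    Disjoint (segment ℝ c (Qt n pos J K τ v)) (earL n T pos J K ρ u ∪ earR n T pos J K ρ u)

/-- edges of the corners -/
def St_cG3 : Prop := ∀ (n : ℕ) (T : List (ℕ × ℕ × ℕ × Bool)) (pos J K : ℕ → ℕ),
  Arr n T pos J K → 0 < n → ∃ Y₀ : ℝ, ∀ Y, Y₀ ≤ Y → ∃ ρ₀ > 0, ∀ ρ, 0 < ρ → ρ < ρ₀ →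
  ∃ τ₀ > 0, ∀ τ, 0 < τ → τ < τ₀ → ∀ c, IsCor n Y c → ∀ u < 2 * n,
  Disjoint (segment ℝ c (Qt n pos J K τ u)) (OB n T pos J K ρ)

/-- nonedges of the corners -/
def St_cG2 : Prop := ∀ (n : ℕ) (T : List (ℕ × ℕ × ℕ × Bool)) (pos J K : ℕ → ℕ),
  Arr n T pos J K → 0 < n → ∃ Y₀ : ℝ, ∀ Y, Y₀ ≤ Y → ∃ ρ₀ > 0, ∀ ρ, 0 < ρ → ρ < ρ₀ →
  ∀ c, IsCor n Y c → ∀ u, 2 * n ≤ u → u < sz n T →
  (segment ℝ c (Q n pos J K u) ∩ interior (OB n T pos J K ρ)).Nonempty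

/-- crossings of the axis -/
def St_cX : Prop := ∀ (n : ℕ) (T : List (ℕ × ℕ × ℕ × Bool)) (pos J K : ℕ → ℕ),
  Arr n T pos J K → 0 < n → ∃ Y₀ : ℝ, ∀ Y, Y₀ ≤ Y → ∃ ρ₀ > 0, ∀ ρ, 0 < ρ → ρ < ρ₀ →
  (∀ c, IsCor n Y c → ∀ u < sz n T,
    (segment ℝ c (mir (Q n pos J K u)) ∩ interior (OB n T pos J K ρ)).Nonempty) ∧
  (segment ℝ ((-3, -Y) : Pl) ((n : ℝ) + 2, 2 + Y) ∩ interior (OB n T pos J K ρ)).Nonempty ∧
  (segment ℝ (((n : ℝ) + 2, -Y) : Pl) (-3, 2 + Y) ∩ interior (OB n T pos J K ρ)).Nonempty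

/-- a convex quadrilateral encloses its interior -/
def St_quad : Prop := ∀ (a b c d x : Pl) (D : Set Pl), 0 < ori a b c → 0 < ori b c d →
  0 < ori c d a → 0 < ori d a b → 0 < ori a b x → 0 < ori b c x → 0 < ori c d x → 0 < ori d a x →
  segment ℝ a b ⊆ D → segment ℝ b c ⊆ D → segment ℝ c d ⊆ D → segment ℝ d a ⊆ D →
  Bornology.IsBounded (connectedComponentIn Dᶜ x)

/-- points near the corners of a rectangle -/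
def St_rect : Prop := ∀ (n : ℕ) (H Y : ℝ) (a b c d x : Pl), 0 ≤ H → H + 1 ≤ Y →
  dist a (-3, -Y) < 1 / 16 → dist b ((n : ℝ) + 2, -Y) < 1 / 16 →
  dist c ((n : ℝ) + 2, 2 + Y) < 1 / 16 → dist d (-3, 2 + Y) < 1 / 16 →
  -2 ≤ x.1 → x.1 ≤ n + 1 → -H ≤ x.2 → x.2 ≤ 2 + H →
  0 < ori a b c ∧ 0 < ori b c d ∧ 0 < ori c d a ∧ 0 < ori d a b ∧
  0 < ori a b x ∧ 0 < ori b c x ∧ 0 < ori c d x ∧ 0 < ori d a x

/-- the positions of the two copies and the corners -/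
noncomputable def four (n : ℕ) (T : List (ℕ × ℕ × ℕ × Bool)) (Y : ℝ) (q : ℕ → Pl) (u : ℕ) : Pl :=
  if u < 2 * sz n T then two (sz n T) q u
  else if u = 2 * sz n T then (-3, -Y)
  else if u = 2 * sz n T + 1 then ((n : ℝ) + 2, -Y)
  else if u = 2 * sz n T + 2 then (-3, 2 + Y)
  else ((n : ℝ) + 2, 2 + Y)

/-- A representation with a closed polygon, in general position; the obstacle is enclosed by a
quadrilateral. -/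
def FullRepI (n : ℕ) (T : List (ℕ × ℕ × ℕ × Bool)) (l : List Pl) (P : Set Pl) (p : ℕ → Pl) : Prop :=
  PolyReg l P ∧
  (∀ u < 2 * sz n T + 4, ∀ v < 2 * sz n T + 4, u ≠ v → p u ≠ p v) ∧
  (∀ u < 2 * sz n T + 4, ∀ v < 2 * sz n T + 4, ∀ w < 2 * sz n T + 4, u ≠ v → v ≠ w → u ≠ w →
    ¬ Collinear ℝ {p u, p v, p w}) ∧
  (∀ u < 2 * sz n T + 4, ∀ v < 2 * sz n T + 4, u ≠ v → Ad3 n T u v →
    Disjoint (segment ℝ (p u) (p v)) P) ∧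
  (∀ u < 2 * sz n T + 4, ∀ v < 2 * sz n T + 4, u ≠ v → ¬ Ad3 n T u v →
    (segment ℝ (p u) (p v) ∩ interior P).Nonempty) ∧
  (∀ x ∈ P, 0 < ori (p (2 * sz n T)) (p (2 * sz n T + 1)) (p (2 * sz n T + 3)) ∧
    0 < ori (p (2 * sz n T + 1)) (p (2 * sz n T + 3)) (p (2 * sz n T + 2)) ∧
    0 < ori (p (2 * sz n T + 3)) (p (2 * sz n T + 2)) (p (2 * sz n T)) ∧
    0 < ori (p (2 * sz n T + 2)) (p (2 * sz n T)) (p (2 * sz n T + 1)) ∧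
    0 < ori (p (2 * sz n T)) (p (2 * sz n T + 1)) x ∧
    0 < ori (p (2 * sz n T + 1)) (p (2 * sz n T + 3)) x ∧
    0 < ori (p (2 * sz n T + 3)) (p (2 * sz n T + 2)) x ∧
    0 < ori (p (2 * sz n T + 2)) (p (2 * sz n T)) x)

/-- all edges and nonedges in the limit position -/
def St_iLim : Prop := ∀ (n : ℕ) (T : List (ℕ × ℕ × ℕ × Bool)) (pos J K : ℕ → ℕ),
  Arr n T pos J K → 0 < n → ∃ Y₀ : ℝ, ∀ Y, Y₀ ≤ Y → ∃ ρ₀ > 0, ∀ ρ, 0 < ρ → ρ < ρ₀ →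
  ∃ τ₀ > 0, ∀ τ, 0 < τ → τ < τ₀ →
  (∀ u < 2 * sz n T + 4, ∀ v < 2 * sz n T + 4, u ≠ v → Ad3 n T u v →
    Disjoint (segment ℝ (four n T Y (Qt n pos J K τ) u) (four n T Y (Qt n pos J K τ) v))
      (OB n T pos J K ρ)) ∧
  (∀ u < 2 * sz n T + 4, ∀ v < 2 * sz n T + 4, u ≠ v → ¬ Ad3 n T u v →
    (segment ℝ (four n T Y (Qt n pos J K τ) u) (four n T Y (Qt n pos J K τ) v) ∩
      interior (OB n T pos J K ρ)).Nonempty)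

def St_iFull : Prop := ∀ (n : ℕ) (T : List (ℕ × ℕ × ℕ × Bool)) (pos J K : ℕ → ℕ),
  Arr n T pos J K → 0 < n → ∃ l P p, FullRepI n T l P p

end Pool.Agent.H670R5
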