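import Pool.Agent.H670R5.St3

/-! BOX: the box containing the obstacle. -/

namespace Pool.Agent.H670R5

open Pool.Agent.NPC Pool.Agent.H679R2

theorem BOX_tri {p q w : Pl} {h : ℝ} (hp : -h ≤ p.2) (hq : -h ≤ q.2) (hw : -h ≤ w.2) :
    ∀ z ∈ tri p q w, -h ≤ z.2 := by
  intro z hz
  have hc : Convex ℝ {z : Pl | -h ≤ z.2} :=
    convex_halfSpace_ge (LinearMap.isLinear (LinearMap.snd ℝ ℝ ℝ)) (-h)
  have hsub : ({p, q, w} : Set Pl) ⊆ {z : Pl | -h ≤ z.2} := by
    intro y hy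
    rcases hy with rfl | rfl | rfl
    · exact hp
    · exact hq
    · exact hw
  exact convexHull_min hsub hc hz

/-- bound for a chord -/
noncomputable def BOX_C (a x : ℝ) : ℝ := (|a| + |x|) * (|x| + 1) + |a| * |x|

theorem BOX_C_nonneg (a x : ℝ) : 0 ≤ BOX_C a x := by
  unfold BOX_C
  positivity

theorem BOX_chd (a x t : ℝ) (ht : |t| ≤ |x| + 1) : -BOX_C a x ≤ chd a x t := by
  unfold BOX_C chd
  have h1 : |(a + x) * t| ≤ (|a| + |x|) * (|x| + 1) := by
    rw [abs_mul]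
    exact mul_le_mul (abs_add_le a x) ht (abs_nonneg _) (by positivity)
  have h2 := (abs_le.1 h1).2
  have h3 := neg_abs_le (a * x)
  rw [abs_mul] at h3
  have e : -(a + x) * t = -((a + x) * t) := by ring
  rw [e]
  linarith

theorem BOX_chd' (a x t : ℝ) (ht : |t| ≤ |x| + 1) : -BOX_C a x ≤ chd x a t := by
  have e : chd x a t = chd a x t := by
    unfold chd
    ring
  rw [e]
  exact BOX_chd a x t ht

/-- bound for the teeth of `u` -/
noncomputable def BOX_h (n : ℕ) (T : List (ℕ × ℕ × ℕ × Bool)) (pos J K : ℕ → ℕ) (u : ℕ) : ℝ :=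
  BOX_C (pvN n T pos J K (X n pos J K u)) (X n pos J K u) +
    BOX_C (nxN n T pos J K (X n pos J K u)) (X n pos J K u) + X n pos J K u ^ 2 +
    |sdL n J K u| * |slL n J K u - 2 * X n pos J K u| +
    |sdR n J K u| * |slR n J K u - 2 * X n pos J K u|

theorem BOX_h_nonneg (n : ℕ) (T : List (ℕ × ℕ × ℕ × Bool)) (pos J K : ℕ → ℕ) (u : ℕ) :
    0 ≤ BOX_h n T pos J K u := by
  unfold BOX_h
  have h1 := BOX_C_nonneg (pvN n T pos J K (X n pos J K u)) (X n pos J K u)
  have h2 := BOX_C_nonneg (nxN n T pos J K (X n pos J K u)) (X n pos J K u)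
  positivity

theorem BOX_tip (s l x ρ : ℝ) (h0 : 0 < ρ) (h1 : ρ ≤ 1) :
    -(|s| * |l - 2 * x|) ≤ s * ρ * (l - 2 * x) := by
  have h2 : |s * ρ * (l - 2 * x)| ≤ |s| * |l - 2 * x| := by
    rw [abs_mul, abs_mul, abs_of_pos h0]
    apply mul_le_mul_of_nonneg_right _ (abs_nonneg _)
    have := mul_le_mul_of_nonneg_left h1 (abs_nonneg s)
    linarith
  exact (abs_le.1 h2).1

theorem BOX_ear (n : ℕ) (T : List (ℕ × ℕ × ℕ × Bool)) (pos J K : ℕ → ℕ) (ρ : ℝ) (h0 : 0 < ρ)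
    (h1 : ρ ≤ 1) (u : ℕ) (z : Pl)
    (hz : z ∈ earL n T pos J K ρ u ∪ earR n T pos J K ρ u) :
    -BOX_h n T pos J K u ≤ z.2 := by
  have c1 := BOX_C_nonneg (pvN n T pos J K (X n pos J K u)) (X n pos J K u)
  have c2 := BOX_C_nonneg (nxN n T pos J K (X n pos J K u)) (X n pos J K u)
  have c3 : 0 ≤ X n pos J K u ^ 2 := sq_nonneg _
  have c4 : 0 ≤ |sdL n J K u| * |slL n J K u - 2 * X n pos J K u| := by positivity
  have c5 : 0 ≤ |sdR n J K u| * |slR n J K u - 2 * X n pos J K u| := by positivity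
  have hQ : -(X n pos J K u ^ 2) ≤ (Q n pos J K u).2 := by
    unfold Q
    simp only
    split_ifs <;> linarith
  have hA : -BOX_C (pvN n T pos J K (X n pos J K u)) (X n pos J K u) ≤
      (ptA n T pos J K ρ (X n pos J K u)).2 := by
    unfold ptA
    simp only
    apply BOX_chd
    have := abs_sub (X n pos J K u) ρ
    rw [abs_of_pos h0] at this
    linarith
  have hE : -BOX_C (nxN n T pos J K (X n pos J K u)) (X n pos J K u) ≤
      (ptE n T pos J K ρ (X n pos J K u)).2 := by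
    unfold ptE
    simp only
    apply BOX_chd'
    have := abs_add_le (X n pos J K u) ρ
    rw [abs_of_pos h0] at this
    linarith
  have hL : -(X n pos J K u ^ 2) - |sdL n J K u| * |slL n J K u - 2 * X n pos J K u| ≤
      (tipL n pos J K ρ u).2 := by
    have h2 := BOX_tip (sdL n J K u) (slL n J K u) (X n pos J K u) ρ h0 h1
    have e : (tipL n pos J K ρ u).2 = (Q n pos J K u).2 +
      sdL n J K u * ρ * (slL n J K u - 2 * X n pos J K u) := rfl
    rw [e]
    linarith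
  have hR : -(X n pos J K u ^ 2) - |sdR n J K u| * |slR n J K u - 2 * X n pos J K u| ≤
      (tipR n pos J K ρ u).2 := by
    have h2 := BOX_tip (sdR n J K u) (slR n J K u) (X n pos J K u) ρ h0 h1
    have e : (tipR n pos J K ρ u).2 = (Q n pos J K u).2 +
      sdR n J K u * ρ * (slR n J K u - 2 * X n pos J K u) := rfl
    rw [e]
    linarith
  rcases hz with hz | hz
  · unfold earL at hz
    refine BOX_tri ?_ ?_ ?_ z hz
    · unfold BOX_h; linarith
    · unfold BOX_h; linarith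
    · unfold BOX_h; linarith
  · unfold earR at hz
    refine BOX_tri ?_ ?_ ?_ z hz
    · unfold BOX_h; linarith
    · unfold BOX_h; linarith
    · unfold BOX_h; linarith

theorem box_ok (h3 : St_lens3) (ht : St_tooth3) (_h1 : St_tooth1) : St_box := by
  intro n T pos J K hA hn
  obtain ⟨r1, hr1, g1⟩ := h3 n T pos J K hA hn
  obtain ⟨r2, hr2, g2⟩ := ht n T pos J K hA
  set S : ℝ := ∑ u ∈ Finset.range (sz n T), BOX_h n T pos J K u with hS
  have hSu : ∀ u < sz n T, BOX_h n T pos J K u ≤ S := fun u hu =>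
    Finset.single_le_sum (f := fun u => BOX_h n T pos J K u)
      (fun v _ => BOX_h_nonneg n T pos J K v) (Finset.mem_range.2 hu)
  have hS0 : 0 ≤ S := Finset.sum_nonneg (fun v _ => BOX_h_nonneg n T pos J K v)
  have hn2 : 0 ≤ ((n : ℝ) + 1) ^ 2 := sq_nonneg _
  have teeth_ok : ∀ ρ, 0 < ρ → ρ < min (min r1 r2) 1 → ∀ z ∈ teeth n T pos J K ρ,
      -1 < z.1 ∧ z.1 < n ∧ z.2 < 1 ∧ -S ≤ z.2 := by
    intro ρ h0 hρ z hz
    obtain ⟨u, hu1, hu2, hz⟩ := hz
    have hρ2 : ρ < r2 := lt_of_lt_of_le hρ ((min_le_left _ _).trans (min_le_right _ _))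
    have hρ1 : ρ ≤ 1 := (lt_of_lt_of_le hρ (min_le_right _ _)).le
    have hz' : z ∈ earL n T pos J K ρ u ∪ earR n T pos J K ρ u := hz
    obtain ⟨a1, a2, a3⟩ := (g2 ρ h0 hρ2 u hu1 hu2).1 z hz'
    have a4 := BOX_ear n T pos J K ρ h0 hρ1 u z hz'
    have a5 := hSu u hu2
    exact ⟨a1, a2, a3, by linarith⟩
  refine ⟨((n : ℝ) + 1) ^ 2 + S, min (min r1 r2) 1, lt_min (lt_min hr1 hr2) one_pos, ?_⟩
  intro ρ h0 hρ z hz
  have hρ1 : ρ < r1 := lt_of_lt_of_le hρ ((min_le_left _ _).trans (min_le_left _ _))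
  rcases hz with hz | hz | hz
  · obtain ⟨a1, a2, a3, a4, -, -⟩ := g1 ρ h0 hρ1 z hz
    exact ⟨a1, a2, by linarith, by linarith⟩
  · obtain ⟨a1, a2, a3, a4⟩ := teeth_ok ρ h0 hρ z hz
    exact ⟨by linarith, by linarith, by linarith, by linarith⟩
  · obtain ⟨a1, a2, a3, a4⟩ := teeth_ok ρ h0 hρ (mir z) hz
    have e1 : (mir z).1 = z.1 := rfl
    have e2 : (mir z).2 = 2 - z.2 := rfl
    rw [e1] at a1 a2
    rw [e2] at a3 a4
    exact ⟨by linarith, by linarith, by linarith, by linarith⟩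

end Pool.Agent.H670R5
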