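import Pool.Agent.H670R5.St3

/-!
# The corners of the large rectangle and the windows
-/

namespace Pool.Agent.H670R5

open Pool.Agent.NPC Pool.Agent.H679R2

private theorem cA_abs (n : ℕ) (Y : ℝ) (c : Pl) (hc : IsCor n Y c) :
    c.2 = -Y ∧ -3 ≤ c.1 ∧ c.1 ≤ (n : ℝ) + 2 := by
  have hn : (0 : ℝ) ≤ n := Nat.cast_nonneg n
  rcases hc with h | h
  · rw [h]
    refine ⟨rfl, le_rfl, ?_⟩
    show (-3 : ℝ) ≤ n + 2
    linarith
  · rw [h]
    refine ⟨rfl, ?_, le_rfl⟩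
    show (-3 : ℝ) ≤ n + 2
    linarith

/-- the basic estimate -/
private theorem cA_key {N x s t Y : ℝ} (hN : 0 ≤ N) (hx1 : -1 < x) (hx2 : x < N)
    (hs : |s| ≤ N + 2) (ht1 : -3 ≤ t) (ht2 : t ≤ N + 2) (hY : 10 * (N + 3) ^ 2 + 100 ≤ Y) :
    -Y - (-x ^ 2 + 1 / 16) < (t - x) * (s - 2 * x) := by
  have h1 : |t - x| ≤ N + 3 := by
    rw [abs_le]
    constructor
    · linarith
    · linarith
  have h2 : |s * (t - x)| ≤ (N + 2) * (N + 3) := by
    rw [abs_mul]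
    exact mul_le_mul hs h1 (abs_nonneg _) (by linarith)
  have h3 := (abs_le.1 h2).1
  have h4 : t ^ 2 ≤ (N + 3) ^ 2 := by
    apply sq_le_sq'
    · linarith
    · linarith
  nlinarith [sq_nonneg (t - x)]

private theorem cA_hh {n : ℕ} {T : List (ℕ × ℕ × ℕ × Bool)} {pos J K : ℕ → ℕ}
    (hA : Arr n T pos J K) {i : ℕ} (hi : i < T.length) : |hh J K i| ≤ (n : ℝ) + 1 := by
  obtain ⟨h1, h2⟩ := hA.lt' i hi
  have h1' : (J i : ℝ) + 1 ≤ n := by exact_mod_cast h1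
  have h2' : (K i : ℝ) + 1 + 1 ≤ n := by exact_mod_cast h2
  have h3 : (0 : ℝ) ≤ J i := Nat.cast_nonneg _
  have h4 : (0 : ℝ) ≤ K i := Nat.cast_nonneg _
  unfold hh
  rw [abs_le]
  constructor
  · linarith
  · linarith

private theorem cA_loS {n : ℕ} {T : List (ℕ × ℕ × ℕ × Bool)} {pos J K : ℕ → ℕ}
    (hA : Arr n T pos J K) {u : ℕ} (hu : 2 * n ≤ u) (hu2 : u < sz n T) :
    |loS n J K u| ≤ (n : ℝ) + 2 := by
  have hi : u - 2 * n < T.length := by
    unfold sz at hu2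
    omega
  have h1 := cA_hh hA hi
  unfold loS
  rw [if_neg (by omega)]
  rw [abs_le] at h1 ⊢
  unfold sg
  split_ifs
  · constructor
    · linarith [h1.1, h1.2]
    · linarith [h1.1, h1.2]
  · constructor
    · linarith [h1.1, h1.2]
    · linarith [h1.1, h1.2]

theorem cA_ok (hX : St_X) (h1 : St_nd1) : St_cA := by
  intro n T pos J K hA
  obtain ⟨hx1, -, -, hx4, -, -, -⟩ := hX n T pos J K hA
  obtain ⟨-, hz⟩ := h1 n T pos J K hA
  have hn : (0 : ℝ) ≤ n := Nat.cast_nonneg n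
  refine ⟨10 * ((n : ℝ) + 3) ^ 2 + 100, ?_⟩
  intro Y hY c hc
  obtain ⟨hc2, hc3, hc4⟩ := cA_abs n Y c hc
  have hQ1 : ∀ u, (Q n pos J K u).1 = X n pos J K u := fun u => rfl
  have hQ2 : ∀ u, n ≤ u → (Q n pos J K u).2 = -(X n pos J K u) ^ 2 + 1 / 16 := by
    intro u hu
    unfold Q
    simp only
    rw [if_neg (by omega)]
  refine ⟨?_, ?_, ?_, ?_⟩
  · rw [hc2]
    have h4 : c.1 ^ 2 ≤ ((n : ℝ) + 3) ^ 2 := by
      apply sq_le_sq'
      · linarith
      · linarith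
    nlinarith [sq_nonneg ((n : ℝ) + 3)]
  · intro e he
    obtain ⟨-, -, he1, he2, -⟩ := hz e he
    obtain ⟨a1, a2⟩ := hx4 _ he1
    obtain ⟨b1, b2⟩ := hx4 _ he2
    rw [hc2]
    unfold chd
    rcases hc with h | h
    · rw [h]
      show -Y < -(e.1 + e.2) * (-3) + e.1 * e.2 + 1 / 16
      nlinarith [mul_nonneg (by linarith : (0 : ℝ) ≤ e.1 + 1) (by linarith : (0 : ℝ) ≤ e.2 + 1),
        sq_nonneg ((n : ℝ) + 3)]
    · rw [h]
      show -Y < -(e.1 + e.2) * ((n : ℝ) + 2) + e.1 * e.2 + 1 / 16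
      nlinarith [mul_nonneg (by linarith : (0 : ℝ) ≤ (n : ℝ) - e.1)
        (by linarith : (0 : ℝ) ≤ (n : ℝ) - e.2), sq_nonneg ((n : ℝ) + 3)]
  · intro u hu1 hu2
    have hus : u < sz n T := by unfold sz; omega
    obtain ⟨-, hx5, hx6⟩ := hx1 u hus
    unfold InW upS loS
    rw [if_pos hu2, if_pos hu2, if_pos hu2, hQ1, hQ2 u hu1, hc2]
    constructor
    · apply cA_key hn hx5 hx6 _ hc3 hc4 hY
      rw [abs_le]
      constructor
      · linarith
      · linarith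
    · apply cA_key hn hx5 hx6 _ hc3 hc4 hY
      rw [abs_le]
      constructor
      · linarith
      · linarith
  · intro u hu1 hu2
    obtain ⟨-, hx5, hx6⟩ := hx1 u hu2
    unfold OutW
    rw [if_neg (by omega), hQ1, hQ2 u (by omega), hc2]
    right
    exact cA_key hn hx5 hx6 (cA_loS hA hu1 hu2) hc3 hc4 hY

end Pool.Agent.H670R5
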