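import Pool.Agent.H670R5.St3
import Pool.Agent.H670R5.T_FAR

/-!
# CFAR
-/

namespace Pool.Agent.H670R5

open Pool.Agent.NPC Pool.Agent.H679R2 Filter Topology

lemma cfar_c {x : ℝ} {c : Pl} (hc : c.2 ≤ -c.1 ^ 2) : farG x (-x ^ 2 + 1 / 16) c ≤ -(1 / 16) := by
  unfold farG
  nlinarith [sq_nonneg (c.1 - x)]

lemma cfar_one (n : ℕ) (T : List (ℕ × ℕ × ℕ × Bool)) (pos J K : ℕ → ℕ) (e : Pl) (u v : ℕ)
    (he : e.2 ≤ -e.1 ^ 2) (hu : n ≤ u) (hv : X n pos J K v ≠ X n pos J K u) :
    ∀ᶠ p in (𝓝[>] (0 : ℝ)) ×ˢ (𝓝[>] (0 : ℝ)),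
      Disjoint (segment ℝ e (Qt n pos J K p.2 v))
      (earL n T pos J K p.1 u ∪ earR n T pos J K p.1 u) := by
  have hnu : ¬ u < n := by omega
  have hQ : (Q n pos J K u).2 = -(X n pos J K u) ^ 2 + 1 / 16 := by
    unfold Q; simp [hnu]
  have hQ1 : (Q n pos J K u).1 = X n pos J K u := rfl
  obtain ⟨c, hc0, hcv, hcw⟩ : ∃ c : ℝ, c < 0 ∧
      farG (X n pos J K u) (Q n pos J K u).2 (Q n pos J K v) < c ∧
      farG (X n pos J K u) (Q n pos J K u).2 e < c := by
    have h1 := far_Qlt hu hv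
    have h2 : farG (X n pos J K u) (Q n pos J K u).2 e ≤ -(1 / 16) := by
      rw [hQ]
      exact cfar_c he
    have p1 : 0 < (X n pos J K v - X n pos J K u) ^ 2 := by
      have : X n pos J K v - X n pos J K u ≠ 0 := sub_ne_zero.2 hv
      positivity
    refine ⟨max (-((X n pos J K v - X n pos J K u) ^ 2 / 2)) (-(1 / 32)), ?_, ?_, ?_⟩
    · apply max_lt
      · linarith
      · norm_num
    · exact lt_of_lt_of_le h1 (le_max_left _ _)
    · refine lt_of_lt_of_le ?_ (le_max_right _ _)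
      linarith
  have t1 := far_tau (v := v) hcv
  have r1 : ∀ᶠ ρ in 𝓝[>] (0 : ℝ), c < farG (X n pos J K u) (Q n pos J K u).2
      (ptA n T pos J K ρ (X n pos J K u)) := by
    apply far_rho _ _ _ hc0
    · unfold ptA chd; fun_prop
    · unfold ptA chd; rw [hQ]; ext
      · simp
      · simp; ring
  have r2 : ∀ᶠ ρ in 𝓝[>] (0 : ℝ), c < farG (X n pos J K u) (Q n pos J K u).2
      (ptE n T pos J K ρ (X n pos J K u)) := by
    apply far_rho _ _ _ hc0
    · unfold ptE chd; fun_prop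
    · unfold ptE chd; rw [hQ]; ext
      · simp
      · simp; ring
  have r3 : ∀ᶠ ρ in 𝓝[>] (0 : ℝ), c < farG (X n pos J K u) (Q n pos J K u).2
      (tipL n pos J K ρ u) := by
    apply far_rho _ _ _ hc0
    · unfold tipL; fun_prop
    · unfold tipL; rw [hQ1]; ext
      · simp
      · simp
  have r4 : ∀ᶠ ρ in 𝓝[>] (0 : ℝ), c < farG (X n pos J K u) (Q n pos J K u).2
      (tipR n pos J K ρ u) := by
    apply far_rho _ _ _ hc0
    · unfold tipR; fun_prop
    · unfold tipR; rw [hQ1]; ext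
      · simp
      · simp
  have r0 : c < farG (X n pos J K u) (Q n pos J K u).2 (Q n pos J K u) := by
    unfold farG; rw [hQ1]; simpa using hc0
  have hR := ((r1.and r2).and (r3.and r4)).prod_mk t1
  filter_upwards [hR] with p hp
  obtain ⟨⟨⟨a1, a2⟩, a3, a4⟩, b1⟩ := hp
  rw [Set.disjoint_left]
  intro z hz hz'
  have hlt : farG (X n pos J K u) (Q n pos J K u).2 z < c :=
    (farG_conv_lt _ _ c).segment_subset hcw b1 hz
  have hgt : c < farG (X n pos J K u) (Q n pos J K u).2 z := by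
    rcases hz' with h | h
    · have hs : earL n T pos J K p.1 u ⊆
          {z : Pl | c < farG (X n pos J K u) (Q n pos J K u).2 z} := by
        unfold earL tri
        apply convexHull_min _ (farG_conv_gt _ _ c)
        intro q hq
        simp only [Set.mem_insert_iff, Set.mem_singleton_iff] at hq
        rcases hq with rfl | rfl | rfl
        · exact a1
        · exact r0
        · exact a3
      exact hs h
    · have hs : earR n T pos J K p.1 u ⊆
          {z : Pl | c < farG (X n pos J K u) (Q n pos J K u).2 z} := by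
        unfold earR tri
        apply convexHull_min _ (farG_conv_gt _ _ c)
        intro q hq
        simp only [Set.mem_insert_iff, Set.mem_singleton_iff] at hq
        rcases hq with rfl | rfl | rfl
        · exact r0
        · exact a2
        · exact a4
      exact hs h
  linarith

theorem cFar_ok (hX : St_X) : St_cFar := by
  intro n T pos J K e hA he _
  obtain ⟨_, hX1, hX2, _, _, _, hX3⟩ := hX n T pos J K hA
  have hne : ∀ u, n ≤ u → u < sz n T → ∀ v < sz n T, v ≠ u → X n pos J K v ≠ X n pos J K u := by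
    intro u hu hu' v hv hvu he
    by_cases hvn : v < n
    · exact hX3 u hu hu' v hvn he.symm
    · exact hvu (hX1 v (by omega) hv u hu hu' he)
  have key : ∀ᶠ p in (𝓝[>] (0 : ℝ)) ×ˢ (𝓝[>] (0 : ℝ)),
      ∀ u ∈ Finset.range (sz n T), ∀ v ∈ Finset.range (sz n T), n ≤ u → v ≠ u →
      Disjoint (segment ℝ e (Qt n pos J K p.2 v))
      (earL n T pos J K p.1 u ∪ earR n T pos J K p.1 u) := by
    rw [Filter.eventually_all_finset]
    intro u hu
    rw [Filter.eventually_all_finset]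
    intro v hv
    rw [Finset.mem_range] at hu hv
    by_cases h : n ≤ u ∧ v ≠ u
    · have := cfar_one n T pos J K e u v he h.1 (hne u h.1 hu v hv h.2)
      filter_upwards [this] with p hp _ _
      exact hp
    · apply Filter.Eventually.of_forall
      intro p h1 h2
      exact absurd ⟨h1, h2⟩ h
  rw [Filter.eventually_prod_iff] at key
  obtain ⟨pa, hpa, pb, hpb, hh⟩ := key
  obtain ⟨ρ₀, hρ₀, hρ⟩ := (mem_nhdsGT_iff_exists_Ioo_subset).1 hpa
  obtain ⟨τ₀, hτ₀, hτ⟩ := (mem_nhdsGT_iff_exists_Ioo_subset).1 hpb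
  refine ⟨ρ₀, hρ₀, τ₀, hτ₀, ?_⟩
  intro ρ h1 h2 τ h3 h4 u hu hu' v hv hvu
  exact hh (hρ ⟨h1, h2⟩) (hτ ⟨h3, h4⟩) u (Finset.mem_range.2 hu') v (Finset.mem_range.2 hv) hu hvu

end Pool.Agent.H670R5
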