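import Pool.Agent.H670R5.St3

/-!
# Nonedges of the corners
-/

namespace Pool.Agent.H670R5

open Pool.Agent.NPC Pool.Agent.H679R2

private theorem cG2_aux (hX : St_X) (h2 : St_nd2) (hT1 : St_tooth1) (h5 : St_tooth5) (hd : St_dir)
    (n : ℕ) (T : List (ℕ × ℕ × ℕ × Bool)) (pos J K : ℕ → ℕ)
    (hA : Arr n T pos J K) (ρ : ℝ) (hρ : 0 < ρ) (u : ℕ) (c : Pl) (hnu : n ≤ u) (hu : u < sz n T)
    (hne : c ≠ Q n pos J K u)
    (hb : ∀ e ∈ (nd n T pos J K).zip (nd n T pos J K).tail, c.2 < chd e.1 e.2 c.1)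
    (hO : OutW n pos J K u c)
    (h1 : openSegment ℝ (ptA n T pos J K ρ (X n pos J K u)) (Q n pos J K u) ⊆
      interior (OB n T pos J K ρ))
    (h1' : openSegment ℝ (Q n pos J K u) (ptE n T pos J K ρ (X n pos J K u)) ⊆
      interior (OB n T pos J K ρ)) :
    (segment ℝ (Q n pos J K u) c ∩ interior (OB n T pos J K ρ)).Nonempty := by
  obtain ⟨x1, -, -, -, -, -, -⟩ := hX n T pos J K hA
  obtain ⟨y1, y2, y3⟩ := x1 u hu
  obtain ⟨-, -, -, -, -, -, -, -, e1, e2⟩ := h2 n T pos J K hA _ y1 y2 y3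
  have b1 := (hb _ e1).le
  have b2 := (hb _ e2).le
  obtain ⟨t1, t2, -, -, -⟩ := hT1 n T pos J K hA ρ hρ u hnu hu
  rcases h5 n T pos J K hA ρ hρ u hnu hu _ hne b1 b2 hO with
    ⟨α, β, hα, hβ, he⟩ | ⟨α, β, hα, hβ, he⟩
  · refine hd (Q n pos J K u) (ptA n T pos J K ρ (X n pos J K u)) (tipL n pos J K ρ u)
      c _ α β ?_ ?_ ?_ hα hβ he
    · intro h0
      have h6 : ori (ptA n T pos J K ρ (X n pos J K u)) (Q n pos J K u) (tipL n pos J K ρ u) =
          -ori (Q n pos J K u) (ptA n T pos J K ρ (X n pos J K u)) (tipL n pos J K ρ u) := by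
        unfold ori
        ring
      rw [h6, h0] at t1
      linarith
    · intro x hx
      refine Or.inr (Or.inl ⟨u, hnu, hu, Or.inl ?_⟩)
      have h7 : tri (Q n pos J K u) (ptA n T pos J K ρ (X n pos J K u)) (tipL n pos J K ρ u) =
          earL n T pos J K ρ u := by
        unfold earL tri
        rw [Set.insert_comm]
      exact h7 ▸ hx
    · rw [openSegment_symm]
      exact h1
  · refine hd (Q n pos J K u) (ptE n T pos J K ρ (X n pos J K u)) (tipR n pos J K ρ u)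
      c _ α β t2.ne ?_ h1' hα hβ he
    intro x hx
    exact Or.inr (Or.inl ⟨u, hnu, hu, Or.inr hx⟩)

theorem cG2_ok (hX : St_X) (hA : St_cA) (hF1 : St_F1) (h2 : St_nd2) (hT1 : St_tooth1)
    (h5 : St_tooth5) (hd : St_dir) : St_cG2 := by
  intro n T pos J K hArr hn
  obtain ⟨Y₀, hY⟩ := hA n T pos J K hArr
  obtain ⟨ρ₀, hρ₀, hF⟩ := hF1 n T pos J K hArr hn
  refine ⟨Y₀, fun Y hYY => ⟨ρ₀, hρ₀, fun ρ hρ hρ' c hc u h2u hu => ?_⟩⟩
  obtain ⟨-, hF'⟩ := hF ρ hρ hρ'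
  obtain ⟨-, c2, -, c4⟩ := hY Y hYY c hc
  obtain ⟨x1, -, -, -, -, -, -⟩ := hX n T pos J K hArr
  obtain ⟨-, y2, y3⟩ := x1 u hu
  have hnu : n ≤ u := by omega
  have hne : c ≠ Q n pos J K u := by
    intro h
    have h' : c.1 = X n pos J K u := congrArg Prod.fst h
    rcases hc with hc | hc
    · rw [hc] at h'
      simp only at h'
      linarith
    · rw [hc] at h'
      simp only at h'
      linarith
  rw [segment_symm]
  exact cG2_aux hX h2 hT1 h5 hd n T pos J K hArr ρ hρ u c hnu hu hne c2 (c4 u h2u hu)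
    (hF' u hnu hu).1 (hF' u hnu hu).2

end Pool.Agent.H670R5
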