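import Pool.Agent.H670R5.St3

/-!
# Edges of the corners are disjoint from the obstacle
-/

namespace Pool.Agent.H670R5

open Pool.Agent.NPC Pool.Agent.H679R2

private theorem CG3_half (a b c : ℝ) {x y z : Pl} (hx : a * x.1 + b * x.2 < c)
    (hy : a * y.1 + b * y.2 < c) (hz : z ∈ segment ℝ x y) : a * z.1 + b * z.2 < c := by
  obtain ⟨s, t, hs, ht, hst, rfl⟩ := hz
  simp only [Prod.fst_add, Prod.snd_add, Prod.smul_fst, Prod.smul_snd, smul_eq_mul]
  have ht' : t = 1 - s := by linarith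
  subst ht'
  have h0 : a * (s * x.1 + (1 - s) * y.1) + b * (s * x.2 + (1 - s) * y.2) =
      s * (a * x.1 + b * x.2) + (1 - s) * (a * y.1 + b * y.2) := by ring
  rw [h0]
  rcases eq_or_lt_of_le hs with h | h
  · rw [← h]; linarith
  · have h1 := mul_lt_mul_of_pos_left hx h
    have h2 := mul_le_mul_of_nonneg_left hy.le ht
    linarith

/-- points of the segment are below the parabola moved by less than `1/16`, or equal to `y` -/
private theorem CG3_par {x y z : Pl} (hx : x.2 ≤ -x.1 ^ 2) (hy : y.2 ≤ -y.1 ^ 2 + 1 / 16)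
    (hz : z ∈ segment ℝ x y) : z = y ∨ z.2 < -z.1 ^ 2 + 1 / 16 := by
  obtain ⟨s, t, hs, ht, hst, rfl⟩ := hz
  rcases eq_or_lt_of_le hs with h | h
  · left
    have ht1 : t = 1 := by linarith
    rw [← h, ht1, zero_smul, one_smul, zero_add]
  · right
    simp only [Prod.fst_add, Prod.snd_add, Prod.smul_fst, Prod.smul_snd, smul_eq_mul]
    have ht' : t = 1 - s := by linarith
    subst ht'
    have h1 := mul_le_mul_of_nonneg_left hx hs
    have h2 := mul_le_mul_of_nonneg_left hy ht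
    have h3 : 0 ≤ s * (1 - s) * (x.1 - y.1) ^ 2 :=
      mul_nonneg (mul_nonneg hs ht) (sq_nonneg _)
    nlinarith

private theorem CG3_Qt (n : ℕ) (pos J K : ℕ → ℕ) (τ : ℝ) (hτ : 0 < τ) (u : ℕ) (hu : u < 2 * n) :
    (Qt n pos J K τ u).2 ≤ -(Qt n pos J K τ u).1 ^ 2 + 1 / 16 := by
  unfold Qt Q dirV
  by_cases h : u < n
  · simp only [h, if_true, smul_zero, add_zero]
    linarith
  · simp only [h, hu, if_true, if_false, Prod.fst_add, Prod.snd_add, Prod.smul_fst,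
      Prod.smul_snd, smul_eq_mul, mul_zero, add_zero]
    linarith

theorem cG3_ok (_hX : St_X) (hA : St_cA) (hL1 : St_lens1) (hL3 : St_lens3) (h3 : St_tooth3)
    (h4 : St_tooth4) (hd : St_disp) (hwd : St_wdisp) (hf : St_cFar) : St_cG3 := by
  intro n T pos J K hArr hn
  obtain ⟨Y0, HY⟩ := hA n T pos J K hArr
  refine ⟨Y0, fun Y hY => ?_⟩
  have hcor := HY Y hY
  obtain ⟨c1a, -, -, -⟩ := hcor (-3, -Y) (Or.inl rfl)
  obtain ⟨c2a, -, -, -⟩ := hcor ((n : ℝ) + 2, -Y) (Or.inr rfl)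
  obtain ⟨r1, hr1, H1⟩ := hL1 n T pos J K hArr hn
  obtain ⟨r2, hr2, H2⟩ := h3 n T pos J K hArr
  obtain ⟨r4, hr4, H4⟩ := hL3 n T pos J K hArr hn
  obtain ⟨r5, hr5, t5, ht5, H5⟩ := hf n T pos J K (-3, -Y) hArr c1a (Or.inl (by norm_num))
  obtain ⟨r6, hr6, t6, ht6, H6⟩ := hf n T pos J K ((n : ℝ) + 2, -Y) hArr c2a
    (Or.inr (by simp))
  obtain ⟨t1, ht1, D⟩ := hd n T pos J K hArr
  obtain ⟨hconv, t2, ht2, W⟩ := hwd n T pos J K hArr
  refine ⟨min (min r1 r2) (min r4 (min r5 r6)),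
    lt_min (lt_min hr1 hr2) (lt_min hr4 (lt_min hr5 hr6)), fun ρ hρ hρ' => ?_⟩
  refine ⟨min (min t1 t2) (min t5 t6), lt_min (lt_min ht1 ht2) (lt_min ht5 ht6),
    fun τ hτ hτ' => ?_⟩
  obtain ⟨hρa, hρb⟩ := lt_min_iff.1 hρ'
  obtain ⟨hρ1, hρ2⟩ := lt_min_iff.1 hρa
  obtain ⟨hρ4, hρc⟩ := lt_min_iff.1 hρb
  obtain ⟨hρ5, hρ6⟩ := lt_min_iff.1 hρc
  obtain ⟨hτa, hτb⟩ := lt_min_iff.1 hτ'
  obtain ⟨hτ1, hτ2⟩ := lt_min_iff.1 hτa
  obtain ⟨hτ5, hτ6⟩ := lt_min_iff.1 hτb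
  intro c hc u hu
  have husz : u < sz n T := by unfold sz; omega
  obtain ⟨ca, cb, cc, -⟩ := hcor c hc
  obtain ⟨u1, u2, u3, u4⟩ := D τ hτ hτ1 u husz
  have hq := CG3_Qt n pos J K τ hτ u hu
  have hfar : ∀ w, n ≤ w → w < sz n T → u ≠ w →
      Disjoint (segment ℝ c (Qt n pos J K τ u)) (earL n T pos J K ρ w ∪ earR n T pos J K ρ w) := by
    intro w h1 h2 h3
    rcases hc with rfl | rfl
    · exact H5 ρ hρ hρ5 τ hτ hτ5 w h1 h2 u husz h3
    · exact H6 ρ hρ hρ6 τ hτ hτ6 w h1 h2 u husz h3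
  rw [Set.disjoint_left]
  intro z hz hzO
  have e3 : z.2 < 1 := by
    have := CG3_half 0 1 1 (x := c) (y := Qt n pos J K τ u) (by nlinarith [sq_nonneg c.1])
      (by linarith) hz
    linarith
  have e4 : ∀ e ∈ (nd n T pos J K).zip (nd n T pos J K).tail, z.2 < chd e.1 e.2 z.1 := by
    intro e he
    have a1 := cb e he
    have a2 := u4 e he
    unfold chd at a1 a2 ⊢
    have := CG3_half (e.1 + e.2) 1 (e.1 * e.2 + 1 / 16) (x := c)
      (y := Qt n pos J K τ u) (by linarith) (by linarith) hz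
    linarith
  rcases hzO with hzO | hzO | hzO
  · obtain ⟨-, -, -, -, l1, l2⟩ := H4 ρ hρ hρ4 z hzO
    have hp := CG3_par ca hq hz
    have hn0 : (0 : ℝ) < n := by exact_mod_cast hn
    rcases H1 ρ hρ hρ1 z hzO with h | h | ⟨e, he, -, -, h⟩
    · have hz2 := l1 h
      rcases hp with hp | hp
      · rw [hp] at h
        linarith
      · nlinarith
    · have hz2 := l2 h
      rcases hp with hp | hp
      · rw [hp] at h
        linarith
      · nlinarith
    · linarith [e4 e he]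
  · obtain ⟨w, hnw, hw', hz'⟩ := hzO
    by_cases hwu : w = u
    · subst hwu
      have i1 := cc w hnw hu
      have i2 := (W τ hτ hτ2 w hnw hw').1
      exact h4 n T pos J K hArr ρ hρ w hnw hw' z hz' ((hconv w hnw hw').segment_subset i1 i2 hz)
    · exact Set.disjoint_left.1 (hfar w hnw hw' (Ne.symm hwu)) hz hz'
  · obtain ⟨w, hnw, hw', hz'⟩ := hzO
    have h := ((H2 ρ hρ hρ2 w hnw hw').1 (mir z) hz').2.2
    simp only [mir] at h
    linarith

end Pool.Agent.H670R5
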