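import Pool.Agent.H670R5.St3

/-!
# Crossings of the axis (inside obstacle)
-/

namespace Pool.Agent.H670R5

open Pool.Agent.NPC Pool.Agent.H679R2

theorem cX_ok (hX : St_X) (hL2 : St_lens2) : St_cX := by
  intro n T pos J K hA hn
  obtain ⟨ρ₀, hρ₀, hL⟩ := hL2 n T pos J K hA hn
  refine ⟨((n : ℝ) + 1) ^ 2, fun Y hY => ⟨ρ₀, hρ₀, fun ρ h1 h2 => ?_⟩⟩
  have hn0 : (0 : ℝ) ≤ (n : ℝ) := Nat.cast_nonneg n
  have hin : ∀ x : ℝ, -2 < x → x < n + 1 → (x, (1 : ℝ)) ∈ interior (OB n T pos J K ρ) :=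
    fun x hx1 hx2 => interior_mono Set.subset_union_left ((hL ρ h1 h2).1 x hx1 hx2)
  have hXX := (hX n T pos J K hA).1
  refine ⟨?_, ?_, ?_⟩
  · intro c hc u hu
    obtain ⟨-, ht1, ht2⟩ := hXX u hu
    have hq : ∃ e : ℝ, 0 ≤ e ∧ e ≤ 1 / 16 ∧
        mir (Q n pos J K u) = (X n pos J K u, 2 + X n pos J K u ^ 2 - e) := by
      by_cases h : u < n
      · refine ⟨0, le_refl _, by norm_num, ?_⟩
        unfold mir Q
        rw [if_pos h]
        ext
        · rfl
        · show 2 - (-(X n pos J K u) ^ 2 + 0) = _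
          ring
      · refine ⟨1 / 16, by norm_num, le_refl _, ?_⟩
        unfold mir Q
        rw [if_neg h]
        ext
        · rfl
        · show 2 - (-(X n pos J K u) ^ 2 + 1 / 16) = _
          ring
    obtain ⟨e, he0, he1, hq⟩ := hq
    rw [hq]
    generalize X n pos J K u = t at ht1 ht2
    have ht3 : t ^ 2 ≤ ((n : ℝ) + 1) ^ 2 := by nlinarith
    have ht0 : 0 ≤ t ^ 2 := sq_nonneg t
    have hY0 : 1 ≤ Y := by nlinarith
    have hden : 0 < 2 + Y + t ^ 2 - e := by nlinarith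
    obtain ⟨l, hl⟩ : ∃ l : ℝ, l * (2 + Y + t ^ 2 - e) = 1 + Y :=
      ⟨(1 + Y) / (2 + Y + t ^ 2 - e), div_mul_cancel₀ _ hden.ne'⟩
    have hl1 : l ≤ 1 := by
      by_contra hcon
      push Not at hcon
      nlinarith
    have hl2 : 1 / 2 ≤ l := by
      by_contra hcon
      push Not at hcon
      nlinarith
    rcases hc with rfl | rfl
    · refine ⟨(-3 + (t + 3) * l, 1), ?_, hin _ ?_ ?_⟩
      · refine ⟨1 - l, l, by linarith, by linarith, by ring, ?_⟩
        ext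
        · show (1 - l) * (-3) + l * t = -3 + (t + 3) * l
          ring
        · show (1 - l) * (-Y) + l * (2 + t ^ 2 - e) = 1
          linarith
      · nlinarith
      · nlinarith
    · refine ⟨((n : ℝ) + 2 - ((n : ℝ) + 2 - t) * l, 1), ?_, hin _ ?_ ?_⟩
      · refine ⟨1 - l, l, by linarith, by linarith, by ring, ?_⟩
        ext
        · show (1 - l) * ((n : ℝ) + 2) + l * t = (n : ℝ) + 2 - ((n : ℝ) + 2 - t) * l
          ring
        · show (1 - l) * (-Y) + l * (2 + t ^ 2 - e) = 1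
          linarith
      · nlinarith
      · nlinarith
  · refine ⟨(((n : ℝ) - 1) / 2, 1), ?_, hin _ (by linarith) (by linarith)⟩
    refine ⟨1 / 2, 1 / 2, by norm_num, by norm_num, by norm_num, ?_⟩
    ext
    · show (1 / 2 : ℝ) * (-3) + 1 / 2 * ((n : ℝ) + 2) = ((n : ℝ) - 1) / 2
      ring
    · show (1 / 2 : ℝ) * (-Y) + 1 / 2 * (2 + Y) = 1
      ring
  · refine ⟨(((n : ℝ) - 1) / 2, 1), ?_, hin _ (by linarith) (by linarith)⟩
    refine ⟨1 / 2, 1 / 2, by norm_num, by norm_num, by norm_num, ?_⟩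
    ext
    · show (1 / 2 : ℝ) * ((n : ℝ) + 2) + 1 / 2 * (-3) = ((n : ℝ) - 1) / 2
      ring
    · show (1 / 2 : ℝ) * (-Y) + 1 / 2 * (2 + Y) = 1
      ring

end Pool.Agent.H670R5
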