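import Pool.Agent.H670R5.St2

namespace Pool.Agent.H670R5

open Pool.Agent.NPC Pool.Agent.H679R2

theorem earFront_ok (h3 : St_tri3) (hI : St_earInt) : St_earFront := by
  intro l l' P p q w hP hpq hw hIns x hx
  have hxint : x ∉ interior (P ∪ tri p q w) := hx.2
  have hT : tri q p w = tri p q w := by
    unfold tri
    rw [Set.insert_comm]
  have ho : 0 < ori q p w := by
    have : ori q p w = - ori p q w := by unfold ori; ring
    rw [this]; linarith
  have hfT : frontier (tri p q w) = segment ℝ q p ∪ segment ℝ p w ∪ segment ℝ w q := by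
    rw [← hT]; exact (h3 q p w ho).2.2.2.1
  have hpw : (p, w) ∈ cycEdges l' := (hIns (p, w)).2 (Or.inr (Or.inl rfl))
  have hwq : (w, q) ∈ cycEdges l' := (hIns (w, q)).2 (Or.inr (Or.inr rfl))
  -- points of the segment from `p` to `q`
  have hseg : x ∈ segment ℝ p q → x ∈ bdry l' := by
    intro h
    rw [← insert_endpoints_openSegment] at h
    rcases h with h | h | h
    · subst h
      exact ⟨(x, w), hpw, left_mem_segment ℝ _ _⟩
    · subst h
      exact ⟨(w, x), hwq, right_mem_segment ℝ _ _⟩
    · exact absurd ((hI l P p q w hP hpq hw).1 h) hxint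
  rcases frontier_union_subset P (tri p q w) hx with h | h
  · have h1 : x ∈ frontier P := h.1
    rw [hP.front] at h1
    obtain ⟨e, he, hxe⟩ := h1
    by_cases hpe : e = (p, q)
    · subst hpe
      exact hseg hxe
    · exact ⟨e, (hIns e).2 (Or.inl ⟨he, hpe⟩), hxe⟩
  · have h1 : x ∈ frontier (tri p q w) := h.2
    rw [hfT] at h1
    rcases h1 with (h1 | h1) | h1
    · rw [segment_symm] at h1
      exact hseg h1
    · exact ⟨(p, w), hpw, h1⟩
    · exact ⟨(w, q), hwq, h1⟩

end Pool.Agent.H670R5
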