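import Pool.Agent.H670R5.St2

namespace Pool.Agent.H670R5

open Pool.Agent.NPC Pool.Agent.H679R2

theorem force_ok : St_force := by
  intro n nx T a b h fl ha hb hh hinj hT hall
  by_contra hE
  let a' : Fin n := ⟨a, ha⟩
  let b' : Fin n := ⟨b, hb⟩
  let S : Finset ℕ := {(nx a').val, (nx.symm a').val, (nx b').val, (nx.symm b').val}
  have hS : ∀ r < 6, h r ∈ S := by
    intro r hr
    obtain ⟨u, v, huv, hc⟩ := hall _ (hT r hr)
    simp only at hc
    rcases hc with ⟨h1, h2⟩ | ⟨h1, h2⟩ | ⟨h1, h2⟩
    · exfalso
      apply hE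
      have hu : u = a' := Fin.ext h1
      have hv : v = b' := Fin.ext h2
      subst hu hv
      exact ⟨ha, hb, huv⟩
    · have hu : u = a' := Fin.ext h1
      rcases huv with hv | hv
      · rw [← h2, hv, hu]; simp [S]
      · have : v = nx.symm a' := by rw [← hu, hv, Equiv.symm_apply_apply]
        rw [← h2, this]; simp [S]
    · have hu : u = b' := Fin.ext h1
      rcases huv with hv | hv
      · rw [← h2, hv, hu]; simp [S]
      · have : v = nx.symm b' := by rw [← hu, hv, Equiv.symm_apply_apply]
        rw [← h2, this]; simp [S]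
  have hcard : (Finset.range 6).card ≤ S.card := by
    apply Finset.card_le_card_of_injOn h
    · intro r hr
      exact hS r (Finset.mem_range.mp hr)
    · intro r hr s hs hrs
      exact hinj r (Finset.mem_range.mp hr) s (Finset.mem_range.mp hs) hrs
  have hS4 : S.card ≤ 4 := Finset.card_le_four
  simp at hcard
  omega

end Pool.Agent.H670R5
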