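import Pool.Agent.H670R5.St3

/-! IFULL: an inside-obstacle representation of the extended graph. -/

namespace Pool.Agent.H670R5

open Pool.Agent.NPC Pool.Agent.H679R2

theorem iFull_four (n : ℕ) (T : List (ℕ × ℕ × ℕ × Bool)) (Y : ℝ) (q : ℕ → Pl) :
    four n T Y q (2 * sz n T) = (-3, -Y) ∧ four n T Y q (2 * sz n T + 1) = ((n : ℝ) + 2, -Y) ∧
    four n T Y q (2 * sz n T + 2) = (-3, 2 + Y) ∧
    four n T Y q (2 * sz n T + 3) = ((n : ℝ) + 2, 2 + Y) := by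
  unfold four
  refine ⟨?_, ?_, ?_, ?_⟩
  · rw [if_neg (by omega), if_pos rfl]
  · rw [if_neg (by omega), if_neg (by omega), if_pos rfl]
  · rw [if_neg (by omega), if_neg (by omega), if_neg (by omega), if_pos rfl]
  · rw [if_neg (by omega), if_neg (by omega), if_neg (by omega), if_neg (by omega)]

theorem iFull_ok (hL : St_iLim) (hF1 : St_F1) (hP : St_pert) (hB : St_box) (hR : St_rect) :
    St_iFull := by
  intro n T pos J K hA hn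
  obtain ⟨Y₀, hY⟩ := hL n T pos J K hA hn
  obtain ⟨H, ρ₁, hρ₁, hb⟩ := hB n T pos J K hA hn
  obtain ⟨ρ₂, hρ₂, hf⟩ := hF1 n T pos J K hA hn
  obtain ⟨Y, hYd⟩ : ∃ Y, Y = max Y₀ (|H| + 1) := ⟨_, rfl⟩
  have hY0 : Y₀ ≤ Y := hYd ▸ le_max_left _ _
  have hY1 : |H| + 1 ≤ Y := hYd ▸ le_max_right _ _
  obtain ⟨ρ₃, hρ₃, hl⟩ := hY Y hY0
  have hm : 0 < min ρ₁ (min ρ₂ ρ₃) := lt_min hρ₁ (lt_min hρ₂ hρ₃)
  obtain ⟨ρ, hρ⟩ : ∃ ρ, ρ = min ρ₁ (min ρ₂ ρ₃) / 2 := ⟨_, rfl⟩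
  have hρ0 : 0 < ρ := by rw [hρ]; linarith
  have hρm : ρ < min ρ₁ (min ρ₂ ρ₃) := by rw [hρ]; linarith
  have h1 : ρ < ρ₁ := lt_of_lt_of_le hρm (min_le_left _ _)
  have h2 : ρ < ρ₂ := lt_of_lt_of_le hρm ((min_le_right _ _).trans (min_le_left _ _))
  have h3 : ρ < ρ₃ := lt_of_lt_of_le hρm ((min_le_right _ _).trans (min_le_right _ _))
  obtain ⟨τ₀, hτ₀, hτ⟩ := hl ρ hρ0 h3
  obtain ⟨hE, hN⟩ := hτ (τ₀ / 2) (by linarith) (by linarith)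
  obtain ⟨⟨l, hpr⟩, _⟩ := hf ρ hρ0 h2
  obtain ⟨p, hd, hne, hcol, hed, hno⟩ := hP (2 * sz n T + 4)
    (four n T Y (Qt n pos J K (τ₀ / 2))) (OB n T pos J K ρ) (Ad3 n T) hpr.compact.isClosed
    hE hN (1 / 16) (by norm_num)
  refine ⟨l, OB n T pos J K ρ, p, hpr, hne, hcol, hed, hno, ?_⟩
  intro x hx
  obtain ⟨x1, x2, x3, x4⟩ := hb ρ hρ0 h1 x hx
  obtain ⟨f0, f1, f2, f3⟩ := iFull_four n T Y (Qt n pos J K (τ₀ / 2))
  have d0 := hd (2 * sz n T) (by omega)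
  have d1 := hd (2 * sz n T + 1) (by omega)
  have d2 := hd (2 * sz n T + 2) (by omega)
  have d3 := hd (2 * sz n T + 3) (by omega)
  rw [f0] at d0
  rw [f1] at d1
  rw [f2] at d2
  rw [f3] at d3
  exact hR n |H| Y _ _ _ _ x (abs_nonneg H) hY1 d0 d1 d3 d2 x1 x2
    (by linarith [le_abs_self H]) (by linarith [le_abs_self H])

end Pool.Agent.H670R5
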