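import Pool.Agent.H670R5.St3
import Pool.Agent.H670R5.T_POLY

/-!
# IPOLY : the reduction for the inside version is computable in polynomial time
-/

set_option maxHeartbeats 4000000

namespace Pool.Agent.H670R5

open Pool.Agent.NPC Pool.Agent.H679R2

theorem iPoly_szp {α : Type} [TEnc α] {f : α → PolyO} (hf : Poly f) :
    Poly (fun a => sz (nOf (f a)) (TOf (f a))) :=
  upoly_sz.toPoly.comp hf

theorem iPoly_first : Poly (fun o : PolyO =>
    [(2 * sz (nOf o) (TOf o), 2 * sz (nOf o) (TOf o) + 1),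
      (2 * sz (nOf o) (TOf o), 2 * sz (nOf o) (TOf o) + 2),
      (2 * sz (nOf o) (TOf o) + 1, 2 * sz (nOf o) (TOf o) + 3),
      (2 * sz (nOf o) (TOf o) + 2, 2 * sz (nOf o) (TOf o) + 3)]) := by
  have hs : Poly (fun o : PolyO => sz (nOf o) (TOf o)) := upoly_sz.toPoly
  have h2 : Poly (fun o : PolyO => 2 * sz (nOf o) (TOf o)) := Poly.mul (NPC.Poly.const 2) hs
  have h21 : Poly (fun o : PolyO => 2 * sz (nOf o) (TOf o) + 1) := Poly.add h2 (NPC.Poly.const 1)
  have h22 : Poly (fun o : PolyO => 2 * sz (nOf o) (TOf o) + 2) := Poly.add h2 (NPC.Poly.const 2)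
  have h23 : Poly (fun o : PolyO => 2 * sz (nOf o) (TOf o) + 3) := Poly.add h2 (NPC.Poly.const 3)
  fun_prop

theorem iPoly_second : Poly (fun o : PolyO =>
    (List.range (2 * nOf o)).flatMap (fun u => [(u, 2 * sz (nOf o) (TOf o)),
      (u, 2 * sz (nOf o) (TOf o) + 1),
      (u + sz (nOf o) (TOf o), 2 * sz (nOf o) (TOf o) + 2),
      (u + sz (nOf o) (TOf o), 2 * sz (nOf o) (TOf o) + 3)])) := by
  refine Poly.flatMap (F := fun (o : PolyO) (u : ℕ) => [(u, 2 * sz (nOf o) (TOf o)),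
      (u, 2 * sz (nOf o) (TOf o) + 1),
      (u + sz (nOf o) (TOf o), 2 * sz (nOf o) (TOf o) + 2),
      (u + sz (nOf o) (TOf o), 2 * sz (nOf o) (TOf o) + 3)])
    (UPoly.mul (UPoly.const 2) upoly_nOf).range ?_
  have hs : Poly (fun p : PolyO × ℕ => sz (nOf p.1) (TOf p.1)) := iPoly_szp (Poly.fst Poly.id)
  have hu : Poly (fun p : PolyO × ℕ => p.2) := Poly.snd Poly.id
  have h2 : Poly (fun p : PolyO × ℕ => 2 * sz (nOf p.1) (TOf p.1)) :=
    Poly.mul (NPC.Poly.const 2) hs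
  have h21 : Poly (fun p : PolyO × ℕ => 2 * sz (nOf p.1) (TOf p.1) + 1) :=
    Poly.add h2 (NPC.Poly.const 1)
  have h22 : Poly (fun p : PolyO × ℕ => 2 * sz (nOf p.1) (TOf p.1) + 2) :=
    Poly.add h2 (NPC.Poly.const 2)
  have h23 : Poly (fun p : PolyO × ℕ => 2 * sz (nOf p.1) (TOf p.1) + 3) :=
    Poly.add h2 (NPC.Poly.const 3)
  have hus : Poly (fun p : PolyO × ℕ => p.2 + sz (nOf p.1) (TOf p.1)) := Poly.add hu hs
  fun_prop

theorem iPoly_newE : Poly (fun o : PolyO => newE (nOf o) (TOf o)) :=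
  Poly.append iPoly_first iPoly_second

theorem iPoly_inst : Poly (fun o : PolyO => instI (nOf o) (TOf o)) := by
  unfold instI
  exact Poly.pair (UPoly.add (UPoly.mul (UPoly.const 2) upoly_sz) (UPoly.const 4)).range
    (Poly.append (Poly.snd poly_inst) iPoly_newE)

theorem iPoly_ok (_h : St_poly) : St_iPoly :=
  iPoly_inst.comp Pool.Agent.NPC.H679.occ_poly

end Pool.Agent.H670R5
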