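import Pool.Agent.H670R5.St2

set_option autoImplicit false

namespace Pool.Agent.H670R5

open Pool.Agent.NPC Pool.Agent.H679R2

private theorem orb_two {V : Type} {M S : V → V} (hM : Function.Involutive M)
    (hS : Function.Involutive S) (n : ℕ) (x : V) :
    (S ∘ M)^[n] (M ((S ∘ M)^[n] x)) = M x := by
  induction n with
  | zero => rfl
  | succ n ih =>
    rw [Function.iterate_succ_apply' (S ∘ M) n x, Function.iterate_succ_apply]
    have h1 : (S ∘ M) (M ((S ∘ M) ((S ∘ M)^[n] x))) = M ((S ∘ M)^[n] x) := by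
      simp only [Function.comp_apply, hM (S _), hS (M _)]
    rw [h1, ih]

private theorem orb_ne {V : Type} {M S : V → V} (hM : Function.Involutive M)
    (hS : Function.Involutive S) (hM' : ∀ v, M v ≠ v) (hS' : ∀ v, S v ≠ v) (n : ℕ) (x : V) :
    M x ≠ (S ∘ M)^[n] x := by
  intro h
  have hinj : ∀ m : ℕ, Function.Injective ((S ∘ M)^[m]) := fun m =>
    (hS.injective.comp hM.injective).iterate m
  rcases Nat.even_or_odd' n with ⟨m, rfl | rfl⟩
  · rw [two_mul, Function.iterate_add_apply, ← orb_two hM hS m x] at h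
    exact hM' _ (hinj m h)
  · rw [show 2 * m + 1 = m + (1 + m) by ring, Function.iterate_add_apply (S ∘ M) m,
      Function.iterate_add_apply (S ∘ M) 1 m, ← orb_two hM hS m x] at h
    have h2 := hinj m h
    simp only [Function.iterate_one, Function.comp_apply] at h2
    exact hS' _ h2.symm

theorem orb_ok : St_orb := by
  intro V _ M S hM hS hM' hS' hc p₀
  have hinj : Function.Injective (S ∘ M) := hS.injective.comp hM.injective
  have hper : p₀ ∈ Function.periodicPts (S ∘ M) := hinj.mem_periodicPts p₀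
  have hpos : 0 < Function.minimalPeriod (S ∘ M) p₀ :=
    Function.minimalPeriod_pos_of_mem_periodicPts hper
  have h1 : ∀ i < Function.minimalPeriod (S ∘ M) p₀, ∀ j < Function.minimalPeriod (S ∘ M) p₀,
      (S ∘ M)^[i] p₀ = (S ∘ M)^[j] p₀ → i = j := fun i hi j hj h =>
    Function.iterate_injOn_Iio_minimalPeriod hi hj h
  have h2 : ∀ i j : ℕ, (S ∘ M)^[i] p₀ ≠ M ((S ∘ M)^[j] p₀) := by
    intro i j h
    have h3 := congrArg ((S ∘ M)^[j]) h
    rw [orb_two hM hS, ← Function.iterate_add_apply] at h3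
    exact orb_ne hM hS hM' hS' _ _ h3.symm
  have hcc : (S ∘ M)^[Function.minimalPeriod (S ∘ M) p₀] p₀ = p₀ :=
    Function.iterate_minimalPeriod
  have h4 : ∀ v, ∃ i : ℕ, v = (S ∘ M)^[i] p₀ ∨ v = M ((S ∘ M)^[i] p₀) := by
    intro v
    have hX := Conn.closed hM hS (X := {v | ∃ i : ℕ, v = (S ∘ M)^[i] p₀ ∨
      v = M ((S ∘ M)^[i] p₀)}) ?_ ?_ (hc p₀ v)
    · exact hX.1 ⟨0, Or.inl rfl⟩
    · rintro x ⟨i, rfl | rfl⟩
      · exact ⟨i, Or.inr rfl⟩
      · exact ⟨i, Or.inl (hM _)⟩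
    · rintro x ⟨i, rfl | rfl⟩
      · obtain ⟨k, hk⟩ : ∃ k : ℕ, (S ∘ M)^[i] p₀ = (S ∘ M)^[k + 1] p₀ := by
          refine ⟨i + Function.minimalPeriod (S ∘ M) p₀ - 1, ?_⟩
          rw [show i + Function.minimalPeriod (S ∘ M) p₀ - 1 + 1 =
            i + Function.minimalPeriod (S ∘ M) p₀ by omega, Function.iterate_add_apply, hcc]
        refine ⟨k, Or.inr ?_⟩
        rw [hk, Function.iterate_succ_apply']
        exact hS _
      · refine ⟨i + 1, Or.inl ?_⟩
        rw [Function.iterate_succ_apply']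
        rfl
  have h5 : ∀ v, ∃ i < Function.minimalPeriod (S ∘ M) p₀, v = (S ∘ M)^[i] p₀ ∨
      v = M ((S ∘ M)^[i] p₀) := by
    intro v
    obtain ⟨i, hi⟩ := h4 v
    refine ⟨i % Function.minimalPeriod (S ∘ M) p₀, Nat.mod_lt _ hpos, ?_⟩
    rw [Function.iterate_mod_minimalPeriod_eq]
    exact hi
  refine ⟨Function.minimalPeriod (S ∘ M) p₀, h1, fun i _ j _ => h2 i j, h5, hcc, ?_⟩
  have hb : Function.Bijective (fun z : Fin (Function.minimalPeriod (S ∘ M) p₀) × Bool =>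
      cond z.2 (M ((S ∘ M)^[(z.1 : ℕ)] p₀)) ((S ∘ M)^[(z.1 : ℕ)] p₀)) := by
    constructor
    · rintro ⟨i, b⟩ ⟨j, b'⟩ h
      cases b <;> cases b' <;> simp only [cond_true, cond_false] at h
      · rw [Prod.mk.injEq]; exact ⟨Fin.ext (h1 _ i.2 _ j.2 h), rfl⟩
      · exact absurd h (h2 _ _)
      · exact absurd h.symm (h2 _ _)
      · rw [Prod.mk.injEq]; exact ⟨Fin.ext (h1 _ i.2 _ j.2 (hM.injective h)), rfl⟩
    · intro v
      obtain ⟨i, hi, h | h⟩ := h5 v
      · exact ⟨(⟨i, hi⟩, false), h.symm⟩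
      · exact ⟨(⟨i, hi⟩, true), h.symm⟩
  rw [← Nat.card_congr (Equiv.ofBijective _ hb), Nat.card_prod, Nat.card_fin]
  simp [mul_comm]

end Pool.Agent.H670R5
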