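import Pool.Agent.H670R5.St3

set_option autoImplicit false

namespace Pool.Agent.H670R5

open Pool.Agent.NPC Pool.Agent.H679R2

theorem quad_cont (a b : Pl) : Continuous fun z : Pl => ori a b z := by
  unfold ori
  fun_prop

/-- a point of the line `a b` between the lines `d a` and `b c` lies on the segment -/
theorem quad_seg (a b c d z : Pl) (h1 : 0 < ori d a b) (h2 : 0 < ori a b c) (h3 : ori a b z = 0)
    (h4 : 0 ≤ ori d a z) (h5 : 0 ≤ ori b c z) : z ∈ segment ℝ a b := by
  obtain ⟨s, hs⟩ : ∃ s, s = ori d a z / ori d a b := ⟨_, rfl⟩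
  have hs' : s * ori d a b = ori d a z := by rw [hs]; field_simp
  have hs0 : 0 ≤ s := by rw [hs]; positivity
  have e1 : ori d a b * (z.1 - a.1 - s * (b.1 - a.1)) = 0 := by
    have : ori d a b * (z.1 - a.1 - s * (b.1 - a.1)) =
        ori d a b * (z.1 - a.1) - (s * ori d a b) * (b.1 - a.1) := by ring
    rw [this, hs']
    unfold ori at h3 ⊢
    linear_combination (d.1 - a.1) * h3
  have e2 : ori d a b * (z.2 - a.2 - s * (b.2 - a.2)) = 0 := by
    have : ori d a b * (z.2 - a.2 - s * (b.2 - a.2)) =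
        ori d a b * (z.2 - a.2) - (s * ori d a b) * (b.2 - a.2) := by ring
    rw [this, hs']
    unfold ori at h3 ⊢
    linear_combination (d.2 - a.2) * h3
  have z1 : z.1 = a.1 + s * (b.1 - a.1) := by
    rcases mul_eq_zero.mp e1 with h | h
    · exact absurd h h1.ne'
    · linarith
  have z2 : z.2 = a.2 + s * (b.2 - a.2) := by
    rcases mul_eq_zero.mp e2 with h | h
    · exact absurd h h1.ne'
    · linarith
  have h6 : ori b c z = (1 - s) * ori a b c := by
    unfold ori
    rw [z1, z2]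
    ring
  have hs1 : s ≤ 1 := by
    by_contra hcon
    push Not at hcon
    have : (1 - s) * ori a b c < 0 := mul_neg_of_neg_of_pos (by linarith) h2
    linarith
  refine ⟨1 - s, s, by linarith, hs0, by ring, ?_⟩
  ext
  · simp only [Prod.fst_add, Prod.smul_fst, smul_eq_mul]
    rw [z1]; ring
  · simp only [Prod.snd_add, Prod.smul_snd, smul_eq_mul]
    rw [z2]; ring

/-- points of a triangle are bounded -/
theorem quad_tri (a b c z : Pl) (M : ℝ) (h0 : 0 < ori a b c) (h1 : 0 ≤ ori a b z)
    (h2 : 0 ≤ ori b c z) (h3 : 0 ≤ ori c a z) (ha : ‖a‖ ≤ M) (hb : ‖b‖ ≤ M) (hc : ‖c‖ ≤ M) :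
    ‖z‖ ≤ M := by
  have key : ∀ x y w t : ℝ, |x| ≤ M → |y| ≤ M → |w| ≤ M →
      ori a b c * t = ori b c z * x + ori c a z * y + ori a b z * w → |t| ≤ M := by
    intro x y w t hx hy hw ht
    have hsum : ori b c z + ori c a z + ori a b z = ori a b c := by unfold ori; ring
    rw [abs_le] at hx hy hw ⊢
    have q1 := mul_le_mul_of_nonneg_left hx.1 h2
    have q2 := mul_le_mul_of_nonneg_left hx.2 h2
    have q3 := mul_le_mul_of_nonneg_left hy.1 h3
    have q4 := mul_le_mul_of_nonneg_left hy.2 h3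
    have q5 := mul_le_mul_of_nonneg_left hw.1 h1
    have q6 := mul_le_mul_of_nonneg_left hw.2 h1
    have u1 : ori a b c * t ≤ ori a b c * M := by
      rw [ht, ← hsum]; linarith
    have u2 : ori a b c * (-M) ≤ ori a b c * t := by
      rw [ht, ← hsum]; linarith
    exact ⟨le_of_mul_le_mul_left u2 h0, le_of_mul_le_mul_left u1 h0⟩
  have n1 : ∀ p : Pl, |p.1| ≤ ‖p‖ := fun p => norm_fst_le p
  have n2 : ∀ p : Pl, |p.2| ≤ ‖p‖ := fun p => norm_snd_le p
  rw [Prod.norm_def]
  refine max_le ?_ ?_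
  · exact key a.1 b.1 c.1 z.1 ((n1 a).trans ha) ((n1 b).trans hb) ((n1 c).trans hc)
      (by unfold ori; ring)
  · exact key a.2 b.2 c.2 z.2 ((n2 a).trans ha) ((n2 b).trans hb) ((n2 c).trans hc)
      (by unfold ori; ring)

theorem quad_ok : St_quad := by
  intro a b c d x D habc hbcd hcda hdab h1 h2 h3 h4 s1 s2 s3 s4
  by_cases hx : x ∈ D
  · have : connectedComponentIn Dᶜ x = ∅ :=
      connectedComponentIn_eq_empty (by simpa using hx)
    rw [this]
    exact Bornology.isBounded_empty
  have hxD : x ∈ Dᶜ := hx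
  have hC := isPreconnected_connectedComponentIn (x := x) (F := Dᶜ)
  have hCD := connectedComponentIn_subset Dᶜ x
  have hxC := mem_connectedComponentIn hxD
  obtain ⟨W, hW⟩ : ∃ W : Set Pl, W = {z | 0 < ori a b z ∧ 0 < ori b c z ∧ 0 < ori c d z ∧
    0 < ori d a z} := ⟨_, rfl⟩
  obtain ⟨W', hW'⟩ : ∃ W' : Set Pl, W' = {z | 0 ≤ ori a b z ∧ 0 ≤ ori b c z ∧ 0 ≤ ori c d z ∧
    0 ≤ ori d a z} := ⟨_, rfl⟩
  have hWo : IsOpen W := by
    rw [hW]
    exact (isOpen_lt continuous_const (quad_cont a b)).inter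
      ((isOpen_lt continuous_const (quad_cont b c)).inter
        ((isOpen_lt continuous_const (quad_cont c d)).inter
          (isOpen_lt continuous_const (quad_cont d a))))
  have hWc : IsClosed W' := by
    rw [hW']
    exact (isClosed_le continuous_const (quad_cont a b)).inter
      ((isClosed_le continuous_const (quad_cont b c)).inter
        ((isClosed_le continuous_const (quad_cont c d)).inter
          (isClosed_le continuous_const (quad_cont d a))))
  have hWW : W ⊆ W' := by
    rw [hW, hW']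
    rintro z ⟨q1, q2, q3, q4⟩
    exact ⟨q1.le, q2.le, q3.le, q4.le⟩
  have hbd : ∀ z ∈ W', z ∉ W → z ∈ D := by
    rw [hW, hW']
    rintro z ⟨q1, q2, q3, q4⟩ hz
    by_cases e1 : ori a b z = 0
    · exact s1 (quad_seg a b c d z hdab habc e1 q4 q2)
    by_cases e2 : ori b c z = 0
    · exact s2 (quad_seg b c d a z habc hbcd e2 q1 q3)
    by_cases e3 : ori c d z = 0
    · exact s3 (quad_seg c d a b z hbcd hcda e3 q2 q4)
    by_cases e4 : ori d a z = 0
    · exact s4 (quad_seg d a b c z hcda hdab e4 q3 q1)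
    exact absurd ⟨lt_of_le_of_ne q1 (Ne.symm e1), lt_of_le_of_ne q2 (Ne.symm e2),
      lt_of_le_of_ne q3 (Ne.symm e3), lt_of_le_of_ne q4 (Ne.symm e4)⟩ hz
  have hsub : connectedComponentIn Dᶜ x ⊆ W := by
    refine hC.subset_left_of_subset_union hWo hWc.isOpen_compl ?_ ?_ ?_
    · rw [Set.disjoint_left]
      intro z hz hz'
      exact hz' (hWW hz)
    · intro z hz
      by_cases hz' : z ∈ W'
      · left
        by_contra hcon
        exact hCD hz (hbd z hz' hcon)
      · exact Or.inr hz'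
    · refine ⟨x, hxC, ?_⟩
      rw [hW]
      exact ⟨h1, h2, h3, h4⟩
  obtain ⟨M, hM⟩ : ∃ M : ℝ, M = ‖a‖ + ‖b‖ + ‖c‖ + ‖d‖ := ⟨_, rfl⟩
  have na := norm_nonneg a
  have nb := norm_nonneg b
  have nc := norm_nonneg c
  have nd := norm_nonneg d
  refine (Metric.isBounded_closedBall (x := (0 : Pl)) (r := M)).subset ?_
  intro z hz
  have hz' := hWW (hsub hz)
  rw [hW'] at hz'
  obtain ⟨q1, q2, q3, q4⟩ := hz'
  rw [mem_closedBall_zero_iff]
  by_cases hc : 0 ≤ ori c a z
  · exact quad_tri a b c z M habc q1 q2 hc (by linarith) (by linarith) (by linarith)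
  · have hac : 0 ≤ ori a c z := by
      have : ori a c z = - ori c a z := by unfold ori; ring
      rw [this]; linarith
    have hacd : 0 < ori a c d := by
      have : ori a c d = ori c d a := by unfold ori; ring
      rw [this]; exact hcda
    exact quad_tri a c d z M hacd hac q3 q4 (by linarith) (by linarith) (by linarith)

end Pool.Agent.H670R5
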