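import Pool.Agent.H670R5.St3

/-! task RECT (helper28) -/

namespace Pool.Agent.H670R5

theorem rect_lb {A B C D A0 B0 C0 D0 : ℝ} (hA : A0 ≤ A) (hB : B0 ≤ B) (hA0 : 0 ≤ A0) (hB0 : 0 ≤ B0)
    (hC : |C| ≤ C0) (hD : |D| ≤ D0) (h : C0 * D0 < A0 * B0) : 0 < A * B - C * D := by
  have h1 : A0 * B0 ≤ A * B := mul_le_mul hA hB hB0 (hA0.trans hA)
  have h2 : C * D ≤ C0 * D0 := by
    calc C * D ≤ |C * D| := le_abs_self _
      _ = |C| * |D| := abs_mul _ _
      _ ≤ C0 * D0 := mul_le_mul hC hD (abs_nonneg _) ((abs_nonneg _).trans hC)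
  linarith

theorem rect_dist {a : Pl} {u v : ℝ} (h : dist a (u, v) < 1 / 16) :
    -(1 / 16) < a.1 - u ∧ a.1 - u < 1 / 16 ∧ -(1 / 16) < a.2 - v ∧ a.2 - v < 1 / 16 := by
  rw [Prod.dist_eq] at h
  have h1 := lt_of_le_of_lt (le_max_left _ _) h
  have h2 := lt_of_le_of_lt (le_max_right _ _) h
  rw [Real.dist_eq, abs_lt] at h1 h2
  exact ⟨h1.1, h1.2, h2.1, h2.2⟩

theorem rect_ok : St_rect := by
  intro n H Y a b c d x hH hY ha hb hc hd hx1 hx2 hx3 hx4
  obtain ⟨a1, a2, a3, a4⟩ := rect_dist ha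
  obtain ⟨b1, b2, b3, b4⟩ := rect_dist hb
  obtain ⟨c1, c2, c3, c4⟩ := rect_dist hc
  obtain ⟨d1, d2, d3, d4⟩ := rect_dist hd
  have hn : (0 : ℝ) ≤ n := Nat.cast_nonneg n
  have hY1 : 1 ≤ Y := by linarith
  have hnY : 0 ≤ (n : ℝ) * Y := by positivity
  have k1 : 1 / 8 * ((n : ℝ) + 41 / 8) < ((n : ℝ) + 39 / 8) * (2 * Y + 15 / 8) := by nlinarith
  have k2 : 1 / 8 * (2 * Y + 17 / 8) < (2 * Y + 15 / 8) * ((n : ℝ) + 39 / 8) := by nlinarith
  have k3 : 1 / 8 * ((n : ℝ) + 65 / 16) < ((n : ℝ) + 39 / 8) * (15 / 16) := by nlinarith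
  have k4 : 1 / 8 * (2 * Y + 17 / 16) < (2 * Y + 15 / 8) * (15 / 16 : ℝ) := by nlinarith
  refine ⟨?_, ?_, ?_, ?_, ?_, ?_, ?_, ?_⟩
  · have e : ori a b c = (b.1 - a.1) * (c.2 - a.2) - (b.2 - a.2) * (c.1 - a.1) := rfl
    rw [e]
    exact rect_lb (by linarith) (by linarith) (by linarith) (by linarith)
      (abs_le.2 ⟨by linarith, by linarith⟩) (abs_le.2 ⟨by linarith, by linarith⟩) k1
  · have e : ori b c d = (c.2 - b.2) * (b.1 - d.1) - (b.1 - c.1) * (d.2 - b.2) := by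
      unfold ori; ring
    rw [e]
    exact rect_lb (by linarith) (by linarith) (by linarith) (by linarith)
      (abs_le.2 ⟨by linarith, by linarith⟩) (abs_le.2 ⟨by linarith, by linarith⟩) k2
  · have e : ori c d a = (c.1 - d.1) * (c.2 - a.2) - (d.2 - c.2) * (a.1 - c.1) := by
      unfold ori; ring
    rw [e]
    exact rect_lb (by linarith) (by linarith) (by linarith) (by linarith)
      (abs_le.2 ⟨by linarith, by linarith⟩) (abs_le.2 ⟨by linarith, by linarith⟩) k1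
  · have e : ori d a b = (d.2 - a.2) * (b.1 - d.1) - (a.1 - d.1) * (d.2 - b.2) := by
      unfold ori; ring
    rw [e]
    exact rect_lb (by linarith) (by linarith) (by linarith) (by linarith)
      (abs_le.2 ⟨by linarith, by linarith⟩) (abs_le.2 ⟨by linarith, by linarith⟩) k2
  · have e : ori a b x = (b.1 - a.1) * (x.2 - a.2) - (b.2 - a.2) * (x.1 - a.1) := rfl
    rw [e]
    exact rect_lb (by linarith) (by linarith) (by linarith) (by linarith)
      (abs_le.2 ⟨by linarith, by linarith⟩) (abs_le.2 ⟨by linarith, by linarith⟩) k3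
  · have e : ori b c x = (c.2 - b.2) * (b.1 - x.1) - (b.1 - c.1) * (x.2 - b.2) := by
      unfold ori; ring
    rw [e]
    exact rect_lb (by linarith) (by linarith) (by linarith) (by linarith)
      (abs_le.2 ⟨by linarith, by linarith⟩) (abs_le.2 ⟨by linarith, by linarith⟩) k4
  · have e : ori c d x = (c.1 - d.1) * (c.2 - x.2) - (d.2 - c.2) * (x.1 - c.1) := by
      unfold ori; ring
    rw [e]
    exact rect_lb (by linarith) (by linarith) (by linarith) (by linarith)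
      (abs_le.2 ⟨by linarith, by linarith⟩) (abs_le.2 ⟨by linarith, by linarith⟩) k3
  · have e : ori d a x = (d.2 - a.2) * (x.1 - d.1) - (a.1 - d.1) * (d.2 - x.2) := by
      unfold ori; ring
    rw [e]
    exact rect_lb (by linarith) (by linarith) (by linarith) (by linarith)
      (abs_le.2 ⟨by linarith, by linarith⟩) (abs_le.2 ⟨by linarith, by linarith⟩) k4

end Pool.Agent.H670R5
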