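import Mathlib
import Pool.Agent.H670R5.St2

/-!
# TRI3: topology of a nondegenerate triangle
-/

namespace Pool.Agent.H670R5

private theorem tri3_bary (a b c x : Pl) (h : 0 < ori a b c) :
    x = (ori b c x / ori a b c) • a + (ori c a x / ori a b c) • b + (ori a b x / ori a b c) • c := by
  have h' : ori a b c ≠ 0 := ne_of_gt h
  have key1 : ori a b c * x.1 = ori b c x * a.1 + ori c a x * b.1 + ori a b x * c.1 := by
    simp only [ori]; ring
  have key2 : ori a b c * x.2 = ori b c x * a.2 + ori c a x * b.2 + ori a b x * c.2 := by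
    simp only [ori]; ring
  ext
  · simp only [Prod.fst_add, Prod.smul_fst, smul_eq_mul]
    rw [div_mul_eq_mul_div, div_mul_eq_mul_div, div_mul_eq_mul_div, ← add_div, ← add_div, ← key1,
      mul_div_cancel_left₀ _ h']
  · simp only [Prod.snd_add, Prod.smul_snd, smul_eq_mul]
    rw [div_mul_eq_mul_div, div_mul_eq_mul_div, div_mul_eq_mul_div, ← add_div, ← add_div, ← key2,
      mul_div_cancel_left₀ _ h']

private theorem tri3_sum (a b c x : Pl) : ori b c x + ori c a x + ori a b x = ori a b c := by
  simp only [ori]; ring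

private theorem tri3_rot (a b c : Pl) : ori b c a = ori a b c := by
  simp only [ori]; ring

private theorem tri3_tri_rot (a b c : Pl) : tri b c a = tri a b c := by
  unfold tri
  congr 1
  ext x
  simp only [Set.mem_insert_iff, Set.mem_singleton_iff]
  tauto

/-- a point with all orientations nonnegative, the one of `a b` zero, lies on the side -/
private theorem tri3_seg (a b c x : Pl) (h : 0 < ori a b c) (h0 : ori a b x = 0)
    (h1 : 0 ≤ ori b c x) (h2 : 0 ≤ ori c a x) : x ∈ segment ℝ a b := by
  have hb := tri3_bary a b c x h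
  have hs := tri3_sum a b c x
  rw [h0] at hb hs
  refine ⟨ori b c x / ori a b c, ori c a x / ori a b c, div_nonneg h1 h.le, div_nonneg h2 h.le, ?_, ?_⟩
  · rw [← add_div, show ori b c x + ori c a x = ori a b c by linarith, div_self h.ne']
  · rw [zero_div, zero_smul, add_zero] at hb
    exact hb.symm

private theorem tri3_ori_seg (a b x : Pl) (hx : x ∈ segment ℝ a b) : ori a b x = 0 := by
  obtain ⟨s, t, -, -, hst, rfl⟩ := hx
  have hs : s = 1 - t := by linarith
  subst hs
  simp only [ori, Prod.fst_add, Prod.smul_fst, Prod.snd_add, Prod.smul_snd, smul_eq_mul]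
  ring

private theorem tri3_seg_sub (a b c : Pl) : segment ℝ a b ⊆ tri a b c := by
  refine (convex_convexHull ℝ _).segment_subset ?_ ?_
  · exact subset_convexHull ℝ _ (by simp)
  · exact subset_convexHull ℝ _ (by simp)

theorem tri3_ok (h1 : St_tri1) (h2 : St_tri2) : St_tri3 := by
  intro a b c h
  have hconv : Convex ℝ (tri a b c) := convex_convexHull ℝ _
  have hcomp : IsCompact (tri a b c) := by
    unfold tri
    exact (Set.toFinite ({a, b, c} : Set Pl)).isCompact_convexHull (𝕜 := ℝ)
  have hne : (interior (tri a b c)).Nonempty := by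
    refine ⟨(1 / 3 : ℝ) • a + (1 / 3 : ℝ) • b + (1 / 3 : ℝ) • c, ?_⟩
    rw [h2 a b c _ h]
    have e1 : ori a b ((1 / 3 : ℝ) • a + (1 / 3 : ℝ) • b + (1 / 3 : ℝ) • c) = ori a b c / 3 := by
      simp only [ori, Prod.fst_add, Prod.smul_fst, Prod.snd_add, Prod.smul_snd, smul_eq_mul]
      ring
    have e2 : ori b c ((1 / 3 : ℝ) • a + (1 / 3 : ℝ) • b + (1 / 3 : ℝ) • c) = ori a b c / 3 := by
      simp only [ori, Prod.fst_add, Prod.smul_fst, Prod.snd_add, Prod.smul_snd, smul_eq_mul]
      ring
    have e3 : ori c a ((1 / 3 : ℝ) • a + (1 / 3 : ℝ) • b + (1 / 3 : ℝ) • c) = ori a b c / 3 := by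
      simp only [ori, Prod.fst_add, Prod.smul_fst, Prod.snd_add, Prod.smul_snd, smul_eq_mul]
      ring
    rw [e1, e2, e3]
    exact ⟨by positivity, by positivity, by positivity⟩
  have hcl : tri a b c ⊆ closure (interior (tri a b c)) := by
    rw [hconv.closure_interior_eq_closure_of_nonempty_interior hne]
    exact subset_closure
  refine ⟨hcl, hconv.interior.isConnected hne, hcomp, ?_, ?_⟩
  · rw [hcomp.isClosed.frontier_eq]
    ext x
    constructor
    · rintro ⟨hx, hx'⟩
      rw [h1 a b c x h] at hx
      rw [h2 a b c x h] at hx'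
      obtain ⟨ha, hb, hc⟩ := hx
      by_cases ha0 : ori a b x = 0
      · exact Or.inl (Or.inl (tri3_seg a b c x h ha0 hb hc))
      by_cases hb0 : ori b c x = 0
      · refine Or.inl (Or.inr (tri3_seg b c a x ?_ hb0 hc ha))
        rw [tri3_rot]; exact h
      by_cases hc0 : ori c a x = 0
      · refine Or.inr (tri3_seg c a b x ?_ hc0 ha hb)
        rw [tri3_rot, tri3_rot]; exact h
      exact absurd ⟨lt_of_le_of_ne ha (Ne.symm ha0), lt_of_le_of_ne hb (Ne.symm hb0),
        lt_of_le_of_ne hc (Ne.symm hc0)⟩ hx'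
    · rintro ((hx | hx) | hx)
      · refine ⟨tri3_seg_sub a b c hx, fun hi => ?_⟩
        rw [h2 a b c x h] at hi
        rw [tri3_ori_seg a b x hx] at hi
        exact lt_irrefl _ hi.1
      · refine ⟨?_, fun hi => ?_⟩
        · have := tri3_seg_sub b c a hx
          rwa [tri3_tri_rot] at this
        · rw [h2 a b c x h] at hi
          rw [tri3_ori_seg b c x hx] at hi
          exact lt_irrefl _ hi.2.1
      · refine ⟨?_, fun hi => ?_⟩
        · have := tri3_seg_sub c a b hx
          rwa [tri3_tri_rot, tri3_tri_rot] at this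
        · rw [h2 a b c x h] at hi
          rw [tri3_ori_seg c a x hx] at hi
          exact lt_irrefl _ hi.2.2
  · exact ((openSegment_subset_segment ℝ a b).trans (tri3_seg_sub a b c)).trans hcl

end Pool.Agent.H670R5
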